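import Mathlib

/-!
Definitions used in the statement: the Sobolev space on the line through weak derivatives, the
energy and global solutions of the forced nonlinear Schroedinger equation.
-/

open MeasureTheory Set
open scoped ContDiff

namespace Pool.Agent.Lib.MP_13801a_an

noncomputable section

/-- Square integrable complex functions on the line. -/
abbrev L2 := Lp ℂ 2 (volume : Measure ℝ)

/-- Smooth real functions with compact support. -/
def Test (φ : ℝ → ℝ) : Prop := ContDiff ℝ ∞ φ ∧ HasCompactSupport φ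

/-- The nonlinearity `|z| ^ α * z`. -/
def NL (α : ℝ) (z : ℂ) : ℂ := ((‖z‖ ^ α : ℝ) : ℂ) * z

/-- `du` is the weak derivative of `u`. -/
def WeakDeriv (u du : L2) : Prop :=
  ∀ φ, Test φ → ∫ x, u x * ((deriv φ x : ℝ) : ℂ) = -∫ x, du x * ((φ x : ℝ) : ℂ)

/-- The energy of `u` with weak derivative `du`. -/
def energy (α : ℝ) (u du : L2) : ℝ :=
  (∫ x, ‖du x‖ ^ 2) / 2 - (∫ x, ‖u x‖ ^ (α + 2)) / (α + 2)

/-- `u` is continuous from `[0, ∞)` to the Sobolev space (with weak derivative `du`) and solves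
`u_t = i (u_xx + |u| ^ α u) + γ u` for `t > 0` when paired with any test function. -/
structure GlobalSol (α γ : ℝ) (u du : ℝ → L2) : Prop where
  cont : ContinuousOn u (Ici 0)
  contD : ContinuousOn du (Ici 0)
  weak : ∀ t, 0 ≤ t → WeakDeriv (u t) (du t)
  eqn : ∀ φ, Test φ → ∀ t, 0 < t → HasDerivAt (fun s => ∫ x, u s x * ((φ x : ℝ) : ℂ))
    (Complex.I * (-(∫ x, du t x * ((deriv φ x : ℝ) : ℂ)) + ∫ x, NL α (u t x) * ((φ x : ℝ) : ℂ)) +
      γ * ∫ x, u t x * ((φ x : ℝ) : ℂ)) t

end

end Pool.Agent.Lib.MP_13801a_an
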