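import Mathlib
import Pool.Agent.Lib.MP_13801a_an.Stmt

/-!
Working definitions for the blowup proof in dimension one.
-/

open MeasureTheory Set Filter
open scoped ContDiff Topology ComplexConjugate

namespace Pool.Agent.Lib.MP_13801a_an

noncomputable section

/-! ### Functions on the line -/

/-- Square of the norm in `L2`. -/
def nsq (g : ℝ → ℂ) : ℝ := ∫ x, ‖g x‖ ^ 2

/-- The potential integral. -/
def pw (α : ℝ) (g : ℝ → ℂ) : ℝ := ∫ x, ‖g x‖ ^ (α + 2)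

theorem nsq_nonneg (g : ℝ → ℂ) : 0 ≤ nsq g := integral_nonneg fun _ => by positivity

theorem pw_nonneg (α : ℝ) (g : ℝ → ℂ) : 0 ≤ pw α g := integral_nonneg fun _ => by positivity

theorem integrable_nsq {g : ℝ → ℂ} (hg : MemLp g 2 volume) : Integrable fun x => ‖g x‖ ^ 2 :=
  (memLp_two_iff_integrable_sq_norm hg.1).1 hg

theorem integrable_norm_mul {g g' : ℝ → ℂ} (hg : MemLp g 2 volume) (hg' : MemLp g' 2 volume) :
    Integrable fun x => ‖g x‖ * ‖g' x‖ := hg.norm.integrable_mul hg'.norm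

/-- Cauchy-Schwarz inequality. -/
theorem integral_norm_mul_le {g g' : ℝ → ℂ} (hg : MemLp g 2 volume) (hg' : MemLp g' 2 volume) :
    ∫ x, ‖g x‖ * ‖g' x‖ ≤ √(nsq g) * √(nsq g') := by
  have h := integral_mul_norm_le_Lp_mul_Lq (μ := volume) (f := g) (g := g')
    Real.HolderConjugate.two_two (by simpa using hg) (by simpa using hg')
  simp only [Real.rpow_two] at h
  rw [Real.sqrt_eq_rpow, Real.sqrt_eq_rpow]
  exact h

theorem Test.deriv {φ : ℝ → ℝ} (h : Test φ) : Test (deriv φ) :=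
  ⟨(contDiff_infty_iff_deriv.1 h.1).2, h.2.deriv⟩

/-- The continuous representative `g` of a Sobolev function with derivative `dg`. -/
structure H1 (g dg : ℝ → ℂ) : Prop where
  mem0 : MemLp g 2 volume
  mem1 : MemLp dg 2 volume
  prim : ∀ x y, g y - g x = ∫ z in x..y, dg z

theorem ii_of_memLp {g : ℝ → ℂ} (hg : MemLp g 2 volume) (x y : ℝ) :
    IntervalIntegrable g volume x y :=
  ((hg.locallyIntegrable (by norm_num)).integrableOn_isCompact isCompact_uIcc).intervalIntegrable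

theorem H1.sub {g dg g' dg' : ℝ → ℂ} (h : H1 g dg) (h' : H1 g' dg') :
    H1 (fun x => g x - g' x) (fun x => dg x - dg' x) where
  mem0 := h.mem0.sub h'.mem0
  mem1 := h.mem1.sub h'.mem1
  prim x y := by
    rw [intervalIntegral.integral_sub (ii_of_memLp h.mem1 x y) (ii_of_memLp h'.mem1 x y),
      ← h.prim, ← h'.prim]
    ring

/-- Solutions of `v_t = i (v_xx + exp (κ t) |v| ^ α v)` for `t > 0`, extended to all times. -/
structure Sol (α κ : ℝ) (v dv : ℝ → ℝ → ℂ) : Prop where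
  h1 : ∀ t, H1 (v t) (dv t)
  uc : ∀ T η : ℝ, 0 < η → ∃ τ : ℝ, 0 < τ ∧ ∀ s t, |s| ≤ T → |t| ≤ T → |s - t| ≤ τ →
    nsq (fun x => v s x - v t x) ≤ η ∧ nsq (fun x => dv s x - dv t x) ≤ η
  eqn : ∀ φ, Test φ → ∀ t, 0 < t → HasDerivAt (fun s => ∫ x, v s x * ((φ x : ℝ) : ℂ))
    (Complex.I * (-(∫ x, dv t x * ((deriv φ x : ℝ) : ℂ)) +
      (Real.exp (κ * t) : ℝ) * ∫ x, NL α (v t x) * ((φ x : ℝ) : ℂ))) t

/-- The time dependent energy. -/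
def en (α κ : ℝ) (v dv : ℝ → ℝ → ℂ) (t : ℝ) : ℝ :=
  nsq (dv t) / 2 - Real.exp (κ * t) * pw α (v t) / (α + 2)

/-! ### Mollification -/

/-- A fixed bump. -/
def bmp : ContDiffBump (0 : ℝ) := ⟨1 / 2, 1, by norm_num, by norm_num⟩

/-- The mollifier at scale `r`. -/
def mol (r : ℝ) (x : ℝ) : ℝ := r⁻¹ * bmp.normed volume (x / r)

/-- Convolution with a real kernel. -/
def cv (k : ℝ → ℝ) (g : ℝ → ℂ) (x : ℝ) : ℂ := ∫ y, ((k (x - y) : ℝ) : ℂ) * g y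

/-- Iterated derivatives. -/
def dk : ℕ → (ℝ → ℝ) → ℝ → ℝ
  | 0, φ => φ
  | k + 1, φ => deriv (dk k φ)

theorem dk_zero (φ : ℝ → ℝ) : dk 0 φ = φ := rfl

theorem dk_succ (k : ℕ) (φ : ℝ → ℝ) : dk (k + 1) φ = deriv (dk k φ) := rfl

theorem Test.dk {φ : ℝ → ℝ} (h : Test φ) : ∀ k, Test (dk k φ)
  | 0 => h
  | k + 1 => (Test.dk h k).deriv

/-- Derivatives of the mollified solution. -/
def fm (r : ℝ) (v : ℝ → ℝ → ℂ) (k : ℕ) (t : ℝ) : ℝ → ℂ := cv (dk k (mol r)) (v t)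

/-- Derivatives of the mollified nonlinearity. -/
def nm (α r : ℝ) (v : ℝ → ℝ → ℂ) (k : ℕ) (t : ℝ) : ℝ → ℂ :=
  cv (dk k (mol r)) fun y => NL α (v t y)

/-- Local kinetic energy. -/
def osc (r : ℝ) (dg : ℝ → ℂ) (x : ℝ) : ℝ := ∫ z in (x - r)..(x + r), ‖dg z‖ ^ 2

/-- Smooth solutions of `f_t = i (f_xx + exp (κ t) n)`; `f k` and `n k` are the space derivatives
of order `k`. -/
structure Apx (κ : ℝ) (f n : ℕ → ℝ → ℝ → ℂ) : Prop where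
  cf : ∀ k, Continuous fun p : ℝ × ℝ => f k p.1 p.2
  cn : ∀ k, Continuous fun p : ℝ × ℝ => n k p.1 p.2
  dxf : ∀ k t x, HasDerivAt (f k t) (f (k + 1) t x) x
  dxn : ∀ k t x, HasDerivAt (n k t) (n (k + 1) t x) x
  dt : ∀ k t x, 0 < t → HasDerivAt (fun s => f k s x)
    (Complex.I * (f (k + 2) t x + (Real.exp (κ * t) : ℝ) * n k t x)) t
  mf : ∀ k t, MemLp (f k t) 2 volume
  mn : ∀ k t, MemLp (n k t) 2 volume
  bd : ∀ (k : ℕ) (T : ℝ), ∃ C : ℝ, ∀ t, |t| ≤ T →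
    nsq (f k t) ≤ C ∧ nsq (n k t) ≤ C ∧ ∀ x, ‖f k t x‖ ≤ C

/-- The commutator. -/
def com (α : ℝ) (f n : ℕ → ℝ → ℝ → ℂ) (t x : ℝ) : ℂ := n 0 t x - NL α (f 0 t x)

/-- `A` is a primitive of `J` up to the error `e`, for nonnegative times. -/
def Rate (A J e : ℝ → ℝ) : Prop :=
  ∀ s t, 0 ≤ s → s ≤ t → ∃ D : ℝ → ℝ, IntervalIntegrable D volume s t ∧
    A t - A s = ∫ σ in s..t, D σ ∧ ∀ σ ∈ Icc s t, |D σ - J σ| ≤ e σ

/-- The localised momentum. -/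
def mom (χ : ℝ → ℝ) (p0 p1 : ℝ → ℂ) : ℝ := 2 * ∫ x, χ x * (conj (p0 x) * p1 x).im

/-- The second derivative of `‖p0‖ ^ 2`. -/
def rho2 (p0 p1 p2 : ℝ → ℂ) (x : ℝ) : ℝ := 2 * ‖p1 x‖ ^ 2 + 2 * (conj (p0 x) * p2 x).re

/-- The right hand side of the virial identity. -/
def vir (α lam : ℝ) (h : ℝ → ℝ) (p0 p1 p2 : ℝ → ℂ) : ℝ :=
  4 * (∫ x, h x * ‖p1 x‖ ^ 2) - 2 * α / (α + 2) * lam * (∫ x, h x * ‖p0 x‖ ^ (α + 2)) -
    ∫ x, h x * rho2 p0 p1 p2 x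

/-- A bounded function with two bounded square integrable derivatives. -/
structure Sm2 (p0 p1 p2 : ℝ → ℂ) : Prop where
  d0 : ∀ x, HasDerivAt p0 (p1 x) x
  d1 : ∀ x, HasDerivAt p1 (p2 x) x
  c2 : Continuous p2
  m0 : MemLp p0 2 volume
  m1 : MemLp p1 2 volume
  m2 : MemLp p2 2 volume
  bd : ∃ C : ℝ, ∀ x, ‖p0 x‖ ≤ C ∧ ‖p1 x‖ ≤ C ∧ ‖p2 x‖ ≤ C

theorem Apx.sm2 {κ : ℝ} {f n : ℕ → ℝ → ℝ → ℂ} (h : Apx κ f n) (t : ℝ) :
    Sm2 (f 0 t) (f 1 t) (f 2 t) where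
  d0 := h.dxf 0 t
  d1 := h.dxf 1 t
  c2 := (h.cf 2).comp (Continuous.prodMk_right t)
  m0 := h.mf 0 t
  m1 := h.mf 1 t
  m2 := h.mf 2 t
  bd := by
    obtain ⟨C0, h0⟩ := h.bd 0 |t|
    obtain ⟨C1, h1⟩ := h.bd 1 |t|
    obtain ⟨C2, h2⟩ := h.bd 2 |t|
    refine ⟨max C0 (max C1 C2), fun x => ⟨?_, ?_, ?_⟩⟩
    · exact ((h0 t le_rfl).2.2 x).trans (le_max_left _ _)
    · exact ((h1 t le_rfl).2.2 x).trans ((le_max_left _ _).trans (le_max_right _ _))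
    · exact ((h2 t le_rfl).2.2 x).trans ((le_max_right _ _).trans (le_max_right _ _))

/-! ### Densities, the maximal function and the convex functional -/

/-- Lipschitz densities of mass at most `M` that vanish at infinity. -/
structure Dens (M : ℝ) (ρ : ℝ → ℝ) : Prop where
  lip : ∃ L, LipschitzWith L ρ
  nonneg : ∀ x, 0 ≤ ρ x
  int : Integrable ρ
  mass : ∫ x, ρ x ≤ M
  bd : ∃ C : ℝ, ∀ x, ρ x ≤ C
  lim : ∀ η : ℝ, 0 < η → ∃ R : ℝ, ∀ x, R ≤ |x| → ρ x ≤ η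

/-- Weighted mean of `ρ` between `x` and `x + s`. -/
def mm (ρ : ℝ → ℝ) (x s : ℝ) : ℝ := 2 * ∫ θ in (0 : ℝ)..1, (1 - θ) * ρ (x + θ * s)

/-- The maximal function. -/
def em (ρ : ℝ → ℝ) (x : ℝ) : ℝ := ⨆ s, mm ρ x s

/-- Value at `y` of the second primitive of `ρ - ε` that vanishes to second order at `x`. -/
def TT (ρ : ℝ → ℝ) (ε x y : ℝ) : ℝ := ∫ z in x..y, (y - z) * (ρ z - ε)

/-- The nearest point of `Z` to the left. -/
def la (Z : Set ℝ) (x : ℝ) : ℝ := sSup (Z ∩ Iic x)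

/-- The nearest point of `Z` to the right. -/
def rb (Z : Set ℝ) (x : ℝ) : ℝ := sInf (Z ∩ Ici x)

/-- Closed sets with bounded complement. -/
structure Holes (Z : Set ℝ) : Prop where
  closed : IsClosed Z
  bdd : ∃ R : ℝ, ∀ x, R ≤ |x| → x ∈ Z

/-- The contact set at level `ε`. -/
def zs (ρ : ℝ → ℝ) (ε : ℝ) : Set ℝ := {x | em ρ x ≤ ε}

/-- The parabolic weight on the holes of the contact set. -/
def psi (ρ : ℝ → ℝ) (ε x : ℝ) : ℝ := (x - la (zs ρ ε) x) * (rb (zs ρ ε) x - x) / 2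

/-- Second derivative of the envelope gap. -/
def kk (ρ : ℝ → ℝ) (ε z : ℝ) : ℝ := if ε < em ρ z then ε - ρ z else 0

/-- The gap between the concave envelope and the second primitive of `ρ - ε`. -/
def Lam (ρ : ℝ → ℝ) (ε x : ℝ) : ℝ := ∫ z, max (x - z) 0 * kk ρ ε z

/-- The gap between a chord and the second primitive of `ρ - ε`. -/
def gap (ρ : ℝ → ℝ) (ε a b x : ℝ) : ℝ := (x - a) / (b - a) * TT ρ ε a b - TT ρ ε a x

/-- Weights in the level `ε`. -/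
structure Wt (ε1 ε2 S : ℝ) (w w' : ℝ → ℝ) : Prop where
  pos : 0 < ε1
  lt : ε1 < ε2
  der : ∀ x, HasDerivAt w (w' x) x
  cont : Continuous w'
  zero : ∀ x, x ≤ ε1 ∨ ε2 ≤ x → w x = 0 ∧ w' x = 0
  nonneg : ∀ x, 0 ≤ w x
  le : ∀ x, x * w x ≤ 1
  le' : ∀ x, x ^ 2 * |w' x| ≤ 3
  tot : S = ∫ x in ε1..ε2, w x

/-- Second derivative of the averaged virial weight. -/
def hh (w ρ : ℝ → ℝ) (x : ℝ) : ℝ :=
  w (em ρ x) * (em ρ x - ρ x) - ∫ ε in (0 : ℝ)..(em ρ x), w ε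

/-- The averaged virial weight. -/
def psib (ε1 ε2 : ℝ) (w' ρ : ℝ → ℝ) (x : ℝ) : ℝ := ∫ ε in ε1..ε2, w' ε * Lam ρ ε x

end

end Pool.Agent.Lib.MP_13801a_an
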