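import Mathlib
import Pool.Agent.Lib.MP_13801a_an.Defs

/-!
The intermediate statements of the blowup proof.
-/

open MeasureTheory Set Filter
open scoped ContDiff Topology ComplexConjugate

namespace Pool.Agent.Lib.MP_13801a_an

/-! ### Sobolev functions and the nonlinearity -/

def St_SUP : Prop := ∀ g dg : ℝ → ℂ, H1 g dg →
  Continuous g ∧ ∀ x, ‖g x‖ ^ 2 ≤ 2 * (nsq g + nsq dg)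

def St_NL : Prop := ∀ α : ℝ, 4 ≤ α → Continuous (NL α) ∧ (∀ z, ‖NL α z‖ = ‖z‖ ^ (α + 1)) ∧
  (∀ z, conj z * NL α z = ((‖z‖ ^ (α + 2) : ℝ) : ℂ)) ∧
  (∀ B : ℝ, ∃ L : ℝ, 0 ≤ L ∧ ∀ z w : ℂ, ‖z‖ ≤ B → ‖w‖ ≤ B →
    ‖NL α z - NL α w‖ ≤ L * ‖z - w‖ ∧
    |‖z‖ ^ (α + 2) - ‖w‖ ^ (α + 2)| ≤ L * (‖z - w‖ * (‖z‖ + ‖w‖)) ∧
    ‖NL α z - NL α w - fderiv ℝ (NL α) w (z - w)‖ ≤ L * ‖z - w‖ ^ 2) ∧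
  (∀ (f : ℝ → ℂ) (f' : ℂ) (x : ℝ), HasDerivAt f f' x →
    HasDerivAt (fun y => ‖f y‖ ^ (α + 2)) ((α + 2) * (conj (NL α (f x)) * f').re) x) ∧
  ∀ (g : ℝ → ℂ) (B : ℝ), MemLp g 2 volume → (∀ x, ‖g x‖ ≤ B) →
    MemLp (fun x => NL α (g x)) 2 volume ∧ Integrable fun x => ‖g x‖ ^ (α + 2)

def St_IBP : Prop := ∀ g dg : ℝ → ℂ, (∀ x y, IntervalIntegrable dg volume x y) →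
  (∀ x y, g y - g x = ∫ z in x..y, dg z) → ∀ φ, Test φ →
  ∫ x, g x * ((deriv φ x : ℝ) : ℂ) = -∫ x, dg x * ((φ x : ℝ) : ℂ)

def St_REP : Prop := (∀ u du : L2, WeakDeriv u du → ∃ g : ℝ → ℂ, H1 g du ∧ g =ᵐ[volume] u) ∧
  ∀ u du du' : L2, WeakDeriv u du → WeakDeriv u du' → du = du'

def St_TRANS : Prop := ∀ (α γ : ℝ) (u du : ℝ → L2), GlobalSol α γ u du →
  ∃ v dv : ℝ → ℝ → ℂ, Sol α (α * γ) v dv ∧ v 0 =ᵐ[volume] u 0 ∧ dv 0 =ᵐ[volume] du 0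

def St_BASIC : Prop := ∀ (α κ : ℝ) (v dv : ℝ → ℝ → ℂ), 4 ≤ α → Sol α κ v dv →
  (Continuous fun t => nsq (v t)) ∧ (Continuous fun t => nsq (dv t)) ∧
  (Continuous fun t => pw α (v t)) ∧
  (∀ t, MemLp (fun x => NL α (v t x)) 2 volume ∧ Integrable fun x => ‖v t x‖ ^ (α + 2)) ∧
  (∀ T : ℝ, ∃ C : ℝ, ∀ t, |t| ≤ T → nsq (v t) ≤ C ∧ nsq (dv t) ≤ C ∧ (∀ x, ‖v t x‖ ≤ C) ∧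
    nsq (fun x => NL α (v t x)) ≤ C) ∧
  ∀ T η : ℝ, 0 < η → ∃ τ : ℝ, 0 < τ ∧ ∀ s t, |s| ≤ T → |t| ≤ T → |s - t| ≤ τ →
    (∀ x, ‖v s x - v t x‖ ≤ η) ∧ |nsq (dv s) - nsq (dv t)| ≤ η ∧
    nsq (fun x => NL α (v s x) - NL α (v t x)) ≤ η

/-! ### Mollification -/

def St_MOL : Prop :=
  (∀ r : ℝ, 0 < r → Test (mol r) ∧ (∀ x, 0 ≤ mol r x) ∧ ∫ x, mol r x = 1 ∧
    ∀ x, r ≤ |x| → mol r x = 0) ∧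
  (∃ C : ℝ, ∀ r : ℝ, 0 < r → ∫ x, |deriv (mol r) x| ≤ C / r) ∧
  ∀ g : ℝ → ℂ, LocallyIntegrable g → ∀ᵐ x,
    Tendsto (fun n : ℕ => cv (mol (1 / ((n : ℝ) + 1))) g x) atTop (𝓝 (g x))

def St_CONV : Prop := ∀ k, Test k → ∀ g : ℝ → ℂ, MemLp g 2 volume →
  (∀ x, HasDerivAt (cv k g) (cv (deriv k) g x) x) ∧ MemLp (cv k g) 2 volume ∧
  nsq (cv k g) ≤ (∫ y, |k y|) ^ 2 * nsq g ∧ (∀ x, ‖cv k g x‖ ^ 2 ≤ (∫ y, k y ^ 2) * nsq g) ∧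
  (∀ g' : ℝ → ℂ, MemLp g' 2 volume → ∀ x, cv k (fun y => g y - g' y) x = cv k g x - cv k g' x) ∧
  ∀ dg, H1 g dg → ∀ x, cv (deriv k) g x = cv k dg x

def St_APX : Prop := ∀ (α κ : ℝ) (v dv : ℝ → ℝ → ℂ), 4 ≤ α → Sol α κ v dv → ∀ r : ℝ, 0 < r →
  Apx κ (fm r v) (nm α r v)

def St_OSC : Prop := ∀ (g dg : ℝ → ℂ) (r : ℝ), H1 g dg → 0 < r →
  (∀ x y, |y - x| ≤ r → ‖g y - cv (mol r) g x‖ ^ 2 ≤ 2 * r * osc r dg x) ∧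
  Integrable (osc r dg) ∧ ∫ x, osc r dg x ≤ 2 * r * nsq dg ∧
  ∀ x, 0 ≤ osc r dg x ∧ osc r dg x ≤ nsq dg

def St_UNI1 : Prop :=
  (∀ (g g' : ℝ → ℂ) (r η : ℝ), MemLp g 2 volume → MemLp g' 2 volume → 0 < r →
    (∀ y, ‖g y - g' y‖ ≤ η) → ∀ x, ‖cv (mol r) g x - cv (mol r) g' x‖ ≤ η) ∧
  ∀ α B : ℝ, 4 ≤ α → ∃ C : ℝ, 0 ≤ C ∧ ∀ g dg : ℝ → ℂ, H1 g dg → nsq g ≤ B → nsq dg ≤ B →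
    ∀ r : ℝ, 0 < r → nsq (cv (mol r) g) ≤ nsq g ∧ nsq (cv (dk 1 (mol r)) g) ≤ nsq dg ∧
      nsq (cv (dk 2 (mol r)) g) ≤ C / r ^ 2 ∧ (∀ x, ‖cv (mol r) g x‖ ≤ C) ∧
      |nsq (cv (mol r) g) - nsq g| ≤ C * r ∧ |pw α (cv (mol r) g) - pw α g| ≤ C * r ∧
      nsq (fun x => NL α (cv (mol r) g x)) ≤ C

def St_UNI2 : Prop := ∀ α B : ℝ, 4 ≤ α → ∃ C : ℝ, 0 ≤ C ∧ ∀ g dg : ℝ → ℂ, H1 g dg →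
  nsq g ≤ B → nsq dg ≤ B → ∀ r : ℝ, 0 < r →
    nsq (fun x => cv (mol r) (fun y => NL α (g y)) x - NL α (cv (mol r) g x)) ≤ C * r ^ 3

def St_KLIM : Prop := ∀ g dg : ℝ → ℂ, H1 g dg →
  Tendsto (fun n : ℕ => nsq (cv (dk 1 (mol (1 / ((n : ℝ) + 1)))) g)) atTop (𝓝 (nsq dg))

/-! ### Identities for smooth approximate solutions -/

def St_FUB : Prop := ∀ (a b : ℝ → ℝ → ℝ) (s t C : ℝ), s ≤ t →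
  (Continuous fun p : ℝ × ℝ => a p.1 p.2) → (Continuous fun p : ℝ × ℝ => b p.1 p.2) →
  (∀ σ ∈ Ioo s t, ∀ x, HasDerivAt (fun τ => a τ x) (b σ x) σ) → (∀ σ, Integrable (a σ)) →
  (∀ σ ∈ Icc s t, Integrable (b σ) ∧ ∫ x, |b σ x| ≤ C) →
  IntervalIntegrable (fun σ => ∫ x, b σ x) volume s t ∧
    (∫ x, a t x) - ∫ x, a s x = ∫ σ in s..t, ∫ x, b σ x

def St_VIR1 : Prop := ∀ (α κ : ℝ) (f n : ℕ → ℝ → ℝ → ℂ), 4 ≤ α → Apx κ f n →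
  ∀ (ψ χ : ℝ → ℝ) (B : ℝ), (∀ x, HasDerivAt ψ (χ x) x) → Continuous χ →
  (∀ x, |ψ x| ≤ B ∧ |χ x| ≤ B) →
  Rate (fun t => ∫ x, ψ x * ‖f 0 t x‖ ^ 2) (fun t => mom χ (f 0 t) (f 1 t))
    fun t => 2 * B * Real.exp (κ * t) * √(nsq (f 0 t)) * √(nsq (com α f n t))

def St_VIR2 : Prop := ∀ (α κ : ℝ) (f n : ℕ → ℝ → ℝ → ℂ), 4 ≤ α → Apx κ f n →
  ∀ (χ h : ℝ → ℝ) (B : ℝ), (∀ x, HasDerivAt χ (h x) x) → Continuous h →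
  (∀ x, |χ x| ≤ B ∧ |h x| ≤ B) →
  Rate (fun t => mom χ (f 0 t) (f 1 t))
    (fun t => vir α (Real.exp (κ * t)) h (f 0 t) (f 1 t) (f 2 t))
    fun t => Real.exp (κ * t) * B * (2 * √(nsq (f 0 t)) + 4 * √(nsq (f 1 t))) *
      √(nsq (com α f n t))

def St_ENR : Prop := ∀ (α κ : ℝ) (f n : ℕ → ℝ → ℝ → ℂ), 4 ≤ α → Apx κ f n →
  Rate (fun t => nsq (f 1 t) / 2 - Real.exp (κ * t) * pw α (f 0 t) / (α + 2))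
    (fun t => -(κ * Real.exp (κ * t) * pw α (f 0 t) / (α + 2)))
    fun t => Real.exp (κ * t) * √(nsq (com α f n t)) * √(nsq (f 2 t)) +
      Real.exp (κ * t) ^ 2 * √(nsq fun x => NL α (f 0 t x)) * √(nsq (com α f n t))

/-! ### Conservation laws and the sign of the energy -/

def St_MASS : Prop := ∀ (α κ : ℝ) (v dv : ℝ → ℝ → ℂ), 4 ≤ α → Sol α κ v dv →
  ∀ t, 0 ≤ t → nsq (v t) = nsq (v 0)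

def St_ENER : Prop := ∀ (α κ : ℝ) (v dv : ℝ → ℝ → ℂ), 4 ≤ α → Sol α κ v dv →
  ∀ s t, 0 ≤ s → s ≤ t → en α κ v dv t - en α κ v dv s =
    -∫ σ in s..t, κ * Real.exp (κ * σ) * pw α (v σ) / (α + 2)

def St_MONO : Prop := ∀ (α κ : ℝ) (v dv : ℝ → ℝ → ℂ), 4 ≤ α → 0 ≤ κ → Sol α κ v dv →
  ∀ t1, 0 ≤ t1 → en α κ v dv t1 < 0 →
  ∃ y0 : ℝ, 0 < y0 ∧ ∀ t, t1 ≤ t → en α κ v dv t ≤ -(y0 * Real.exp (κ * t))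

def St_INIT : Prop := ∀ (α K0 : ℝ) (v0 : ℝ → ℂ), 4 ≤ α → MemLp v0 2 volume →
  ¬ (v0 =ᵐ[volume] 0) → ∃ κ0 : ℝ, 0 < κ0 ∧ ∀ κ, κ0 < κ → ∀ v dv : ℝ → ℝ → ℂ, Sol α κ v dv →
    v 0 =ᵐ[volume] v0 → nsq (dv 0) ≤ K0 → ∃ t, 0 ≤ t ∧ en α κ v dv t < 0

/-! ### The static part -/

def St_DENS : Prop := ∀ p0 p1 p2 : ℝ → ℂ, Sm2 p0 p1 p2 → ∀ M, nsq p0 ≤ M →
  Dens M fun x => ‖p0 x‖ ^ 2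

def St_EM : Prop := ∀ (M : ℝ) (ρ : ℝ → ℝ), Dens M ρ →
  (∃ L, LipschitzWith L (em ρ)) ∧ (∀ x s, mm ρ x s ≤ em ρ x) ∧ (∀ x, ρ x ≤ em ρ x) ∧
  (∃ C : ℝ, ∀ x, em ρ x ≤ C) ∧ (∀ ε : ℝ, 0 < ε → Holes (zs ρ ε)) ∧
  (∀ ε x s, TT ρ ε x (x + s) = s ^ 2 / 2 * (mm ρ x s - ε)) ∧
  (∀ ε x, em ρ x ≤ ε ↔ ∀ y, TT ρ ε x y ≤ 0) ∧
  ∀ x, ρ x < em ρ x → ∃ s, s ≠ 0 ∧ mm ρ x s = em ρ x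

def St_TT : Prop := ∀ (ρ : ℝ → ℝ) (ε : ℝ), Continuous ρ →
  (∀ x y, HasDerivAt (TT ρ ε x) (∫ z in x..y, (ρ z - ε)) y) ∧ (∀ x, TT ρ ε x x = 0) ∧
  (∀ x y z, TT ρ ε x z = TT ρ ε y z + TT ρ ε x y + (z - y) * ∫ t in x..y, (ρ t - ε)) ∧
  (∀ ε' x y, TT ρ ε' x y = TT ρ ε x y - (ε' - ε) * (y - x) ^ 2 / 2) ∧
  ∀ a b, a < b → ∫ x in a..b, gap ρ ε a b x = ∫ x in a..b, (x - a) * (b - x) / 2 * (ρ x - ε)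

def St_HOLE : Prop := ∀ Z : Set ℝ, Holes Z →
  (∀ x, la Z x ∈ Z ∧ rb Z x ∈ Z ∧ la Z x ≤ x ∧ x ≤ rb Z x) ∧
  (∀ x ∈ Z, la Z x = x ∧ rb Z x = x) ∧
  (∀ x ∉ Z, la Z x < x ∧ x < rb Z x ∧ ∀ y ∈ Ioo (la Z x) (rb Z x), y ∉ Z) ∧
  (∀ a b, a ∈ Z → b ∈ Z → (∀ y ∈ Ioo a b, y ∉ Z) → ∀ y ∈ Ioo a b, la Z y = a ∧ rb Z y = b) ∧
  Monotone (la Z) ∧ Monotone (rb Z) ∧
  ∀ f : ℝ → ℝ, IntegrableOn f Zᶜ →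
    (∀ a b, a < b → a ∈ Z → b ∈ Z → (∀ y ∈ Ioo a b, y ∉ Z) → 0 ≤ ∫ y in a..b, f y) →
    0 ≤ ∫ y in Zᶜ, f y

def St_CELL : Prop := ∀ (M : ℝ) (ρ : ℝ → ℝ) (ε a b : ℝ), Dens M ρ → a < b → a ∈ zs ρ ε →
  b ∈ zs ρ ε → (∀ y ∈ Ioo a b, y ∉ zs ρ ε) → ∫ z in a..b, (ρ z - ε) = 0 ∧ TT ρ ε a b = 0

def St_LAM1 : Prop := ∀ (M : ℝ) (ρ : ℝ → ℝ) (ε : ℝ), Dens M ρ → 0 < ε →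
  (∀ x, Lam ρ ε x = -TT ρ ε (la (zs ρ ε) x) x) ∧ (∀ x, 0 ≤ Lam ρ ε x ∧ Lam ρ ε x ≤ M ^ 2 / ε) ∧
  (∀ x ∈ zs ρ ε, Lam ρ ε x = 0) ∧ (∀ x, rb (zs ρ ε) x - la (zs ρ ε) x ≤ M / ε) ∧
  volume (zs ρ ε)ᶜ ≤ ENNReal.ofReal (M / ε) ∧
  (∀ a b x, a < b → a ≤ x → x ≤ b → gap ρ ε a b x ≤ Lam ρ ε x) ∧ Continuous (Lam ρ ε)

def St_LAM2 : Prop := ∀ (M : ℝ) (ρ : ℝ → ℝ) (ε : ℝ), Dens M ρ → 0 < ε →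
  (∀ ε' : ℝ, 0 < ε' → ∀ x, Lam ρ ε x - (ε' - ε) * psi ρ ε x ≤ Lam ρ ε' x) ∧
  Measurable (psi ρ ε) ∧ (∀ x, 0 ≤ psi ρ ε x ∧ psi ρ ε x ≤ (M / ε) ^ 2) ∧
  Integrable (Lam ρ ε) ∧ ∫ x, Lam ρ ε x ≤ M ^ 3 / ε ^ 2 ∧
  ∀ ρ', Dens M ρ' → (∫ x, Lam ρ ε x) + ((∫ x, psi ρ ε x * ρ' x) - ∫ x, psi ρ ε x * ρ x) ≤
    ∫ x, Lam ρ' ε x

def St_SUBG : Prop := ∀ (ε1 ε2 : ℝ) (F p w w' : ℝ → ℝ), ε1 ≤ ε2 →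
  (∀ a ∈ Icc ε1 ε2, ∀ b ∈ Icc ε1 ε2, F a - (b - a) * p a ≤ F b) →
  (∀ x, HasDerivAt w (w' x) x) → Continuous w' → w ε1 = 0 → w ε2 = 0 →
  IntervalIntegrable (fun ε => w ε * p ε) volume ε1 ε2 ∧
    ∫ ε in ε1..ε2, w ε * p ε = ∫ ε in ε1..ε2, w' ε * F ε

def St_WGT : Prop := ∀ ε2 S0 : ℝ, 0 < ε2 → ∃ (ε1 S : ℝ) (w w' : ℝ → ℝ), Wt ε1 ε2 S w w' ∧ S0 ≤ S

def St_HH : Prop := ∀ (ε1 ε2 S M : ℝ) (w w' ρ : ℝ → ℝ), Wt ε1 ε2 S w w' → Dens M ρ →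
  (∃ L, LipschitzWith L (hh w ρ)) ∧ (∀ x, -S ≤ hh w ρ x ∧ hh w ρ x ≤ 1) ∧
  (∀ x, ε2 ≤ ρ x → hh w ρ x = -S) ∧ (∀ x ∈ zs ρ ε1, hh w ρ x = 0) ∧
  (∀ x, hh w ρ x = ∫ ε in ε1..ε2, w' ε * kk ρ ε x) ∧
  ∀ x (e' ρ' : ℝ), HasDerivAt (em ρ) e' x → HasDerivAt ρ ρ' x →
    HasDerivAt (hh w ρ) (w' (em ρ x) * (em ρ x - ρ x) * e' - w (em ρ x) * ρ') x

def St_PSI : Prop := ∀ (ε1 ε2 S M : ℝ) (w w' : ℝ → ℝ), Wt ε1 ε2 S w w' → ∃ B : ℝ,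
  ∀ ρ, Dens M ρ → (∃ χ : ℝ → ℝ, (∀ x, HasDerivAt (psib ε1 ε2 w' ρ) (χ x) x) ∧
    (∀ x, HasDerivAt χ (hh w ρ x) x) ∧ ∀ x, |psib ε1 ε2 w' ρ x| ≤ B ∧ |χ x| ≤ B) ∧
    ∀ σ : ℝ → ℝ, Integrable σ →
      ∫ x, psib ε1 ε2 w' ρ x * σ x = ∫ ε in ε1..ε2, w' ε * ∫ x, Lam ρ ε x * σ x

def St_STAT : Prop := ∀ (ε1 ε2 S M : ℝ) (w w' : ℝ → ℝ), Wt ε1 ε2 S w w' →
  ∃ (B : ℝ) (U : (ℝ → ℝ) → ℝ), ∀ ρ, Dens M ρ → 0 ≤ U ρ ∧ U ρ ≤ B ∧ ∃ ψ χ : ℝ → ℝ,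
    (∀ x, HasDerivAt ψ (χ x) x) ∧ (∀ x, HasDerivAt χ (hh w ρ x) x) ∧
    (∀ x, |ψ x| ≤ B ∧ |χ x| ≤ B) ∧
    ∀ ρ', Dens M ρ' → U ρ + ((∫ x, ψ x * ρ' x) - ∫ x, ψ x * ρ x) ≤ U ρ'

def St_ENV : Prop := ∀ (M : ℝ) (ρ : ℝ → ℝ), Dens M ρ →
  (∀ x s, DifferentiableAt ℝ (em ρ) x → s ≠ 0 → mm ρ x s = em ρ x →
    s * deriv (em ρ) x = 2 * (em ρ x - ρ x)) ∧
  ∀ x y s, mm ρ x s = em ρ x → em ρ y = em ρ x → (x < y ∧ y < x + s ∨ x + s < y ∧ y < x) →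
    mm ρ x (y - x) = em ρ x

def St_CLIMB : Prop := ∀ (f0 f1 : ℝ → ℂ) (ε x s : ℝ), (∀ y, HasDerivAt f0 (f1 y) y) →
  Continuous f1 → 0 < ε → ‖f0 x‖ ^ 2 ≤ ε → ε ≤ mm (fun y => ‖f0 y‖ ^ 2) x s →
  (ε - ‖f0 x‖ ^ 2) ^ 2 ≤ 64 * |s| * ε ^ 2 *
    ∫ z in uIoc x (x + s), ‖f0 z‖ ^ 2 / (‖f0 z‖ ^ 2 + ε) ^ 2 * ‖f1 z‖ ^ 2

def St_EGRAD : Prop := ∀ (f0 f1 f2 : ℝ → ℂ) (ρ : ℝ → ℝ), Sm2 f0 f1 f2 →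
  (ρ = fun x => ‖f0 x‖ ^ 2) →
  (Integrable fun x => (em ρ x - ρ x) ^ 2 * deriv (em ρ) x ^ 2 / em ρ x ^ 3) ∧
    ∫ x, (em ρ x - ρ x) ^ 2 * deriv (em ρ) x ^ 2 / em ρ x ^ 3 ≤ 256 * nsq f1

def St_DISP : Prop := ∀ (ε1 ε2 S : ℝ) (w w' : ℝ → ℝ) (f0 f1 f2 p0 p1 p2 : ℝ → ℂ),
  Wt ε1 ε2 S w w' → Sm2 f0 f1 f2 → Sm2 p0 p1 p2 → (∀ x, ‖p0 x‖ ^ 2 ≤ ‖f0 x‖ ^ 2 + ε1) →
  |∫ x, hh w (fun y => ‖f0 y‖ ^ 2) x * rho2 p0 p1 p2 x| ≤ 1100 * (nsq f1 + nsq p1)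

def St_LOW : Prop := ∀ (α lam ε1 ε2 S : ℝ) (w w' : ℝ → ℝ) (f0 f1 f2 p0 p1 p2 : ℝ → ℂ),
  4 ≤ α → 0 ≤ lam → Wt ε1 ε2 S w w' → Sm2 f0 f1 f2 → Sm2 p0 p1 p2 →
  (∀ x, ‖p0 x‖ ^ 2 ≤ ‖f0 x‖ ^ 2 + ε1) →
  -(4 * S * nsq p1) + 2 * α / (α + 2) * lam *
      (S * pw α p0 - (S + 1) * (2 * ε2) ^ (α / 2) * nsq p0) - 1100 * (nsq f1 + nsq p1) ≤
    vir α lam (hh w fun y => ‖f0 y‖ ^ 2) p0 p1 p2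

/-! ### The end of the proof -/

def St_STEP : Prop :=
  (∀ (A J V e1 e2 : ℝ → ℝ) (s τ η m : ℝ), Rate A J e1 → Rate J V e2 → 0 ≤ τ → 0 ≤ s - τ →
    (∀ σ ∈ Icc (s - τ) (s + τ), e1 σ ≤ η ∧ m ≤ V σ - e2 σ) →
    m * τ ^ 2 - 2 * η * τ ≤ A (s + τ) + A (s - τ) - 2 * A s) ∧
  ∀ (a : ℕ → ℝ) (μ : ℝ) (n : ℕ), (∀ j, j + 2 ≤ 2 * n → μ ≤ a (j + 2) + a j - 2 * a (j + 1)) →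
    μ * n ^ 2 ≤ a (2 * n) + a 0 - 2 * a n

def St_CORE : Prop := ∀ (α κ : ℝ) (v dv : ℝ → ℝ → ℂ), 4 < α → 0 ≤ κ → Sol α κ v dv →
  ∀ t1 y0 : ℝ, 0 ≤ t1 → 0 < y0 → (∀ t, t1 ≤ t → en α κ v dv t ≤ -(y0 * Real.exp (κ * t))) → False

def St_MAIN : Prop :=
  (∀ α : ℝ, 4 < α → ∀ u0 du0 : L2, WeakDeriv u0 du0 → u0 ≠ 0 → ∃ γ0 : ℝ, 0 < γ0 ∧
    ∀ γ : ℝ, γ0 < γ → ¬ ∃ u du : ℝ → L2, GlobalSol α γ u du ∧ u 0 = u0) ∧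
  ∀ α : ℝ, 4 < α → ∀ γ : ℝ, 0 ≤ γ → ∀ u0 du0 : L2, WeakDeriv u0 du0 → energy α u0 du0 < 0 →
    ¬ ∃ u du : ℝ → L2, GlobalSol α γ u du ∧ u 0 = u0

end Pool.Agent.Lib.MP_13801a_an
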