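import Mathlib
import Pool.Agent.Lib.MP_13801a_an.Sts

/-!
The mollified solution is a smooth approximate solution.
-/

open MeasureTheory Set Filter
open scoped ContDiff Topology

namespace Pool.Agent.Lib.MP_13801a_an

theorem APX_cont (h2 : St_CONV) {k : ℝ → ℝ} (hk : Test k) {g : ℝ → ℝ → ℂ}
    (hg : ∀ t, MemLp (g t) 2 volume)
    (hu : ∀ T η : ℝ, 0 < η → ∃ τ : ℝ, 0 < τ ∧ ∀ s t, |s| ≤ T → |t| ≤ T → |s - t| ≤ τ →
      nsq (fun x => g s x - g t x) ≤ η) :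
    Continuous fun p : ℝ × ℝ => cv k (g p.1) p.2 := by
  refine continuous_iff_continuousAt.2 fun p => ?_
  have hc : Continuous (cv k (g p.1)) :=
    continuous_iff_continuousAt.2 fun x => ((h2 k hk _ (hg p.1)).1 x).continuousAt
  have h0 : Tendsto (fun q : ℝ × ℝ => cv k (g q.1) q.2 - cv k (g p.1) q.2) (𝓝 p) (𝓝 0) := by
    rw [NormedAddGroup.tendsto_nhds_zero]
    intro ε hε
    obtain ⟨A, hA⟩ : ∃ A, A = ∫ y, k y ^ 2 := ⟨_, rfl⟩
    have hA0 : 0 ≤ A := hA ▸ integral_nonneg fun _ => sq_nonneg _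
    obtain ⟨τ, hτ, H⟩ := hu (|p.1| + 1) (ε ^ 2 / (2 * (A + 1))) (by positivity)
    have hev : ∀ᶠ q : ℝ × ℝ in 𝓝 p, |q.1 - p.1| < min τ 1 :=
      (continuous_fst.sub continuous_const).abs.continuousAt.eventually_lt continuousAt_const
        (by simpa using hτ)
    refine hev.mono fun q hq => ?_
    rw [lt_min_iff] at hq
    have h3 := H q.1 p.1 (by linarith [abs_sub_abs_le_abs_sub q.1 p.1, hq.2]) (by linarith) hq.1.le
    have h4 := (h2 k hk _ ((hg q.1).sub (hg p.1))).2.2.2.1 q.2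
    rw [← (h2 k hk _ (hg q.1)).2.2.2.2.1 _ (hg p.1)]
    rw [← hA] at h4
    have h5 : A * (ε ^ 2 / (2 * (A + 1))) < ε ^ 2 := by
      rw [← mul_div_assoc, div_lt_iff₀ (by positivity)]
      nlinarith [sq_pos_of_pos hε]
    exact lt_of_pow_lt_pow_left₀ 2 hε.le
      ((h4.trans (mul_le_mul_of_nonneg_left h3 hA0)).trans_lt h5)
  have h1 := h0.add ((hc.comp continuous_snd).tendsto p)
  simpa [ContinuousAt] using h1

theorem APX_test {k : ℝ → ℝ} (hk : Test k) (x : ℝ) : Test fun y => k (x - y) :=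
  ⟨hk.1.comp (contDiff_const.sub contDiff_id), hk.2.comp_homeomorph (Homeomorph.subLeft x)⟩

theorem APX_cv (k : ℝ → ℝ) (g : ℝ → ℂ) (x : ℝ) :
    ∫ y, g y * ((k (x - y) : ℝ) : ℂ) = cv k g x := by
  simp only [cv, mul_comm]

theorem APX (h1 : St_MOL) (h2 : St_CONV) (h3 : St_BASIC) : St_APX := by
  intro α κ v dv hα hs r hr
  obtain ⟨-, -, -, b4, b5, b6⟩ := h3 α κ v dv hα hs
  have hk : ∀ k, Test (dk k (mol r)) := (h1.1 r hr).1.dk
  have hv : ∀ t, MemLp (v t) 2 volume := fun t => (hs.h1 t).mem0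
  refine ⟨fun k => APX_cont h2 (hk k) hv fun T η hη => ?_,
    fun k => APX_cont h2 (hk k) (g := fun t y => NL α (v t y)) (fun t => (b4 t).1) fun T η hη => ?_,
    fun k t x => (h2 _ (hk k) _ (hv t)).1 x, fun k t x => (h2 _ (hk k) _ (b4 t).1).1 x,
    fun k t x ht => ?_, fun k t => (h2 _ (hk k) _ (hv t)).2.1,
    fun k t => (h2 _ (hk k) _ (b4 t).1).2.1, fun k T => ?_⟩
  · obtain ⟨τ, hτ, H⟩ := hs.uc T η hη
    exact ⟨τ, hτ, fun s t a b c => (H s t a b c).1⟩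
  · obtain ⟨τ, hτ, H⟩ := b6 T η hη
    exact ⟨τ, hτ, fun s t a b c => (H s t a b c).2.2⟩
  · have h := hs.eqn _ (APX_test (hk k) x) t ht
    have hd : ∀ y, deriv (fun y => dk k (mol r) (x - y)) y = -dk (k + 1) (mol r) (x - y) :=
      fun y => deriv_comp_const_sub _ _ _
    simp only [hd, Complex.ofReal_neg, mul_neg, integral_neg, neg_neg, APX_cv] at h
    rw [← (h2 _ (hk (k + 1)) _ (hv t)).2.2.2.2.2 _ (hs.h1 t) x] at h
    exact h
  · obtain ⟨C, H⟩ := b5 T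
    obtain ⟨A, hA⟩ : ∃ A, A = (∫ y, |dk k (mol r) y|) ^ 2 := ⟨_, rfl⟩
    obtain ⟨B, hB⟩ : ∃ B, B = ∫ y, dk k (mol r) y ^ 2 := ⟨_, rfl⟩
    have hA0 : 0 ≤ A := hA ▸ sq_nonneg _
    have hB0 : 0 ≤ B := hB ▸ integral_nonneg fun _ => sq_nonneg _
    refine ⟨max (A * C) √(B * C), fun t ht => ⟨?_, ?_, fun x => ?_⟩⟩
    · have := (h2 _ (hk k) _ (hv t)).2.2.1
      rw [← hA] at this
      exact (this.trans (mul_le_mul_of_nonneg_left (H t ht).1 hA0)).trans (le_max_left _ _)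
    · have := (h2 _ (hk k) _ (b4 t).1).2.2.1
      rw [← hA] at this
      exact (this.trans (mul_le_mul_of_nonneg_left (H t ht).2.2.2 hA0)).trans (le_max_left _ _)
    · have := (h2 _ (hk k) _ (hv t)).2.2.2.1 x
      rw [← hB] at this
      exact (Real.le_sqrt_of_sq_le
        (this.trans (mul_le_mul_of_nonneg_left (H t ht).1 hB0))).trans (le_max_right _ _)

end Pool.Agent.Lib.MP_13801a_an
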