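import Mathlib
import Pool.Agent.Lib.MP_13801a_an.Sts

/-!
Continuity in time and local bounds for solutions.
-/

open MeasureTheory Set Filter
open scoped ContDiff Topology ComplexConjugate

namespace Pool.Agent.Lib.MP_13801a_an

theorem BASIC_tri {a b : ℝ → ℂ} (ha : MemLp a 2 volume) (hb : MemLp b 2 volume) :
    √(nsq a) ≤ √(nsq b) + √(nsq fun x => a x - b x) := by
  have hd : MemLp (fun x => a x - b x) 2 volume := ha.sub hb
  have h1 : nsq a ≤ (∫ x, ‖a x‖ * ‖b x‖) + ∫ x, ‖a x‖ * ‖a x - b x‖ := by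
    rw [← integral_add (integrable_norm_mul ha hb) (integrable_norm_mul ha hd)]
    refine integral_mono (integrable_nsq ha)
      ((integrable_norm_mul ha hb).add (integrable_norm_mul ha hd)) fun x => ?_
    have h2 : ‖a x‖ ≤ ‖b x‖ + ‖a x - b x‖ := by
      simpa using norm_add_le (b x) (a x - b x)
    have h3 := norm_nonneg (a x)
    simp only
    nlinarith
  have h4 := integral_norm_mul_le ha hb
  have h5 := integral_norm_mul_le ha hd
  have h6 : √(nsq a) * √(nsq a) = nsq a := Real.mul_self_sqrt (nsq_nonneg a)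
  have h7 := Real.sqrt_nonneg (nsq a)
  have h8 := Real.sqrt_nonneg (nsq b)
  have h9 := Real.sqrt_nonneg (nsq fun x => a x - b x)
  by_contra hc
  push Not at hc
  nlinarith

theorem BASIC_symm (a b : ℝ → ℂ) : (nsq fun x => a x - b x) = nsq fun x => b x - a x := by
  unfold nsq
  simp only [norm_sub_rev (a _) (b _)]

theorem BASIC_abs {a b : ℝ → ℂ} (ha : MemLp a 2 volume) (hb : MemLp b 2 volume) :
    |√(nsq a) - √(nsq b)| ≤ √(nsq fun x => a x - b x) := by
  have h1 := BASIC_tri ha hb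
  have h2 := BASIC_tri hb ha
  rw [BASIC_symm b a] at h2
  rw [abs_le]
  constructor <;> linarith

theorem BASIC_mod {F : ℝ → ℝ} (h : ∀ T η : ℝ, 0 < η → ∃ τ : ℝ, 0 < τ ∧ ∀ s t, |s| ≤ T →
    |t| ≤ T → |s - t| ≤ τ → |F s - F t| ≤ η) : Continuous F := by
  rw [Metric.continuous_iff]
  intro t ε hε
  obtain ⟨τ, hτ, H⟩ := h (|t| + 1) (ε / 2) (by positivity)
  refine ⟨min τ 1, by positivity, fun s hs => ?_⟩
  rw [Real.dist_eq] at hs ⊢
  have h1 : |s - t| < τ := hs.trans_le (min_le_left _ _)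
  have h2 : |s - t| < 1 := hs.trans_le (min_le_right _ _)
  have h3 : |s| ≤ |t| + |s - t| := by simpa using abs_add_le t (s - t)
  have h4 := H s t (by linarith) (by linarith) h1.le
  linarith

theorem BASIC_cont {g : ℝ → ℝ → ℂ} (hg : ∀ t, MemLp (g t) 2 volume)
    (h : ∀ T η : ℝ, 0 < η → ∃ τ : ℝ, 0 < τ ∧ ∀ s t, |s| ≤ T → |t| ≤ T → |s - t| ≤ τ →
      (nsq fun x => g s x - g t x) ≤ η) : Continuous fun t => nsq (g t) := by
  have h1 : Continuous fun t => √(nsq (g t)) := by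
    refine BASIC_mod fun T η hη => ?_
    obtain ⟨τ, hτ, H⟩ := h T (η ^ 2) (by positivity)
    refine ⟨τ, hτ, fun s t hs ht hst => (BASIC_abs (hg s) (hg t)).trans ?_⟩
    exact Real.sqrt_le_iff.2 ⟨hη.le, H s t hs ht hst⟩
  have h2 : (fun t => nsq (g t)) = fun t => √(nsq (g t)) ^ 2 :=
    funext fun t => (Real.sq_sqrt (nsq_nonneg _)).symm
  rw [h2]
  exact h1.pow 2

theorem BASIC_bdd {F : ℝ → ℝ} (hF : Continuous F) (T : ℝ) :
    ∃ C : ℝ, 0 ≤ C ∧ ∀ t, |t| ≤ T → F t ≤ C := by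
  obtain ⟨C, hC⟩ := (isCompact_Icc (a := -T) (b := T)).exists_bound_of_continuousOn
    hF.continuousOn
  refine ⟨max C 0, le_max_right _ _, fun t ht => ?_⟩
  have h1 := hC t (abs_le.1 ht)
  rw [Real.norm_eq_abs] at h1
  exact ((le_abs_self _).trans h1).trans (le_max_left _ _)

theorem BASIC_nsq_le {a b : ℝ → ℂ} (hb : MemLp b 2 volume) {L : ℝ}
    (h : ∀ x, ‖a x‖ ≤ L * ‖b x‖) : nsq a ≤ L ^ 2 * nsq b := by
  unfold nsq
  rw [← integral_const_mul]
  refine integral_mono_of_nonneg (Eventually.of_forall fun x => by positivity)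
    ((integrable_nsq hb).const_mul _) (Eventually.of_forall fun x => ?_)
  have h1 := pow_le_pow_left₀ (norm_nonneg _) (h x) 2
  simpa only [mul_pow] using h1

theorem BASIC (h1 : St_SUP) (h2 : St_NL) : St_BASIC := by
  intro α κ v dv hα hS
  obtain ⟨-, hn, -, hL, -, hM⟩ := h2 α hα
  have m0 : ∀ t, MemLp (v t) 2 volume := fun t => (hS.h1 t).mem0
  have m1 : ∀ t, MemLp (dv t) 2 volume := fun t => (hS.h1 t).mem1
  have c0 : Continuous fun t => nsq (v t) := BASIC_cont m0 fun T η hη => by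
    obtain ⟨τ, hτ, H⟩ := hS.uc T η hη
    exact ⟨τ, hτ, fun s t hs ht hst => (H s t hs ht hst).1⟩
  have c1 : Continuous fun t => nsq (dv t) := BASIC_cont m1 fun T η hη => by
    obtain ⟨τ, hτ, H⟩ := hS.uc T η hη
    exact ⟨τ, hτ, fun s t hs ht hst => (H s t hs ht hst).2⟩
  have hb : ∀ T : ℝ, ∃ C B : ℝ, 0 ≤ C ∧ 0 ≤ B ∧ ∀ t, |t| ≤ T → nsq (v t) ≤ C ∧
      nsq (dv t) ≤ C ∧ ∀ x, ‖v t x‖ ≤ B := by
    intro T
    obtain ⟨C0, h0, H0⟩ := BASIC_bdd c0 T
    obtain ⟨C1, h1', H1'⟩ := BASIC_bdd c1 T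
    refine ⟨C0 + C1, √(2 * (C0 + C1)), by positivity, Real.sqrt_nonneg _, fun t ht =>
      ⟨by linarith [H0 t ht], by linarith [H1' t ht], fun x => ?_⟩⟩
    refine Real.le_sqrt_of_sq_le (((h1 _ _ (hS.h1 t)).2 x).trans ?_)
    linarith [H0 t ht, H1' t ht]
  have hmem : ∀ t, MemLp (fun x => NL α (v t x)) 2 volume ∧
      Integrable fun x => ‖v t x‖ ^ (α + 2) := fun t => by
    obtain ⟨C, B, -, -, H⟩ := hb |t|
    exact hM (v t) B (m0 t) (H t le_rfl).2.2
  have hz : NL α 0 = 0 := by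
    have h3 := hn 0
    rw [norm_zero, Real.zero_rpow (by linarith)] at h3
    exact norm_eq_zero.1 h3
  refine ⟨c0, c1, ?_, hmem, ?_, ?_⟩
  · refine BASIC_mod fun T η hη => ?_
    obtain ⟨C, B, hC, -, H⟩ := hb T
    obtain ⟨L, hL0, HL⟩ := hL B
    have hK : 0 < L * (2 * √C) + 1 := by positivity
    obtain ⟨τ, hτ, Hu⟩ := hS.uc T ((η / (L * (2 * √C) + 1)) ^ 2) (by positivity)
    refine ⟨τ, hτ, fun s t hs ht hst => ?_⟩
    have hd : MemLp (fun x => v s x - v t x) 2 volume := (m0 s).sub (m0 t)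
    have e1 : √(nsq fun x => v s x - v t x) ≤ η / (L * (2 * √C) + 1) :=
      Real.sqrt_le_iff.2 ⟨by positivity, (Hu s t hs ht hst).1⟩
    have e2 : √(nsq (v s)) ≤ √C := Real.sqrt_le_sqrt (H s hs).1
    have e3 : √(nsq (v t)) ≤ √C := Real.sqrt_le_sqrt (H t ht).1
    have i1 := integrable_norm_mul hd (m0 s)
    have i2 := integrable_norm_mul hd (m0 t)
    have e4 : |pw α (v s) - pw α (v t)| ≤ L * ((∫ x, ‖v s x - v t x‖ * ‖v s x‖) +
        ∫ x, ‖v s x - v t x‖ * ‖v t x‖) := by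
      unfold pw
      rw [← integral_sub (hmem s).2 (hmem t).2, ← integral_add i1 i2, ← integral_const_mul]
      refine (abs_integral_le_integral_abs).trans (integral_mono ((hmem s).2.sub (hmem t).2).abs
        ((i1.add i2).const_mul L) fun x => ?_)
      have h3 := (HL (v s x) (v t x) ((H s hs).2.2 x) ((H t ht).2.2 x)).2.1
      simpa only [mul_add] using h3
    have e5 := integral_norm_mul_le hd (m0 s)
    have e6 := integral_norm_mul_le hd (m0 t)
    have e7 := Real.sqrt_nonneg (nsq fun x => v s x - v t x)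
    have e8 : (∫ x, ‖v s x - v t x‖ * ‖v s x‖) + (∫ x, ‖v s x - v t x‖ * ‖v t x‖) ≤
        η / (L * (2 * √C) + 1) * (2 * √C) := by
      have e9 := mul_le_mul e1 e2 (Real.sqrt_nonneg _) (by positivity)
      have e10 := mul_le_mul e1 e3 (Real.sqrt_nonneg _) (by positivity)
      linarith
    refine e4.trans ((mul_le_mul_of_nonneg_left e8 hL0).trans ?_)
    have e11 : L * (η / (L * (2 * √C) + 1) * (2 * √C)) =
        η * (L * (2 * √C) / (L * (2 * √C) + 1)) := by ring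
    rw [e11]
    exact mul_le_of_le_one_right hη.le ((div_le_one hK).2 (by linarith))
  · intro T
    obtain ⟨C, B, hC, hB, H⟩ := hb T
    obtain ⟨L, hL0, HL⟩ := hL B
    have p1 : 0 ≤ L ^ 2 * C := by positivity
    refine ⟨C + B + L ^ 2 * C, fun t ht => ⟨by linarith [(H t ht).1],
      by linarith [(H t ht).2.1], fun x => by linarith [(H t ht).2.2 x], ?_⟩⟩
    have e1 : (nsq fun x => NL α (v t x)) ≤ L ^ 2 * nsq (v t) :=
      BASIC_nsq_le (m0 t) fun x => by
        have h3 := (HL (v t x) 0 ((H t ht).2.2 x) (by simpa using hB)).1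
        simpa only [hz, sub_zero] using h3
    have e2 := mul_le_mul_of_nonneg_left (H t ht).1 (sq_nonneg L)
    linarith
  · intro T η hη
    obtain ⟨C, B, hC, -, H⟩ := hb T
    obtain ⟨L, hL0, HL⟩ := hL B
    have hK : 0 < L ^ 2 + 1 := by positivity
    obtain ⟨τ, hτ, Hu⟩ := hS.uc T (min (η ^ 2 / 4) (η / (L ^ 2 + 1))) (by positivity)
    obtain ⟨δ, hδ, Hδ⟩ := Metric.uniformContinuousOn_iff_le.1
      ((isCompact_Icc (a := -T) (b := T)).uniformContinuousOn_of_continuous c1.continuousOn) η hη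
    refine ⟨min τ δ, by positivity, fun s t hs ht hst => ?_⟩
    obtain ⟨u0, u1⟩ := Hu s t hs ht (hst.trans (min_le_left _ _))
    refine ⟨fun x => ?_, ?_, ?_⟩
    · have e1 := (h1 _ _ ((hS.h1 s).sub (hS.h1 t))).2 x
      have e2 := u0.trans (min_le_left _ _)
      have e3 := u1.trans (min_le_left _ _)
      exact (pow_le_pow_iff_left₀ (norm_nonneg _) hη.le two_ne_zero).1 (by linarith)
    · have e1 := Hδ s (abs_le.1 hs) t (abs_le.1 ht)
        (by rw [Real.dist_eq]; exact hst.trans (min_le_right _ _))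
      rwa [Real.dist_eq] at e1
    · have e1 : (nsq fun x => NL α (v s x) - NL α (v t x)) ≤
          L ^ 2 * nsq fun x => v s x - v t x :=
        BASIC_nsq_le ((m0 s).sub (m0 t)) fun x =>
          (HL (v s x) (v t x) ((H s hs).2.2 x) ((H t ht).2.2 x)).1
      have e2 := mul_le_mul_of_nonneg_left (u0.trans (min_le_right _ _)) (sq_nonneg L)
      have e3 : L ^ 2 * (η / (L ^ 2 + 1)) = η * (L ^ 2 / (L ^ 2 + 1)) := by ring
      have e4 : η * (L ^ 2 / (L ^ 2 + 1)) ≤ η :=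
        mul_le_of_le_one_right hη.le ((div_le_one hK).2 (by linarith))
      linarith

end Pool.Agent.Lib.MP_13801a_an
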