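import Mathlib
import Pool.Agent.Lib.MP_13801a_an.Sts

/-!
Densities, the second primitive `TT`, and its behaviour on a hole of the contact set.
-/

open MeasureTheory Set Filter
open scoped ContDiff Topology ComplexConjugate

namespace Pool.Agent.Lib.MP_13801a_an

theorem DENS : St_DENS := by
  intro p0 p1 p2 h M hM
  obtain ⟨C, hC⟩ := h.bd
  have hC0 : 0 ≤ C := (norm_nonneg _).trans (hC 0).1
  have hd : ∀ x, HasDerivAt (fun x => ‖p0 x‖ ^ 2) (2 * inner ℝ (p0 x) (p1 x)) x :=
    fun x => (h.d0 x).norm_sq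
  have hb : ∀ x, ‖2 * inner ℝ (p0 x) (p1 x)‖ ≤ 2 * (‖p0 x‖ * ‖p1 x‖) := by
    intro x
    rw [norm_mul, Real.norm_two]
    exact mul_le_mul_of_nonneg_left (norm_inner_le_norm _ _) (by norm_num)
  have hc0 : Continuous p0 := continuous_iff_continuousAt.2 fun x => (h.d0 x).continuousAt
  have hc1 : Continuous p1 := continuous_iff_continuousAt.2 fun x => (h.d1 x).continuousAt
  have hint : Integrable fun x => 2 * inner ℝ (p0 x) (p1 x) := by
    refine Integrable.mono' ((integrable_norm_mul h.m0 h.m1).const_mul 2) ?_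
      (Eventually.of_forall hb)
    exact (continuous_const.mul (hc0.inner hc1)).aestronglyMeasurable
  refine ⟨?_, fun x => by positivity, integrable_nsq h.m0, hM, ⟨C ^ 2, fun x => ?_⟩, ?_⟩
  · refine ⟨⟨2 * (C * C), by positivity⟩, ?_⟩
    refine lipschitzWith_of_nnnorm_deriv_le (fun x => (hd x).differentiableAt) fun x => ?_
    rw [(hd x).deriv, ← NNReal.coe_le_coe, coe_nnnorm]
    refine (hb x).trans ?_
    change 2 * (‖p0 x‖ * ‖p1 x‖) ≤ 2 * (C * C)
    have := mul_le_mul (hC x).1 (hC x).2.1 (norm_nonneg _) hC0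
    linarith
  · exact pow_le_pow_left₀ (norm_nonneg _) (hC x).1 2
  · intro η hη
    have h1 := tendsto_zero_of_hasDerivAt_of_integrableOn_Ioi (a := 0) (fun x _ => hd x)
      hint.integrableOn (integrable_nsq h.m0).integrableOn
    have h2 := tendsto_zero_of_hasDerivAt_of_integrableOn_Iic (a := 0) (fun x _ => hd x)
      hint.integrableOn (integrable_nsq h.m0).integrableOn
    obtain ⟨R1, hR1⟩ := eventually_atTop.1 (h1.eventually (ge_mem_nhds hη))
    obtain ⟨R2, hR2⟩ := eventually_atBot.1 (h2.eventually (ge_mem_nhds hη))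
    refine ⟨max R1 (-R2), fun x hx => ?_⟩
    rcases le_or_gt 0 x with h0 | h0
    · rw [abs_of_nonneg h0] at hx
      exact hR1 x ((le_max_left _ _).trans hx)
    · rw [abs_of_neg h0] at hx
      have := (le_max_right _ _).trans hx
      exact hR2 x (by linarith)

theorem CELL_split {ρ : ℝ → ℝ} (hρ : Continuous ρ) (ε x y c : ℝ) :
    ∫ z in x..y, (c - z) * (ρ z - ε) =
      c * (∫ z in x..y, (ρ z - ε)) - ∫ z in x..y, z * (ρ z - ε) := by
  have h1 : Continuous fun z => c * (ρ z - ε) := by fun_prop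
  have h2 : Continuous fun z => z * (ρ z - ε) := by fun_prop
  rw [← intervalIntegral.integral_const_mul, ← intervalIntegral.integral_sub
    (h1.intervalIntegrable _ _) (h2.intervalIntegrable _ _)]
  refine intervalIntegral.integral_congr fun z _ => ?_
  ring

theorem CELL_deriv {ρ : ℝ → ℝ} (hρ : Continuous ρ) (ε x y : ℝ) :
    HasDerivAt (TT ρ ε x) (∫ z in x..y, (ρ z - ε)) y := by
  have hg : Continuous fun z => ρ z - ε := by fun_prop
  have hg' : Continuous fun z => z * (ρ z - ε) := by fun_prop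
  have e : TT ρ ε x = fun y => y * (∫ z in x..y, (ρ z - ε)) - ∫ z in x..y, z * (ρ z - ε) :=
    funext fun y => CELL_split hρ ε x y y
  have h1 := (hg.integral_hasStrictDerivAt x y).hasDerivAt
  have h2 := (hg'.integral_hasStrictDerivAt x y).hasDerivAt
  have h3 := ((hasDerivAt_id' y).fun_mul h1).fun_sub h2
  rw [e]
  refine h3.congr_deriv ?_
  ring

theorem CELL_self (ρ : ℝ → ℝ) (ε x : ℝ) : TT ρ ε x x = 0 := intervalIntegral.integral_same

theorem CELL_three {ρ : ℝ → ℝ} (hρ : Continuous ρ) (ε x y z : ℝ) :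
    TT ρ ε x z = TT ρ ε y z + TT ρ ε x y + (z - y) * ∫ t in x..y, (ρ t - ε) := by
  have h1 : Continuous fun t => (z - t) * (ρ t - ε) := by fun_prop
  have e := intervalIntegral.integral_add_adjacent_intervals (μ := volume)
    (h1.intervalIntegrable x y) (h1.intervalIntegrable y z)
  have e1 := CELL_split hρ ε x y z
  have e2 := CELL_split hρ ε x y y
  unfold TT
  rw [← e, e1, e2]
  ring

theorem CELL_four {ρ : ℝ → ℝ} (hρ : Continuous ρ) (ε ε' x y : ℝ) :
    TT ρ ε' x y = TT ρ ε x y - (ε' - ε) * (y - x) ^ 2 / 2 := by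
  have h1 : Continuous fun t => (y - t) * (ρ t - ε) := by fun_prop
  have h2 : Continuous fun t => (ε' - ε) * (y - t) := by fun_prop
  have e : ∫ t in x..y, (ε' - ε) * (y - t) = (ε' - ε) * (y - x) ^ 2 / 2 := by
    rw [intervalIntegral.integral_const_mul, intervalIntegral.integral_sub
      (by simp) (continuous_id'.intervalIntegrable _ _), integral_id]
    simp only [intervalIntegral.integral_const, smul_eq_mul]
    ring
  unfold TT
  rw [← e, ← intervalIntegral.integral_sub (h1.intervalIntegrable _ _) (h2.intervalIntegrable _ _)]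
  refine intervalIntegral.integral_congr fun z _ => ?_
  ring

theorem CELL_five {ρ : ℝ → ℝ} (hρ : Continuous ρ) (ε a b : ℝ) (hab : a < b) :
    ∫ x in a..b, gap ρ ε a b x = ∫ x in a..b, (x - a) * (b - x) / 2 * (ρ x - ε) := by
  have hg : Continuous fun z => ρ z - ε := by fun_prop
  have hT : Continuous (TT ρ ε a) :=
    continuous_iff_continuousAt.2 fun x => (CELL_deriv hρ ε a x).continuousAt
  have hne : b - a ≠ 0 := sub_ne_zero.2 hab.ne'
  have c1 : Continuous fun x => (x - a) * (b - x) / 2 * (ρ x - ε) := by fun_prop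
  have c2 : Continuous (gap ρ ε a b) := by
    unfold gap
    fun_prop
  have hd : ∀ x, HasDerivAt (fun x => (x - a) * (b - x) / 2 * (∫ z in a..x, (ρ z - ε)) -
      (a + b - 2 * x) / 2 * TT ρ ε a x - (x - a) ^ 2 / (2 * (b - a)) * TT ρ ε a b)
      ((x - a) * (b - x) / 2 * (ρ x - ε) - gap ρ ε a b x) x := by
    intro x
    have h1 := (hg.integral_hasStrictDerivAt a x).hasDerivAt
    have h2 := CELL_deriv hρ ε a x
    have q1 : HasDerivAt (fun x : ℝ => (x - a) * (b - x) / 2) ((a + b - 2 * x) / 2) x := by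
      refine ((((hasDerivAt_id' x).sub_const a).fun_mul
        ((hasDerivAt_id' x).const_sub b)).div_const 2).congr_deriv ?_
      ring
    have q2 : HasDerivAt (fun x : ℝ => (a + b - 2 * x) / 2) (-1) x := by
      refine ((((hasDerivAt_id' x).const_mul 2).const_sub (a + b)).div_const 2).congr_deriv ?_
      ring
    have q3 : HasDerivAt (fun x : ℝ => (x - a) ^ 2 / (2 * (b - a))) ((x - a) / (b - a)) x := by
      refine ((((hasDerivAt_id' x).sub_const a).fun_pow 2).div_const _).congr_deriv ?_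
      field_simp
      simp [mul_comm]
    refine (((q1.fun_mul h1).fun_sub (q2.fun_mul h2)).fun_sub
      (q3.mul_const (TT ρ ε a b))).congr_deriv ?_
    unfold gap
    ring
  have e := intervalIntegral.integral_eq_sub_of_hasDerivAt (fun x _ => hd x)
    ((c1.fun_sub c2).intervalIntegrable a b)
  rw [intervalIntegral.integral_sub (c1.intervalIntegrable _ _) (c2.intervalIntegrable _ _),
    CELL_self] at e
  have e2 : (b - a) ^ 2 / (2 * (b - a)) = (b - a) / 2 := by field_simp
  rw [e2] at e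
  have : (∫ x in a..b, (x - a) * (b - x) / 2 * (ρ x - ε)) - ∫ x in a..b, gap ρ ε a b x = 0 := by
    rw [e]
    ring
  linarith

theorem TTF : St_TT := fun _ ε hρ =>
  ⟨CELL_deriv hρ ε, CELL_self _ ε, CELL_three hρ ε, CELL_four hρ ε, CELL_five hρ ε⟩

theorem CELL (h1 : St_EM) (h2 : St_TT) : St_CELL := by
  intro M ρ ε a b hD hab ha hb hn
  obtain ⟨L, hL⟩ := hD.lip
  obtain ⟨hd, h0, h3, -, -⟩ := h2 ρ ε hL.continuous
  have hz := (h1 M ρ hD).2.2.2.2.2.2.1 ε
  have hA : ∀ y, TT ρ ε a y ≤ 0 := (hz a).1 ha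
  have hB : ∀ y, TT ρ ε b y ≤ 0 := (hz b).1 hb
  have hpos : 0 < b - a := sub_pos.2 hab
  obtain ⟨c, hc⟩ : ∃ c, TT ρ ε a b = (b - a) * c :=
    ⟨TT ρ ε a b / (b - a), by field_simp⟩
  have hc0 : c ≤ 0 := by
    by_contra h
    have := mul_pos hpos (not_le.1 h)
    linarith [hA b]
  have hI : ∫ t in a..b, (ρ t - ε) ≤ c := by
    have e := h3 a b a
    rw [h0, hc] at e
    by_contra h
    have := mul_pos hpos (sub_pos.2 (not_le.1 h))
    linarith [hB a]
  have hF : ∀ x, HasDerivAt (fun y => TT ρ ε a y - (y - a) * c)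
      ((∫ t in a..x, (ρ t - ε)) - c) x := by
    intro x
    refine ((hd a x).fun_sub (((hasDerivAt_id' x).sub_const a).mul_const c)).congr_deriv ?_
    ring
  have hFc : Continuous fun y => TT ρ ε a y - (y - a) * c :=
    continuous_iff_continuousAt.2 fun x => (hF x).continuousAt
  have hmax : ∀ x, (∀ y, TT ρ ε a y - (y - a) * c ≤ TT ρ ε a x - (x - a) * c) →
      ∫ t in a..x, (ρ t - ε) = c := by
    intro x hx
    have hm : IsLocalMax (fun y => TT ρ ε a y - (y - a) * c) x := Eventually.of_forall hx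
    exact sub_eq_zero.1 (hm.hasDerivAt_eq_zero (hF x))
  obtain ⟨x, hx, hxm⟩ := isCompact_Icc.exists_isMaxOn (nonempty_Icc.2 hab.le) hFc.continuousOn
  have hxa : 0 ≤ TT ρ ε a x - (x - a) * c := by
    have := hxm (left_mem_Icc.2 hab.le)
    simpa [h0] using this
  have hglob : ∀ y, TT ρ ε a y - (y - a) * c ≤ TT ρ ε a x - (x - a) * c := by
    intro y
    rcases le_or_gt y a with hy | hy
    · have := mul_nonneg_of_nonpos_of_nonpos (sub_nonpos.2 hy) hc0
      linarith [hA y]
    rcases le_or_gt y b with hy' | hy'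
    · exact hxm ⟨hy.le, hy'⟩
    · have e := h3 a b y
      have := mul_le_mul_of_nonneg_left hI (sub_nonneg.2 hy'.le)
      linarith [hB y]
  have hx0 : TT ρ ε a x - (x - a) * c ≤ 0 := by
    by_contra h
    have hxa' : x ≠ a := by
      rintro rfl
      simp [h0] at h
    have hxb' : x ≠ b := by
      rintro rfl
      simp [hc] at h
    refine hn x ⟨lt_of_le_of_ne hx.1 hxa'.symm, lt_of_le_of_ne hx.2 hxb'⟩ ((hz x).2 fun y => ?_)
    have e := h3 a x y
    rw [hmax x hglob] at e
    linarith [hglob y]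
  have ea := hmax a fun y => by
    rw [h0]
    linarith [hglob y]
  have eb := hmax b fun y => by
    rw [hc]
    linarith [hglob y]
  rw [intervalIntegral.integral_same] at ea
  exact ⟨by rw [eb, ← ea], by rw [hc, ← ea, mul_zero]⟩

end Pool.Agent.Lib.MP_13801a_an
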