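import Mathlib
import Pool.Agent.Lib.MP_13801a_an.Sts

/-!
Convolution of square integrable functions with test functions.
-/

open MeasureTheory Set Filter
open scoped ContDiff Topology ComplexConjugate

namespace Pool.Agent.Lib.MP_13801a_an

theorem CONV_eq (k : ℝ → ℝ) (g : ℝ → ℂ) :
    cv k g = convolution k g (ContinuousLinearMap.lsmul ℝ ℝ) volume := by
  funext x
  rw [convolution_lsmul_swap]
  rfl

theorem CONV_refl {k : ℝ → ℝ} (hk : Test k) (x : ℝ) : Test fun y => k (x - y) :=
  ⟨hk.1.comp (contDiff_const.sub contDiff_id), hk.2.comp_homeomorph (Homeomorph.subLeft x)⟩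

theorem CONV_mem {φ : ℝ → ℝ} (hc : Continuous φ) (hs : HasCompactSupport φ) :
    MemLp (fun y => ((φ y : ℝ) : ℂ)) 2 volume :=
  (Complex.continuous_ofReal.comp hc).memLp_of_hasCompactSupport
    (hs.comp_left (g := fun t : ℝ => (t : ℂ)) Complex.ofReal_zero)

theorem CONV_int {k : ℝ → ℝ} (hk : Test k) {g : ℝ → ℂ} (hg : MemLp g 2 volume) (x : ℝ) :
    Integrable fun y => ((k (x - y) : ℝ) : ℂ) * g y :=
  (CONV_mem (CONV_refl hk x).1.continuous (CONV_refl hk x).2).integrable_mul hg

theorem CONV_sq {a b : ℝ → ℂ} (ha : MemLp a 2 volume) (hb : MemLp b 2 volume) :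
    ‖∫ y, a y * b y‖ ^ 2 ≤ nsq a * nsq b := by
  have h1 := norm_integral_le_integral_norm (μ := volume) fun y => a y * b y
  simp only [norm_mul] at h1
  have h2 := pow_le_pow_left₀ (norm_nonneg _) (h1.trans (integral_norm_mul_le ha hb)) 2
  rwa [mul_pow, Real.sq_sqrt (nsq_nonneg a), Real.sq_sqrt (nsq_nonneg b)] at h2

theorem CONV_sup {k : ℝ → ℝ} (hk : Test k) {g : ℝ → ℂ} (hg : MemLp g 2 volume) (x : ℝ) :
    ‖cv k g x‖ ^ 2 ≤ (∫ y, k y ^ 2) * nsq g := by
  have h := CONV_sq (CONV_mem (CONV_refl hk x).1.continuous (CONV_refl hk x).2) hg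
  have e : nsq (fun y => ((k (x - y) : ℝ) : ℂ)) = ∫ y, k y ^ 2 := by
    simp only [nsq, Complex.norm_real, Real.norm_eq_abs, sq_abs]
    exact integral_sub_left_eq_self (fun y => k y ^ 2) volume x
  rwa [e] at h

theorem CONV_weight {k : ℝ → ℝ} (hk : Test k) {g : ℝ → ℂ} (hg : MemLp g 2 volume) (x : ℝ) :
    ‖cv k g x‖ ^ 2 ≤ (∫ y, |k y|) * convolution (fun y => |k y|) (fun y => ‖g y‖ ^ 2)
      (ContinuousLinearMap.mul ℝ ℝ) volume x := by
  obtain ⟨hc, hs⟩ := CONV_refl hk x
  have c1 : Continuous fun y => √|k (x - y)| := hc.continuous.abs.sqrt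
  have s1 : HasCompactSupport fun y => √|k (x - y)| :=
    hs.comp_left (g := fun t : ℝ => √|t|) (by simp)
  obtain ⟨B, hB⟩ := c1.bounded_above_of_compact_support s1
  have m1 := CONV_mem c1 s1
  have m2 : MemLp (fun y => ((√|k (x - y)| * ‖g y‖ : ℝ) : ℂ)) 2 volume := by
    refine hg.of_le_mul (c := B) (Complex.continuous_ofReal.comp_aestronglyMeasurable
      (c1.aestronglyMeasurable.mul hg.1.norm)) (Eventually.of_forall fun y => ?_)
    rw [Complex.norm_real, norm_mul, norm_norm]
    exact mul_le_mul_of_nonneg_right (hB y) (norm_nonneg _)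
  have h := CONV_sq m1 m2
  have e1 : nsq (fun y => ((√|k (x - y)| : ℝ) : ℂ)) = ∫ y, |k y| := by
    simp only [nsq, Complex.norm_real, Real.norm_eq_abs, sq_abs, Real.sq_sqrt (abs_nonneg _)]
    exact integral_sub_left_eq_self (fun y => |k y|) volume x
  have e2 : nsq (fun y => ((√|k (x - y)| * ‖g y‖ : ℝ) : ℂ)) =
      convolution (fun y => |k y|) (fun y => ‖g y‖ ^ 2) (ContinuousLinearMap.mul ℝ ℝ) volume x := by
    rw [convolution_mul_swap]
    simp only [nsq, Complex.norm_real, Real.norm_eq_abs, sq_abs, mul_pow,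
      Real.sq_sqrt (abs_nonneg _)]
  have e3 : ∫ y, ((√|k (x - y)| : ℝ) : ℂ) * ((√|k (x - y)| * ‖g y‖ : ℝ) : ℂ) =
      ((∫ y, |k (x - y)| * ‖g y‖ : ℝ) : ℂ) := by
    rw [← integral_complex_ofReal]
    refine integral_congr_ae (Eventually.of_forall fun y => ?_)
    simp only
    rw [← Complex.ofReal_mul, ← mul_assoc, Real.mul_self_sqrt (abs_nonneg _)]
  rw [e1, e2, e3, Complex.norm_real] at h
  refine le_trans (pow_le_pow_left₀ (norm_nonneg _) ?_ 2) h
  have h1 := norm_integral_le_integral_norm (μ := volume) fun y => ((k (x - y) : ℝ) : ℂ) * g y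
  simp only [norm_mul, Complex.norm_real, Real.norm_eq_abs] at h1
  exact h1.trans (le_abs_self _)

theorem CONV (h1 : St_IBP) : St_CONV := by
  intro k hk g hg
  have hd : ∀ x, HasDerivAt (cv k g) (cv (deriv k) g x) x := fun x => by
    rw [CONV_eq, CONV_eq]
    exact hk.2.hasDerivAt_convolution_left _ (hk.1.of_le (by simp))
      (hg.locallyIntegrable (by norm_num)) x
  have hc : Continuous (cv k g) := continuous_iff_continuousAt.2 fun x => (hd x).continuousAt
  have ik : Integrable fun y => |k y| :=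
    (hk.1.continuous.integrable_of_hasCompactSupport hk.2).abs
  have ic := (ik.integrable_convolution (ContinuousLinearMap.mul ℝ ℝ)
    (integrable_nsq hg)).const_mul (∫ y, |k y|)
  have i2 : Integrable fun x => ‖cv k g x‖ ^ 2 :=
    ic.mono' (hc.norm.pow 2).aestronglyMeasurable (Eventually.of_forall fun x => by
      rw [Real.norm_of_nonneg (sq_nonneg _)]
      exact CONV_weight hk hg x)
  refine ⟨hd, (memLp_two_iff_integrable_sq_norm hc.aestronglyMeasurable).2 i2, ?_,
    CONV_sup hk hg, fun g' hg' x => ?_, fun dg hH x => ?_⟩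
  · have h := integral_mono i2 ic (CONV_weight hk hg)
    rw [integral_const_mul, integral_convolution _ ik (integrable_nsq hg)] at h
    refine h.trans (le_of_eq ?_)
    rw [ContinuousLinearMap.mul_apply', sq, mul_assoc]
    rfl
  · simp only [cv, mul_sub]
    exact integral_sub (CONV_int hk hg x) (CONV_int hk hg' x)
  · have h := h1 g dg (ii_of_memLp hH.mem1) hH.prim _ (CONV_refl hk x)
    have e : ∀ y, deriv (fun y => k (x - y)) y = -deriv k (x - y) := fun y =>
      deriv_comp_const_sub k x y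
    simp only [e, Complex.ofReal_neg, mul_neg, integral_neg, neg_inj] at h
    simp only [cv, mul_comm]
    simpa only [mul_comm] using h

end Pool.Agent.Lib.MP_13801a_an
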