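import Mathlib
import Pool.Agent.Lib.MP_13801a_an.Sts

/-!
The final contradiction: the convex functional of the density is bounded and has a second
difference bounded below.
-/

open MeasureTheory Set Filter
open scoped Topology

namespace Pool.Agent.Lib.MP_13801a_an

theorem CORE_num {α S K Ks Kr Krs P Pr M Mr lam y0 q η : ℝ} (hα : 4 < α) (hS1 : 1 ≤ S)
    (hS2 : 2200 ≤ (α - 4) * S) (hK : 0 ≤ K) (hKs : Ks ≤ K + η) (hKr : Kr ≤ K) (hKrs : Krs ≤ Ks)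
    (hPr : P - y0 ≤ Pr) (hMr : Mr ≤ M) (hlam : 1 ≤ lam) (hy0 : 0 < y0) (hq : 0 ≤ q)
    (hqM : q * M ≤ y0) (hη : η ≤ y0 / 2200) (hen : K / 2 - lam * P / (α + 2) ≤ -(y0 * lam)) :
    3 * y0 / 2 ≤ -(4 * S * Kr) + 2 * α / (α + 2) * lam * (S * Pr - (S + 1) * q * Mr) -
      1100 * (Krs + Kr) := by
  have hα2 : 0 < α + 2 := by linarith
  obtain ⟨c, hc⟩ : ∃ c, c = 2 * α / (α + 2) := ⟨_, rfl⟩
  have hc0 : 0 ≤ c := by rw [hc]; exact div_nonneg (by linarith) hα2.le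
  have hc2 : c ≤ 2 := by rw [hc, div_le_iff₀ hα2]; linarith
  have hS0 : 0 ≤ S := by linarith
  have hl0 : 0 ≤ lam := by linarith
  have e1 : c * lam * (S * P) = 2 * α * S * (lam * P / (α + 2)) := by
    rw [hc]; field_simp
  have h1 : 2 * α * S * (K / 2 + y0 * lam) ≤ 2 * α * S * (lam * P / (α + 2)) :=
    mul_le_mul_of_nonneg_left (by linarith) (mul_nonneg (by linarith) hS0)
  have h2 : q * Mr ≤ y0 := (mul_le_mul_of_nonneg_left hMr hq).trans hqM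
  have h3 : S * P - S * y0 - 2 * S * y0 ≤ S * Pr - (S + 1) * q * Mr := by
    have a1 : S * (P - y0) ≤ S * Pr := mul_le_mul_of_nonneg_left hPr hS0
    have a2 : (S + 1) * (q * Mr) ≤ (S + 1) * y0 := mul_le_mul_of_nonneg_left h2 (by linarith)
    have a3 : (S + 1) * y0 ≤ 2 * S * y0 := mul_le_mul_of_nonneg_right (by linarith) hy0.le
    nlinarith
  have h4 : c * lam * (S * P - S * y0 - 2 * S * y0) ≤ c * lam * (S * Pr - (S + 1) * q * Mr) :=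
    mul_le_mul_of_nonneg_left h3 (mul_nonneg hc0 hl0)
  have hX : 0 ≤ lam * (S * y0) := by positivity
  have h5 : c * (lam * (S * y0)) ≤ 2 * (lam * (S * y0)) := mul_le_mul_of_nonneg_right hc2 hX
  have h6 : 4 * (lam * (S * y0)) ≤ α * (lam * (S * y0)) := mul_le_mul_of_nonneg_right hα.le hX
  have h7 : y0 ≤ lam * (S * y0) := by
    have a1 : 1 * y0 ≤ S * y0 := mul_le_mul_of_nonneg_right hS1 hy0.le
    have a2 : 1 * (S * y0) ≤ lam * (S * y0) := mul_le_mul_of_nonneg_right hlam (by positivity)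
    linarith
  have h8 : 2200 * K ≤ (α - 4) * S * K := mul_le_mul_of_nonneg_right hS2 hK
  have h9 : S * Kr ≤ S * K := mul_le_mul_of_nonneg_left hKr hS0
  rw [← hc]
  nlinarith

theorem CORE_small {C a b c δ1 δ2 δ3 : ℝ} (h1 : 0 < δ1) (h2 : 0 < δ2) (h3 : 0 < δ3) :
    ∃ r : ℝ, 0 < r ∧ a * r ≤ δ1 ∧ b * √(C * r ^ 3) ≤ δ2 ∧ c * √(C * r ^ 3) ≤ δ3 := by
  have t1 : Tendsto (fun r : ℝ => a * r) (𝓝[>] 0) (𝓝 0) := by
    have : Continuous fun r : ℝ => a * r := by fun_prop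
    simpa using (this.tendsto 0).mono_left nhdsWithin_le_nhds
  have t2 : ∀ d : ℝ, Tendsto (fun r : ℝ => d * √(C * r ^ 3)) (𝓝[>] 0) (𝓝 0) := by
    intro d
    have : Continuous fun r : ℝ => d * √(C * r ^ 3) := by fun_prop
    simpa using (this.tendsto 0).mono_left nhdsWithin_le_nhds
  obtain ⟨r, ⟨⟨a1, a2⟩, a3⟩, a4⟩ := ((((t1.eventually (ge_mem_nhds h1)).and
    ((t2 b).eventually (ge_mem_nhds h2))).and ((t2 c).eventually (ge_mem_nhds h3))).and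
    self_mem_nhdsWithin).exists
  exact ⟨r, a4, a1, a2, a3⟩

theorem CORE (h1 : St_BASIC) (h2 : St_MASS) (h3 : St_APX) (h4 : St_UNI1) (h5 : St_UNI2)
    (h6 : St_VIR1) (h7 : St_VIR2) (h8 : St_DENS) (h9 : St_WGT) (h10 : St_HH) (h11 : St_STAT)
    (h12 : St_LOW) (h13 : St_STEP) : St_CORE := by
  intro α κ v dv hα hκ hS t1 y0 ht1 hy0 hen
  obtain ⟨-, -, -, -, hbd, huc⟩ := h1 α κ v dv hα.le hS
  have hmass := h2 α κ v dv hα.le hS
  obtain ⟨M, hM⟩ : ∃ M, M = nsq (v 0) := ⟨_, rfl⟩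
  have hM0 : 0 ≤ M := hM ▸ nsq_nonneg _
  obtain ⟨ε2, hε2⟩ : ∃ ε2, ε2 = min 1 (y0 / (M + 1)) / 2 := ⟨_, rfl⟩
  have hmin : 0 < min 1 (y0 / (M + 1)) := lt_min one_pos (by positivity)
  have hε20 : 0 < ε2 := by rw [hε2]; positivity
  have hq0 : 0 ≤ (2 * ε2) ^ (α / 2) := by positivity
  have hqM : (2 * ε2) ^ (α / 2) * M ≤ y0 := by
    have e : 2 * ε2 = min 1 (y0 / (M + 1)) := by rw [hε2]; ring
    have a1 : (2 * ε2) ^ (α / 2) ≤ (2 * ε2) ^ (1 : ℝ) :=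
      Real.rpow_le_rpow_of_exponent_ge (by positivity) (by rw [e]; exact min_le_left _ _)
        (by linarith)
    rw [Real.rpow_one] at a1
    have a2 : 2 * ε2 ≤ y0 / (M + 1) := by rw [e]; exact min_le_right _ _
    have a3 : (2 * ε2) ^ (α / 2) * (M + 1) ≤ y0 := by
      rw [← le_div_iff₀ (by positivity)]; exact a1.trans a2
    nlinarith
  obtain ⟨ε1, S, w, w', hW, hS0⟩ := h9 ε2 (max 1 (2200 / (α - 4))) hε20
  have hS1 : 1 ≤ S := (le_max_left _ _).trans hS0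
  have hS2 : 2200 ≤ (α - 4) * S := by
    have := (le_max_right _ _).trans hS0
    rwa [div_le_iff₀' (by linarith)] at this
  obtain ⟨B, U, hU⟩ := h11 ε1 ε2 S M w w' hW
  obtain ⟨B1, hB1⟩ : ∃ B1, B1 = max B (S + 1) := ⟨_, rfl⟩
  have hBB : B ≤ B1 := hB1 ▸ le_max_left _ _
  have hSB : S + 1 ≤ B1 := hB1 ▸ le_max_right _ _
  have hB10 : 0 ≤ B1 := by linarith
  obtain ⟨T0, hT0⟩ : ∃ T0, T0 = 4 * B1 / y0 + 1 := ⟨_, rfl⟩
  have hT01 : 1 ≤ T0 := by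
    have : 0 ≤ 4 * B1 / y0 := by positivity
    linarith
  have hbig : 2 * B1 < y0 / 2 * T0 ^ 2 := by
    have a1 : y0 * T0 = 4 * B1 + y0 := by rw [hT0]; field_simp
    have a2 : y0 * T0 * 1 ≤ y0 * T0 * T0 := mul_le_mul_of_nonneg_left hT01 (by positivity)
    nlinarith
  obtain ⟨T, hT⟩ : ∃ T, T = t1 + 2 * T0 := ⟨_, rfl⟩
  obtain ⟨C0, hC0⟩ := hbd T
  obtain ⟨C1, hC10, hC1⟩ := h4.2 α C0 hα.le
  obtain ⟨C2, hC20, hC2⟩ := h5 α C0 hα.le
  obtain ⟨η, hη⟩ : ∃ η, η = min (ε1 / (2 * C1 + 1)) (y0 / 2200) := ⟨_, rfl⟩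
  have hε10 := hW.pos
  have hη0 : 0 < η := by rw [hη]; exact lt_min (by positivity) (by positivity)
  have hη1 : η * (2 * C1) ≤ ε1 := by
    have a1 : η ≤ ε1 / (2 * C1 + 1) := hη ▸ min_le_left _ _
    rw [le_div_iff₀ (by positivity)] at a1
    nlinarith
  have hη2 : η ≤ y0 / 2200 := hη ▸ min_le_right _ _
  obtain ⟨τ0, hτ0, hτuc⟩ := huc T η hη0
  obtain ⟨n, hn⟩ := exists_nat_gt (T0 / τ0)
  have hn0 : (0 : ℝ) < n := lt_trans (by positivity) hn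
  obtain ⟨τ, hτ⟩ : ∃ τ, τ = T0 / n := ⟨_, rfl⟩
  have hτpos : 0 < τ := by rw [hτ]; positivity
  have hnτ : n * τ = T0 := by rw [hτ]; field_simp
  have hττ : τ ≤ τ0 := by
    rw [hτ, div_le_iff₀ hn0]
    rw [div_lt_iff₀ hτ0] at hn
    linarith
  obtain ⟨r, hr, hr1, hr2, hr3⟩ := CORE_small (C := C2) (a := C1)
    (b := 2 * B1 * Real.exp (κ * T) * √C0) (c := Real.exp (κ * T) * B1 * (6 * √C0))
    hy0 (show 0 < y0 * τ / 4 by positivity) (show 0 < y0 / 2 by positivity)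
  have hA := h3 α κ v dv hα.le hS r hr
  have hin : ∀ t, 0 ≤ t → t ≤ T → |t| ≤ T := fun t h0 h1 => by rwa [abs_of_nonneg h0]
  have hu1 := fun t (h : |t| ≤ T) => hC1 (v t) (dv t) (hS.h1 t) (hC0 t h).1 (hC0 t h).2.1 r hr
  have hu2 := fun t (h : |t| ≤ T) => hC2 (v t) (dv t) (hS.h1 t) (hC0 t h).1 (hC0 t h).2.1 r hr
  have hMr : ∀ t, 0 ≤ t → t ≤ T → nsq (fm r v 0 t) ≤ M := fun t h0 h1 =>
    (hu1 t (hin t h0 h1)).1.trans (by rw [hmass t h0, hM])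
  have hD : ∀ t, 0 ≤ t → t ≤ T → Dens M fun x => ‖fm r v 0 t x‖ ^ 2 := fun t h0 h1 =>
    h8 _ _ _ (hA.sm2 t) M (hMr t h0 h1)
  have step : ∀ s, t1 ≤ s - τ → s + τ ≤ T → y0 / 2 * τ ^ 2 ≤
      U (fun x => ‖fm r v 0 (s + τ) x‖ ^ 2) + U (fun x => ‖fm r v 0 (s - τ) x‖ ^ 2) -
        2 * U fun x => ‖fm r v 0 s x‖ ^ 2 := by
    intro s hs1 hs2
    have hs0 : 0 ≤ s := by linarith
    have hsT : s ≤ T := by linarith
    obtain ⟨-, -, ψ, χ, hψ, hχ, hb, hsub⟩ := hU _ (hD s hs0 hsT)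
    obtain ⟨⟨L, hL⟩, hhb, -⟩ := h10 ε1 ε2 S M w w' _ hW (hD s hs0 hsT)
    have hχc : Continuous χ := continuous_iff_continuousAt.2 fun x => (hχ x).continuousAt
    have R1 := h6 α κ _ _ hα.le hA ψ χ B1 hψ hχc fun x =>
      ⟨(hb x).1.trans hBB, (hb x).2.trans hBB⟩
    have R2 := h7 α κ _ _ hα.le hA χ _ B1 hχ hL.continuous fun x =>
      ⟨(hb x).2.trans hBB, abs_le.2 ⟨by linarith [(hhb x).1], by linarith [(hhb x).2]⟩⟩
    have hst := h13.1 _ _ _ _ _ s τ (y0 * τ / 4) y0 R1 R2 hτpos.le (by linarith) ?_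
    · have a1 := hsub _ (hD (s + τ) (by linarith) hs2)
      have a2 := hsub _ (hD (s - τ) (by linarith) (by linarith))
      nlinarith
    intro σ hσ
    have hσ0 : 0 ≤ σ := by linarith [hσ.1]
    have hσT : σ ≤ T := by linarith [hσ.2]
    have hσa := hin σ hσ0 hσT
    have hsa := hin s hs0 hsT
    have hlam : Real.exp (κ * σ) ≤ Real.exp (κ * T) :=
      Real.exp_le_exp.2 (mul_le_mul_of_nonneg_left hσT hκ)
    have hlam1 : 1 ≤ Real.exp (κ * σ) := Real.one_le_exp (mul_nonneg hκ hσ0)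
    have hs0' : √(nsq (fm r v 0 σ)) ≤ √C0 :=
      Real.sqrt_le_sqrt ((hu1 σ hσa).1.trans (hC0 σ hσa).1)
    have hs1' : √(nsq (fm r v 1 σ)) ≤ √C0 :=
      Real.sqrt_le_sqrt ((hu1 σ hσa).2.1.trans (hC0 σ hσa).2.1)
    have hsc : √(nsq (com α (fm r v) (nm α r v) σ)) ≤ √(C2 * r ^ 3) :=
      Real.sqrt_le_sqrt (hu2 σ hσa)
    have hclose : |σ - s| ≤ τ0 := (abs_le.2 ⟨by linarith [hσ.1], by linarith [hσ.2]⟩).trans hττ
    obtain ⟨hc1, hc2, -⟩ := hτuc σ s hσa hsa hclose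
    refine ⟨le_trans ?_ hr2, ?_⟩
    · gcongr
    · have e2 : Real.exp (κ * σ) * B1 * (2 * √(nsq (fm r v 0 σ)) + 4 * √(nsq (fm r v 1 σ))) *
          √(nsq (com α (fm r v) (nm α r v) σ)) ≤ y0 / 2 := by
        refine le_trans ?_ hr3
        have : 2 * √(nsq (fm r v 0 σ)) + 4 * √(nsq (fm r v 1 σ)) ≤ 6 * √C0 := by linarith
        gcongr
      have hpt : ∀ x, ‖fm r v 0 σ x‖ ^ 2 ≤ ‖fm r v 0 s x‖ ^ 2 + ε1 := by
        intro x
        have a1 : ‖fm r v 0 σ x - fm r v 0 s x‖ ≤ η :=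
          h4.1 (v σ) (v s) r η (hS.h1 σ).mem0 (hS.h1 s).mem0 hr hc1 x
        have a2 : ‖fm r v 0 σ x‖ ≤ C1 := (hu1 σ hσa).2.2.2.1 x
        have a3 : ‖fm r v 0 s x‖ ≤ C1 := (hu1 s hsa).2.2.2.1 x
        have a4 : ‖fm r v 0 σ x‖ - ‖fm r v 0 s x‖ ≤ η := (norm_sub_norm_le _ _).trans a1
        have a5 := norm_nonneg (fm r v 0 σ x)
        have a6 := norm_nonneg (fm r v 0 s x)
        have a7 : (‖fm r v 0 σ x‖ - ‖fm r v 0 s x‖) * (‖fm r v 0 σ x‖ + ‖fm r v 0 s x‖) ≤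
            η * (2 * C1) :=
          (mul_le_mul_of_nonneg_right a4 (by linarith)).trans
            (mul_le_mul_of_nonneg_left (by linarith) hη0.le)
        nlinarith
      have hlow := h12 α (Real.exp (κ * σ)) ε1 ε2 S w w' _ _ _ _ _ _ hα.le (by linarith) hW
        (hA.sm2 s) (hA.sm2 σ) hpt
      have hnum := CORE_num (K := nsq (dv σ)) (Ks := nsq (dv s)) (Kr := nsq (fm r v 1 σ))
        (Krs := nsq (fm r v 1 s)) (P := pw α (v σ)) (Pr := pw α (fm r v 0 σ))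
        (Mr := nsq (fm r v 0 σ)) hα hS1 hS2 (nsq_nonneg _) (by linarith [(abs_le.1 hc2).1])
        (hu1 σ hσa).2.1 (hu1 s hsa).2.1
        (by
          have a1 : |pw α (fm r v 0 σ) - pw α (v σ)| ≤ C1 * r := (hu1 σ hσa).2.2.2.2.2.1
          linarith [(abs_le.1 a1).1])
        (hMr σ hσ0 hσT) hlam1 hy0 hq0 hqM hη2 (hen σ (by linarith [hσ.1]))
      linarith
  have hfin := h13.2 (fun j => U fun x => ‖fm r v 0 (t1 + j * τ) x‖ ^ 2) (y0 / 2 * τ ^ 2) n ?_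
  · have hend : t1 + ((2 * n : ℕ) : ℝ) * τ = T := by
      push_cast; rw [hT, ← hnτ]; ring
    have hmid : t1 + (n : ℝ) * τ ≤ T := by rw [hT, hnτ]; linarith
    have b1 := (hU _ (hD T (by linarith) le_rfl)).2.1
    have b2 := (hU _ (hD t1 ht1 (by linarith))).2.1
    have b3 := (hU _ (hD (t1 + n * τ) (by positivity) hmid)).1
    simp only [hend, Nat.cast_zero, zero_mul, add_zero] at hfin
    have e : y0 / 2 * τ ^ 2 * (n : ℝ) ^ 2 = y0 / 2 * T0 ^ 2 := by rw [← hnτ]; ring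
    linarith
  · intro j hj
    have hj' : (j : ℝ) + 2 ≤ 2 * n := by exact_mod_cast hj
    have hj0 : (0 : ℝ) ≤ j := Nat.cast_nonneg j
    have := step (t1 + (j + 1) * τ) (by nlinarith) (by rw [hT, ← hnτ]; nlinarith)
    have e1 : t1 + ((j : ℝ) + 1) * τ + τ = t1 + ((j + 2 : ℕ) : ℝ) * τ := by push_cast; ring
    have e2 : t1 + ((j : ℝ) + 1) * τ - τ = t1 + (j : ℝ) * τ := by ring
    have e3 : t1 + ((j : ℝ) + 1) * τ = t1 + ((j + 1 : ℕ) : ℝ) * τ := by push_cast; ring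
    rw [e1, e2, e3] at this
    exact this

end Pool.Agent.Lib.MP_13801a_an
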