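import Mathlib
import Pool.Agent.Lib.MP_13801a_an.Sts

/-!
The dispersive term of the virial identity and the lower bound for its right hand side.
-/

open MeasureTheory Set Filter
open scoped ContDiff Topology ComplexConjugate

namespace Pool.Agent.Lib.MP_13801a_an

theorem DISP_re_le (a b : ℂ) : (2 * (conj a * b).re) ^ 2 ≤ 4 * ‖a‖ ^ 2 * ‖b‖ ^ 2 := by
  have h1 : |(conj a * b).re| ≤ ‖a‖ * ‖b‖ := by
    refine (Complex.abs_re_le_norm _).trans ?_
    rw [norm_mul, Complex.norm_conj]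
  have h2 : (conj a * b).re ^ 2 ≤ (‖a‖ * ‖b‖) ^ 2 := by
    rw [← sq_abs]
    exact pow_le_pow_left₀ (abs_nonneg _) h1 2
  nlinarith

theorem DISP_der {a b : ℝ → ℂ} {a' b' : ℂ} {x : ℝ} (ha : HasDerivAt a a' x)
    (hb : HasDerivAt b b' x) : HasDerivAt (fun y => 2 * (conj (a y) * b y).re)
      (2 * (conj a' * b x).re + 2 * (conj (a x) * b').re) x := by
  have h1 : HasDerivAt (fun y => conj (a y)) (conj a') x :=
    Complex.conjCLE.toContinuousLinearMap.hasFDerivAt.comp_hasDerivAt x ha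
  have h2 := (Complex.reCLM.hasFDerivAt.comp_hasDerivAt x (h1.mul hb)).const_mul 2
  refine h2.congr_deriv ?_
  simp only [Complex.reCLM_apply, Complex.add_re]
  ring

theorem DISP_self (a : ℂ) : (conj a * a).re = ‖a‖ ^ 2 := by
  rw [Complex.conj_mul', ← Complex.ofReal_pow, Complex.ofReal_re]

theorem DISP_pt {e X W W' r G b d : ℝ} (he : 0 < e) (hW0 : 0 ≤ W) (hW : e * W ≤ 1)
    (hW' : e ^ 2 * |W'| ≤ 3) (hr : r ^ 2 ≤ 4 * e * b) (hG : G ^ 2 ≤ 8 * e * d) :
    |(W' * X - W * r) * G| ≤ 3 * (X ^ 2 / e ^ 3) + 9 * d + 3 * b := by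
  have hd : 0 ≤ d := by
    by_contra h
    have := mul_pos he (neg_pos.2 (not_le.1 h))
    nlinarith [sq_nonneg G]
  have h1 : |W' * X * G| ≤ 3 * (X ^ 2 / e ^ 3) + 6 * d := by
    have h3 : 0 < e ^ 3 := by positivity
    have h4 : e ^ 3 * |W' * X * G| ≤ 3 * X ^ 2 + 6 * d * e ^ 3 := by
      have h5 : e * (|X| * |G|) ≤ X ^ 2 + e ^ 2 * G ^ 2 / 4 := by
        nlinarith [sq_nonneg (|X| - e * |G| / 2), sq_abs X, sq_abs G]
      have h6 : e ^ 2 * G ^ 2 ≤ e ^ 2 * (8 * e * d) := mul_le_mul_of_nonneg_left hG (by positivity)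
      have h7 : e ^ 2 * |W'| * (e * (|X| * |G|)) ≤ 3 * (e * (|X| * |G|)) :=
        mul_le_mul_of_nonneg_right hW' (by positivity)
      rw [abs_mul, abs_mul]
      nlinarith
    have h8 : 3 * (X ^ 2 / e ^ 3) + 6 * d = (3 * X ^ 2 + 6 * d * e ^ 3) / e ^ 3 := by
      field_simp
    rw [h8, le_div_iff₀ h3]
    linarith
  have h2 : |W * r * G| ≤ 3 * d + 3 * b := by
    have h5 : |r| * |G| ≤ 3 / 4 * r ^ 2 + G ^ 2 / 3 := by
      nlinarith [sq_nonneg (|r| - 2 / 3 * |G|), sq_abs r, sq_abs G]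
    have h6 : |r| * |G| ≤ e * (3 * d + 3 * b) := by nlinarith [mul_nonneg he.le hd]
    have h7 : e * W * (|r| * |G|) ≤ 1 * (|r| * |G|) :=
      mul_le_mul_of_nonneg_right hW (by positivity)
    rw [abs_mul, abs_mul, abs_of_nonneg hW0]
    refine le_of_mul_le_mul_left ?_ he
    nlinarith
  calc |(W' * X - W * r) * G| = |W' * X * G - W * r * G| := by rw [sub_mul]
    _ ≤ |W' * X * G| + |W * r * G| := abs_sub _ _
    _ ≤ _ := by linarith

theorem DISP (h1 : St_DENS) (h2 : St_EM) (h3 : St_HH) (h4 : St_EGRAD) : St_DISP := by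
  intro ε1 ε2 S w w' f0 f1 f2 p0 p1 p2 hw hf hp hle
  set ρ : ℝ → ℝ := fun y => ‖f0 y‖ ^ 2 with hρ
  have hD : Dens (nsq f0) ρ := h1 f0 f1 f2 hf _ le_rfl
  obtain ⟨⟨Le, hLe⟩, -, hρe, -, hhole, -⟩ := h2 _ ρ hD
  obtain ⟨⟨L, hL⟩, -, -, hz, -, hder⟩ := h3 ε1 ε2 S _ w w' ρ hw hD
  obtain ⟨hI, hIle⟩ := h4 f0 f1 f2 ρ hf rfl
  obtain ⟨R0, hR0⟩ := (hhole ε1 hw.pos).bdd
  set R := max R0 0 with hR
  have hR1 : 0 ≤ R := le_max_right _ _
  have hzero : ∀ x, R ≤ |x| → hh w ρ x = 0 := fun x hx =>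
    hz x (hR0 x ((le_max_left _ _).trans hx))
  set G : ℝ → ℝ := fun y => 2 * (conj (p0 y) * p1 y).re with hG
  have hGd : ∀ x, HasDerivAt G (rho2 p0 p1 p2 x) x := fun x => by
    refine (DISP_der (hp.d0 x) (hp.d1 x)).congr_deriv ?_
    rw [DISP_self, rho2]
  have hGd' : deriv G = rho2 p0 p1 p2 := funext fun x => (hGd x).deriv
  have c0 : Continuous p0 := continuous_iff_continuousAt.2 fun x => (hp.d0 x).continuousAt
  have c1 : Continuous p1 := continuous_iff_continuousAt.2 fun x => (hp.d1 x).continuousAt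
  have c2 := hp.c2
  have hGc : ContDiff ℝ 1 G := by
    refine contDiff_one_iff_deriv.2 ⟨fun x => (hGd x).differentiableAt, ?_⟩
    rw [hGd']
    unfold rho2
    fun_prop
  have hibp := (hL.lipschitzOnWith.absolutelyContinuousOnInterval (a := -R) (b := R)
    ).integral_mul_deriv_eq_deriv_mul hGc.contDiffOn.absolutelyContinuousOnInterval
  rw [hGd', hzero R (le_abs_self R), hzero (-R) (by rw [abs_neg]; exact le_abs_self R),
    intervalIntegral.integral_eq_integral_of_support_subset (fun x hx => by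
      by_contra h
      refine hx ?_
      show hh w ρ x * rho2 p0 p1 p2 x = 0
      rw [hzero x, zero_mul]
      by_contra h'
      have h'' := abs_lt.1 (not_le.1 h')
      exact h ⟨h''.1, h''.2.le⟩)] at hibp
  rw [hibp, zero_mul, zero_mul, sub_zero, zero_sub, abs_neg,
    intervalIntegral.integral_of_le (by linarith)]
  have i1 := integrable_nsq hp.m1
  have i2 := integrable_nsq hf.m1
  have hA : Integrable fun x => 3 * ((em ρ x - ρ x) ^ 2 * deriv (em ρ) x ^ 2 / em ρ x ^ 3) +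
      9 * ‖p1 x‖ ^ 2 := (hI.const_mul 3).add (i1.const_mul 9)
  have hB : Integrable fun x => 3 * ((em ρ x - ρ x) ^ 2 * deriv (em ρ) x ^ 2 / em ρ x ^ 3) +
      9 * ‖p1 x‖ ^ 2 + 3 * ‖f1 x‖ ^ 2 := hA.add (i2.const_mul 3)
  have he0 : ∀ x, 0 ≤ em ρ x := fun x => (hD.nonneg x).trans (hρe x)
  have hpt : ∀ᵐ x, ‖deriv (hh w ρ) x * G x‖ ≤
      3 * ((em ρ x - ρ x) ^ 2 * deriv (em ρ) x ^ 2 / em ρ x ^ 3) +
        9 * ‖p1 x‖ ^ 2 + 3 * ‖f1 x‖ ^ 2 := by
    filter_upwards [hLe.ae_differentiableAt] with x hx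
    have hρd : HasDerivAt ρ (2 * (conj (f0 x) * f1 x).re) x := by
      have h5 := (DISP_der (hf.d0 x) (hf.d0 x)).div_const 2
      have h6 : (fun y => 2 * (conj (f0 y) * f0 y).re / 2) = ρ := funext fun y => by
        rw [DISP_self, hρ]
        ring
      rw [h6] at h5
      refine h5.congr_deriv ?_
      simp only [Complex.mul_re, Complex.conj_re, Complex.conj_im]
      ring
    rw [(hder x _ _ hx.hasDerivAt hρd).deriv, Real.norm_eq_abs]
    by_cases h : em ρ x ≤ ε1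
    · obtain ⟨h5, h6⟩ := hw.zero _ (Or.inl h)
      rw [h5, h6]
      have := he0 x
      simp only [zero_mul, sub_zero, abs_zero]
      positivity
    · have h5 : ε1 < em ρ x := not_le.1 h
      have h6 : ‖f0 x‖ ^ 2 ≤ em ρ x := hρe x
      have h7 : ‖p0 x‖ ^ 2 ≤ 2 * em ρ x := by linarith [hle x]
      rw [mul_assoc (w' _), ← mul_pow]
      refine DISP_pt (hw.pos.trans h5) (hw.nonneg _) (hw.le _) (hw.le' _) ?_ ?_
      · refine (DISP_re_le _ _).trans ?_
        nlinarith [mul_le_mul_of_nonneg_right h6 (sq_nonneg ‖f1 x‖)]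
      · refine (DISP_re_le _ _).trans ?_
        nlinarith [mul_le_mul_of_nonneg_right h7 (sq_nonneg ‖p1 x‖)]
  have h8 := norm_integral_le_of_norm_le (hB.integrableOn (s := Ioc (-R) R))
    (ae_restrict_of_ae hpt)
  have h9 := setIntegral_le_integral (s := Ioc (-R) R) hB
    (Eventually.of_forall fun x => by
      have := he0 x
      simp only [Pi.zero_apply]
      positivity)
  rw [integral_add hA (i2.const_mul 3),
    integral_add (hI.const_mul 3) (i1.const_mul 9), integral_const_mul, integral_const_mul,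
    integral_const_mul] at h9
  have h10 := nsq_nonneg f1
  have h11 := nsq_nonneg p1
  rw [Real.norm_eq_abs] at h8
  unfold nsq at *
  linarith

theorem LOW (h1 : St_DENS) (h2 : St_HH) (h3 : St_DISP) (h4 : St_NL) : St_LOW := by
  intro α lam ε1 ε2 S w w' f0 f1 f2 p0 p1 p2 hα hlam hw hf hp hle
  have hd := h3 ε1 ε2 S w w' f0 f1 f2 p0 p1 p2 hw hf hp hle
  set ρ : ℝ → ℝ := fun y => ‖f0 y‖ ^ 2 with hρ
  have hD : Dens (nsq f0) ρ := h1 f0 f1 f2 hf _ le_rfl
  obtain ⟨⟨L, hL⟩, hb, hS, -⟩ := h2 ε1 ε2 S _ w w' ρ hw hD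
  have hS1 : 0 ≤ S + 1 := by linarith [(hb 0).1, (hb 0).2]
  have hint : ∀ u : ℝ → ℝ, Integrable u → Integrable fun x => hh w ρ x * u x := fun u hu =>
    hu.bdd_mul (c := |S| + 1) hL.continuous.aestronglyMeasurable
      (Eventually.of_forall fun x => by
        rw [Real.norm_eq_abs, abs_le]
        constructor <;> linarith [(hb x).1, (hb x).2, le_abs_self S, abs_nonneg S])
  obtain ⟨C, hC⟩ := hp.bd
  have i0 := integrable_nsq hp.m0
  have i1 := integrable_nsq hp.m1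
  have i2 := ((h4 α hα).2.2.2.2.2 p0 C hp.m0 fun x => (hC x).1).2
  have e1 : -(S * nsq p1) ≤ ∫ x, hh w ρ x * ‖p1 x‖ ^ 2 := by
    rw [nsq, ← neg_mul, ← integral_const_mul]
    exact integral_mono (i1.const_mul _) (hint _ i1) fun x =>
      mul_le_mul_of_nonneg_right (hb x).1 (sq_nonneg _)
  have hε2 : 0 < ε2 := hw.pos.trans hw.lt
  have e2 : ∫ x, hh w ρ x * ‖p0 x‖ ^ (α + 2) ≤
      (S + 1) * (2 * ε2) ^ (α / 2) * nsq p0 - S * pw α p0 := by
    rw [nsq, pw, ← integral_const_mul, ← integral_const_mul,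
      ← integral_sub (i0.const_mul _) (i2.const_mul _)]
    refine integral_mono (hint _ i2) ((i0.const_mul _).sub (i2.const_mul _)) fun x => ?_
    show hh w ρ x * ‖p0 x‖ ^ (α + 2) ≤
      (S + 1) * (2 * ε2) ^ (α / 2) * ‖p0 x‖ ^ 2 - S * ‖p0 x‖ ^ (α + 2)
    by_cases h : ε2 ≤ ρ x
    · rw [hS x h]
      have : 0 ≤ (S + 1) * (2 * ε2) ^ (α / 2) * ‖p0 x‖ ^ 2 := by positivity
      linarith
    · have h5 : ‖p0 x‖ ^ 2 ≤ 2 * ε2 := by
        have h6 : ‖f0 x‖ ^ 2 < ε2 := not_le.1 h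
        linarith [hle x, hw.lt]
      have h6 : ‖p0 x‖ ^ (α + 2) ≤ (2 * ε2) ^ (α / 2) * ‖p0 x‖ ^ 2 := by
        rw [Real.rpow_add' (norm_nonneg _) (by linarith), Real.rpow_two]
        refine mul_le_mul_of_nonneg_right ?_ (sq_nonneg _)
        have h7 : ‖p0 x‖ ^ α = (‖p0 x‖ ^ 2) ^ (α / 2) := by
          rw [← Real.rpow_two, ← Real.rpow_mul (norm_nonneg _)]
          congr 1
          ring
        rw [h7]
        exact Real.rpow_le_rpow (sq_nonneg _) h5 (by linarith)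
      have h8 : 0 ≤ ‖p0 x‖ ^ (α + 2) := by positivity
      nlinarith [mul_le_mul_of_nonneg_left h6 hS1, mul_le_mul_of_nonneg_right (hb x).2 h8]
  have hc : 0 ≤ 2 * α / (α + 2) * lam := by
    have : 0 < α := by linarith
    positivity
  have e3 := mul_le_mul_of_nonneg_left e2 hc
  have e4 := (abs_le.1 hd).2
  unfold vir
  linarith

end Pool.Agent.Lib.MP_13801a_an
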