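import Mathlib
import Pool.Agent.Lib.MP_13801a_an.Sts

/-!
A weighted bound for the gradient of the maximal function.
-/

open MeasureTheory Set Filter
open scoped Topology ENNReal

namespace Pool.Agent.Lib.MP_13801a_an

theorem EGRAD_one {r : ℝ} (hr : 0 ≤ r) :
    ∫⁻ ε in Ioi (0 : ℝ), ENNReal.ofReal (r / (r + ε) ^ 2) ≤ 1 := by
  rcases hr.eq_or_lt with rfl | hr
  · simp
  have h1 : ∀ x ∈ Ici (0 : ℝ), HasDerivAt (fun ε => -r * (r + ε)⁻¹) (r / (r + x) ^ 2) x :=
    fun x hx => by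
      have h0 : r + x ≠ 0 := (add_pos_of_pos_of_nonneg hr hx).ne'
      exact ((((hasDerivAt_id' x).const_add r).inv h0).const_mul (-r)).congr_deriv (by ring)
  have h2 : ∀ x ∈ Ioi (0 : ℝ), 0 ≤ r / (r + x) ^ 2 := fun x _ => by positivity
  have h3 : Tendsto (fun ε => -r * (r + ε)⁻¹) atTop (𝓝 (-r * 0)) :=
    (tendsto_atTop_add_const_left _ r tendsto_id).inv_tendsto_atTop.const_mul _
  rw [← ofReal_integral_eq_lintegral_ofReal (integrableOn_Ioi_deriv_of_nonneg' h1 h2 h3)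
    (ae_of_all _ fun x => by positivity), integral_Ioi_of_hasDerivAt_of_nonneg' h1 h2 h3]
  simp [hr.ne']

/-- The kernel of the double integral. -/
noncomputable def EGRAD_K (e ρ q : ℝ → ℝ) (p : ℝ × ℝ) : ℝ≥0∞ :=
  ENNReal.ofReal |deriv e p.1| * ENNReal.ofReal (ρ p.2 / (ρ p.2 + e p.1) ^ 2) *
    ENNReal.ofReal (q p.2)

theorem EGRAD_meas {e ρ q : ℝ → ℝ} (he : Continuous e) (hρ : Continuous ρ) (hq : Continuous q) :
    Measurable (EGRAD_K e ρ q) := by
  have := measurable_deriv e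
  have := he.measurable
  have := hρ.measurable
  have := hq.measurable
  unfold EGRAD_K
  fun_prop

theorem EGRAD_swap {e ρ q : ℝ → ℝ} (he : Continuous e) (hρ : Continuous ρ) (hq : Continuous q)
    (h0 : ∀ z, 0 ≤ ρ z) {S : Set (ℝ × ℝ)} (hS : MeasurableSet S)
    (hd : ∀ p ∈ S, DifferentiableAt ℝ e p.1 ∧ 0 < e p.1) (hi : ∀ z, InjOn e {x | (x, z) ∈ S}) :
    ∫⁻ x, ∫⁻ z, S.indicator (EGRAD_K e ρ q) (x, z) ≤ ∫⁻ z, ENNReal.ofReal (q z) := by
  have hm := (EGRAD_meas he hρ hq).indicator hS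
  rw [lintegral_lintegral_swap (f := fun x z => S.indicator (EGRAD_K e ρ q) (x, z)) hm.aemeasurable]
  refine lintegral_mono fun z => ?_
  have hz : MeasurableSet {x | (x, z) ∈ S} := measurable_prodMk_right hS
  have h1 := lintegral_image_eq_lintegral_abs_deriv_mul hz
    (fun x hx => (hd _ hx).1.hasDerivAt.hasDerivWithinAt) (hi z)
    fun ε => ENNReal.ofReal (ρ z / (ρ z + ε) ^ 2)
  have h2 : ∫⁻ x, S.indicator (EGRAD_K e ρ q) (x, z) =
      ∫⁻ x in {x | (x, z) ∈ S}, EGRAD_K e ρ q (x, z) := by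
    rw [← lintegral_indicator hz]
    rfl
  simp only [h2, EGRAD_K]
  rw [lintegral_mul_const' _ _ ENNReal.ofReal_ne_top, ← h1]
  refine mul_le_of_le_one_left' ((lintegral_mono_set ?_).trans (EGRAD_one (h0 z)))
  rintro _ ⟨x, hx, rfl⟩
  exact (hd _ hx).2

theorem EGRAD (h1 : St_DENS) (h2 : St_EM) (h3 : St_ENV) (h4 : St_CLIMB) : St_EGRAD := by
  intro f0 f1 f2 ρ hs hρ
  have hD : Dens _ ρ := hρ ▸ h1 f0 f1 f2 hs _ le_rfl
  obtain ⟨⟨L, hL⟩, -, e1, -, -, -, -, e2⟩ := h2 _ ρ hD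
  obtain ⟨v1, v2⟩ := h3 _ ρ hD
  have ce := hL.continuous
  have cρ := hD.lip.choose_spec.continuous
  have c1 : Continuous f1 := continuous_iff_continuousAt.2 fun x => (hs.d1 x).continuousAt
  have cq : Continuous fun z => ‖f1 z‖ ^ 2 := by fun_prop
  have r0 := hD.nonneg
  set e := em ρ
  let A : Set ℝ := {x | DifferentiableAt ℝ e x} ∩ {x | ρ x < e x}
  let s : ℝ → ℝ := fun x => 2 * (e x - ρ x) / deriv e x
  have hA : MeasurableSet A := (measurableSet_of_differentiableAt ℝ e).inter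
    (measurableSet_lt cρ.measurable ce.measurable)
  have ms : Measurable fun p : ℝ × ℝ => p.1 + s p.1 := by
    have := measurable_deriv e
    have := ce.measurable
    have := cρ.measurable
    fun_prop
  have uq : ∀ x ∈ A, ∀ t, t ≠ 0 → mm ρ x t = e x → t = s x := fun x hx t t0 ht => by
    have a := v1 x t hx.1 t0 ht
    refine (eq_div_iff fun b => ?_).2 a
    rw [b, mul_zero] at a
    linarith [show ρ x < e x from hx.2]
  have mx : ∀ x ∈ A, s x ≠ 0 ∧ mm ρ x (s x) = e x := fun x hx => by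
    obtain ⟨t, t0, ht⟩ := e2 x hx.2
    exact uq x hx t t0 ht ▸ ⟨t0, ht⟩
  have no : ∀ x ∈ A, ∀ y, e y = e x → ¬ (x < y ∧ y < x + s x ∨ x + s x < y ∧ y < x) :=
    fun x hx y hy h => by
      have := uq x hx _ (by rcases h with h | h <;> intro a <;> linarith [h.1, h.2])
        (v2 x y _ (mx x hx).2 hy h)
      rcases h with h | h <;> linarith [h.1, h.2]
  let S₁ : Set (ℝ × ℝ) := Prod.fst ⁻¹' A ∩ ({p | p.1 < p.2} ∩ {p | p.2 ≤ p.1 + s p.1})
  let S₂ : Set (ℝ × ℝ) := Prod.fst ⁻¹' A ∩ ({p | p.1 + s p.1 < p.2} ∩ {p | p.2 ≤ p.1})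
  have m1 : MeasurableSet S₁ := (measurable_fst hA).inter
    ((measurableSet_lt measurable_fst measurable_snd).inter (measurableSet_le measurable_snd ms))
  have m2 : MeasurableSet S₂ := (measurable_fst hA).inter
    ((measurableSet_lt ms measurable_snd).inter (measurableSet_le measurable_snd measurable_fst))
  have b1 := EGRAD_swap ce cρ cq r0 m1 (fun p hp => ⟨hp.1.1, (r0 _).trans_lt hp.1.2⟩)
    fun z x hx y hy h => le_antisymm
      (not_lt.1 fun a => no y hy.1 x h (Or.inl ⟨a, hx.2.1.trans_le hy.2.2⟩))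
      (not_lt.1 fun a => no x hx.1 y h.symm (Or.inl ⟨a, hy.2.1.trans_le hx.2.2⟩))
  have b2 := EGRAD_swap ce cρ cq r0 m2 (fun p hp => ⟨hp.1.1, (r0 _).trans_lt hp.1.2⟩)
    fun z x hx y hy h => le_antisymm
      (not_lt.1 fun a => no x hx.1 y h.symm (Or.inr ⟨hx.2.1.trans_le hy.2.2, a⟩))
      (not_lt.1 fun a => no y hy.1 x h (Or.inr ⟨hy.2.1.trans_le hx.2.2, a⟩))
  have mK := EGRAD_meas ce cρ cq
  set K := EGRAD_K e ρ fun z => ‖f1 z‖ ^ 2 with hK
  have pt : ∀ x, ENNReal.ofReal ((e x - ρ x) ^ 2 * deriv e x ^ 2 / e x ^ 3) ≤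
      128 * ((∫⁻ z, S₁.indicator K (x, z)) + ∫⁻ z, S₂.indicator K (x, z)) := fun x => by
    by_cases hx : x ∈ A
    swap
    · rcases not_and_or.1 hx with a | a
      · simp [deriv_zero_of_not_differentiableAt a]
      · simp [le_antisymm (e1 x) (not_lt.1 a)]
    have p0 : 0 < e x := (r0 x).trans_lt hx.2
    have a1 := h4 f0 f1 (e x) x (s x) hs.d0 c1 p0 (by simpa only [hρ] using e1 x)
      (hρ ▸ (mx x hx).2.ge)
    have a2 : ∀ z, ‖f0 z‖ ^ 2 = ρ z := fun z => by rw [hρ]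
    simp only [a2] at a1
    have a3 : ∀ z, 0 ≤ ρ z / (ρ z + e x) ^ 2 := fun z => div_nonneg (r0 z) (sq_nonneg _)
    have a4 : Continuous fun z => ρ z / (ρ z + e x) ^ 2 * ‖f1 z‖ ^ 2 :=
      (cρ.div (by fun_prop) fun z => (pow_pos (by linarith [r0 z]) 2).ne').mul cq
    have a5 := ofReal_integral_eq_lintegral_ofReal
      (a4.intervalIntegrable (μ := volume) x (x + s x)).def'
      (ae_of_all _ fun z => mul_nonneg (a3 z) (sq_nonneg _))
    have a6 : 0 ≤ ∫ z in uIoc x (x + s x), ρ z / (ρ z + e x) ^ 2 * ‖f1 z‖ ^ 2 :=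
      integral_nonneg fun z => mul_nonneg (a3 z) (sq_nonneg _)
    have a7 : |s x| * |deriv e x| ≤ 2 * e x := by
      rw [← abs_mul, v1 x _ hx.1 (mx x hx).1 (mx x hx).2, abs_of_nonneg (by linarith [e1 x])]
      linarith [r0 x]
    set J := ∫ z in uIoc x (x + s x), ρ z / (ρ z + e x) ^ 2 * ‖f1 z‖ ^ 2
    have a8 : (e x - ρ x) ^ 2 * deriv e x ^ 2 / e x ^ 3 ≤ 128 * (|deriv e x| * J) := by
      rw [div_le_iff₀ (pow_pos p0 3), ← sq_abs (deriv e x)]
      nlinarith [mul_le_mul_of_nonneg_right a1 (sq_nonneg |deriv e x|),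
        mul_le_mul_of_nonneg_right a7 (show 0 ≤ e x ^ 2 * (|deriv e x| * J) by positivity)]
    refine (ENNReal.ofReal_le_ofReal a8).trans ?_
    rw [ENNReal.ofReal_mul (by norm_num), ENNReal.ofReal_mul (abs_nonneg _), a5,
      ← lintegral_const_mul' _ _ ENNReal.ofReal_ne_top, ← lintegral_indicator measurableSet_uIoc,
      ← lintegral_add_left (f := fun z => S₁.indicator K (x, z))
        ((mK.indicator m1).comp measurable_prodMk_left), ENNReal.ofReal_ofNat]
    refine mul_le_mul_right (lintegral_mono fun z => ?_) _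
    refine indicator_apply_le' (fun hz => ?_) fun _ => zero_le
    rw [ENNReal.ofReal_mul (a3 z), ← mul_assoc]
    rcases mem_uIoc.1 hz with a | a
    · exact (indicator_of_mem (show (x, z) ∈ S₁ from ⟨hx, a⟩) K).ge.trans le_self_add
    · exact (indicator_of_mem (show (x, z) ∈ S₂ from ⟨hx, a⟩) K).ge.trans le_add_self
  have tot := lintegral_mono (μ := volume) pt
  rw [lintegral_const_mul' _ _ (by norm_num),
    lintegral_add_left (mK.indicator m1).lintegral_prod_right'] at tot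
  replace tot := tot.trans (mul_le_mul_right (add_le_add b1 b2) _)
  rw [← ofReal_integral_eq_lintegral_ofReal (integrable_nsq hs.m1) (ae_of_all _ fun z => sq_nonneg _),
    ← two_mul, ← mul_assoc, show (128 * 2 : ℝ≥0∞) = ENNReal.ofReal 256 by norm_num,
    ← ENNReal.ofReal_mul (by norm_num)] at tot
  have n0 : 0 ≤ᵐ[volume] fun x => (e x - ρ x) ^ 2 * deriv e x ^ 2 / e x ^ 3 :=
    ae_of_all _ fun x => div_nonneg (by positivity) (pow_nonneg ((r0 x).trans (e1 x)) 3)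
  have n1 : Measurable fun x => (e x - ρ x) ^ 2 * deriv e x ^ 2 / e x ^ 3 := by
    have := measurable_deriv e
    have := ce.measurable
    have := cρ.measurable
    fun_prop
  refine ⟨(lintegral_ofReal_ne_top_iff_integrable n1.aestronglyMeasurable n0).1
    (ne_top_of_le_ne_top ENNReal.ofReal_ne_top tot), ?_⟩
  rw [integral_eq_lintegral_of_nonneg_ae n0 n1.aestronglyMeasurable]
  exact ENNReal.toReal_le_of_le_ofReal (mul_nonneg (by norm_num) (nsq_nonneg _)) tot

end Pool.Agent.Lib.MP_13801a_an
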