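import Mathlib
import Pool.Agent.Lib.MP_13801a_an.Sts

/-!
The maximal function of a density.
-/

open MeasureTheory Set Filter
open scoped Topology

namespace Pool.Agent.Lib.MP_13801a_an

theorem EM_one : ∫ θ in (0 : ℝ)..1, (1 - θ) = 1 / 2 := by
  rw [intervalIntegral.integral_sub (by simp) (by simp)]
  simp only [integral_id, intervalIntegral.integral_const, smul_eq_mul]
  norm_num

theorem EM_ii {ρ : ℝ → ℝ} (hc : Continuous ρ) (x s : ℝ) :
    IntervalIntegrable (fun θ : ℝ => (1 - θ) * ρ (x + θ * s)) volume 0 1 :=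
  Continuous.intervalIntegrable (by fun_prop) _ _

theorem EM_sub {ρ : ℝ → ℝ} (hc : Continuous ρ) (x s c : ℝ) :
    2 * ∫ θ in (0 : ℝ)..1, (1 - θ) * (ρ (x + θ * s) - c) = mm ρ x s - c := by
  have h1 : IntervalIntegrable (fun θ : ℝ => (1 - θ) * c) volume 0 1 :=
    Continuous.intervalIntegrable (by fun_prop) _ _
  have h2 : ∀ θ : ℝ, (1 - θ) * (ρ (x + θ * s) - c) = (1 - θ) * ρ (x + θ * s) - (1 - θ) * c :=
    fun θ => by ring
  simp only [h2]
  rw [intervalIntegral.integral_sub (EM_ii hc x s) h1, intervalIntegral.integral_mul_const, EM_one,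
    mm]
  ring

theorem EM_cmp {ρ : ℝ → ℝ} (hc : Continuous ρ) {x s y t c : ℝ}
    (h : ∀ θ ∈ Icc (0 : ℝ) 1, ρ (x + θ * s) ≤ ρ (y + θ * t) + c) : mm ρ x s ≤ mm ρ y t + c := by
  have h1 := EM_sub hc x s c
  have h2 : ∫ θ in (0 : ℝ)..1, (1 - θ) * (ρ (x + θ * s) - c) ≤
      ∫ θ in (0 : ℝ)..1, (1 - θ) * ρ (y + θ * t) :=
    intervalIntegral.integral_mono_on zero_le_one
      (Continuous.intervalIntegrable (by fun_prop) _ _) (EM_ii hc y t) fun θ hθ =>
        mul_le_mul_of_nonneg_left (by linarith [h θ hθ]) (by linarith [hθ.2])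
  rw [mm.eq_1 ρ y t]
  linarith

theorem EM_le {ρ : ℝ → ℝ} (hc : Continuous ρ) {x s c : ℝ}
    (h : ∀ θ ∈ Icc (0 : ℝ) 1, ρ (x + θ * s) ≤ c) : mm ρ x s ≤ c := by
  have h1 := EM_sub hc x s c
  have h2 : 0 ≤ ∫ θ in (0 : ℝ)..1, -((1 - θ) * (ρ (x + θ * s) - c)) :=
    intervalIntegral.integral_nonneg zero_le_one fun θ hθ => by
      nlinarith [h θ hθ, hθ.2]
  rw [intervalIntegral.integral_neg] at h2
  linarith

theorem EM_zero (ρ : ℝ → ℝ) (x : ℝ) : mm ρ x 0 = ρ x := by
  simp only [mm, mul_zero, add_zero]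
  rw [intervalIntegral.integral_mul_const, EM_one]
  ring

theorem EM_cont {ρ : ℝ → ℝ} (hc : Continuous ρ) (x : ℝ) : Continuous (mm ρ x) := by
  have : Continuous fun s : ℝ => ∫ θ in (0 : ℝ)..1, (1 - θ) * ρ (x + θ * s) :=
    intervalIntegral.continuous_parametric_intervalIntegral_of_continuous' (by fun_prop) 0 1
  exact continuous_const.mul this

theorem EM_subst (F : ℝ → ℝ) (x s : ℝ) :
    ∫ z in x..(x + s), F z = s * ∫ θ in (0 : ℝ)..1, F (x + θ * s) := by
  have h := intervalIntegral.mul_integral_comp_mul_add (a := 0) (b := 1) (f := F) s x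
  simp only [mul_zero, zero_add, mul_one] at h
  rw [add_comm x s, ← h]
  simp only [add_comm x, mul_comm s]

theorem EM_TT {ρ : ℝ → ℝ} (hc : Continuous ρ) (ε x s : ℝ) :
    TT ρ ε x (x + s) = s ^ 2 / 2 * (mm ρ x s - ε) := by
  rw [TT, EM_subst, ← EM_sub hc]
  have : ∀ θ : ℝ, (x + s - (x + θ * s)) * (ρ (x + θ * s) - ε) =
      s * ((1 - θ) * (ρ (x + θ * s) - ε)) := fun θ => by ring
  simp only [this]
  rw [intervalIntegral.integral_const_mul]
  ring

theorem EM_decay {M : ℝ} {ρ : ℝ → ℝ} (h : Dens M ρ) (hc : Continuous ρ) (x s : ℝ) :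
    |s| * mm ρ x s ≤ 2 * M := by
  have h1 : ∫ θ in (0 : ℝ)..1, (1 - θ) * ρ (x + θ * s) ≤ ∫ θ in (0 : ℝ)..1, ρ (x + θ * s) :=
    intervalIntegral.integral_mono_on zero_le_one (EM_ii hc x s)
      (Continuous.intervalIntegrable (by fun_prop) _ _) fun θ hθ => by
        nlinarith [h.nonneg (x + θ * s), hθ.1]
  have h2 : ‖∫ z in x..(x + s), ρ z‖ ≤ M := by
    refine intervalIntegral.norm_integral_le_integral_norm_uIoc.trans (le_trans ?_ h.mass)
    simp only [Real.norm_eq_abs, abs_of_nonneg (h.nonneg _)]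
    exact setIntegral_le_integral h.int (Eventually.of_forall h.nonneg)
  rw [EM_subst, Real.norm_eq_abs, abs_mul] at h2
  have h3 := mul_le_mul_of_nonneg_left
    (h1.trans (le_abs_self (∫ θ in (0 : ℝ)..1, ρ (x + θ * s)))) (abs_nonneg s)
  rw [mm]
  linarith

theorem EM_far {M : ℝ} {ρ : ℝ → ℝ} (h : Dens M ρ) (hc : Continuous ρ) {ε : ℝ} (hε : 0 < ε) :
    ∃ S : ℝ, 0 < S ∧ ∀ x s, S ≤ |s| → mm ρ x s ≤ ε := by
  refine ⟨2 * |M| / ε + 1, by positivity, fun x s hs => ?_⟩
  have h1 := EM_decay h hc x s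
  have h2 : 2 * |M| + ε ≤ |s| * ε := by
    have := mul_le_mul_of_nonneg_right hs hε.le
    rwa [add_mul, div_mul_cancel₀ _ hε.ne', one_mul] at this
  have h3 : 0 < |s| := lt_of_lt_of_le (by positivity) hs
  exact le_of_mul_le_mul_left (by linarith [le_abs_self M]) h3

theorem EM : St_EM := by
  intro M ρ h
  obtain ⟨L, hL⟩ := h.lip
  obtain ⟨C, hC⟩ := h.bd
  have hc := hL.continuous
  have hbd : ∀ x s, mm ρ x s ≤ C := fun x s => EM_le hc fun θ _ => hC _
  have hle : ∀ x s, mm ρ x s ≤ em ρ x := fun x s =>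
    le_ciSup (f := mm ρ x) ⟨C, by rintro _ ⟨t, rfl⟩; exact hbd x t⟩ s
  have hlip : LipschitzWith L (em ρ) := by
    refine LipschitzWith.of_le_add_mul L fun x y => ciSup_le fun s => ?_
    refine (EM_cmp hc (y := y) (t := s) (c := L * dist x y) fun θ _ => ?_).trans
      (by linarith [hle y s])
    simpa using hL.le_add_mul (x + θ * s) (y + θ * s)
  refine ⟨⟨L, hlip⟩, hle, fun x => EM_zero ρ x ▸ hle x 0, ⟨C, fun x => ciSup_le (hbd x)⟩,
    fun ε hε => ⟨isClosed_le hlip.continuous continuous_const, ?_⟩, EM_TT hc, fun ε x => ?_,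
    fun x hx => ?_⟩
  · obtain ⟨S, hS, hfar⟩ := EM_far h hc hε
    obtain ⟨R, hR⟩ := h.lim ε hε
    refine ⟨R + S, fun x hx => show em ρ x ≤ ε from ciSup_le fun s => ?_⟩
    rcases le_total S |s| with hs | hs
    · exact hfar x s hs
    · refine EM_le hc fun θ hθ => hR _ ?_
      have h1 : |θ * s| ≤ S := by
        rw [abs_mul, abs_of_nonneg hθ.1]
        nlinarith [abs_nonneg s, hθ.2]
      have h2 := abs_sub (x + θ * s) (θ * s)
      rw [add_sub_cancel_right] at h2
      linarith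
  · constructor
    · intro h1 y
      have h2 := EM_TT hc ε x (y - x)
      rw [add_sub_cancel] at h2
      rw [h2]
      exact mul_nonpos_of_nonneg_of_nonpos (by positivity) (by linarith [hle x (y - x)])
    · intro h1
      have h2 : ∀ s, s ≠ 0 → mm ρ x s ≤ ε := fun s hs => by
        have h3 := h1 (x + s)
        rw [EM_TT hc] at h3
        have h4 : 0 < s ^ 2 / 2 := by positivity
        by_contra hcon
        linarith [mul_pos h4 (sub_pos.2 (not_le.1 hcon))]
      refine ciSup_le fun s => ?_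
      have h3 : IsClosed {s | mm ρ x s ≤ ε} := isClosed_le (EM_cont hc x) continuous_const
      exact h3.closure_subset_iff.2 (show ({0}ᶜ : Set ℝ) ⊆ _ from h2) (dense_compl_singleton 0 s)
  · have h0 : 0 < em ρ x / 2 := by linarith [h.nonneg x]
    obtain ⟨S, hS, hfar⟩ := EM_far h hc h0
    obtain ⟨s₀, -, hmax⟩ := (isCompact_Icc (a := -S) (b := S)).exists_isMaxOn
      ⟨0, by constructor <;> linarith⟩ (EM_cont hc x).continuousOn
    have h1 : em ρ x ≤ max (mm ρ x s₀) (em ρ x / 2) := ciSup_le fun s => by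
      rcases le_total S |s| with hs | hs
      · exact (hfar x s hs).trans (le_max_right _ _)
      · exact (hmax (abs_le.1 hs)).trans (le_max_left _ _)
    have h2 : mm ρ x s₀ = em ρ x := by
      refine le_antisymm (hle x s₀) ?_
      rcases le_max_iff.1 h1 with h3 | h3
      · exact h3
      · linarith
    refine ⟨s₀, ?_, h2⟩
    rintro rfl
    rw [EM_zero] at h2
    linarith

end Pool.Agent.Lib.MP_13801a_an
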