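import Mathlib
import Pool.Agent.Lib.MP_13801a_an.Sts

/-!
The energy identity.
-/

open MeasureTheory Set Filter
open scoped ContDiff Topology ComplexConjugate

namespace Pool.Agent.Lib.MP_13801a_an

theorem ENER_err {a Λ C1 C2 r x y z : ℝ} (ha : 0 ≤ a) (haΛ : a ≤ Λ) (hC2 : 0 ≤ C2) (hr : 0 < r)
    (hx : x ≤ C2 * r ^ 3) (hy : y ≤ C1 / r ^ 2) (hz : z ≤ C1) :
    a * √x * √y + a ^ 2 * √z * √x ≤ Λ * √(C2 * C1 * r) + Λ ^ 2 * √C1 * √(C2 * r ^ 3) := by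
  have hΛ : 0 ≤ Λ := ha.trans haΛ
  have e : √(C2 * r ^ 3) * √(C1 / r ^ 2) = √(C2 * C1 * r) := by
    rw [← Real.sqrt_mul (by positivity)]
    congr 1
    field_simp
  have h1 : a * √x * √y ≤ Λ * √(C2 * C1 * r) := by
    rw [← e, mul_assoc]
    gcongr
  have h2 : a ^ 2 * √z * √x ≤ Λ ^ 2 * √C1 * √(C2 * r ^ 3) := by gcongr
  linarith

theorem ENER (h1 : St_BASIC) (h2 : St_APX) (h3 : St_UNI1) (h4 : St_UNI2) (h5 : St_ENR)
    (h6 : St_KLIM) : St_ENER := by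
  intro α κ v dv hα hS s t hs hst
  obtain ⟨-, -, cP, -, hb, -⟩ := h1 α κ v dv hα hS
  obtain ⟨C0, hC0⟩ := hb t
  obtain ⟨C1, hC1, u1⟩ := h3.2 α C0 hα
  obtain ⟨C2, hC2, u2⟩ := h4 α C0 hα
  have hα2 : 0 < α + 2 := by linarith
  have habs : ∀ σ ∈ Icc s t, |σ| ≤ t := fun σ hσ => by
    rw [abs_of_nonneg (hs.trans hσ.1)]
    exact hσ.2
  set Λ : ℝ := Real.exp (|κ| * t) with hΛ
  have hexp : ∀ σ ∈ Icc s t, Real.exp (κ * σ) ≤ Λ := fun σ hσ => by
    refine Real.exp_le_exp.2 ((le_abs_self _).trans ?_)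
    rw [abs_mul]
    exact mul_le_mul_of_nonneg_left (habs σ hσ) (abs_nonneg κ)
  set G : ℝ → ℝ := fun σ => κ * Real.exp (κ * σ) * pw α (v σ) / (α + 2) with hG
  have cG : Continuous G := by
    refine Continuous.div_const (Continuous.mul ?_ cP) _
    fun_prop
  set b : ℝ → ℝ := fun r => Λ * √(C2 * C1 * r) + Λ ^ 2 * √C1 * √(C2 * r ^ 3) +
    |κ| * Λ * (C1 * r) / (α + 2) with hb
  set A : ℝ → ℝ → ℝ := fun r τ =>
    nsq (fm r v 1 τ) / 2 - Real.exp (κ * τ) * pw α (fm r v 0 τ) / (α + 2) with hA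
  have key : ∀ r : ℝ, 0 < r → |A r t - A r s + ∫ σ in s..t, G σ| ≤ b r * |t - s| := by
    intro r hr
    obtain ⟨D, hD, e, hle⟩ := h5 α κ _ _ hα (h2 α κ v dv hα hS r hr) s t hs hst
    have e' : A r t - A r s = ∫ σ in s..t, D σ := e
    rw [e', ← intervalIntegral.integral_add hD (cG.intervalIntegrable s t), ← Real.norm_eq_abs]
    refine intervalIntegral.norm_integral_le_of_norm_le_const fun σ hσ => ?_
    rw [uIoc_of_le hst] at hσ
    have hσ' : σ ∈ Icc s t := Ioc_subset_Icc_self hσ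
    obtain ⟨b1, b2, -⟩ := hC0 σ (habs σ hσ')
    obtain ⟨-, -, w3, -, -, w6, w7⟩ := u1 (v σ) (dv σ) (hS.h1 σ) b1 b2 r hr
    have w8 := u2 (v σ) (dv σ) (hS.h1 σ) b1 b2 r hr
    have g1 := (hle σ hσ').trans
      (ENER_err (Real.exp_pos _).le (hexp σ hσ') hC2 hr w8 w3 w7)
    have g2 : |G σ - κ * Real.exp (κ * σ) * pw α (fm r v 0 σ) / (α + 2)| ≤
        |κ| * Λ * (C1 * r) / (α + 2) := by
      have e2 : G σ - κ * Real.exp (κ * σ) * pw α (fm r v 0 σ) / (α + 2) =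
          κ * Real.exp (κ * σ) * (pw α (v σ) - pw α (cv (mol r) (v σ))) / (α + 2) := by
        change κ * Real.exp (κ * σ) * pw α (v σ) / (α + 2) -
          κ * Real.exp (κ * σ) * pw α (cv (mol r) (v σ)) / (α + 2) = _
        ring
      rw [e2, abs_div, abs_mul, abs_mul, abs_of_pos hα2, abs_of_pos (Real.exp_pos _),
        abs_sub_comm]
      have := hexp σ hσ'
      gcongr
    rw [Real.norm_eq_abs]
    have e3 : D σ + G σ = (D σ - -(κ * Real.exp (κ * σ) * pw α (fm r v 0 σ) / (α + 2))) +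
        (G σ - κ * Real.exp (κ * σ) * pw α (fm r v 0 σ) / (α + 2)) := by ring
    rw [e3]
    exact (abs_add_le _ _).trans (add_le_add g1 g2)
  have hr0 : Tendsto (fun n : ℕ => 1 / ((n : ℝ) + 1)) atTop (𝓝 0) :=
    tendsto_one_div_add_atTop_nhds_zero_nat
  have hrp : ∀ n : ℕ, 0 < 1 / ((n : ℝ) + 1) := fun n => by positivity
  have lim : ∀ τ ∈ Icc s t,
      Tendsto (fun n : ℕ => A (1 / ((n : ℝ) + 1)) τ) atTop (𝓝 (en α κ v dv τ)) := by
    intro τ hτ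
    obtain ⟨b1, b2, -⟩ := hC0 τ (habs τ hτ)
    have l1 := h6 (v τ) (dv τ) (hS.h1 τ)
    have l2 : Tendsto (fun n : ℕ => pw α (cv (mol (1 / ((n : ℝ) + 1))) (v τ))) atTop
        (𝓝 (pw α (v τ))) := by
      rw [tendsto_iff_norm_sub_tendsto_zero]
      refine squeeze_zero (fun n => norm_nonneg _)
        (fun n => (u1 (v τ) (dv τ) (hS.h1 τ) b1 b2 _ (hrp n)).2.2.2.2.2.1) ?_
      simpa using hr0.const_mul C1
    exact (l1.div_const 2).sub ((l2.const_mul _).div_const _)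
  have cb : Continuous b := by
    rw [hb]
    fun_prop
  have lb : Tendsto (fun n : ℕ => b (1 / ((n : ℝ) + 1)) * |t - s|) atTop (𝓝 0) := by
    have := ((cb.tendsto 0).comp hr0).mul_const |t - s|
    simpa [hb] using this
  have ll := (((lim t ⟨hst, le_rfl⟩).sub (lim s ⟨le_rfl, hst⟩)).add_const
    (∫ σ in s..t, G σ)).abs
  have fin := le_of_tendsto_of_tendsto' ll lb fun n => key _ (hrp n)
  have := abs_nonpos_iff.1 fin
  linarith

end Pool.Agent.Lib.MP_13801a_an
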