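import Mathlib
import Pool.Agent.Lib.MP_13801a_an.Sts

/-!
The energy identity for smooth approximate solutions.
-/

open MeasureTheory Set Filter
open scoped ContDiff Topology ComplexConjugate

namespace Pool.Agent.Lib.MP_13801a_an

theorem ENR_int {g g' : ℝ → ℂ} (hg : MemLp g 2 volume) (hg' : MemLp g' 2 volume) :
    (Integrable fun x => (conj (g x) * g' x).im) ∧
      ∫ x, |(conj (g x) * g' x).im| ≤ √(nsq g) * √(nsq g') := by
  have hb : ∀ x, |(conj (g x) * g' x).im| ≤ ‖g x‖ * ‖g' x‖ := fun x => by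
    refine (Complex.abs_im_le_norm _).trans ?_
    rw [norm_mul, Complex.norm_conj]
  have hi := integrable_norm_mul hg hg'
  have h1 : Integrable fun x => (conj (g x) * g' x).im :=
    hi.mono' (Complex.continuous_im.comp_aestronglyMeasurable
      ((Complex.continuous_conj.comp_aestronglyMeasurable hg.1).mul hg'.1))
      (Eventually.of_forall hb)
  exact ⟨h1, (integral_mono h1.abs hi hb).trans (integral_norm_mul_le hg hg')⟩

theorem ENR_ibp {p0 p1 q0 q1 : ℝ → ℂ} (hp : ∀ x, HasDerivAt p0 (p1 x) x)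
    (hq : ∀ x, HasDerivAt q0 (q1 x) x) (mp0 : MemLp p0 2 volume) (mp1 : MemLp p1 2 volume)
    (mq0 : MemLp q0 2 volume) (mq1 : MemLp q1 2 volume) :
    ∫ x, (conj (p0 x) * q1 x).im = -∫ x, (conj (p1 x) * q0 x).im := by
  have h0 : ∫ x, ((conj (p0 x) * q1 x).im + (conj (p1 x) * q0 x).im) = 0 := by
    refine integral_eq_zero_of_hasDerivAt_of_integrable
      (f := fun x => (conj (p0 x) * q0 x).im) (fun x => ?_)
      ((ENR_int mp0 mq1).1.add (ENR_int mp1 mq0).1) (ENR_int mp0 mq0).1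
    have h1 := Complex.imCLM.hasFDerivAt.comp_hasDerivAt x ((hp x).star.mul (hq x))
    refine HasDerivAt.congr_deriv h1 ?_
    simp
    ring
  rw [integral_add (ENR_int mp0 mq1).1 (ENR_int mp1 mq0).1] at h0
  linarith

theorem ENR_bd {α C : ℝ} (hα : 4 ≤ α) (hn : ∀ z, ‖NL α z‖ = ‖z‖ ^ (α + 1)) {g : ℝ → ℂ}
    (hg : MemLp g 2 volume) (h1 : nsq g ≤ C) (h2 : ∀ x, ‖g x‖ ≤ C) :
    nsq (fun x => NL α (g x)) ≤ (C ^ α) ^ 2 * C ∧ pw α g ≤ C ^ α * C := by
  have hC : 0 ≤ C := (norm_nonneg _).trans (h2 0)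
  have hCα : 0 ≤ C ^ α := Real.rpow_nonneg hC _
  have hle : ∀ x, ‖g x‖ ^ α ≤ C ^ α := fun x =>
    Real.rpow_le_rpow (norm_nonneg _) (h2 x) (by linarith)
  constructor
  · calc nsq (fun x => NL α (g x)) ≤ ∫ x, (C ^ α) ^ 2 * ‖g x‖ ^ 2 := by
          refine integral_mono_of_nonneg (Eventually.of_forall fun x => by positivity)
            ((integrable_nsq hg).const_mul _) (Eventually.of_forall fun x => ?_)
          simp only [hn]
          rw [Real.rpow_add_one' (norm_nonneg _) (by linarith), mul_pow]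
          have := hle x
          have h3 : 0 ≤ ‖g x‖ ^ α := Real.rpow_nonneg (norm_nonneg _) _
          gcongr
      _ = (C ^ α) ^ 2 * nsq g := integral_const_mul _ _
      _ ≤ _ := by gcongr
  · calc pw α g ≤ ∫ x, C ^ α * ‖g x‖ ^ 2 := by
          refine integral_mono_of_nonneg (Eventually.of_forall fun x => by positivity)
            ((integrable_nsq hg).const_mul _) (Eventually.of_forall fun x => ?_)
          simp only
          rw [Real.rpow_add' (norm_nonneg _) (by linarith), Real.rpow_two]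
          have := hle x
          gcongr
      _ = C ^ α * nsq g := integral_const_mul _ _
      _ ≤ _ := by gcongr

theorem ENR (h1 : St_FUB) (h2 : St_NL) : St_ENR := by
  intro α κ f n hα hA s t hs hst
  obtain ⟨hcN, hn, -, -, hd, hm⟩ := h2 α hα
  have hα2 : 0 < α + 2 := by linarith
  obtain ⟨C0, hC0⟩ := hA.bd 0 t
  obtain ⟨C1, hC1⟩ := hA.bd 1 t
  obtain ⟨C2, hC2⟩ := hA.bd 2 t
  obtain ⟨C3, hC3⟩ := hA.bd 3 t
  have c0 := hA.cf 0
  have c1 := hA.cf 1
  have c2 := hA.cf 2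
  have c3 := hA.cf 3
  have cn0 := hA.cn 0
  have cn1 := hA.cn 1
  have cN : Continuous fun p : ℝ × ℝ => NL α (f 0 p.1 p.2) := hcN.comp c0
  have cP : Continuous fun p : ℝ × ℝ => ‖f 0 p.1 p.2‖ ^ (α + 2) :=
    c0.norm.rpow_const fun _ => Or.inr hα2.le
  have mN : ∀ σ, MemLp (fun x => NL α (f 0 σ x)) 2 volume ∧
      Integrable fun x => ‖f 0 σ x‖ ^ (α + 2) := fun σ => by
    obtain ⟨C, hC⟩ := hA.bd 0 |σ|
    exact hm _ C (hA.mf 0 σ) (hC σ le_rfl).2.2
  have key := h1
    (fun σ x => ‖f 1 σ x‖ ^ 2 / 2 - Real.exp (κ * σ) * ‖f 0 σ x‖ ^ (α + 2) / (α + 2))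
    (fun σ x => -(conj (f 1 σ x) * f 3 σ x).im -
      Real.exp (κ * σ) * (conj (f 1 σ x) * n 1 σ x).im -
      κ * Real.exp (κ * σ) / (α + 2) * ‖f 0 σ x‖ ^ (α + 2) +
      Real.exp (κ * σ) * (conj (NL α (f 0 σ x)) * f 2 σ x).im +
      Real.exp (κ * σ) ^ 2 * (conj (NL α (f 0 σ x)) * n 0 σ x).im) s t
    (√C1 * √C3 + Real.exp (|κ| * t) * (√C1 * √C1) +
      |κ| * Real.exp (|κ| * t) / (α + 2) * (C0 ^ α * C0) +
      Real.exp (|κ| * t) * (√((C0 ^ α) ^ 2 * C0) * √C2) +
      Real.exp (|κ| * t) ^ 2 * (√((C0 ^ α) ^ 2 * C0) * √C0)) hst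
    (by fun_prop (disch := linarith)) (by fun_prop (disch := linarith)) (fun σ hσ x => ?_) (fun σ => ?_) (fun σ hσ => ?_)
  · have eA : ∀ σ, ∫ x, (‖f 1 σ x‖ ^ 2 / 2 - Real.exp (κ * σ) * ‖f 0 σ x‖ ^ (α + 2) / (α + 2)) =
        nsq (f 1 σ) / 2 - Real.exp (κ * σ) * pw α (f 0 σ) / (α + 2) := fun σ => by
      rw [integral_sub ((integrable_nsq (hA.mf 1 σ)).div_const _)
        (((mN σ).2.const_mul _).div_const _), integral_div, integral_div, integral_const_mul]
      rfl
    refine ⟨_, key.1, ?_, fun σ _ => ?_⟩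
    · rw [← key.2, eA, eA]
    have mcom : MemLp (com α f n σ) 2 volume := (hA.mn 0 σ).sub (mN σ).1
    have i1 := ENR_int (hA.mf 1 σ) (hA.mf 3 σ)
    have i2 := ENR_int (hA.mf 1 σ) (hA.mn 1 σ)
    have i4 := ENR_int (mN σ).1 (hA.mf 2 σ)
    have i5 := ENR_int (mN σ).1 mcom
    have i6 := ENR_int (hA.mf 2 σ) (hA.mn 0 σ)
    have i7 := ENR_int mcom (hA.mf 2 σ)
    have e : ∀ x, (conj (NL α (f 0 σ x)) * n 0 σ x).im =
        (conj (NL α (f 0 σ x)) * com α f n σ x).im := by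
      intro x
      simp only [com, Complex.mul_im, Complex.conj_re, Complex.conj_im, Complex.sub_im,
        Complex.sub_re]
      ring
    simp only [e]
    rw [integral_add, integral_add, integral_sub, integral_sub, integral_neg, integral_const_mul,
      integral_const_mul, integral_const_mul, integral_const_mul]
    rotate_left
    · exact i1.1.neg
    · exact i2.1.const_mul _
    · exact i1.1.neg.sub (i2.1.const_mul _)
    · exact (mN σ).2.const_mul _
    · exact (i1.1.neg.sub (i2.1.const_mul _)).sub ((mN σ).2.const_mul _)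
    · exact i4.1.const_mul _
    · exact ((i1.1.neg.sub (i2.1.const_mul _)).sub ((mN σ).2.const_mul _)).add
        (i4.1.const_mul _)
    · exact i5.1.const_mul _
    have b1 : ∫ x, (conj (f 1 σ x) * f 3 σ x).im = 0 := by
      rw [ENR_ibp (hA.dxf 1 σ) (hA.dxf 2 σ) (hA.mf 1 σ) (hA.mf 2 σ) (hA.mf 2 σ) (hA.mf 3 σ)]
      simp [mul_comm]
    have b2 : ∫ x, (conj (f 1 σ x) * n 1 σ x).im = -∫ x, (conj (f 2 σ x) * n 0 σ x).im :=
      ENR_ibp (hA.dxf 1 σ) (hA.dxn 0 σ) (hA.mf 1 σ) (hA.mf 2 σ) (hA.mn 0 σ) (hA.mn 1 σ)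
    have b3 : (∫ x, (conj (f 2 σ x) * n 0 σ x).im) +
        ∫ x, (conj (NL α (f 0 σ x)) * f 2 σ x).im =
        -∫ x, (conj (com α f n σ x) * f 2 σ x).im := by
      rw [← integral_add i6.1 i4.1, ← integral_neg]
      refine integral_congr_ae (Eventually.of_forall fun x => ?_)
      simp only [com, Complex.mul_im, Complex.conj_re, Complex.conj_im, Complex.sub_im,
        Complex.sub_re]
      ring
    have h3 : |∫ x, (conj (com α f n σ x) * f 2 σ x).im| ≤
        √(nsq (com α f n σ)) * √(nsq (f 2 σ)) := abs_integral_le_integral_abs.trans i7.2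
    have h5 : |∫ x, (conj (NL α (f 0 σ x)) * com α f n σ x).im| ≤
        √(nsq fun x => NL α (f 0 σ x)) * √(nsq (com α f n σ)) :=
      abs_integral_le_integral_abs.trans i5.2
    have h4 := Real.exp_pos (κ * σ)
    calc _ = |Real.exp (κ * σ) * (-∫ x, (conj (com α f n σ x) * f 2 σ x).im) +
          Real.exp (κ * σ) ^ 2 * ∫ x, (conj (NL α (f 0 σ x)) * com α f n σ x).im| := by
          congr 1
          rw [b1, b2, ← b3, pw]
          ring
      _ ≤ Real.exp (κ * σ) * |∫ x, (conj (com α f n σ x) * f 2 σ x).im| +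
          Real.exp (κ * σ) ^ 2 * |∫ x, (conj (NL α (f 0 σ x)) * com α f n σ x).im| := by
          refine (abs_add_le _ _).trans (le_of_eq ?_)
          rw [abs_mul, abs_mul, abs_neg, abs_of_pos h4, abs_of_pos (pow_pos h4 2)]
      _ ≤ Real.exp (κ * σ) * (√(nsq (com α f n σ)) * √(nsq (f 2 σ))) +
          Real.exp (κ * σ) ^ 2 *
            (√(nsq fun x => NL α (f 0 σ x)) * √(nsq (com α f n σ))) := by gcongr
      _ = _ := by ring
  · have h0 : 0 < σ := hs.trans_lt hσ.1
    have h3 := ((hA.dt 1 σ x h0).norm_sq).div_const 2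
    have h4 := hd _ _ _ (hA.dt 0 σ x h0)
    have h5 : HasDerivAt (fun τ => Real.exp (κ * τ)) (Real.exp (κ * σ) * κ) σ := by
      simpa using ((hasDerivAt_id σ).const_mul κ).exp
    have h6 := h3.sub ((h5.mul h4).div_const (α + 2))
    refine HasDerivAt.congr_deriv h6 ?_
    rw [Complex.inner]
    simp only [Complex.mul_re, Complex.mul_im, Complex.add_re, Complex.add_im, Complex.I_re,
      Complex.I_im, Complex.conj_re, Complex.conj_im, Complex.ofReal_re, Complex.ofReal_im,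
      zero_add]
    field_simp
    ring
  · exact ((integrable_nsq (hA.mf 1 σ)).div_const _).sub (((mN σ).2.const_mul _).div_const _)
  · have hσ' : |σ| ≤ t := by rw [abs_of_nonneg (hs.trans hσ.1)]; exact hσ.2
    have i1 := ENR_int (hA.mf 1 σ) (hA.mf 3 σ)
    have i2 := ENR_int (hA.mf 1 σ) (hA.mn 1 σ)
    have i4 := ENR_int (mN σ).1 (hA.mf 2 σ)
    have i5 := ENR_int (mN σ).1 (hA.mn 0 σ)
    have hi := (((i1.1.neg.sub (i2.1.const_mul (Real.exp (κ * σ)))).sub
      ((mN σ).2.const_mul (κ * Real.exp (κ * σ) / (α + 2)))).add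
      (i4.1.const_mul (Real.exp (κ * σ)))).add (i5.1.const_mul (Real.exp (κ * σ) ^ 2))
    refine ⟨hi, ?_⟩
    have h4 := Real.exp_pos (κ * σ)
    have h5 : Real.exp (κ * σ) ≤ Real.exp (|κ| * t) := Real.exp_le_exp.2
      ((le_abs_self _).trans (by rw [abs_mul]; gcongr))
    have hb := ENR_bd hα hn (hA.mf 0 σ) (hC0 σ hσ').1 (hC0 σ hσ').2.2
    have a0 := Real.sqrt_le_sqrt (hC0 σ hσ').2.1
    have a1 := Real.sqrt_le_sqrt (hC1 σ hσ').1
    have a1' := Real.sqrt_le_sqrt (hC1 σ hσ').2.1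
    have a2 := Real.sqrt_le_sqrt (hC2 σ hσ').1
    have a3 := Real.sqrt_le_sqrt (hC3 σ hσ').1
    have aN := Real.sqrt_le_sqrt hb.1
    have aP := hb.2
    have aP0 := pw_nonneg α (f 0 σ)
    have j1 := i1.1.abs
    have j2 := i2.1.abs.const_mul (Real.exp (κ * σ))
    have j3 := (mN σ).2.const_mul (|κ| * Real.exp (κ * σ) / (α + 2))
    have j4 := i4.1.abs.const_mul (Real.exp (κ * σ))
    have j5 := i5.1.abs.const_mul (Real.exp (κ * σ) ^ 2)
    calc _ ≤ ∫ x, (|(conj (f 1 σ x) * f 3 σ x).im| +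
          Real.exp (κ * σ) * |(conj (f 1 σ x) * n 1 σ x).im| +
          |κ| * Real.exp (κ * σ) / (α + 2) * ‖f 0 σ x‖ ^ (α + 2) +
          Real.exp (κ * σ) * |(conj (NL α (f 0 σ x)) * f 2 σ x).im| +
          Real.exp (κ * σ) ^ 2 * |(conj (NL α (f 0 σ x)) * n 0 σ x).im|) := by
          refine integral_mono hi.abs ((((j1.add j2).add j3).add j4).add j5) fun x => ?_
          have hp : 0 ≤ ‖f 0 σ x‖ ^ (α + 2) := Real.rpow_nonneg (norm_nonneg _) _
          refine (abs_add_le _ _).trans (add_le_add ((abs_add_le _ _).trans (add_le_add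
            ((abs_sub _ _).trans (add_le_add ((abs_sub _ _).trans (le_of_eq ?_)) (le_of_eq ?_)))
            (le_of_eq ?_))) (le_of_eq ?_))
          · rw [abs_neg, abs_mul, abs_of_pos h4]
          · rw [abs_mul, abs_div, abs_mul, abs_of_pos h4, abs_of_pos hα2, abs_of_nonneg hp]
          · rw [abs_mul, abs_of_pos h4]
          · rw [abs_mul, abs_of_pos (pow_pos h4 2)]
      _ = (∫ x, |(conj (f 1 σ x) * f 3 σ x).im|) +
          Real.exp (κ * σ) * (∫ x, |(conj (f 1 σ x) * n 1 σ x).im|) +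
          |κ| * Real.exp (κ * σ) / (α + 2) * pw α (f 0 σ) +
          Real.exp (κ * σ) * (∫ x, |(conj (NL α (f 0 σ x)) * f 2 σ x).im|) +
          Real.exp (κ * σ) ^ 2 * ∫ x, |(conj (NL α (f 0 σ x)) * n 0 σ x).im| := by
          rw [integral_add, integral_add, integral_add, integral_add, integral_const_mul,
            integral_const_mul, integral_const_mul, integral_const_mul, pw]
          exacts [j1, j2, j1.add j2, j3, (j1.add j2).add j3, j4, ((j1.add j2).add j3).add j4, j5]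
      _ ≤ √(nsq (f 1 σ)) * √(nsq (f 3 σ)) +
          Real.exp (κ * σ) * (√(nsq (f 1 σ)) * √(nsq (n 1 σ))) +
          |κ| * Real.exp (κ * σ) / (α + 2) * pw α (f 0 σ) +
          Real.exp (κ * σ) * (√(nsq fun x => NL α (f 0 σ x)) * √(nsq (f 2 σ))) +
          Real.exp (κ * σ) ^ 2 * (√(nsq fun x => NL α (f 0 σ x)) * √(nsq (n 0 σ))) := by
          gcongr
          exacts [i1.2, i2.2, i4.2, i5.2]
      _ ≤ _ := by gcongr

end Pool.Agent.Lib.MP_13801a_an
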