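import Mathlib
import Pool.Agent.Lib.MP_13801a_an.Sts

/-!
Envelope identities for the maximal function and the climbing estimate.
-/

open MeasureTheory Set Filter
open scoped ContDiff Topology ComplexConjugate

namespace Pool.Agent.Lib.MP_13801a_an

theorem ENV (h1 : St_EM) (h2 : St_TT) : St_ENV := by
  intro M ρ hρ
  obtain ⟨L, hL⟩ := hρ.lip
  have hc : Continuous ρ := hL.continuous
  obtain ⟨-, hle, -, -, -, hTT, hiff, -⟩ := h1 M ρ hρ
  refine ⟨fun x s hd hs hm => ?_, fun x y s hm hy hb => ?_⟩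
  · obtain ⟨t1, -, t3, -, -⟩ := h2 ρ (em ρ x) hc
    have hneg : ∀ y, TT ρ (em ρ x) x y ≤ 0 := (hiff _ x).1 le_rfl
    have hz : TT ρ (em ρ x) x (x + s) = 0 := by rw [hTT, hm]; ring
    have hmax : IsLocalMax (TT ρ (em ρ x) x) (x + s) :=
      Eventually.of_forall fun y => by rw [hz]; exact hneg y
    have hI : ∫ z in x..(x + s), (ρ z - em ρ x) = 0 := hmax.hasDerivAt_eq_zero (t1 x (x + s))
    have hc' : Continuous fun t => ρ t - em ρ x := hc.sub continuous_const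
    have d1 : HasDerivAt (fun y => TT ρ (em ρ x) x (y + s)) 0 x := by
      have h := t1 x (x + s)
      rw [hI] at h
      exact h.comp_add_const x s
    have d2 : HasDerivAt (TT ρ (em ρ x) x) 0 x := by
      have h := t1 x x
      rwa [intervalIntegral.integral_same] at h
    have d3 : HasDerivAt (fun y => ∫ t in x..y, (ρ t - em ρ x)) (ρ x - em ρ x) x :=
      (hc'.integral_hasStrictDerivAt x x).hasDerivAt
    have d4 : HasDerivAt (fun y => s ^ 2 / 2 * (em ρ y - em ρ x) -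
        (TT ρ (em ρ x) x (y + s) - TT ρ (em ρ x) x y - s * ∫ t in x..y, (ρ t - em ρ x)))
        (s ^ 2 / 2 * deriv (em ρ) x - (0 - 0 - s * (ρ x - em ρ x))) x :=
      ((hd.hasDerivAt.sub_const _).const_mul _).sub ((d1.sub d2).sub (d3.const_mul s))
    have key : ∀ y, s ^ 2 / 2 * (em ρ y - em ρ x) -
        (TT ρ (em ρ x) x (y + s) - TT ρ (em ρ x) x y - s * ∫ t in x..y, (ρ t - em ρ x)) =
        s ^ 2 / 2 * (em ρ y - mm ρ y s) := by
      intro y
      rw [t3 x y (y + s), hTT]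
      ring
    have hmin : IsLocalMin (fun y => s ^ 2 / 2 * (em ρ y - em ρ x) -
        (TT ρ (em ρ x) x (y + s) - TT ρ (em ρ x) x y - s * ∫ t in x..y, (ρ t - em ρ x))) x := by
      refine Eventually.of_forall fun y => ?_
      beta_reduce
      rw [key, key, hm, sub_self, mul_zero]
      exact mul_nonneg (by positivity) (sub_nonneg.2 (hle y s))
    have h0 := hmin.hasDerivAt_eq_zero d4
    have h3 : s * (s * deriv (em ρ) x - 2 * (em ρ x - ρ x)) = 0 := by linear_combination 2 * h0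
    rcases mul_eq_zero.1 h3 with h | h
    · exact absurd h hs
    · linarith
  · obtain ⟨-, t2, t3, -, -⟩ := h2 ρ (em ρ x) hc
    have hnx : ∀ z, TT ρ (em ρ x) x z ≤ 0 := (hiff _ x).1 le_rfl
    have hny : ∀ z, TT ρ (em ρ x) y z ≤ 0 := (hiff _ y).1 hy.le
    have hz : TT ρ (em ρ x) x (x + s) = 0 := by rw [hTT, hm]; ring
    have e1 := t3 x y x
    have e2 := t3 x y (x + s)
    rw [t2] at e1
    rw [hz] at e2
    have a1 := hny x
    have a2 := hny (x + s)
    have a3 := hnx y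
    have h0 : TT ρ (em ρ x) x y = 0 := by
      refine le_antisymm a3 ?_
      rcases le_total 0 (∫ t in x..y, (ρ t - em ρ x)) with hc0 | hc0
      · rcases hb with ⟨b1, b2⟩ | ⟨b1, b2⟩
        · nlinarith [mul_nonneg (sub_nonneg.2 b1.le) hc0]
        · nlinarith [mul_nonneg (sub_nonneg.2 b1.le) hc0]
      · rcases hb with ⟨b1, b2⟩ | ⟨b1, b2⟩
        · nlinarith [mul_nonneg (sub_nonneg.2 b2.le) (neg_nonneg.2 hc0)]
        · nlinarith [mul_nonneg (sub_nonneg.2 b2.le) (neg_nonneg.2 hc0)]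
    have e3 := hTT (em ρ x) x (y - x)
    rw [add_sub_cancel, h0] at e3
    have hne : y - x ≠ 0 := by
      rcases hb with ⟨b1, -⟩ | ⟨-, b2⟩
      · exact (sub_pos.2 b1).ne'
      · exact (sub_neg.2 b2).ne
    have hp : (y - x) ^ 2 / 2 ≠ 0 := by positivity
    rcases mul_eq_zero.1 e3.symm with h | h
    · exact absurd h hp
    · linarith

theorem ENV_cs {g : ℝ → ℝ} (hg : Continuous g) {a b : ℝ} (hab : a ≤ b) :
    (∫ z in a..b, g z) ^ 2 ≤ (b - a) * ∫ z in a..b, g z ^ 2 := by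
  rcases hab.eq_or_lt with rfl | hlt
  · simp
  have hp : 0 < b - a := sub_pos.2 hlt
  set I := ∫ z in a..b, g z with hI
  have h0 : 0 ≤ ∫ z in a..b, (g z - I / (b - a)) ^ 2 :=
    intervalIntegral.integral_nonneg hab fun z _ => sq_nonneg _
  have e : ∫ z in a..b, (g z - I / (b - a)) ^ 2 =
      (∫ z in a..b, g z ^ 2) - 2 * (I / (b - a)) * I + (b - a) * (I / (b - a)) ^ 2 := by
    have : (fun z => (g z - I / (b - a)) ^ 2) =
        fun z => (g z ^ 2 - 2 * (I / (b - a)) * g z) + (I / (b - a)) ^ 2 := by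
      funext z; ring
    rw [this, intervalIntegral.integral_add, intervalIntegral.integral_sub,
      intervalIntegral.integral_const_mul, intervalIntegral.integral_const, smul_eq_mul]
    · exact (hg.pow 2).intervalIntegrable _ _
    · exact (continuous_const.mul hg).intervalIntegrable _ _
    · exact ((hg.pow 2).sub (continuous_const.mul hg)).intervalIntegrable _ _
    · exact continuous_const.intervalIntegrable _ _
  rw [e] at h0
  have e2 : (b - a) * ((∫ z in a..b, g z ^ 2) - 2 * (I / (b - a)) * I +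
      (b - a) * (I / (b - a)) ^ 2) = (b - a) * (∫ z in a..b, g z ^ 2) - I ^ 2 := by
    field_simp
    ring
  have := mul_nonneg hp.le h0
  rw [e2] at this
  linarith

theorem ENV_mm_le {ρ : ℝ → ℝ} (hc : Continuous ρ) (x s : ℝ) :
    ∃ z ∈ uIcc x (x + s), mm ρ x s ≤ ρ z := by
  obtain ⟨z, hz, hmax⟩ := (isCompact_uIcc (a := x) (b := x + s)).exists_isMaxOn
    nonempty_uIcc hc.continuousOn
  refine ⟨z, hz, ?_⟩
  have hmem : ∀ θ ∈ Icc (0 : ℝ) 1, x + θ * s ∈ uIcc x (x + s) := by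
    intro θ hθ
    rcases le_total 0 s with hs | hs
    · rw [uIcc_of_le (by linarith)]
      exact ⟨by nlinarith [hθ.1], by nlinarith [hθ.2]⟩
    · rw [uIcc_of_ge (by linarith)]
      exact ⟨by nlinarith [hθ.2], by nlinarith [hθ.1]⟩
  have h1 : ∫ θ in (0 : ℝ)..1, (1 - θ) * ρ (x + θ * s) ≤ ∫ θ in (0 : ℝ)..1, (1 - θ) * ρ z := by
    refine intervalIntegral.integral_mono_on zero_le_one ?_ ?_ fun θ hθ => ?_
    · exact Continuous.intervalIntegrable (by fun_prop) _ _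
    · exact Continuous.intervalIntegrable (by fun_prop) _ _
    · exact mul_le_mul_of_nonneg_left (hmax (hmem θ hθ)) (sub_nonneg.2 hθ.2)
  have h2 : ∫ θ in (0 : ℝ)..1, (1 - θ) * ρ z = ρ z / 2 := by
    rw [intervalIntegral.integral_mul_const, intervalIntegral.integral_sub
      (continuous_const.intervalIntegrable _ _) (continuous_id'.intervalIntegrable _ _)]
    simp only [integral_id, intervalIntegral.integral_const, smul_eq_mul]
    ring
  unfold mm
  linarith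

theorem CLIMB : St_CLIMB := by
  intro f0 f1 ε x s hd hc1 hε hx hm
  have hc0 : Continuous f0 := continuous_iff_continuousAt.2 fun y => (hd y).continuousAt
  have hcρ : Continuous fun y => ‖f0 y‖ ^ 2 := hc0.norm.pow 2
  obtain ⟨z0, hz0, hz⟩ := ENV_mm_le hcρ x s
  have hz1 : ε ≤ ‖f0 z0‖ ^ 2 := hm.trans hz
  have hpos : ∀ y, 0 < ‖f0 y‖ ^ 2 + ε := fun y => by positivity
  set g : ℝ → ℝ := fun y => ‖f0 y‖ * ‖f1 y‖ / (‖f0 y‖ ^ 2 + ε) with hg
  have hcg : Continuous g :=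
    (hc0.norm.mul hc1.norm).div (hcρ.add continuous_const) fun y => (hpos y).ne'
  have hg0 : ∀ y, 0 ≤ g y := fun y => by positivity
  set F' : ℝ → ℝ := fun y => ε ^ 2 * (2 * inner ℝ (f0 y) (f1 y)) / (‖f0 y‖ ^ 2 + ε) ^ 2 with hF'
  have hcF' : Continuous F' :=
    (continuous_const.mul (continuous_const.mul (hc0.inner hc1))).div
      ((hcρ.add continuous_const).pow 2) fun y => (pow_pos (hpos y) 2).ne'
  have hF : ∀ y, HasDerivAt (fun y => -(ε ^ 2 * (‖f0 y‖ ^ 2 + ε)⁻¹)) (F' y) y := by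
    intro y
    have h := ((((hd y).norm_sq.add_const ε).inv (hpos y).ne').const_mul (ε ^ 2)).neg
    refine h.congr_deriv ?_
    simp only [hF']
    ring
  have hFb : ∀ y, ‖F' y‖ ≤ 2 * ε * g y := by
    intro y
    have h1 : |inner ℝ (f0 y) (f1 y)| ≤ ‖f0 y‖ * ‖f1 y‖ := abs_real_inner_le_norm _ _
    have hp := hpos y
    simp only [hF', hg, Real.norm_eq_abs]
    rw [abs_div, abs_mul, abs_mul, abs_of_pos (pow_pos hε 2), abs_of_pos (pow_pos hp 2),
      abs_of_pos (two_pos : (0 : ℝ) < 2), div_le_iff₀ (pow_pos hp 2)]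
    have e : 2 * ε * (‖f0 y‖ * ‖f1 y‖ / (‖f0 y‖ ^ 2 + ε)) * (‖f0 y‖ ^ 2 + ε) ^ 2 =
        2 * ε * (‖f0 y‖ * ‖f1 y‖) * (‖f0 y‖ ^ 2 + ε) := by
      field_simp
    rw [e]
    have h2 : 0 ≤ ‖f0 y‖ * ‖f1 y‖ := by positivity
    have h3 : 0 ≤ ε * (‖f0 y‖ * ‖f1 y‖) * ‖f0 y‖ ^ 2 := by positivity
    have h4 := mul_le_mul_of_nonneg_left h1 (pow_pos hε 2).le
    nlinarith
  have hftc := intervalIntegral.integral_eq_sub_of_hasDerivAt (a := x) (b := z0)
    (fun y _ => hF y) (hcF'.intervalIntegrable _ _)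
  have hsub : uIoc x z0 ⊆ uIoc x (x + s) :=
    uIoc_subset_uIoc_of_uIcc_subset_uIcc (uIcc_subset_uIcc left_mem_uIcc hz0)
  have hint : ∀ {h : ℝ → ℝ}, Continuous h → ∀ a b, IntegrableOn h (uIoc a b) := fun hh a b =>
    intervalIntegrable_iff.1 (hh.intervalIntegrable a b)
  have hb1 : ∫ y in x..z0, F' y ≤ 2 * ε * ∫ y in uIoc x (x + s), g y := by
    calc ∫ y in x..z0, F' y ≤ ‖∫ y in x..z0, F' y‖ := Real.le_norm_self _
      _ ≤ ∫ y in uIoc x z0, ‖F' y‖ := intervalIntegral.norm_integral_le_integral_norm_uIoc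
      _ ≤ ∫ y in uIoc x z0, 2 * ε * g y :=
        integral_mono (hint hcF'.norm _ _) (hint (continuous_const.mul hcg) _ _) hFb
      _ ≤ ∫ y in uIoc x (x + s), 2 * ε * g y :=
        setIntegral_mono_set (hint (continuous_const.mul hcg) _ _)
          (Eventually.of_forall fun y => mul_nonneg (by positivity) (hg0 y)) hsub.eventuallyLE
      _ = _ := integral_const_mul _ _
  have hlow : (ε - ‖f0 x‖ ^ 2) / 4 ≤ ∫ y in x..z0, F' y := by
    rw [hftc]
    have p1 : ε ^ 2 * (‖f0 z0‖ ^ 2 + ε)⁻¹ ≤ ε / 2 := by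
      rw [← div_eq_mul_inv, div_le_iff₀ (hpos z0)]
      nlinarith
    have p2 : ε / 2 + (ε - ‖f0 x‖ ^ 2) / 4 ≤ ε ^ 2 * (‖f0 x‖ ^ 2 + ε)⁻¹ := by
      rw [← div_eq_mul_inv, le_div_iff₀ (hpos x)]
      nlinarith [sq_nonneg (ε - ‖f0 x‖ ^ 2)]
    linarith
  have hab : min x (x + s) ≤ max x (x + s) := min_le_max
  have hcs := ENV_cs hcg hab
  have hlen : max x (x + s) - min x (x + s) = |s| := by
    rw [max_sub_min_eq_abs']
    simp
  rw [hlen, intervalIntegral.integral_of_le hab, intervalIntegral.integral_of_le hab] at hcs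
  have hg2 : (fun z => ‖f0 z‖ ^ 2 / (‖f0 z‖ ^ 2 + ε) ^ 2 * ‖f1 z‖ ^ 2) = fun z => g z ^ 2 := by
    funext z
    simp only [hg]
    rw [div_pow, mul_pow]
    ring
  rw [hg2]
  change (∫ y in uIoc x (x + s), g y) ^ 2 ≤ |s| * ∫ y in uIoc x (x + s), g y ^ 2 at hcs
  have q0 : 0 ≤ ε - ‖f0 x‖ ^ 2 := sub_nonneg.2 hx
  have q1 : ε - ‖f0 x‖ ^ 2 ≤ 8 * ε * ∫ y in uIoc x (x + s), g y := by linarith
  calc (ε - ‖f0 x‖ ^ 2) ^ 2 ≤ (8 * ε * ∫ y in uIoc x (x + s), g y) ^ 2 :=
        pow_le_pow_left₀ q0 q1 2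
    _ = 64 * ε ^ 2 * (∫ y in uIoc x (x + s), g y) ^ 2 := by ring
    _ ≤ 64 * ε ^ 2 * (|s| * ∫ y in uIoc x (x + s), g y ^ 2) :=
        mul_le_mul_of_nonneg_left hcs (by positivity)
    _ = _ := by ring

end Pool.Agent.Lib.MP_13801a_an
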