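import Mathlib
import Pool.Agent.Lib.MP_13801a_an.Sts

/-!
The second derivative of the averaged virial weight.
-/

open MeasureTheory Set Filter
open scoped Topology

namespace Pool.Agent.Lib.MP_13801a_an

theorem HH_mul {a b : ℝ → ℝ} {La Lb : NNReal} {A B : ℝ} (ha : LipschitzWith La a)
    (hb : LipschitzWith Lb b) (hA : ∀ x, |a x| ≤ A) (hB : ∀ x, |b x| ≤ B) :
    LipschitzWith (Real.toNNReal (A * Lb + B * La)) fun x => a x * b x := by
  refine LipschitzWith.of_dist_le' fun x y => ?_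
  have h1 := ha.dist_le_mul x y
  have h2 := hb.dist_le_mul x y
  rw [Real.dist_eq] at h1 h2 ⊢
  have e : a x * b x - a y * b y = a x * (b x - b y) + b y * (a x - a y) := by ring
  have h3 : |a x * (b x - b y)| ≤ A * (Lb * dist x y) := by
    rw [abs_mul]
    exact mul_le_mul (hA x) h2 (abs_nonneg _) ((abs_nonneg _).trans (hA x))
  have h4 : |b y * (a x - a y)| ≤ B * (La * dist x y) := by
    rw [abs_mul]
    exact mul_le_mul (hB y) h1 (abs_nonneg _) ((abs_nonneg _).trans (hB y))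
  rw [e]
  refine (abs_add_le _ _).trans ((add_le_add h3 h4).trans (le_of_eq ?_))
  ring

variable {ε1 ε2 S : ℝ} {w w' : ℝ → ℝ}

theorem HH_cont (h : Wt ε1 ε2 S w w') : Continuous w :=
  continuous_iff_continuousAt.2 fun x => (h.der x).continuousAt

theorem HH_der (h : Wt ε1 ε2 S w w') (e : ℝ) :
    HasDerivAt (fun e => ∫ ε in (0 : ℝ)..e, w ε) (w e) e :=
  ((HH_cont h).integral_hasStrictDerivAt 0 e).hasDerivAt

theorem HH_low (h : Wt ε1 ε2 S w w') {e : ℝ} (he : e ≤ ε1) : ∫ ε in (0 : ℝ)..e, w ε = 0 := by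
  rw [intervalIntegral.integral_congr (g := fun _ => (0 : ℝ)) fun x hx =>
    (h.zero x (Or.inl (hx.2.trans (max_le h.pos.le he)))).1]
  simp

theorem HH_high (h : Wt ε1 ε2 S w w') {e : ℝ} (he : ε2 ≤ e) : ∫ ε in (0 : ℝ)..e, w ε = S := by
  have hi := (HH_cont h).intervalIntegrable (μ := volume)
  have h1 : ∫ ε in ε2..e, w ε = 0 := by
    rw [intervalIntegral.integral_congr (g := fun _ => (0 : ℝ)) fun x hx =>
      (h.zero x (Or.inr ((le_min le_rfl he).trans hx.1))).1]
    simp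
  rw [← intervalIntegral.integral_add_adjacent_intervals (hi 0 ε2) (hi ε2 e),
    ← intervalIntegral.integral_add_adjacent_intervals (hi 0 ε1) (hi ε1 ε2), HH_low h le_rfl, h1,
    h.tot, zero_add, add_zero]

theorem HH_range (h : Wt ε1 ε2 S w w') (e : ℝ) :
    0 ≤ ∫ ε in (0 : ℝ)..e, w ε ∧ ∫ ε in (0 : ℝ)..e, w ε ≤ S := by
  have hm : Monotone fun e => ∫ ε in (0 : ℝ)..e, w ε :=
    monotone_of_deriv_nonneg (fun x => (HH_der h x).differentiableAt) fun x => by
      rw [(HH_der h x).deriv]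
      exact h.nonneg x
  exact ⟨(HH_low h (min_le_right e ε1)).ge.trans (hm (min_le_left e ε1)),
    (hm (le_max_left e ε2)).trans (HH_high h (le_max_right e ε2)).le⟩

theorem HH_bd (h : Wt ε1 ε2 S w w') (x : ℝ) : |w x| ≤ 1 / ε1 := by
  have hp := h.pos
  rw [abs_of_nonneg (h.nonneg x), le_div_iff₀ hp]
  rcases le_total x ε1 with hx | hx
  · rw [(h.zero x (Or.inl hx)).1]
    norm_num
  · have h1 := h.le x
    have h2 := h.nonneg x
    nlinarith

theorem HH_bd' (h : Wt ε1 ε2 S w w') (x : ℝ) : |w' x| ≤ 3 / ε1 ^ 2 := by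
  have hp := h.pos
  rw [le_div_iff₀ (by positivity)]
  rcases le_total x ε1 with hx | hx
  · rw [(h.zero x (Or.inl hx)).2]
    norm_num
  · have h1 := h.le' x
    have h2 := abs_nonneg (w' x)
    have h3 : ε1 ^ 2 ≤ x ^ 2 := pow_le_pow_left₀ hp.le hx 2
    nlinarith

theorem HH_lip {f f' : ℝ → ℝ} {C : ℝ} (hf : ∀ x, HasDerivAt f (f' x) x) (hC : ∀ x, |f' x| ≤ C) :
    LipschitzWith (Real.toNNReal C) f :=
  lipschitzWith_of_nnnorm_deriv_le (fun x => (hf x).differentiableAt) fun x => by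
    rw [(hf x).deriv, ← NNReal.coe_le_coe, coe_nnnorm, Real.norm_eq_abs]
    exact (hC x).trans (Real.le_coe_toNNReal C)

theorem HH_int (h : Wt ε1 ε2 S w w') (e r : ℝ) :
    w e * (e - r) - ∫ ε in (0 : ℝ)..e, w ε =
      ∫ ε in ε1..ε2, w' ε * if ε < e then ε - r else 0 := by
  have hlt := h.lt
  have hG : ∀ x, HasDerivAt (fun e => w e * (e - r) - ∫ ε in (0 : ℝ)..e, w ε)
      (w' x * (x - r)) x := fun x => by
    have h1 := ((h.der x).mul ((hasDerivAt_id' x).sub_const r)).sub (HH_der h x)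
    have e1 : w' x * (x - r) + w x * 1 - w x = w' x * (x - r) := by ring
    rw [e1] at h1
    exact h1
  have hc : Continuous fun x => w' x * (x - r) := h.cont.mul (continuous_id.sub continuous_const)
  have hm : max ε1 (min e ε2) ∈ Icc ε1 ε2 := ⟨le_max_left _ _, max_le hlt.le (min_le_right _ _)⟩
  have h1 : (∫ ε in ε1..ε2, w' ε * if ε < e then ε - r else 0) =
      ∫ ε in ε1..ε2, indicator {x | x ≤ max ε1 (min e ε2)} (fun x => w' x * (x - r)) ε := by
    refine intervalIntegral.integral_congr_ae ?_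
    filter_upwards [Measure.ae_ne volume e] with x hxe hx
    rw [uIoc_of_le hlt.le] at hx
    by_cases hx1 : x < e
    · rw [if_pos hx1, indicator_of_mem]
      exact le_max_of_le_right (le_min hx1.le hx.2)
    · rw [if_neg hx1, indicator_of_notMem, mul_zero]
      intro h2
      rcases le_max_iff.1 (show x ≤ max ε1 (min e ε2) from h2) with h3 | h3
      · exact absurd hx.1 (not_lt.2 h3)
      · exact hx1 (lt_of_le_of_ne (h3.trans (min_le_left _ _)) hxe)
  rw [h1, intervalIntegral.integral_indicator hm,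
    intervalIntegral.integral_eq_sub_of_hasDerivAt (fun x _ => hG x) (hc.intervalIntegrable _ _),
    (h.zero ε1 (Or.inl le_rfl)).1, HH_low h le_rfl]
  rcases le_total e ε1 with h2 | h2
  · rw [max_eq_left ((min_le_left _ _).trans h2), (h.zero ε1 (Or.inl le_rfl)).1,
      (h.zero e (Or.inl h2)).1, HH_low h le_rfl, HH_low h h2]
    ring
  · rcases le_total e ε2 with h3 | h3
    · rw [min_eq_left h3, max_eq_right h2]
      ring
    · rw [min_eq_right h3, max_eq_right hlt.le, (h.zero ε2 (Or.inr le_rfl)).1,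
        (h.zero e (Or.inr h3)).1, HH_high h le_rfl, HH_high h h3]
      ring

theorem HH (h1 : St_EM) : St_HH := by
  intro ε1 ε2 S M w w' ρ h hρ
  obtain ⟨⟨L, hL⟩, -, hle, ⟨C, hC⟩, -⟩ := h1 M ρ hρ
  obtain ⟨L', hL'⟩ := hρ.lip
  refine ⟨?_, fun x => ?_, fun x hx => ?_, fun x hx => ?_, fun x => HH_int h _ _,
    fun x e' ρ' he hr => ?_⟩
  · have a1 := (HH_lip h.der (HH_bd' h)).comp hL
    have a2 := (HH_lip (HH_der h) (HH_bd h)).comp hL
    have a3 := HH_mul (B := C) a1 (hL.sub hL') (fun x => HH_bd h _) fun x => by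
      rw [abs_of_nonneg (sub_nonneg.2 (hle x))]
      linarith [hC x, hρ.nonneg x]
    exact ⟨_, a3.sub a2⟩
  · obtain ⟨a1, a2⟩ := HH_range h (em ρ x)
    have a3 := h.nonneg (em ρ x)
    have a4 := h.le (em ρ x)
    have a5 := mul_nonneg a3 (sub_nonneg.2 (hle x))
    have a6 := mul_nonneg a3 (hρ.nonneg x)
    unfold hh
    constructor <;> nlinarith
  · have a1 := hx.trans (hle x)
    unfold hh
    rw [(h.zero _ (Or.inr a1)).1, HH_high h a1]
    ring
  · have a1 : em ρ x ≤ ε1 := hx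
    unfold hh
    rw [(h.zero _ (Or.inl a1)).1, HH_low h a1]
    ring
  · have a1 := (((h.der (em ρ x)).comp x he).mul (he.sub hr)).sub ((HH_der h (em ρ x)).comp x he)
    refine (a1.congr_deriv ?_).congr_of_eventuallyEq (Eventually.of_forall fun y => rfl)
    simp only [Function.comp, Pi.sub_apply]
    ring

end Pool.Agent.Lib.MP_13801a_an
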