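import Mathlib
import Pool.Agent.Lib.MP_13801a_an.Sts

/-!
Holes of a closed set with bounded complement.
-/

open MeasureTheory Set Filter
open scoped Topology

namespace Pool.Agent.Lib.MP_13801a_an

theorem HOLE_neL {Z : Set ℝ} (h : Holes Z) (x : ℝ) : (Z ∩ Iic x).Nonempty := by
  obtain ⟨R, hR⟩ := h.bdd
  refine ⟨min x (-|R|), hR _ ?_, mem_Iic.2 (min_le_left _ _)⟩
  have h1 : min x (-|R|) ≤ -|R| := min_le_right _ _
  have h2 := neg_le_abs (min x (-|R|))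
  have h3 := le_abs_self R
  linarith

theorem HOLE_neR {Z : Set ℝ} (h : Holes Z) (x : ℝ) : (Z ∩ Ici x).Nonempty := by
  obtain ⟨R, hR⟩ := h.bdd
  refine ⟨max x |R|, hR _ ?_, mem_Ici.2 (le_max_left _ _)⟩
  have h1 : |R| ≤ max x |R| := le_max_right _ _
  have h2 := le_abs_self (max x |R|)
  have h3 := le_abs_self R
  linarith

theorem HOLE_bL (Z : Set ℝ) (x : ℝ) : BddAbove (Z ∩ Iic x) := ⟨x, fun _ hy => hy.2⟩

theorem HOLE_bR (Z : Set ℝ) (x : ℝ) : BddBelow (Z ∩ Ici x) := ⟨x, fun _ hy => hy.2⟩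

theorem HOLE_la {Z : Set ℝ} (h : Holes Z) (x : ℝ) : la Z x ∈ Z ∩ Iic x :=
  (h.closed.inter isClosed_Iic).csSup_mem (HOLE_neL h x) (HOLE_bL Z x)

theorem HOLE_rb {Z : Set ℝ} (h : Holes Z) (x : ℝ) : rb Z x ∈ Z ∩ Ici x :=
  (h.closed.inter isClosed_Ici).csInf_mem (HOLE_neR h x) (HOLE_bR Z x)

theorem HOLE_le_la {Z : Set ℝ} {x y : ℝ} (hy : y ∈ Z) (hyx : y ≤ x) : y ≤ la Z x :=
  le_csSup (HOLE_bL Z x) ⟨hy, hyx⟩

theorem HOLE_rb_le {Z : Set ℝ} {x y : ℝ} (hy : y ∈ Z) (hxy : x ≤ y) : rb Z x ≤ y :=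
  csInf_le (HOLE_bR Z x) ⟨hy, hxy⟩

theorem HOLE_out {Z : Set ℝ} (h : Holes Z) {x : ℝ} (hx : x ∉ Z) :
    la Z x < x ∧ x < rb Z x ∧ ∀ y ∈ Ioo (la Z x) (rb Z x), y ∉ Z := by
  refine ⟨lt_of_le_of_ne (HOLE_la h x).2 fun e => hx (e ▸ (HOLE_la h x).1),
    lt_of_le_of_ne (HOLE_rb h x).2 fun e => hx (e ▸ (HOLE_rb h x).1), fun y hy hyZ => ?_⟩
  rcases le_total y x with h1 | h1
  · exact absurd (HOLE_le_la hyZ h1) (not_le.2 hy.1)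
  · exact absurd (HOLE_rb_le hyZ h1) (not_le.2 hy.2)

theorem HOLE_in {Z : Set ℝ} (h : Holes Z) {a b : ℝ} (ha : a ∈ Z) (hb : b ∈ Z)
    (hab : ∀ y ∈ Ioo a b, y ∉ Z) {y : ℝ} (hy : y ∈ Ioo a b) : la Z y = a ∧ rb Z y = b := by
  have h1 := HOLE_le_la ha hy.1.le
  have h2 := HOLE_rb_le hb hy.2.le
  refine ⟨?_, ?_⟩
  · by_contra e
    exact hab _ ⟨lt_of_le_of_ne h1 (Ne.symm e), lt_of_le_of_lt (HOLE_la h y).2 hy.2⟩
      (HOLE_la h y).1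
  · by_contra e
    exact hab _ ⟨lt_of_lt_of_le hy.1 (HOLE_rb h y).2, lt_of_le_of_ne h2 e⟩ (HOLE_rb h y).1

theorem HOLE_int {Z : Set ℝ} (h : Holes Z) (f : ℝ → ℝ) (hf : IntegrableOn f Zᶜ)
    (hpos : ∀ a b, a < b → a ∈ Z → b ∈ Z → (∀ y ∈ Ioo a b, y ∉ Z) → 0 ≤ ∫ y in a..b, f y) :
    0 ≤ ∫ y in Zᶜ, f y := by
  let C : Set (ℝ × ℝ) := {p | p.1 < p.2 ∧ p.1 ∈ Z ∧ p.2 ∈ Z ∧ ∀ y ∈ Ioo p.1 p.2, y ∉ Z}
  have hd : C.PairwiseDisjoint fun p => Ioo p.1 p.2 := by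
    intro p hp q hq hpq
    refine Set.disjoint_left.2 fun y h1 h2 => hpq ?_
    have e1 := HOLE_in h hp.2.1 hp.2.2.1 hp.2.2.2 h1
    have e2 := HOLE_in h hq.2.1 hq.2.2.1 hq.2.2.2 h2
    exact Prod.ext (e1.1.symm.trans e2.1) (e1.2.symm.trans e2.2)
  have hc : C.Countable := hd.countable_of_isOpen (fun _ _ => isOpen_Ioo)
    fun p hp => nonempty_Ioo.2 hp.1
  have : Countable C := hc.to_subtype
  have hU : Zᶜ = ⋃ p : C, Ioo p.1.1 p.1.2 := by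
    ext y
    simp only [mem_iUnion, mem_compl_iff]
    constructor
    · intro hy
      obtain ⟨h1, h2, h3⟩ := HOLE_out h hy
      exact ⟨⟨(la Z y, rb Z y), h1.trans h2, (HOLE_la h y).1, (HOLE_rb h y).1, h3⟩, h1, h2⟩
    · rintro ⟨p, hp⟩
      exact p.2.2.2.2 y hp
  rw [hU] at hf ⊢
  have hs := hasSum_integral_iUnion (fun p : C => measurableSet_Ioo (a := p.1.1) (b := p.1.2))
    (fun p q hpq => hd p.2 q.2 fun e => hpq (Subtype.ext e)) hf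
  refine hs.nonneg fun p => ?_
  have h1 := hpos _ _ p.2.1 p.2.2.1 p.2.2.2.1 p.2.2.2.2
  rwa [intervalIntegral.integral_of_le p.2.1.le, integral_Ioc_eq_integral_Ioo] at h1

theorem HOLE : St_HOLE := by
  intro Z h
  refine ⟨fun x => ⟨(HOLE_la h x).1, (HOLE_rb h x).1, (HOLE_la h x).2, (HOLE_rb h x).2⟩,
    fun x hx => ⟨le_antisymm (HOLE_la h x).2 (HOLE_le_la hx le_rfl),
      le_antisymm (HOLE_rb_le hx le_rfl) (HOLE_rb h x).2⟩,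
    fun x hx => HOLE_out h hx, fun a b ha hb hab y hy => HOLE_in h ha hb hab hy,
    fun x y hxy => HOLE_le_la (HOLE_la h x).1 ((HOLE_la h x).2.trans hxy),
    fun x y hxy => HOLE_rb_le (HOLE_rb h y).1 (hxy.trans (HOLE_rb h y).2),
    fun f hf hpos => HOLE_int h f hf hpos⟩

end Pool.Agent.Lib.MP_13801a_an
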