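import Mathlib
import Pool.Agent.Lib.MP_13801a_an.Sts

/-!
The energy becomes negative when the growth rate of the coupling is large.
-/

open MeasureTheory Set Filter
open scoped ContDiff Topology ComplexConjugate

namespace Pool.Agent.Lib.MP_13801a_an

theorem INIT_pow1 {α s : ℝ} (hα : 4 ≤ α) (hs : 0 ≤ s) : s ^ (α + 1) ≤ s ^ (α + 2) + s ^ 2 := by
  rcases le_total s 1 with h | h
  · have h1 : s ^ (α + 1) ≤ s ^ (2 : ℝ) :=
      Real.rpow_le_rpow_of_exponent_ge' hs h (by norm_num) (by linarith)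
    rw [Real.rpow_two] at h1
    have h2 : 0 ≤ s ^ (α + 2) := by positivity
    linarith
  · have h1 : s ^ (α + 1) ≤ s ^ (α + 2) := Real.rpow_le_rpow_of_exponent_le h (by linarith)
    have h2 : 0 ≤ s ^ 2 := by positivity
    linarith

theorem INIT_pow2 {α s η : ℝ} (hα : 4 ≤ α) (hs : 0 ≤ s) (hη : 0 < η) :
    s ≤ η + s ^ (α + 2) / η ^ (α + 1) := by
  have h0 : 0 < η ^ (α + 1) := Real.rpow_pos_of_pos hη _
  rcases le_total s η with h | h
  · have h2 : 0 ≤ s ^ (α + 2) / η ^ (α + 1) := by positivity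
    linarith
  · have h1 : η ^ (α + 1) ≤ s ^ (α + 1) := Real.rpow_le_rpow hη.le h (by linarith)
    have h2 : s ^ (α + 2) = s ^ (α + 1) * s := by
      rw [← Real.rpow_add_one' hs (by linarith)]
      congr 1
      ring
    have h3 : s ≤ s ^ (α + 2) / η ^ (α + 1) := by
      rw [le_div_iff₀ h0, h2, mul_comm]
      exact mul_le_mul_of_nonneg_right h1 hs
    linarith

theorem INIT_cont {φ : ℝ → ℝ} (h : Test φ) : Continuous φ := h.1.continuous

theorem INIT_int {φ : ℝ → ℝ} (h : Test φ) {g : ℝ → ℂ} (hg : MemLp g 2 volume) :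
    Integrable fun x => g x * ((φ x : ℝ) : ℂ) := by
  have h1 : MemLp (fun x => ((φ x : ℝ) : ℂ)) 2 volume :=
    ((INIT_cont h).memLp_of_hasCompactSupport h.2).ofReal
  exact hg.integrable_mul h1

theorem INIT_d1 {φ : ℝ → ℝ} (h : Test φ) {g : ℝ → ℂ} (hg : MemLp g 2 volume) :
    ‖∫ x, g x * ((φ x : ℝ) : ℂ)‖ ≤ (nsq g + ∫ x, φ x ^ 2) / 2 := by
  have h1 : Integrable fun x => φ x ^ 2 :=
    (memLp_two_iff_integrable_sq (INIT_cont h).aestronglyMeasurable).1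
      ((INIT_cont h).memLp_of_hasCompactSupport h.2)
  have h2 := integrable_nsq hg
  have h3 : ‖∫ x, g x * ((φ x : ℝ) : ℂ)‖ ≤ ∫ x, (‖g x‖ ^ 2 + φ x ^ 2) / 2 := by
    refine norm_integral_le_of_norm_le ((h2.add h1).div_const 2) (Eventually.of_forall fun x => ?_)
    rw [norm_mul, Complex.norm_real, Real.norm_eq_abs, ← sq_abs (φ x)]
    nlinarith [sq_nonneg (‖g x‖ - |φ x|)]
  rwa [integral_div, integral_add h2 h1] at h3

theorem INIT_d2 (h4 : St_NL) {α A : ℝ} (hα : 4 ≤ α) {φ : ℝ → ℝ} (hA : ∀ x, |φ x| ≤ A)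
    {g : ℝ → ℂ} (hg : MemLp g 2 volume) (hp : Integrable fun x => ‖g x‖ ^ (α + 2)) :
    ‖∫ x, NL α (g x) * ((φ x : ℝ) : ℂ)‖ ≤ A * (pw α g + nsq g) := by
  have h2 := integrable_nsq hg
  have h3 : ‖∫ x, NL α (g x) * ((φ x : ℝ) : ℂ)‖ ≤ ∫ x, A * (‖g x‖ ^ (α + 2) + ‖g x‖ ^ 2) := by
    refine norm_integral_le_of_norm_le ((hp.add h2).const_mul A) (Eventually.of_forall fun x => ?_)
    rw [norm_mul, Complex.norm_real, Real.norm_eq_abs, (h4 α hα).2.1, mul_comm]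
    exact mul_le_mul (hA x) (INIT_pow1 hα (norm_nonneg _)) (by positivity)
      ((abs_nonneg _).trans (hA x))
  rwa [integral_const_mul, integral_add hp h2] at h3

theorem INIT_d3 {α A η : ℝ} (hα : 4 ≤ α) (hη : 0 < η) {φ : ℝ → ℝ} (h : Test φ)
    (hA : ∀ x, |φ x| ≤ A) {g : ℝ → ℂ} (hp : Integrable fun x => ‖g x‖ ^ (α + 2)) :
    ‖∫ x, g x * ((φ x : ℝ) : ℂ)‖ ≤ η * (∫ x, |φ x|) + A / η ^ (α + 1) * pw α g := by
  have h1 : Integrable fun x => |φ x| :=
    ((INIT_cont h).integrable_of_hasCompactSupport h.2).abs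
  have h3 : ‖∫ x, g x * ((φ x : ℝ) : ℂ)‖ ≤
      ∫ x, (η * |φ x| + A / η ^ (α + 1) * ‖g x‖ ^ (α + 2)) := by
    refine norm_integral_le_of_norm_le ((h1.const_mul η).add (hp.const_mul _))
      (Eventually.of_forall fun x => ?_)
    rw [norm_mul, Complex.norm_real, Real.norm_eq_abs]
    have h4 := INIT_pow2 hα (norm_nonneg (g x)) hη
    have h5 : 0 ≤ ‖g x‖ ^ (α + 2) / η ^ (α + 1) := by positivity
    have h6 := mul_le_mul_of_nonneg_right h4 (abs_nonneg (φ x))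
    have h7 := mul_le_mul_of_nonneg_left (hA x) h5
    have h8 : A / η ^ (α + 1) * ‖g x‖ ^ (α + 2) = ‖g x‖ ^ (α + 2) / η ^ (α + 1) * A := by ring
    rw [h8]
    nlinarith
  rwa [integral_add (h1.const_mul η) (hp.const_mul _), integral_const_mul,
    integral_const_mul] at h3

theorem INIT_pair_cont (h1 : St_BASIC) {α κ : ℝ} (hα : 4 ≤ α) {v dv : ℝ → ℝ → ℂ}
    (hs : Sol α κ v dv) {φ : ℝ → ℝ} (h : Test φ) :
    Continuous fun t => ∫ x, v t x * ((φ x : ℝ) : ℂ) := by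
  have hF : Integrable fun x => |φ x| :=
    ((INIT_cont h).integrable_of_hasCompactSupport h.2).abs
  have hF0 : 0 ≤ ∫ x, |φ x| := integral_nonneg fun x => abs_nonneg _
  rw [Metric.continuous_iff]
  intro t ε hε
  obtain ⟨τ, hτ, hb⟩ := (h1 α κ v dv hα hs).2.2.2.2.2 (|t| + 1) (ε / ((∫ x, |φ x|) + 1))
    (by positivity)
  refine ⟨min τ 1, by positivity, fun s hst => ?_⟩
  rw [Real.dist_eq, lt_min_iff] at hst
  have h2 : |s| ≤ |t| + 1 := by
    have h3 := abs_sub_abs_le_abs_sub s t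
    linarith [hst.2]
  have h3 := (hb s t h2 (by linarith) hst.1.le).1
  rw [dist_eq_norm, ← integral_sub (INIT_int h (hs.h1 s).mem0) (INIT_int h (hs.h1 t).mem0)]
  have h4 : ‖∫ x, (v s x * ((φ x : ℝ) : ℂ) - v t x * ((φ x : ℝ) : ℂ))‖ ≤
      ∫ x, ε / ((∫ x, |φ x|) + 1) * |φ x| := by
    refine norm_integral_le_of_norm_le (hF.const_mul _) (Eventually.of_forall fun x => ?_)
    rw [← sub_mul, norm_mul, Complex.norm_real, Real.norm_eq_abs]
    exact mul_le_mul_of_nonneg_right (h3 x) (abs_nonneg _)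
  rw [integral_const_mul] at h4
  refine h4.trans_lt ?_
  rw [div_mul_eq_mul_div, div_lt_iff₀ (by positivity)]
  nlinarith

theorem INIT_test {v0 : ℝ → ℂ} (hv : MemLp v0 2 volume) (hne : ¬ (v0 =ᵐ[volume] 0)) :
    ∃ φ, Test φ ∧ ∫ x, v0 x * ((φ x : ℝ) : ℂ) ≠ 0 := by
  by_contra hn
  push Not at hn
  refine hne (ae_eq_zero_of_integral_contDiff_smul_eq_zero
    (hv.locallyIntegrable (by norm_num)) fun φ h1 h2 => ?_)
  rw [← hn φ ⟨h1, h2⟩]
  refine integral_congr_ae (Eventually.of_forall fun x => ?_)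
  simp only [Complex.real_smul, mul_comm]

theorem INIT (h1 : St_BASIC) (h2 : St_MASS) (h3 : St_ENER) (h4 : St_NL) : St_INIT := by
  intro α K0 v0 hα hv hne
  obtain ⟨φ, hφ, hI⟩ := INIT_test hv hne
  obtain ⟨A0, hA0⟩ := (INIT_cont hφ).bounded_above_of_compact_support hφ.2
  obtain ⟨A, hApos, hA⟩ : ∃ A : ℝ, 0 < A ∧ ∀ x, |φ x| ≤ A :=
    ⟨|A0| + 1, by positivity, fun x => (hA0 x).trans (by linarith [le_abs_self A0])⟩
  obtain ⟨c0, hc0, hc0'⟩ : ∃ c0 : ℝ, 0 < c0 ∧ ‖∫ x, v0 x * ((φ x : ℝ) : ℂ)‖ = 2 * c0 :=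
    ⟨‖∫ x, v0 x * ((φ x : ℝ) : ℂ)‖ / 2, half_pos (norm_pos_iff.2 hI), by ring⟩
  have hF0 : 0 ≤ ∫ x, |φ x| := integral_nonneg fun x => abs_nonneg _
  have hG0 : 0 ≤ ∫ x, deriv φ x ^ 2 := integral_nonneg fun x => sq_nonneg _
  have hM0 := nsq_nonneg v0
  obtain ⟨η, hη, hηF⟩ : ∃ η : ℝ, 0 < η ∧ η * (∫ x, |φ x|) ≤ c0 / 2 := by
    refine ⟨c0 / (2 * ((∫ x, |φ x|) + 1)), by positivity, ?_⟩
    rw [div_mul_eq_mul_div, div_le_div_iff₀ (by positivity) (by positivity)]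
    nlinarith
  have hηp : 0 < η ^ (α + 1) := Real.rpow_pos_of_pos hη _
  obtain ⟨c1, hc1, hc1'⟩ : ∃ c1 : ℝ, 0 < c1 ∧ A / η ^ (α + 1) * c1 = c0 / 2 :=
    ⟨c0 * η ^ (α + 1) / (2 * A), by positivity, by field_simp⟩
  obtain ⟨E0, hE0, hE0'⟩ : ∃ E0 : ℝ, 0 ≤ E0 ∧ K0 / 2 ≤ E0 :=
    ⟨|K0| / 2, by positivity, by linarith [le_abs_self K0]⟩
  have hα2 : 0 < α + 2 := by linarith
  obtain ⟨L, hL, hL'⟩ : ∃ L : ℝ, 0 < L ∧ L * c1 / (α + 2) = E0 + 1 :=
    ⟨(α + 2) * (E0 + 1) / c1, by positivity, by field_simp⟩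
  obtain ⟨B0, hB0, hB0'⟩ : ∃ B0 : ℝ, 0 ≤ B0 ∧
      B0 = E0 + (∫ x, deriv φ x ^ 2) / 2 + A * nsq v0 * Real.exp L := ⟨_, by positivity, rfl⟩
  obtain ⟨B1, hB1, hB1'⟩ : ∃ B1 : ℝ, 0 ≤ B1 ∧ B1 = 1 + A * (α + 2) := ⟨_, by positivity, rfl⟩
  refine ⟨(B0 * L + B1 * E0) / c0 + 1, by positivity, fun κ hκ v dv hs hv0 hK => ?_⟩
  have hκ0 : 0 < κ := lt_trans (by positivity) hκ
  have hκ1 : (B0 * L + B1 * E0) / κ ≤ c0 := by
    rw [div_le_iff₀ hκ0]
    have h5 : (B0 * L + B1 * E0) / c0 ≤ κ := by linarith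
    rw [div_le_iff₀ hc0] at h5
    linarith
  by_contra hn
  push Not at hn
  obtain ⟨-, -, hPc, hmem, -, -⟩ := h1 α κ v dv hα hs
  have hM : ∀ t, 0 ≤ t → nsq (v t) = nsq v0 := by
    intro t ht
    rw [h2 α κ v dv hα hs t ht]
    refine integral_congr_ae ?_
    filter_upwards [hv0] with x hx
    rw [hx]
  obtain ⟨q, hq⟩ : ∃ q : ℝ → ℝ, q = fun σ => κ * Real.exp (κ * σ) * pw α (v σ) / (α + 2) :=
    ⟨_, rfl⟩
  have hqc : Continuous q := by
    rw [hq]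
    fun_prop
  have hq0 : ∀ σ, 0 ≤ q σ := by
    intro σ
    have h5 := pw_nonneg α (v σ)
    rw [hq]
    positivity
  have hen0 : en α κ v dv 0 ≤ E0 := by
    have h5 : 0 ≤ Real.exp (κ * 0) * pw α (v 0) / (α + 2) := by
      have h6 := pw_nonneg α (v 0)
      positivity
    unfold en
    linarith
  have hen : ∀ t, 0 ≤ t → en α κ v dv t ≤ E0 ∧ ∫ σ in (0 : ℝ)..t, q σ ≤ E0 := by
    intro t ht
    have h5 := h3 α κ v dv hα hs 0 t le_rfl ht
    rw [← hq] at h5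
    have h6 : 0 ≤ ∫ σ in (0 : ℝ)..t, q σ := intervalIntegral.integral_nonneg ht fun σ _ => hq0 σ
    have h7 := hn t ht
    constructor <;> linarith
  have ht1 : 0 < L / κ := by positivity
  have hder : ∀ t, 0 < t → t ≤ L / κ →
      ‖deriv (fun s => ∫ x, v s x * ((φ x : ℝ) : ℂ)) t‖ ≤ B0 + B1 / κ * q t := by
    intro t ht ht'
    rw [(hs.eqn φ hφ t ht).deriv, norm_mul, Complex.norm_I, one_mul]
    have h5 := INIT_d1 hφ.deriv (hs.h1 t).mem1
    have h6 := INIT_d2 h4 hα hA (hs.h1 t).mem0 (hmem t).2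
    rw [hM t ht.le] at h6
    have h7 : Real.exp (κ * t) ≤ Real.exp L := by
      rw [le_div_iff₀ hκ0] at ht'
      exact Real.exp_le_exp.2 (by linarith)
    have h8 := (hen t ht.le).1
    unfold en at h8
    have h9 : 0 < Real.exp (κ * t) := Real.exp_pos _
    refine (norm_add_le _ _).trans ?_
    rw [norm_neg, norm_mul, Complex.norm_real, Real.norm_eq_abs, abs_of_pos h9]
    have h10 := mul_le_mul_of_nonneg_left h6 h9.le
    have h11 : B1 / κ * q t = Real.exp (κ * t) * pw α (v t) / (α + 2) +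
        Real.exp (κ * t) * (A * pw α (v t)) := by
      rw [hq, hB1']
      field_simp
    have h12 : A * nsq v0 * Real.exp (κ * t) ≤ A * nsq v0 * Real.exp L :=
      mul_le_mul_of_nonneg_left h7 (by positivity)
    rw [h11, hB0']
    nlinarith
  have hlow : ∀ t ∈ Icc 0 (L / κ), c1 ≤ pw α (v t) := by
    intro t ht
    have hBc : Continuous fun σ => B0 + B1 / κ * q σ := by fun_prop
    have h5 := norm_sub_le_integral_of_norm_deriv_le_of_le
      (f := fun s => ∫ x, v s x * ((φ x : ℝ) : ℂ)) (B := fun σ => B0 + B1 / κ * q σ) ht.1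
      (INIT_pair_cont h1 hα hs hφ).continuousOn
      (fun s hs' => (hs.eqn φ hφ s hs'.1).differentiableAt.differentiableWithinAt)
      (Eventually.of_forall fun s hs' => hder s hs'.1 (hs'.2.le.trans ht.2))
      (hBc.intervalIntegrable _ _)
    rw [intervalIntegral.integral_add (continuous_const.intervalIntegrable _ _)
      ((hqc.intervalIntegrable _ _).const_mul _), intervalIntegral.integral_const,
      intervalIntegral.integral_const_mul, sub_zero, smul_eq_mul] at h5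
    have h6 : ∫ x, v 0 x * ((φ x : ℝ) : ℂ) = ∫ x, v0 x * ((φ x : ℝ) : ℂ) := by
      refine integral_congr_ae ?_
      filter_upwards [hv0] with x hx
      rw [hx]
    have h7 : t * B0 ≤ L / κ * B0 := mul_le_mul_of_nonneg_right ht.2 hB0
    have h8 : B1 / κ * ∫ σ in (0 : ℝ)..t, q σ ≤ B1 / κ * E0 :=
      mul_le_mul_of_nonneg_left (hen t ht.1).2 (by positivity)
    have h9 : L / κ * B0 + B1 / κ * E0 = (B0 * L + B1 * E0) / κ := by ring
    have h10 := norm_sub_norm_le (∫ x, v 0 x * ((φ x : ℝ) : ℂ)) (∫ x, v t x * ((φ x : ℝ) : ℂ))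
    rw [norm_sub_rev, h6, hc0'] at h10
    rw [h6] at h5
    have h11 := INIT_d3 hα hη hφ hA (hmem t).2
    have h12 : A / η ^ (α + 1) * c1 ≤ A / η ^ (α + 1) * pw α (v t) := by linarith
    exact le_of_mul_le_mul_left h12 (by positivity)
  have hfin : ∫ _ in (0 : ℝ)..(L / κ), κ * c1 / (α + 2) ≤ ∫ σ in (0 : ℝ)..(L / κ), q σ := by
    refine intervalIntegral.integral_mono_on ht1.le (continuous_const.intervalIntegrable _ _)
      (hqc.intervalIntegrable _ _) fun σ hσ => ?_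
    rw [hq]
    refine div_le_div_of_nonneg_right ?_ hα2.le
    have h5 : 1 ≤ Real.exp (κ * σ) := Real.one_le_exp (mul_nonneg hκ0.le hσ.1)
    have h6 := hlow σ hσ
    have h7 : 1 * c1 ≤ Real.exp (κ * σ) * pw α (v σ) := mul_le_mul h5 h6 hc1.le (by positivity)
    rw [mul_assoc]
    exact mul_le_mul_of_nonneg_left (by linarith) hκ0.le
  rw [intervalIntegral.integral_const, sub_zero, smul_eq_mul] at hfin
  have h5 : L / κ * (κ * c1 / (α + 2)) = L * c1 / (α + 2) := by field_simp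
  have h6 := (hen _ ht1.le).2
  linarith

end Pool.Agent.Lib.MP_13801a_an
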