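import Mathlib
import Pool.Agent.Lib.MP_13801a_an.Sts

/-!
The envelope gap on the holes of the contact set.
-/

open MeasureTheory Set Filter
open scoped ContDiff Topology ComplexConjugate

namespace Pool.Agent.Lib.MP_13801a_an

theorem LAM1_sub {Z : Set ℝ} (hZ : Holes Z) : ∃ R : ℝ, Zᶜ ⊆ Icc (-R) R := by
  obtain ⟨R, hR⟩ := hZ.bdd
  exact ⟨R, fun x hx => abs_le.1 (not_le.1 fun h => hx (hR x h)).le⟩

theorem LAM1_int {Z : Set ℝ} (hZ : Holes Z) {f : ℝ → ℝ} (hf : Continuous f) :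
    IntegrableOn f Zᶜ := by
  obtain ⟨R, hR⟩ := LAM1_sub hZ
  exact (hf.continuousOn.integrableOn_compact isCompact_Icc).mono_set hR

theorem LAM1_vol {Z : Set ℝ} (hZ : Holes Z) : volume Zᶜ ≠ ⊤ := by
  obtain ⟨R, hR⟩ := LAM1_sub hZ
  exact ((measure_mono hR).trans_lt isCompact_Icc.measure_lt_top).ne

theorem LAM1_eq {ρ : ℝ → ℝ} {ε : ℝ} (hZ : Holes (zs ρ ε)) (x : ℝ) :
    Lam ρ ε x = ∫ z in (zs ρ ε)ᶜ, max (x - z) 0 * (ε - ρ z) := by
  rw [← integral_indicator hZ.closed.isOpen_compl.measurableSet]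
  refine integral_congr_ae (Eventually.of_forall fun z => ?_)
  by_cases hz : ε < em ρ z
  · have : z ∈ (zs ρ ε)ᶜ := fun h => absurd hz (not_lt.2 h)
    simp [kk, hz, indicator_of_mem this]
  · have : z ∉ (zs ρ ε)ᶜ := fun h => h (not_lt.1 hz)
    simp [kk, hz, indicator_of_notMem this]

theorem LAM1_zero (h3 : St_HOLE) {Z : Set ℝ} (hZ : Holes Z) {f : ℝ → ℝ} (hf : IntegrableOn f Zᶜ)
    (h : ∀ a b, a < b → a ∈ Z → b ∈ Z → (∀ y ∈ Ioo a b, y ∉ Z) → ∫ y in a..b, f y = 0) :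
    ∫ y in Zᶜ, f y = 0 := by
  have hH := (h3 Z hZ).2.2.2.2.2.2
  refine le_antisymm ?_ (hH f hf fun a b hab ha hb hy => (h a b hab ha hb hy).ge)
  have := hH (fun y => -f y) hf.neg fun a b hab ha hb hy => by
    rw [intervalIntegral.integral_neg, h a b hab ha hb hy, neg_zero]
  rwa [integral_neg, neg_nonneg] at this

theorem LAM1_first (h3 : St_HOLE) (h4 : St_CELL) {M ε : ℝ} {ρ : ℝ → ℝ} (hd : Dens M ρ)
    (hc : Continuous ρ) (hZ : Holes (zs ρ ε)) (x : ℝ) :
    Lam ρ ε x = -TT ρ ε (la (zs ρ ε) x) x := by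
  obtain ⟨g1, g2, g3, -⟩ := h3 _ hZ
  set a := la (zs ρ ε) x with ha
  have haZ : a ∈ zs ρ ε := (g1 x).1
  have hax : a ≤ x := (g1 x).2.2.1
  have hsub : Ioc a x ⊆ (zs ρ ε)ᶜ := by
    by_cases hx : x ∈ zs ρ ε
    · rw [ha, (g2 x hx).1]
      simp
    · exact fun y hy => (g3 x hx).2.2 y ⟨hy.1, hy.2.trans_lt (g3 x hx).2.1⟩
  have hF : Continuous fun z => (x - z) * (ε - ρ z) := by fun_prop
  have hsplit : ∀ z, max (x - z) 0 * (ε - ρ z) =
      (Iic a).indicator (fun z => (x - z) * (ε - ρ z)) z +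
        (Ioc a x).indicator (fun z => (x - z) * (ε - ρ z)) z := fun z => by
    rcases le_or_gt z a with h | h
    · rw [indicator_of_mem (show z ∈ Iic a from h),
        indicator_of_notMem (show z ∉ Ioc a x from fun h' => absurd h'.1 (not_lt.2 h)),
        max_eq_left (by linarith), add_zero]
    · rw [indicator_of_notMem (show z ∉ Iic a from not_le.2 h), zero_add]
      rcases le_or_gt z x with h' | h'
      · rw [indicator_of_mem (show z ∈ Ioc a x from ⟨h, h'⟩), max_eq_left (by linarith)]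
      · rw [indicator_of_notMem (show z ∉ Ioc a x from fun h'' => absurd h''.2 (not_le.2 h')),
          max_eq_right (by linarith), zero_mul]
  have hi1 := (LAM1_int hZ hF).indicator (measurableSet_Iic (a := a))
  have hi2 := (LAM1_int hZ hF).indicator (measurableSet_Ioc (a := a) (b := x))
  rw [LAM1_eq hZ]
  simp_rw [hsplit]
  rw [integral_add hi1 hi2, LAM1_zero h3 hZ hi1, zero_add, setIntegral_indicator measurableSet_Ioc,
    inter_eq_right.2 hsub, ← intervalIntegral.integral_of_le hax, TT,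
    ← intervalIntegral.integral_neg]
  · exact intervalIntegral.integral_congr fun z _ => by ring
  · intro a' b' hab ha' hb' hy
    rw [intervalIntegral.integral_of_le hab.le, setIntegral_indicator measurableSet_Iic]
    rcases le_or_gt a a' with h | h
    · have : Ioc a' b' ∩ Iic a = ∅ :=
        eq_empty_of_forall_notMem fun z hz => absurd hz.1.1 (not_lt.2 (le_trans hz.2 h))
      rw [this, setIntegral_empty]
    · have hb : b' ≤ a := not_lt.1 fun h' => hy a ⟨h, h'⟩ haZ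
      have : Ioc a' b' ∩ Iic a = Ioc a' b' := inter_eq_left.2 fun z hz => le_trans hz.2 hb
      obtain ⟨c1, c2⟩ := h4 M ρ ε a' b' hd hab ha' hb' hy
      rw [this, ← intervalIntegral.integral_of_le hab.le]
      have e : ∀ z, (x - z) * (ε - ρ z) =
          (b' - x) * (ρ z - ε) - (b' - z) * (ρ z - ε) := fun z => by ring
      simp_rw [e]
      rw [intervalIntegral.integral_sub (Continuous.intervalIntegrable (by fun_prop) _ _)
        (Continuous.intervalIntegrable (by fun_prop) _ _), intervalIntegral.integral_const_mul, c1]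
      rw [TT] at c2
      rw [c2]
      simp

theorem LAM1_len (h3 : St_HOLE) (h4 : St_CELL) {M ε : ℝ} {ρ : ℝ → ℝ} (hd : Dens M ρ)
    (hc : Continuous ρ) (hε : 0 < ε) (hZ : Holes (zs ρ ε)) (x : ℝ) :
    rb (zs ρ ε) x - la (zs ρ ε) x ≤ M / ε := by
  obtain ⟨g1, g2, g3, -⟩ := h3 _ hZ
  have hM : 0 ≤ M := (integral_nonneg hd.nonneg).trans hd.mass
  by_cases hx : x ∈ zs ρ ε
  · rw [(g2 x hx).1, (g2 x hx).2, sub_self]
    positivity
  · have hab := (g3 x hx).1.trans (g3 x hx).2.1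
    have c1 := (h4 M ρ ε _ _ hd hab (g1 x).1 (g1 x).2.1 (g3 x hx).2.2).1
    rw [intervalIntegral.integral_sub (hc.intervalIntegrable _ _)
      (continuous_const.intervalIntegrable _ _), intervalIntegral.integral_const, smul_eq_mul,
      intervalIntegral.integral_of_le hab.le] at c1
    have c2 := setIntegral_le_integral (s := Ioc (la (zs ρ ε) x) (rb (zs ρ ε) x)) hd.int
      (Eventually.of_forall hd.nonneg)
    rw [le_div_iff₀ hε]
    linarith [hd.mass]

theorem LAM1 (h1 : St_EM) (h2 : St_TT) (h3 : St_HOLE) (h4 : St_CELL) : St_LAM1 := by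
  intro M ρ ε hd hε
  obtain ⟨-, -, -, -, e5, -, e7, -⟩ := h1 M ρ hd
  have hZ := e5 ε hε
  have hc : Continuous ρ := by
    obtain ⟨L, hL⟩ := hd.lip
    exact hL.continuous
  obtain ⟨g1, g2, -⟩ := h3 _ hZ
  obtain ⟨-, t2, t3, -⟩ := h2 ρ ε hc
  have t4 := (h2 ρ 0 hc).2.2.2.1
  have k1 := LAM1_first h3 h4 hd hc hZ
  have k4 := LAM1_len h3 h4 hd hc hε hZ
  have hneg : ∀ x y, TT ρ ε (la (zs ρ ε) x) y ≤ 0 := fun x => (e7 ε _).1 (g1 x).1
  refine ⟨k1, fun x => ⟨?_, ?_⟩, fun x hx => ?_, k4, ?_, fun a b x hab hax hxb => ?_, ?_⟩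
  · rw [k1]
    exact neg_nonneg.2 (hneg x x)
  · rw [k1, t4]
    have hax := (g1 x).2.2.1
    have h0 : 0 ≤ TT ρ 0 (la (zs ρ ε) x) x :=
      intervalIntegral.integral_nonneg hax fun z hz =>
        mul_nonneg (sub_nonneg.2 hz.2) (by simpa using hd.nonneg z)
    have h5 : x - la (zs ρ ε) x ≤ M / ε := by linarith [k4 x, (g1 x).2.2.2]
    have h6 : (x - la (zs ρ ε) x) ^ 2 ≤ (M / ε) ^ 2 := pow_le_pow_left₀ (by linarith) h5 2
    have h7 : ε * (M / ε) ^ 2 = M ^ 2 / ε := by field_simp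
    have h8 : 0 ≤ ε * (x - la (zs ρ ε) x) ^ 2 := by positivity
    nlinarith [mul_le_mul_of_nonneg_left h6 hε.le]
  · rw [k1, (g2 x hx).1, t2, neg_zero]
  · have h0 := LAM1_zero h3 hZ (f := fun z => ρ z - ε) (LAM1_int hZ (by fun_prop))
      fun a b hab ha hb hy => (h4 M ρ ε a b hd hab ha hb hy).1
    rw [integral_sub (LAM1_int hZ hc) (LAM1_int hZ continuous_const), setIntegral_const,
      smul_eq_mul] at h0
    have c2 := setIntegral_le_integral (s := (zs ρ ε)ᶜ) hd.int (Eventually.of_forall hd.nonneg)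
    rw [← ENNReal.ofReal_toReal (LAM1_vol hZ)]
    refine ENNReal.ofReal_le_ofReal ?_
    rw [le_div_iff₀ hε]
    rw [measureReal_def] at h0
    linarith [hd.mass]
  · rw [k1, gap]
    have hba : 0 < b - a := sub_pos.2 hab
    have e1 := t3 (la (zs ρ ε) x) a b
    have e2 := t3 (la (zs ρ ε) x) a x
    have n1 := hneg x a
    have n2 := hneg x b
    set c := ∫ t in la (zs ρ ε) x..a, (ρ t - ε)
    set θ := (x - a) / (b - a) with hθ
    have θ0 : 0 ≤ θ := div_nonneg (by linarith) hba.le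
    have θ1 : θ ≤ 1 := (div_le_one hba).2 (by linarith)
    have θ2 : θ * (b - a) = x - a := div_mul_cancel₀ _ hba.ne'
    have e3 : TT ρ ε a b = TT ρ ε (la (zs ρ ε) x) b - TT ρ ε (la (zs ρ ε) x) a - (b - a) * c := by
      linarith
    have e4 : TT ρ ε a x = TT ρ ε (la (zs ρ ε) x) x - TT ρ ε (la (zs ρ ε) x) a - (x - a) * c := by
      linarith
    rw [e3, e4, ← θ2]
    nlinarith [mul_nonneg θ0 (neg_nonneg.2 n2), mul_nonneg (sub_nonneg.2 θ1) (neg_nonneg.2 n1)]
  · obtain ⟨R, hR⟩ := LAM1_sub hZ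
    have := continuous_parametric_integral_of_continuous (μ := volume.restrict (zs ρ ε)ᶜ)
      (f := fun x z : ℝ => max (x - z) 0 * (ε - ρ z)) (by fun_prop)
      (isCompact_Icc (a := -R) (b := R))
    rw [Measure.restrict_restrict measurableSet_Icc, inter_eq_right.2 hR] at this
    exact this.congr fun x => (LAM1_eq hZ x).symm

end Pool.Agent.Lib.MP_13801a_an
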