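import Mathlib
import Pool.Agent.Lib.MP_13801a_an.Sts

/-!
Convexity properties of the envelope gap.
-/

open MeasureTheory Set Filter

namespace Pool.Agent.Lib.MP_13801a_an

theorem LAM2_cont {M : ℝ} {ρ : ℝ → ℝ} (hD : Dens M ρ) : Continuous ρ := by
  obtain ⟨L, hL⟩ := hD.lip
  exact hL.continuous

theorem LAM2_M {M : ℝ} {ρ : ℝ → ℝ} (hD : Dens M ρ) : 0 ≤ M :=
  (integral_nonneg hD.nonneg).trans hD.mass

theorem LAM2_gap (h1 : St_EM) (h3 : St_HOLE) (h4 : St_CELL) (h5 : St_LAM1) {M : ℝ} {ρ : ℝ → ℝ}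
    {ε : ℝ} (hD : Dens M ρ) (hε : 0 < ε) {a b : ℝ} (hab : a < b) (ha : a ∈ zs ρ ε)
    (hb : b ∈ zs ρ ε) (hh : ∀ y ∈ Ioo a b, y ∉ zs ρ ε) {x : ℝ} (hx : x ∈ Ioo a b) :
    Lam ρ ε x = gap ρ ε a b x ∧ psi ρ ε x = (x - a) * (b - x) / 2 := by
  have hZ : Holes (zs ρ ε) := (h1 M ρ hD).2.2.2.2.1 ε hε
  obtain ⟨e1, e2⟩ := (h3 _ hZ).2.2.2.1 a b ha hb hh x hx
  have e3 := (h4 M ρ ε a b hD hab ha hb hh).2
  refine ⟨?_, ?_⟩
  · rw [(h5 M ρ ε hD hε).1 x, e1, gap, e3]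
    ring
  · rw [psi, e1, e2]

theorem LAM2_zero (h1 : St_EM) (h3 : St_HOLE) {M : ℝ} {ρ : ℝ → ℝ}
    {ε : ℝ} (hD : Dens M ρ) (hε : 0 < ε) {x : ℝ} (hx : x ∈ zs ρ ε) : psi ρ ε x = 0 := by
  have hZ : Holes (zs ρ ε) := (h1 M ρ hD).2.2.2.2.1 ε hε
  rw [psi, ((h3 _ hZ).2.1 x hx).1]
  ring

theorem LAM2_int (h1 : St_EM) (h5 : St_LAM1) {M : ℝ} {ρ : ℝ → ℝ}
    {ε : ℝ} (hD : Dens M ρ) (hε : 0 < ε) : Integrable (Lam ρ ε) := by
  obtain ⟨R, hR⟩ := ((h1 M ρ hD).2.2.2.2.1 ε hε).bdd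
  obtain ⟨-, -, l3, -, -, -, l7⟩ := h5 M ρ ε hD hε
  refine l7.integrable_of_hasCompactSupport
    (HasCompactSupport.intro (isCompact_Icc (a := -R) (b := R)) fun x hx => l3 x (hR x ?_))
  by_contra hc
  exact hx (abs_le.1 (not_le.1 hc).le)

theorem LAM2_gapcont (h2 : St_TT) {ρ : ℝ → ℝ} (hc : Continuous ρ) (ε a b : ℝ) :
    Continuous (gap ρ ε a b) := by
  have hT : Continuous (TT ρ ε a) :=
    continuous_iff_continuousAt.2 fun y => ((h2 ρ ε hc).1 a y).continuousAt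
  unfold gap
  fun_prop

theorem LAM2 (h1 : St_EM) (h2 : St_TT) (h3 : St_HOLE) (h4 : St_CELL) (h5 : St_LAM1) :
    St_LAM2 := by
  intro M ρ ε hD hε
  have hZ : Holes (zs ρ ε) := (h1 M ρ hD).2.2.2.2.1 ε hε
  have hc := LAM2_cont hD
  have hM := LAM2_M hD
  obtain ⟨z1, z2, z3, z4, z5, z6, z7⟩ := h3 _ hZ
  obtain ⟨l1, l2, l3, l4, l5, l6, l7⟩ := h5 M ρ ε hD hε
  have hmeas : Measurable (psi ρ ε) :=
    ((measurable_id.sub z5.measurable).mul (z6.measurable.sub measurable_id)).div_const 2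
  have hbd : ∀ x, 0 ≤ psi ρ ε x ∧ psi ρ ε x ≤ (M / ε) ^ 2 := by
    intro x
    obtain ⟨-, -, a1, a2⟩ := z1 x
    have a3 := l4 x
    have a4 : 0 ≤ x - la (zs ρ ε) x := by linarith
    have a5 : 0 ≤ rb (zs ρ ε) x - x := by linarith
    have a6 : 0 ≤ M / ε := by linarith
    have a7 : (x - la (zs ρ ε) x) * (rb (zs ρ ε) x - x) ≤ M / ε * (M / ε) :=
      mul_le_mul (by linarith) (by linarith) a5 a6
    have a8 := mul_nonneg a4 a5
    unfold psi
    constructor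
    · linarith
    · nlinarith
  have hint := LAM2_int h1 h5 hD hε
  refine ⟨?_, hmeas, hbd, hint, ?_, ?_⟩
  · intro ε' hε' x
    by_cases hx : x ∈ zs ρ ε
    · rw [l3 x hx, LAM2_zero h1 h3 hD hε hx]
      simpa using ((h5 M ρ ε' hD hε').2.1 x).1
    · obtain ⟨a1, a2, a3⟩ := z3 x hx
      have hab := a1.trans a2
      obtain ⟨e1, e2⟩ := LAM2_gap h1 h3 h4 h5 hD hε hab (z1 x).1 (z1 x).2.1 a3 ⟨a1, a2⟩
      refine le_trans (le_of_eq ?_) ((h5 M ρ ε' hD hε').2.2.2.2.2.1 _ _ x hab a1.le a2.le)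
      rw [e1, e2, gap, gap, (h2 ρ ε hc).2.2.2.1 ε', (h2 ρ ε hc).2.2.2.1 ε']
      have hne : rb (zs ρ ε) x - la (zs ρ ε) x ≠ 0 := by linarith
      field_simp
      ring
  · have hfin : volume (zs ρ ε)ᶜ < ⊤ := l5.trans_lt ENNReal.ofReal_lt_top
    have hreal : volume.real (zs ρ ε)ᶜ ≤ M / ε :=
      ENNReal.toReal_le_of_le_ofReal (by positivity) l5
    rw [← setIntegral_eq_integral_of_forall_compl_eq_zero (s := (zs ρ ε)ᶜ)
      fun x hx => l3 x (not_not.1 hx)]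
    have h := norm_setIntegral_le_of_norm_le_const (μ := volume) (f := Lam ρ ε) (C := M ^ 2 / ε)
      hfin fun x _ => by rw [Real.norm_of_nonneg (l2 x).1]; exact (l2 x).2
    calc _ ≤ _ := Real.le_norm_self _
      _ ≤ _ := h
      _ ≤ M ^ 2 / ε * (M / ε) := mul_le_mul_of_nonneg_left hreal (by positivity)
      _ = M ^ 3 / ε ^ 2 := by field_simp
  · intro ρ' hD'
    have hc' := LAM2_cont hD'
    have hint' := LAM2_int h1 h5 hD' hε
    have hp : ∀ σ : ℝ → ℝ, Integrable σ → Integrable fun x => psi ρ ε x * σ x := fun σ hσ =>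
      hσ.bdd_mul (c := (M / ε) ^ 2) hmeas.aestronglyMeasurable
        (Eventually.of_forall fun x => by rw [Real.norm_of_nonneg (hbd x).1]; exact (hbd x).2)
    have hi1 := hp ρ hD.int
    have hi2 := hp ρ' hD'.int
    set f : ℝ → ℝ := fun x => (Lam ρ' ε x - Lam ρ ε x) - (psi ρ ε x * ρ' x - psi ρ ε x * ρ x)
      with hf
    have hfi : Integrable f := (hint'.sub hint).sub (hi2.sub hi1)
    have hA : 0 ≤ ∫ x in (zs ρ ε)ᶜ, f x := by
      refine z7 f hfi.integrableOn fun a b hab ha hb hh => ?_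
      have g1 := LAM2_gapcont h2 hc ε a b
      have g2 := LAM2_gapcont h2 hc' ε a b
      have g3 : Continuous fun x => (x - a) * (b - x) / 2 * (ρ x - ε) := by fun_prop
      have g4 : Continuous fun x => (x - a) * (b - x) / 2 * (ρ' x - ε) := by fun_prop
      have key : ∫ x in a..b, ((gap ρ' ε a b x - gap ρ ε a b x) -
          ((x - a) * (b - x) / 2 * (ρ' x - ε) - (x - a) * (b - x) / 2 * (ρ x - ε))) = 0 := by
        rw [intervalIntegral.integral_sub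
          ((g2.intervalIntegrable a b).sub (g1.intervalIntegrable a b))
          ((g4.intervalIntegrable a b).sub (g3.intervalIntegrable a b)),
          intervalIntegral.integral_sub (g2.intervalIntegrable a b) (g1.intervalIntegrable a b),
          intervalIntegral.integral_sub (g4.intervalIntegrable a b) (g3.intervalIntegrable a b),
          (h2 ρ ε hc).2.2.2.2 a b hab, (h2 ρ' ε hc').2.2.2.2 a b hab]
        ring
      rw [← key]
      refine intervalIntegral.integral_mono_on_of_le_Ioo hab.le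
        (((g2.sub g1).sub (g4.sub g3)).intervalIntegrable a b) hfi.intervalIntegrable
        fun x hx => ?_
      obtain ⟨e1, e2⟩ := LAM2_gap h1 h3 h4 h5 hD hε hab ha hb hh hx
      have e3 := (h5 M ρ' ε hD' hε).2.2.2.2.2.1 a b x hab hx.1.le hx.2.le
      simp only [hf]
      rw [e1, e2]
      nlinarith
    have hB : 0 ≤ ∫ x in zs ρ ε, f x := by
      refine setIntegral_nonneg hZ.closed.measurableSet fun x hx => ?_
      simp only [hf]
      rw [l3 x hx, LAM2_zero h1 h3 hD hε hx]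
      simpa using ((h5 M ρ' ε hD' hε).2.1 x).1
    have hC := integral_add_compl hZ.closed.measurableSet hfi
    have hE : ∫ x, f x = ((∫ x, Lam ρ' ε x) - ∫ x, Lam ρ ε x) -
        ((∫ x, psi ρ ε x * ρ' x) - ∫ x, psi ρ ε x * ρ x) := by
      rw [← integral_sub hint' hint, ← integral_sub hi2 hi1]
      exact integral_sub (hint'.sub hint) (hi2.sub hi1)
    linarith

end Pool.Agent.Lib.MP_13801a_an
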