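import Mathlib
import Pool.Agent.Lib.MP_13801a_an.Sts

/-!
Reduction of the main statement to the statements on the transformed equation.
-/

open MeasureTheory Set Filter

namespace Pool.Agent.Lib.MP_13801a_an

theorem MAIN_nsq {a b : ℝ → ℂ} (h : a =ᵐ[volume] b) : nsq a = ∫ x, ‖b x‖ ^ 2 :=
  integral_congr_ae (h.mono fun x hx => by simp only [hx])

theorem MAIN_pw (α : ℝ) {a b : ℝ → ℂ} (h : a =ᵐ[volume] b) : pw α a = ∫ x, ‖b x‖ ^ (α + 2) :=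
  integral_congr_ae (h.mono fun x hx => by simp only [hx])

theorem MAIN (h1 : St_REP) (h2 : St_TRANS) (h3 : St_INIT) (h4 : St_MONO) (h5 : St_CORE) :
    St_MAIN := by
  have fin : ∀ (α κ : ℝ) (v dv : ℝ → ℝ → ℂ), 4 < α → 0 ≤ κ → Sol α κ v dv → ∀ t, 0 ≤ t →
      en α κ v dv t < 0 → False := by
    intro α κ v dv hα hκ hS t ht hen
    obtain ⟨y0, hy0, hy⟩ := h4 α κ v dv hα.le hκ hS t ht hen
    exact h5 α κ v dv hα hκ hS t y0 ht hy0 hy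
  refine ⟨fun α hα u0 du0 hw hne => ?_, fun α hα γ hγ u0 du0 hw hen => ?_⟩
  · have hα0 : 0 < α := by linarith
    obtain ⟨κ0, hκ0, hκ⟩ := h3 α (∫ x, ‖du0 x‖ ^ 2) u0 hα.le (Lp.memLp u0)
      (fun h => hne (Lp.eq_zero_iff_ae_eq_zero.2 h))
    refine ⟨κ0 / α, div_pos hκ0 hα0, fun γ hγ => ?_⟩
    rintro ⟨u, du, hG, rfl⟩
    obtain ⟨v, dv, hS, hv, hdv⟩ := h2 α γ u du hG
    have hlt : κ0 < α * γ := by rwa [div_lt_iff₀' hα0] at hγ
    have hd : du 0 = du0 := h1.2 _ _ _ (hG.weak 0 le_rfl) hw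
    obtain ⟨t, ht, hen⟩ := hκ (α * γ) hlt v dv hS hv (by rw [MAIN_nsq hdv, hd])
    exact fin α (α * γ) v dv hα (by linarith) hS t ht hen
  · rintro ⟨u, du, hG, rfl⟩
    obtain ⟨v, dv, hS, hv, hdv⟩ := h2 α γ u du hG
    have hd : du 0 = du0 := h1.2 _ _ _ (hG.weak 0 le_rfl) hw
    refine fin α (α * γ) v dv hα (mul_nonneg (by linarith) hγ) hS 0 le_rfl ?_
    rw [en, MAIN_nsq hdv, MAIN_pw α hv, mul_zero, Real.exp_zero, one_mul, hd]
    exact hen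

end Pool.Agent.Lib.MP_13801a_an
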