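import Mathlib
import Pool.Agent.Lib.MP_13801a_an.Sts

/-!
Conservation of mass and the exponential growth of a negative energy.
-/

open MeasureTheory Set Filter
open scoped ContDiff Topology ComplexConjugate

namespace Pool.Agent.Lib.MP_13801a_an

theorem MASS_zero {d K : ℝ} (h : ∀ r : ℝ, 0 < r → r ≤ 1 → |d| ≤ K * r) : d = 0 := by
  have h1 : Tendsto (fun n : ℕ => K * (1 / ((n : ℝ) + 1))) atTop (𝓝 (K * 0)) :=
    tendsto_one_div_add_atTop_nhds_zero_nat.const_mul K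
  have h2 : |d| ≤ K * 0 := by
    refine ge_of_tendsto' h1 fun n => h _ (by positivity) ?_
    rw [div_le_one (by positivity)]
    have : (0 : ℝ) ≤ n := Nat.cast_nonneg n
    linarith
  rw [mul_zero] at h2
  exact abs_nonpos_iff.1 h2

theorem MASS (h1 : St_BASIC) (h2 : St_APX) (h3 : St_UNI1) (h4 : St_UNI2) (h5 : St_VIR1) :
    St_MASS := by
  intro α κ v dv hα hS t ht
  obtain ⟨B, hB⟩ := (h1 α κ v dv hα hS).2.2.2.2.1 t
  obtain ⟨C1, hC1, hu1⟩ := h3.2 α B hα
  obtain ⟨C2, hC2, hu2⟩ := h4 α B hα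
  have hmem : ∀ σ ∈ Icc 0 t, |σ| ≤ t := fun σ hσ => by rw [abs_of_nonneg hσ.1]; exact hσ.2
  set E : ℝ := 2 * Real.exp (|κ| * t) * √B * √C2 with hE
  rw [← sub_eq_zero]
  refine MASS_zero (K := 2 * C1 + E * t) fun r hr hr1 => ?_
  have hA := h2 α κ v dv hα hS r hr
  obtain ⟨D, -, hD, hDe⟩ := h5 α κ (fm r v) (nm α r v) hα hA (fun _ => 1) (fun _ => 0) 1
    (fun x => hasDerivAt_const x 1) continuous_const (fun x => by simp) 0 t le_rfl ht
  have hDb : ∀ σ ∈ Icc 0 t, |D σ| ≤ E * r := by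
    intro σ hσ
    have h6 := hDe σ hσ
    have h7 : mom (fun _ => 0) (fm r v 0 σ) (fm r v 1 σ) = 0 := by simp [mom]
    simp only [h7, sub_zero, mul_one] at h6
    obtain ⟨hb0, hb1, -, -⟩ := hB σ (hmem σ hσ)
    have h8 : nsq (fm r v 0 σ) ≤ B := (hu1 _ _ (hS.h1 σ) hb0 hb1 r hr).1.trans hb0
    have h9 : nsq (com α (fm r v) (nm α r v) σ) ≤ C2 * r ^ 3 := hu2 _ _ (hS.h1 σ) hb0 hb1 r hr
    have h10 : √(nsq (com α (fm r v) (nm α r v) σ)) ≤ √C2 * r := by
      have h11 : C2 * r ^ 3 ≤ C2 * r ^ 2 :=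
        mul_le_mul_of_nonneg_left (pow_le_pow_of_le_one hr.le hr1 (by norm_num)) hC2
      refine (Real.sqrt_le_sqrt (h9.trans h11)).trans (le_of_eq ?_)
      rw [Real.sqrt_mul hC2, Real.sqrt_sq hr.le]
    have h12 : Real.exp (κ * σ) ≤ Real.exp (|κ| * t) := by
      refine Real.exp_le_exp.2 ?_
      exact (mul_le_mul_of_nonneg_right (le_abs_self κ) hσ.1).trans
        (mul_le_mul_of_nonneg_left hσ.2 (abs_nonneg κ))
    refine h6.trans ?_
    have h13 : E * r = 2 * Real.exp (|κ| * t) * √B * (√C2 * r) := by rw [hE]; ring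
    rw [h13]
    gcongr
  have hI : |∫ σ in (0 : ℝ)..t, D σ| ≤ E * r * t := by
    have h6 := intervalIntegral.norm_integral_le_of_norm_le_const (a := 0) (b := t) (f := D)
      (C := E * r) fun σ hσ => by
        rw [uIoc_of_le ht] at hσ
        exact hDb σ ⟨hσ.1.le, hσ.2⟩
    rwa [sub_zero, abs_of_nonneg ht] at h6
  have hD' : nsq (cv (mol r) (v t)) - nsq (cv (mol r) (v 0)) = ∫ σ in (0 : ℝ)..t, D σ := by
    rw [← hD]
    simp only [one_mul]
    rfl
  obtain ⟨ha0, ha1, -, -⟩ := hB t (hmem t ⟨ht, le_rfl⟩)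
  obtain ⟨hc0, hc1, -, -⟩ := hB 0 (hmem 0 ⟨le_rfl, ht⟩)
  have e1 := (hu1 _ _ (hS.h1 t) ha0 ha1 r hr).2.2.2.2.1
  have e2 := (hu1 _ _ (hS.h1 0) hc0 hc1 r hr).2.2.2.2.1
  rw [← hD'] at hI
  rw [abs_le] at e1 e2 hI ⊢
  constructor <;> nlinarith [e1.1, e1.2, e2.1, e2.2, hI.1, hI.2]

theorem MONO (h1 : St_BASIC) (h2 : St_ENER) : St_MONO := by
  intro α κ v dv hα hκ hS t1 ht1 hneg
  have hP : Continuous fun t => pw α (v t) := (h1 α κ v dv hα hS).2.2.1
  set F : ℝ → ℝ := fun σ => κ * Real.exp (κ * σ) * pw α (v σ) / (α + 2) with hF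
  have hFc : Continuous F := by
    rw [hF]
    exact ((continuous_const.mul (Real.continuous_exp.comp
      (continuous_const.mul continuous_id))).mul hP).div_const _
  set G : ℝ → ℝ := fun t => en α κ v dv t1 - ∫ σ in t1..t, F σ with hG
  have hGe : ∀ t, t1 ≤ t → G t = en α κ v dv t := by
    intro t ht
    have h3 := h2 α κ v dv hα hS t1 t ht1 ht
    simp only [hG, hF]
    linarith
  have hGd : ∀ t, HasDerivAt G (-F t) t := fun t =>
    (hFc.integral_hasStrictDerivAt t1 t).hasDerivAt.const_sub _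
  have hZd : ∀ t, HasDerivAt (fun t => -G t * Real.exp (-κ * t))
      (F t * Real.exp (-κ * t) + -G t * (Real.exp (-κ * t) * -κ)) t := by
    intro t
    have h3 : HasDerivAt (fun t => Real.exp (-κ * t)) (Real.exp (-κ * t) * -κ) t := by
      have h4 := ((hasDerivAt_id t).const_mul (-κ)).exp
      simpa using h4
    have h5 := (hGd t).fun_neg.fun_mul h3
    rwa [neg_neg] at h5
  have hmono : MonotoneOn (fun t => -G t * Real.exp (-κ * t)) (Ici t1) := by
    refine monotoneOn_of_deriv_nonneg (convex_Ici t1)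
      (fun t _ => (hZd t).continuousAt.continuousWithinAt)
      (fun t _ => (hZd t).differentiableAt.differentiableWithinAt) fun t ht => ?_
    rw [(hZd t).deriv, hGe t (interior_subset ht)]
    have h3 : F t * Real.exp (-κ * t) + -en α κ v dv t * (Real.exp (-κ * t) * -κ) =
        κ * Real.exp (-κ * t) * (nsq (dv t) / 2) := by
      simp only [hF, en]
      ring
    rw [h3]
    have := nsq_nonneg (dv t)
    positivity
  refine ⟨-G t1 * Real.exp (-κ * t1), ?_, fun t ht => ?_⟩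
  · rw [hGe t1 le_rfl]
    exact mul_pos (neg_pos.2 hneg) (Real.exp_pos _)
  · have h3 : -G t1 * Real.exp (-κ * t1) ≤ -G t * Real.exp (-κ * t) :=
      hmono (mem_Ici.2 le_rfl) (mem_Ici.2 ht) ht
    have h4 := mul_le_mul_of_nonneg_right h3 (Real.exp_pos (κ * t)).le
    have h5 : -G t * Real.exp (-κ * t) * Real.exp (κ * t) = -en α κ v dv t := by
      rw [mul_assoc, ← Real.exp_add, hGe t ht]
      simp
    linarith

end Pool.Agent.Lib.MP_13801a_an
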