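import Mathlib
import Pool.Agent.Lib.MP_13801a_an.Sts

/-!
The mollifier: basic properties and convergence of the kinetic energy.
-/

open MeasureTheory Set Filter
open scoped ContDiff Topology ComplexConjugate

namespace Pool.Agent.Lib.MP_13801a_an

/-- The bump of outer radius `r`. -/
noncomputable def MOL_bump {r : ℝ} (hr : 0 < r) : ContDiffBump (0 : ℝ) :=
  ⟨r / 2, r, by positivity, half_lt_self hr⟩

theorem MOL_bump_apply {r : ℝ} (hr : 0 < r) (x : ℝ) : MOL_bump hr x = bmp (x / r) := by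
  rw [ContDiffBump.apply, ContDiffBump.apply]
  have h1 : (MOL_bump hr).rOut / (MOL_bump hr).rIn = bmp.rOut / bmp.rIn := by
    simp only [MOL_bump, bmp]
    field_simp
  have h2 : (MOL_bump hr).rIn⁻¹ • (x - 0) = bmp.rIn⁻¹ • (x / r - 0) := by
    simp only [MOL_bump, bmp, smul_eq_mul]
    field_simp
    ring
  rw [h1, h2]

theorem MOL_eq {r : ℝ} (hr : 0 < r) : mol r = (MOL_bump hr).normed volume := by
  funext x
  simp only [mol, ContDiffBump.normed_def, MOL_bump_apply]
  rw [Measure.integral_comp_div (fun y => bmp y) r, abs_of_pos hr, smul_eq_mul]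
  field_simp

theorem MOL_deriv {r : ℝ} (x : ℝ) :
    deriv (mol r) x = r⁻¹ * (deriv (bmp.normed volume) (x / r) * r⁻¹) := by
  have hd : Differentiable ℝ (bmp.normed volume) :=
    (bmp.contDiff_normed (n := 1)).differentiable (by simp)
  have h1 : HasDerivAt (fun y : ℝ => y / r) r⁻¹ x := by
    simpa using (hasDerivAt_id x).div_const r
  exact (((hd (x / r)).hasDerivAt.comp x h1).const_mul r⁻¹).deriv

theorem MOL : St_MOL := by
  refine ⟨fun r hr => ?_, ⟨∫ x, |deriv (bmp.normed volume) x|, fun r hr => le_of_eq ?_⟩,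
    fun g hg => ?_⟩
  · rw [MOL_eq hr]
    refine ⟨⟨(MOL_bump hr).contDiff_normed, (MOL_bump hr).hasCompactSupport_normed⟩,
      (MOL_bump hr).nonneg_normed, (MOL_bump hr).integral_normed, fun x hx => ?_⟩
    rw [ContDiffBump.normed_def, (MOL_bump hr).zero_of_le_dist, zero_div]
    simpa [MOL_bump] using hx
  · have h : ∀ x, |deriv (mol r) x| =
        r⁻¹ * r⁻¹ * (fun y => |deriv (bmp.normed volume) y|) (x / r) := by
      intro x
      rw [MOL_deriv, abs_mul, abs_mul, abs_of_pos (inv_pos.2 hr)]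
      ring
    simp only [h]
    rw [integral_const_mul,
      Measure.integral_comp_div (fun y => |deriv (bmp.normed volume) y|) r, abs_of_pos hr,
      smul_eq_mul]
    field_simp
  · have hr : ∀ n : ℕ, (0 : ℝ) < 1 / ((n : ℝ) + 1) := fun n => by positivity
    have h := ContDiffBump.ae_convolution_tendsto_right_of_locallyIntegrable (K := 2)
      (φ := fun n : ℕ => MOL_bump (hr n)) (l := atTop) (μ := volume)
      tendsto_one_div_add_atTop_nhds_zero_nat
      (Eventually.of_forall fun n => le_of_eq (by simp only [MOL_bump]; ring)) hg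
    filter_upwards [h] with x hx
    refine hx.congr fun n => ?_
    rw [convolution_eq_swap, cv, MOL_eq (hr n)]
    simp only [ContinuousLinearMap.lsmul_apply, Complex.real_smul]

theorem KLIM (h1 : St_MOL) (h2 : St_CONV) : St_KLIM := by
  intro g dg hg
  have hr : ∀ n : ℕ, (0 : ℝ) < 1 / ((n : ℝ) + 1) := fun n => by positivity
  set F : ℕ → ℝ → ℂ := fun n => cv (mol (1 / ((n : ℝ) + 1))) dg with hF
  have he : ∀ n : ℕ, cv (dk 1 (mol (1 / ((n : ℝ) + 1)))) g = F n := fun n =>
    funext ((h2 _ (h1.1 _ (hr n)).1 g hg.mem0).2.2.2.2.2 dg hg)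
  simp only [he]
  have hm : ∀ n, MemLp (F n) 2 volume := fun n => (h2 _ (h1.1 _ (hr n)).1 dg hg.mem1).2.1
  have hup : ∀ n, nsq (F n) ≤ nsq dg := by
    intro n
    have h3 := (h2 _ (h1.1 _ (hr n)).1 dg hg.mem1).2.2.1
    have h4 : ∫ y, |mol (1 / ((n : ℝ) + 1)) y| = 1 := by
      refine Eq.trans ?_ (h1.1 _ (hr n)).2.2.1
      exact integral_congr_ae
        (Eventually.of_forall fun y => abs_of_nonneg ((h1.1 _ (hr n)).2.1 y))
    rwa [h4, one_pow, one_mul] at h3
  have hof : ∀ u : ℝ → ℂ, MemLp u 2 volume →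
      ENNReal.ofReal (nsq u) = ∫⁻ x, ENNReal.ofReal (‖u x‖ ^ 2) := fun u hu =>
    ofReal_integral_eq_lintegral_ofReal (integrable_nsq hu)
      (Eventually.of_forall fun _ => by positivity)
  have hlow : ENNReal.ofReal (nsq dg) ≤ liminf (fun n => ENNReal.ofReal (nsq (F n))) atTop := by
    simp only [hof _ (hm _), hof _ hg.mem1]
    refine le_trans (le_of_eq ?_) (lintegral_liminf_le' fun n =>
      (integrable_nsq (hm n)).aemeasurable.ennreal_ofReal)
    refine lintegral_congr_ae ?_
    filter_upwards [h1.2.2 dg (hg.mem1.locallyIntegrable (by norm_num))] with x hx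
    exact (ENNReal.tendsto_ofReal (hx.norm.pow 2)).liminf_eq.symm
  have hlim : Tendsto (fun n => ENNReal.ofReal (nsq (F n))) atTop
      (𝓝 (ENNReal.ofReal (nsq dg))) :=
    tendsto_of_le_liminf_of_limsup_le hlow
      (limsup_le_of_le (h := Eventually.of_forall fun n => ENNReal.ofReal_le_ofReal (hup n)))
  have h5 := (ENNReal.tendsto_toReal ENNReal.ofReal_ne_top).comp hlim
  rw [ENNReal.toReal_ofReal (nsq_nonneg _)] at h5
  exact h5.congr fun n => ENNReal.toReal_ofReal (nsq_nonneg _)

end Pool.Agent.Lib.MP_13801a_an
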