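import Mathlib
import Pool.Agent.Lib.MP_13801a_an.Sts

/-!
Elementary properties of the power nonlinearity.
-/

open MeasureTheory Set Filter Metric
open scoped ContDiff Topology ComplexConjugate

namespace Pool.Agent.Lib.MP_13801a_an

theorem NLF_sq (a p : ℝ) (ha : 0 ≤ a) : a ^ p = (a ^ 2) ^ (p / 2) := by
  rw [← Real.rpow_natCast, ← Real.rpow_mul ha]
  congr 1
  push_cast
  ring

theorem NLF_smooth {α : ℝ} (hα : 4 ≤ α) : ContDiff ℝ 2 (NL α) := by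
  have h1 : ContDiff ℝ (2 : ℕ) fun x : ℝ => x ^ (α / 2) :=
    Real.contDiff_rpow_const_of_le (by push_cast; linarith)
  have h2 : ContDiff ℝ 2 fun z : ℂ => (‖z‖ ^ 2) ^ (α / 2) := h1.comp (contDiff_norm_sq ℝ)
  have e : NL α = fun z : ℂ => (((‖z‖ ^ 2) ^ (α / 2) : ℝ) : ℂ) * z := by
    funext z
    rw [NL, NLF_sq _ _ (norm_nonneg z)]
  rw [e]
  exact (Complex.ofRealCLM.contDiff.comp h2).mul contDiff_id

theorem NLF_norm {α : ℝ} (hα : 4 ≤ α) (z : ℂ) : ‖NL α z‖ = ‖z‖ ^ (α + 1) := by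
  rw [NL, norm_mul, Complex.norm_real, Real.norm_of_nonneg (by positivity),
    Real.rpow_add' (norm_nonneg z) (by linarith), Real.rpow_one]

theorem NLF_pow2 {α : ℝ} (hα : 4 ≤ α) (a : ℝ) (ha : 0 ≤ a) : a ^ (α + 2) = a ^ α * a ^ 2 := by
  rw [Real.rpow_add' ha (by linarith), Real.rpow_two]

theorem NLF_conj {α : ℝ} (hα : 4 ≤ α) (z : ℂ) :
    conj z * NL α z = ((‖z‖ ^ (α + 2) : ℝ) : ℂ) := by
  rw [NL, NLF_pow2 hα _ (norm_nonneg z), mul_left_comm, Complex.conj_mul']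
  push_cast
  ring

theorem NLF_lip {E F : Type} [NormedAddCommGroup E] [NormedSpace ℝ E] [ProperSpace E]
    [NormedAddCommGroup F] [NormedSpace ℝ F] {f : E → F} (hf : ContDiff ℝ 1 f) (B : ℝ) :
    ∃ L : ℝ, 0 ≤ L ∧ ∀ z w : E, ‖z‖ ≤ B → ‖w‖ ≤ B → ‖f z - f w‖ ≤ L * ‖z - w‖ := by
  obtain ⟨C, hC⟩ := (isCompact_closedBall (0 : E) B).exists_bound_of_continuousOn
    (hf.continuous_fderiv (by simp)).continuousOn
  refine ⟨max C 0, le_max_right _ _, fun z w hz hw => ?_⟩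
  exact (convex_closedBall (0 : E) B).norm_image_sub_le_of_norm_fderiv_le
    (fun x _ => hf.differentiable (by simp) x) (fun x hx => (hC x hx).trans (le_max_left _ _))
    (mem_closedBall_zero_iff.2 hw) (mem_closedBall_zero_iff.2 hz)

theorem NLF_taylor {α : ℝ} (hα : 4 ≤ α) (B : ℝ) : ∃ L : ℝ, 0 ≤ L ∧ ∀ z w : ℂ, ‖z‖ ≤ B → ‖w‖ ≤ B →
    ‖NL α z - NL α w - fderiv ℝ (NL α) w (z - w)‖ ≤ L * ‖z - w‖ ^ 2 := by
  have h := NLF_smooth hα
  obtain ⟨L, hL, hl⟩ := NLF_lip (h.fderiv_right (m := 1) (by norm_num)) B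
  refine ⟨L, hL, fun z w hz hw => ?_⟩
  have := ((convex_closedBall (0 : ℂ) B).inter
    (convex_closedBall w ‖z - w‖)).norm_image_sub_le_of_norm_fderiv_le' (f := NL α)
    (φ := fderiv ℝ (NL α) w) (C := L * ‖z - w‖) (x := w) (y := z)
    (fun x _ => h.differentiable (by simp) x)
    (fun x hx => (hl x w (mem_closedBall_zero_iff.1 hx.1) hw).trans
      (mul_le_mul_of_nonneg_left (by simpa [dist_eq_norm] using hx.2) hL))
    ⟨mem_closedBall_zero_iff.2 hw, by simp⟩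
    ⟨mem_closedBall_zero_iff.2 hz, by simp [dist_eq_norm]⟩
  refine this.trans (le_of_eq ?_)
  ring

theorem NLF_powlip {α : ℝ} (hα : 4 ≤ α) (B : ℝ) : ∃ L : ℝ, 0 ≤ L ∧ ∀ z w : ℂ, ‖z‖ ≤ B → ‖w‖ ≤ B →
    |‖z‖ ^ (α + 2) - ‖w‖ ^ (α + 2)| ≤ L * (‖z - w‖ * (‖z‖ + ‖w‖)) := by
  have h1 : ContDiff ℝ (1 : ℕ) fun x : ℝ => x ^ ((α + 2) / 2) :=
    Real.contDiff_rpow_const_of_le (by push_cast; linarith)
  obtain ⟨L, hL, hl⟩ := NLF_lip h1 (B ^ 2)
  refine ⟨L, hL, fun z w hz hw => ?_⟩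
  have k : ∀ u : ℂ, ‖u‖ ≤ B → ‖‖u‖ ^ 2‖ ≤ B ^ 2 := fun u hu => by
    rw [Real.norm_of_nonneg (sq_nonneg _)]
    exact pow_le_pow_left₀ (norm_nonneg _) hu 2
  have := hl _ _ (k z hz) (k w hw)
  rw [← NLF_sq _ _ (norm_nonneg z), ← NLF_sq _ _ (norm_nonneg w), Real.norm_eq_abs,
    Real.norm_eq_abs] at this
  refine this.trans (mul_le_mul_of_nonneg_left ?_ hL)
  rw [sq_sub_sq, abs_mul, abs_of_nonneg (by positivity), mul_comm]
  exact mul_le_mul_of_nonneg_right (abs_norm_sub_norm_le z w) (by positivity)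

theorem NLF_deriv {α : ℝ} (hα : 4 ≤ α) (f : ℝ → ℂ) (f' : ℂ) (x : ℝ) (hf : HasDerivAt f f' x) :
    HasDerivAt (fun y => ‖f y‖ ^ (α + 2)) ((α + 2) * (conj (NL α (f x)) * f').re) x := by
  have h := hf.norm_sq.rpow_const (p := (α + 2) / 2) (Or.inr (by linarith))
  have e : (fun y => ‖f y‖ ^ (α + 2)) = fun y => (‖f y‖ ^ 2) ^ ((α + 2) / 2) :=
    funext fun y => NLF_sq _ _ (norm_nonneg _)
  rw [e]
  refine h.congr_deriv ?_
  have e2 : (α + 2) / 2 - 1 = α / 2 := by ring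
  rw [e2, ← NLF_sq _ _ (norm_nonneg _), NL, map_mul, Complex.conj_ofReal, mul_assoc _ _ f',
    Complex.re_ofReal_mul, Complex.inner, mul_comm f']
  ring

theorem NLF_int {α : ℝ} (hα : 4 ≤ α) (g : ℝ → ℂ) (B : ℝ) (hg : MemLp g 2 volume)
    (hB : ∀ x, ‖g x‖ ≤ B) :
    MemLp (fun x => NL α (g x)) 2 volume ∧ Integrable fun x => ‖g x‖ ^ (α + 2) := by
  have hb : ∀ x, ‖g x‖ ^ α ≤ B ^ α := fun x =>
    Real.rpow_le_rpow (norm_nonneg _) (hB x) (by linarith)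
  refine ⟨hg.of_le_mul (c := B ^ α)
    ((NLF_smooth hα).continuous.comp_aestronglyMeasurable hg.1) (ae_of_all _ fun x => ?_), ?_⟩
  · rw [NL, norm_mul, Complex.norm_real, Real.norm_of_nonneg (by positivity)]
    exact mul_le_mul_of_nonneg_right (hb x) (norm_nonneg _)
  · have h2 := ((memLp_two_iff_integrable_sq_norm hg.1).1 hg).const_mul (B ^ α)
    refine h2.mono' ((Real.continuous_rpow_const (by linarith)).comp_aestronglyMeasurable
      hg.1.norm) (ae_of_all _ fun x => ?_)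
    rw [Real.norm_of_nonneg (by positivity), NLF_pow2 hα _ (norm_nonneg _)]
    exact mul_le_mul_of_nonneg_right (hb x) (sq_nonneg _)

theorem NLF : St_NL := by
  intro α hα
  refine ⟨(NLF_smooth hα).continuous, NLF_norm hα, NLF_conj hα, fun B => ?_, NLF_deriv hα,
    NLF_int hα⟩
  obtain ⟨L1, p1, h1⟩ := NLF_lip ((NLF_smooth hα).of_le (m := 1) (by norm_num)) B
  obtain ⟨L2, p2, h2⟩ := NLF_powlip hα B
  obtain ⟨L3, p3, h3⟩ := NLF_taylor hα B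
  refine ⟨L1 + L2 + L3, by positivity, fun z w hz hw => ⟨(h1 z w hz hw).trans ?_,
    (h2 z w hz hw).trans ?_, (h3 z w hz hw).trans ?_⟩⟩ <;>
  exact mul_le_mul_of_nonneg_right (by linarith) (by positivity)

end Pool.Agent.Lib.MP_13801a_an
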