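import Mathlib
import Pool.Agent.Lib.MP_13801a_an.Sts

/-!
Oscillation of a Sobolev function on an interval.
-/

open MeasureTheory Set Filter
open scoped ContDiff Topology ComplexConjugate

namespace Pool.Agent.Lib.MP_13801a_an

theorem OSC_cs {dg : ℝ → ℂ} (h : MemLp dg 2 volume) {r : ℝ} (hr : 0 < r) (x : ℝ) :
    (∫ z in (x - r)..(x + r), ‖dg z‖) ^ 2 ≤ 2 * r * osc r dg x := by
  set J := ∫ z in (x - r)..(x + r), ‖dg z‖ with hJ
  have h1 : IntervalIntegrable (fun z => ‖dg z‖) volume (x - r) (x + r) :=
    (ii_of_memLp h _ _).norm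
  have h2 : IntervalIntegrable (fun z => ‖dg z‖ ^ 2) volume (x - r) (x + r) :=
    (integrable_nsq h).intervalIntegrable
  have h3 : ∀ c : ℝ, 2 * c * J ≤ osc r dg x + 2 * r * c ^ 2 := by
    intro c
    have h4 := intervalIntegral.integral_mono_on (f := fun z => 2 * c * ‖dg z‖)
      (g := fun z => ‖dg z‖ ^ 2 + c ^ 2) (by linarith : x - r ≤ x + r) (h1.const_mul _)
      (h2.add intervalIntegrable_const) fun z _ => by nlinarith [sq_nonneg (‖dg z‖ - c)]
    rw [intervalIntegral.integral_const_mul,
      intervalIntegral.integral_add h2 intervalIntegrable_const,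
      intervalIntegral.integral_const, smul_eq_mul] at h4
    unfold osc
    linarith
  have h5 := mul_le_mul_of_nonneg_left (h3 (J / (2 * r))) (by positivity : 0 ≤ 2 * r)
  have h6 : 2 * r * (2 * (J / (2 * r)) * J) = 2 * J ^ 2 := by field_simp
  have h7 : 2 * r * (osc r dg x + 2 * r * (J / (2 * r)) ^ 2) = 2 * r * osc r dg x + J ^ 2 := by
    field_simp
  linarith

theorem OSC_diff {g dg : ℝ → ℂ} (h : H1 g dg) {r x y z : ℝ} (hy : |y - x| ≤ r)
    (hz : |z - x| ≤ r) : ‖g y - g z‖ ≤ ∫ t in (x - r)..(x + r), ‖dg t‖ := by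
  have key : ∀ a b : ℝ, a ≤ b → |a - x| ≤ r → |b - x| ≤ r →
      ‖g b - g a‖ ≤ ∫ t in (x - r)..(x + r), ‖dg t‖ := by
    intro a b hab ha hb
    rw [h.prim a b]
    refine (intervalIntegral.norm_integral_le_integral_norm hab).trans ?_
    exact intervalIntegral.integral_mono_interval (by linarith [(abs_le.1 ha).1]) hab
      (by linarith [(abs_le.1 hb).2]) (Eventually.of_forall fun t => norm_nonneg _)
      (ii_of_memLp h.mem1 _ _).norm
  rcases le_total z y with hzy | hzy
  · exact key z y hzy hz hy
  · rw [norm_sub_rev]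
    exact key y z hzy hy hz

theorem OSC_conv (dg : ℝ → ℂ) {r : ℝ} (hr : 0 < r) :
    osc r dg = convolution ((Ioc (-r) r).indicator fun _ => (1 : ℝ)) (fun z => ‖dg z‖ ^ 2)
      (ContinuousLinearMap.lsmul ℝ ℝ) volume := by
  funext x
  rw [convolution_lsmul]
  have h1 : ∀ t : ℝ, (Ioc (-r) r).indicator (fun _ => (1 : ℝ)) t • ‖dg (x - t)‖ ^ 2 =
      (Ioc (-r) r).indicator (fun t => ‖dg (x - t)‖ ^ 2) t := by
    intro t
    by_cases ht : t ∈ Ioc (-r) r <;> simp [ht]
  simp only [h1]
  rw [integral_indicator measurableSet_Ioc, ← intervalIntegral.integral_of_le (by linarith),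
    intervalIntegral.integral_comp_sub_left (fun z => ‖dg z‖ ^ 2), sub_neg_eq_add, osc]

theorem OSC (h1 : St_MOL) (h2 : St_SUP) : St_OSC := by
  intro g dg r h hr
  obtain ⟨hT, hpos, hone, hzero⟩ := h1.1 r hr
  have hF := integrable_nsq h.mem1
  have hI : Integrable ((Ioc (-r) r).indicator fun _ => (1 : ℝ)) :=
    (integrable_indicator_iff measurableSet_Ioc).2 (integrableOn_const (by simp))
  have hle : ∀ x : ℝ, x - r ≤ x + r := fun x => by linarith
  refine ⟨fun x y hy => ?_, ?_, ?_, fun x => ⟨?_, ?_⟩⟩
  · have hm : Integrable (mol r) := hT.1.continuous.integrable_of_hasCompactSupport hT.2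
    have hm1 : Integrable fun z => mol r (x - z) := hm.comp_sub_left x
    have hs : HasCompactSupport fun z => ((mol r (x - z) : ℝ) : ℂ) :=
      (hT.2.comp_homeomorph (Homeomorph.subLeft x)).comp_left (g := Complex.ofReal)
        Complex.ofReal_zero
    have hc : Continuous fun z => ((mol r (x - z) : ℝ) : ℂ) :=
      Complex.continuous_ofReal.comp (hT.1.continuous.comp (continuous_const.sub continuous_id))
    have hm2 : Integrable fun z => ((mol r (x - z) : ℝ) : ℂ) * g z :=
      (hc.mul (h2 g dg h).1).integrable_of_hasCompactSupport hs.mul_right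
    have hm3 : Integrable fun z => ((mol r (x - z) : ℝ) : ℂ) * g y :=
      (hc.integrable_of_hasCompactSupport hs).mul_const _
    have hone' : ∫ z, mol r (x - z) = 1 := by rw [integral_sub_left_eq_self, hone]
    have he : g y - cv (mol r) g x = ∫ z, ((mol r (x - z) : ℝ) : ℂ) * (g y - g z) := by
      simp only [mul_sub]
      rw [integral_sub hm3 hm2, integral_mul_const, integral_complex_ofReal, hone', cv]
      simp
    have hb : ‖g y - cv (mol r) g x‖ ≤ ∫ t in (x - r)..(x + r), ‖dg t‖ := by
      rw [he]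
      refine (norm_integral_le_of_norm_le (hm1.mul_const (∫ t in (x - r)..(x + r), ‖dg t‖))
        (Eventually.of_forall fun z => ?_)).trans (by rw [integral_mul_const, hone', one_mul])
      rw [norm_mul, Complex.norm_real, Real.norm_of_nonneg (hpos _)]
      rcases le_total r |x - z| with hz | hz
      · rw [hzero _ hz, zero_mul, zero_mul]
      · exact mul_le_mul_of_nonneg_left (OSC_diff h hy (by rwa [abs_sub_comm])) (hpos _)
    exact (pow_le_pow_left₀ (norm_nonneg _) hb 2).trans (OSC_cs h.mem1 hr x)
  · rw [OSC_conv dg hr]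
    exact hI.integrable_convolution _ hF
  · rw [OSC_conv dg hr, integral_convolution _ hI hF, integral_indicator measurableSet_Ioc]
    simp only [integral_const, MeasurableSet.univ, measureReal_restrict_apply, univ_inter,
      ContinuousLinearMap.lsmul_apply, smul_eq_mul, mul_one]
    rw [Real.volume_real_Ioc_of_le (by linarith), nsq]
    exact le_of_eq (by ring)
  · exact intervalIntegral.integral_nonneg (hle x) fun z _ => by positivity
  · rw [osc, intervalIntegral.integral_of_le (hle x)]
    exact setIntegral_le_integral hF (Eventually.of_forall fun z => by positivity)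

end Pool.Agent.Lib.MP_13801a_an
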