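import Mathlib
import Pool.Agent.Lib.MP_13801a_an.Sts

/-!
The averaged virial weight is a second primitive of `hh`.
-/

open MeasureTheory Set Filter
open scoped Topology

namespace Pool.Agent.Lib.MP_13801a_an

theorem PSI_int {a b : ℝ} (hab : a ≤ b) (F : ℝ → ℝ → ℝ) (g : ℝ → ℝ) (hg : Integrable g)
    (hF : AEStronglyMeasurable (Function.uncurry F)
      ((volume.restrict (uIoc a b)).prod (volume : Measure ℝ)))
    (hb : ∀ ε ∈ Ioc a b, ∀ z, |F ε z| ≤ g z) :
    Integrable (Function.uncurry F) ((volume.restrict (uIoc a b)).prod (volume : Measure ℝ)) := by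
  have hfin : IsFiniteMeasure (volume.restrict (uIoc a b) : Measure ℝ) := by
    rw [uIoc_of_le hab]; infer_instance
  refine Integrable.mono' (hg.comp_snd (volume.restrict (uIoc a b))) hF ?_
  have h1 : ∀ᵐ p : ℝ × ℝ ∂((volume.restrict (uIoc a b)).prod (volume : Measure ℝ)),
      p.1 ∈ uIoc a b :=
    Measure.quasiMeasurePreserving_fst.ae (ae_restrict_mem measurableSet_uIoc)
  filter_upwards [h1] with p hp
  rw [uIoc_of_le hab] at hp
  exact hb p.1 hp p.2

theorem PSI_kk_meas {ρ : ℝ → ℝ} (hρ : Continuous ρ) (he : Continuous (em ρ)) :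
    Measurable fun p : ℝ × ℝ => kk ρ p.1 p.2 := by
  unfold kk
  exact Measurable.ite (measurableSet_lt measurable_fst (he.measurable.comp measurable_snd))
    (measurable_fst.sub (hρ.measurable.comp measurable_snd)) measurable_const

theorem PSI_lam_meas {ρ : ℝ → ℝ} (hρ : Continuous ρ) (he : Continuous (em ρ)) :
    StronglyMeasurable fun p : ℝ × ℝ => Lam ρ p.1 p.2 := by
  have h1 : Measurable fun q : (ℝ × ℝ) × ℝ => max (q.1.2 - q.2) 0 * kk ρ q.1.1 q.2 :=
    ((measurable_fst.snd.sub measurable_snd).max measurable_const).mul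
      ((PSI_kk_meas hρ he).comp (measurable_fst.fst.prodMk measurable_snd))
  exact h1.stronglyMeasurable.integral_prod_right'

theorem PSI_w' {ε1 ε2 S : ℝ} {w w' : ℝ → ℝ} (hw : Wt ε1 ε2 S w w') {ε : ℝ} (h : ε1 ≤ ε) :
    |w' ε| ≤ 3 / ε1 ^ 2 := by
  have h0 := hw.pos
  have h1 := hw.le' ε
  rw [le_div_iff₀ (by positivity)]
  have h2 : ε1 ^ 2 ≤ ε ^ 2 := by nlinarith
  nlinarith [abs_nonneg (w' ε)]

theorem PSI_cut {h : ℝ → ℝ} {a : ℝ} (h0 : ∀ z, z ≤ a → h z = 0) (x : ℝ) :
    ∫ z, max (x - z) 0 * h z = ∫ z in a..x, (x - z) * h z := by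
  rcases le_total a x with hax | hax
  · rw [intervalIntegral.integral_of_le hax,
      ← setIntegral_eq_integral_of_forall_compl_eq_zero (s := Ioc a x)]
    · refine setIntegral_congr_fun measurableSet_Ioc fun z hz => ?_
      have : 0 ≤ x - z := by linarith [hz.2]
      simp only [max_eq_left this]
    · intro z hz
      rcases le_or_gt z a with hza | hza
      · simp [h0 z hza]
      · have : x < z := by
          by_contra hc
          exact hz ⟨hza, not_lt.mp hc⟩
        rw [max_eq_right (by linarith), zero_mul]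
  · have e1 : (fun z => max (x - z) 0 * h z) = fun _ => 0 := by
      funext z
      rcases le_or_gt z a with hza | hza
      · simp [h0 z hza]
      · rw [max_eq_right (by linarith), zero_mul]
    rw [e1, integral_zero, intervalIntegral.integral_congr (g := fun _ => 0)]
    · simp
    · intro z hz
      rw [uIcc_of_ge hax] at hz
      simp [h0 z hz.2]

theorem PSI_der {h : ℝ → ℝ} (hc : Continuous h) (a x : ℝ) :
    HasDerivAt (fun y => ∫ z in a..y, (y - z) * h z) (∫ z in a..x, h z) x := by
  have hc2 : Continuous fun z => z * h z := continuous_id.mul hc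
  have e1 : (fun y => ∫ z in a..y, (y - z) * h z) =
      fun y => y * (∫ z in a..y, h z) - ∫ z in a..y, z * h z := by
    funext y
    have hc3 : Continuous fun z => y * h z := continuous_const.mul hc
    rw [← intervalIntegral.integral_const_mul, ← intervalIntegral.integral_sub
      (hc3.intervalIntegrable _ _) (hc2.intervalIntegrable _ _)]
    congr 1
    funext z
    ring
  rw [e1]
  have d1 := (hc.integral_hasStrictDerivAt a x).hasDerivAt
  have d2 := (hc2.integral_hasStrictDerivAt a x).hasDerivAt
  have d3 : HasDerivAt (fun y => y * (∫ z in a..y, h z) - ∫ z in a..y, z * h z)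
      (1 * (∫ z in a..x, h z) + x * h x - x * h x) x := ((hasDerivAt_id' x).mul d1).sub d2
  convert d3 using 1
  ring

theorem PSI (h1 : St_EM) (h2 : St_HH) (h3 : St_LAM1) : St_PSI := by
  intro ε1 ε2 S M w w' hw
  have hε1 := hw.pos
  have hle : ε1 ≤ ε2 := hw.lt.le
  refine ⟨max (3 / ε1 ^ 2 * (M ^ 2 / ε1) * |ε2 - ε1|) ((|S| + 1) * max (M / ε1) 0),
    fun ρ hρ => ?_⟩
  obtain ⟨⟨Le, hLe⟩, -, -, -, hholes, -⟩ := h1 M ρ hρ
  obtain ⟨⟨Lh, hLh⟩, hhb, -, hh0, hhk, -⟩ := h2 ε1 ε2 S M w w' ρ hw hρ
  obtain ⟨Lρ, hLρ⟩ := hρ.lip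
  obtain ⟨C, hC⟩ := hρ.bd
  obtain ⟨hZc, R, hR⟩ := hholes ε1 hε1
  have hρc := hLρ.continuous
  have hec := hLe.continuous
  have hhc := hLh.continuous
  have hlam : ∀ ε ∈ Ioc ε1 ε2, ∀ x, |w' ε * Lam ρ ε x| ≤ 3 / ε1 ^ 2 * (M ^ 2 / ε1) := by
    intro ε hε x
    obtain ⟨l0, l1⟩ := (h3 M ρ ε hρ (hε1.trans hε.1)).2.1 x
    rw [abs_mul, abs_of_nonneg l0]
    refine mul_le_mul (PSI_w' hw hε.1.le) (l1.trans ?_) l0 (by positivity)
    exact div_le_div_of_nonneg_left (sq_nonneg M) hε1 hε.1.le
  have hzero : ∀ z, z ≤ -|R| → hh w ρ z = 0 := fun z hz =>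
    hh0 z (hR z ((le_abs_self R).trans (by linarith [neg_abs_le z, neg_le_abs z])))
  have hpsi : psib ε1 ε2 w' ρ = fun x => ∫ z in (-|R|)..x, (x - z) * hh w ρ z := by
    funext x
    rw [← PSI_cut hzero x]
    have hI : Integrable (Function.uncurry fun ε z => w' ε * (max (x - z) 0 * kk ρ ε z))
        ((volume.restrict (uIoc ε1 ε2)).prod (volume : Measure ℝ)) := by
      refine PSI_int hle _ ((Icc (-R) R).indicator fun _ =>
        3 / ε1 ^ 2 * ((|x| + |R|) * (ε2 + C))) ?_ ?_ ?_
      · exact (integrable_indicator_iff measurableSet_Icc).2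
          (integrableOn_const (by simp) enorm_ne_top)
      · exact ((hw.cont.measurable.comp measurable_fst).mul
          (((measurable_const.sub measurable_snd).max measurable_const).mul
            (PSI_kk_meas hρc hec))).aestronglyMeasurable
      · intro ε hε z
        by_cases hz : z ∈ Icc (-R) R
        · rw [indicator_of_mem hz, abs_mul, abs_mul]
          have b1 : |max (x - z) 0| ≤ |x| + |R| := by
            rw [abs_of_nonneg (le_max_right _ _)]
            refine max_le ?_ (by positivity)
            linarith [le_abs_self x, le_abs_self R, hz.1]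
          have b2 : |kk ρ ε z| ≤ ε2 + C := by
            have := hρ.nonneg z
            have := hC z
            have := hε.1
            have := hε.2
            unfold kk
            split_ifs
            · rw [abs_le]; constructor <;> linarith
            · rw [abs_zero]; linarith
          exact mul_le_mul (PSI_w' hw hε.1.le) (mul_le_mul b1 b2 (abs_nonneg _) (by positivity))
            (by positivity) (by positivity)
        · rw [indicator_of_notMem hz]
          have hz' : R ≤ |z| := by
            by_contra hc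
            have := abs_lt.mp (not_le.mp hc)
            exact hz ⟨this.1.le, this.2.le⟩
          have h4 : em ρ z ≤ ε1 := hR z hz'
          have h5 : kk ρ ε z = 0 := by
            unfold kk
            rw [if_neg (by linarith [hε.1])]
          simp [h5]
    have hs := intervalIntegral_integral_swap hI
    unfold psib Lam
    simp only [integral_const_mul] at hs
    rw [hs]
    congr 1
    funext z
    rw [hhk z, ← intervalIntegral.integral_const_mul]
    congr 1
    funext ε
    ring
  refine ⟨⟨fun x => ∫ z in (-|R|)..x, hh w ρ z, fun x => ?_, fun x => ?_, fun x => ⟨?_, ?_⟩⟩, ?_⟩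
  · rw [hpsi]
    exact PSI_der hhc _ x
  · exact (hhc.integral_hasStrictDerivAt _ x).hasDerivAt
  · refine le_trans ?_ (le_max_left _ _)
    unfold psib
    rw [← Real.norm_eq_abs]
    refine intervalIntegral.norm_integral_le_of_norm_le_const fun ε hε => ?_
    rw [uIoc_of_le hle] at hε
    exact hlam ε hε x
  · refine le_trans ?_ (le_max_right _ _)
    have hint : Integrable (hh w ρ) := by
      refine hhc.integrable_of_hasCompactSupport
        (HasCompactSupport.intro (isCompact_Icc (a := -R) (b := R)) fun z hz => hh0 z (hR z ?_))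
      by_contra hc
      have := abs_lt.mp (not_le.mp hc)
      exact hz ⟨this.1.le, this.2.le⟩
    have hvol := (h3 M ρ ε1 hρ hε1).2.2.2.2.1
    have v1 : volume.real (zs ρ ε1)ᶜ ≤ max (M / ε1) 0 := by
      rw [← ENNReal.toReal_ofReal']
      exact ENNReal.toReal_mono ENNReal.ofReal_ne_top hvol
    have v2 : ‖∫ z in (zs ρ ε1)ᶜ, ‖hh w ρ z‖‖ ≤ (|S| + 1) * volume.real (zs ρ ε1)ᶜ := by
      refine norm_setIntegral_le_of_norm_le_const (hvol.trans_lt ENNReal.ofReal_lt_top)
        fun z _ => ?_
      rw [norm_norm, Real.norm_eq_abs, abs_le]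
      obtain ⟨b1, b2⟩ := hhb z
      constructor <;> linarith [le_abs_self S, abs_nonneg S]
    rw [setIntegral_eq_integral_of_forall_compl_eq_zero
      (fun z hz => by rw [hh0 z (not_not.mp hz), norm_zero])] at v2
    calc |∫ z in (-|R|)..x, hh w ρ z| ≤ ∫ z in uIoc (-|R|) x, ‖hh w ρ z‖ := by
          rw [← Real.norm_eq_abs]
          exact intervalIntegral.norm_integral_le_integral_norm_uIoc
      _ ≤ ∫ z, ‖hh w ρ z‖ :=
          setIntegral_le_integral hint.norm (Eventually.of_forall fun z => norm_nonneg _)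
      _ ≤ (|S| + 1) * volume.real (zs ρ ε1)ᶜ := (le_abs_self _).trans v2
      _ ≤ (|S| + 1) * max (M / ε1) 0 := mul_le_mul_of_nonneg_left v1 (by positivity)
  · intro σ hσ
    have hI : Integrable (Function.uncurry fun ε x => w' ε * (Lam ρ ε x * σ x))
        ((volume.restrict (uIoc ε1 ε2)).prod (volume : Measure ℝ)) := by
      refine PSI_int hle _ (fun x => 3 / ε1 ^ 2 * (M ^ 2 / ε1) * ‖σ x‖) (hσ.norm.const_mul _) ?_ ?_
      · exact ((hw.cont.measurable.comp measurable_fst).aestronglyMeasurable).mul
          ((PSI_lam_meas hρc hec).aestronglyMeasurable.mul hσ.aestronglyMeasurable.comp_snd)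
      · intro ε hε x
        rw [← mul_assoc, abs_mul]
        exact mul_le_mul_of_nonneg_right (hlam ε hε x) (abs_nonneg _)
    have hs := intervalIntegral_integral_swap hI
    simp only [integral_const_mul] at hs
    rw [hs]
    congr 1
    funext x
    unfold psib
    rw [← intervalIntegral.integral_mul_const]
    congr 1
    funext ε
    ring

end Pool.Agent.Lib.MP_13801a_an
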