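import Mathlib
import Pool.Agent.Lib.MP_13801a_an.Sts

/-!
The averaged convex functional and its subgradient.
-/

open MeasureTheory Set Filter
open scoped ContDiff Topology ComplexConjugate

namespace Pool.Agent.Lib.MP_13801a_an

theorem STAT_intLam (h1 : St_LAM1) {M ε : ℝ} {ρ σ : ℝ → ℝ} (hρ : Dens M ρ) (hε : 0 < ε)
    (hσ : Integrable σ) : Integrable fun x => Lam ρ ε x * σ x := by
  obtain ⟨-, hb, -, -, -, -, hc⟩ := h1 M ρ ε hρ hε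
  refine hσ.bdd_mul (c := M ^ 2 / ε) hc.aestronglyMeasurable (Eventually.of_forall fun x => ?_)
  rw [Real.norm_eq_abs, abs_of_nonneg (hb x).1]
  exact (hb x).2

theorem STAT_intPsi (h2 : St_LAM2) {M ε : ℝ} {ρ σ : ℝ → ℝ} (hρ : Dens M ρ) (hε : 0 < ε)
    (hσ : Integrable σ) : Integrable fun x => psi ρ ε x * σ x := by
  obtain ⟨-, hm, hb, -⟩ := h2 M ρ ε hρ hε
  refine hσ.bdd_mul (c := (M / ε) ^ 2) hm.aestronglyMeasurable (Eventually.of_forall fun x => ?_)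
  rw [Real.norm_eq_abs, abs_of_nonneg (hb x).1]
  exact (hb x).2

theorem STAT_anti (h2 : St_LAM2) {M ε1 ε2 : ℝ} {ρ : ℝ → ℝ} (hρ : Dens M ρ) (h : 0 < ε1) :
    AntitoneOn (fun ε => ∫ x, Lam ρ ε x) (Icc ε1 ε2) := by
  intro a ha b hb hab
  have ha0 : 0 < a := h.trans_le ha.1
  have hb0 : 0 < b := h.trans_le hb.1
  obtain ⟨k1, -, k3, k4, -⟩ := h2 M ρ b hρ hb0
  refine integral_mono k4 (h2 M ρ a hρ ha0).2.2.2.1 fun x => ?_
  have e1 := k1 a ha0 x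
  have e2 : 0 ≤ (b - a) * psi ρ b x := mul_nonneg (sub_nonneg.2 hab) (k3 x).1
  have e3 : (a - b) * psi ρ b x = -((b - a) * psi ρ b x) := by ring
  linarith

theorem STAT_ii (h2 : St_LAM2) {ε1 ε2 S M : ℝ} {w w' ρ : ℝ → ℝ} (hw : Wt ε1 ε2 S w w')
    (hρ : Dens M ρ) : IntervalIntegrable (fun ε => w ε * ∫ x, Lam ρ ε x) volume ε1 ε2 := by
  have hc : Continuous w := continuous_iff_continuousAt.2 fun x => (hw.der x).continuousAt
  have ha : AntitoneOn (fun ε => ∫ x, Lam ρ ε x) (uIcc ε1 ε2) := by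
    rw [uIcc_of_le hw.lt.le]
    exact STAT_anti h2 hρ hw.pos
  exact ha.intervalIntegrable.continuousOn_mul hc.continuousOn

theorem STAT_sub (h1 : St_LAM1) (h2 : St_LAM2) (h3 : St_SUBG) {ε1 ε2 S M : ℝ}
    {w w' ρ σ : ℝ → ℝ} (hw : Wt ε1 ε2 S w w') (hρ : Dens M ρ) (hσ : Dens M σ) :
    IntervalIntegrable (fun ε => w ε * ∫ x, psi ρ ε x * σ x) volume ε1 ε2 ∧
      ∫ ε in ε1..ε2, w ε * ∫ x, psi ρ ε x * σ x = ∫ ε in ε1..ε2, w' ε * ∫ x, Lam ρ ε x * σ x := by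
  refine h3 ε1 ε2 (fun ε => ∫ x, Lam ρ ε x * σ x) (fun ε => ∫ x, psi ρ ε x * σ x) w w' hw.lt.le
    ?_ hw.der hw.cont (hw.zero ε1 (Or.inl le_rfl)).1 (hw.zero ε2 (Or.inr le_rfl)).1
  intro a ha b hb
  have ha0 : 0 < a := hw.pos.trans_le ha.1
  have hb0 : 0 < b := hw.pos.trans_le hb.1
  have i1 := STAT_intLam h1 hρ ha0 hσ.int
  have i2 := STAT_intLam h1 hρ hb0 hσ.int
  have i3 := (STAT_intPsi h2 hρ ha0 hσ.int).const_mul (b - a)
  show (∫ x, Lam ρ a x * σ x) - (b - a) * (∫ x, psi ρ a x * σ x) ≤ ∫ x, Lam ρ b x * σ x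
  rw [← integral_const_mul, ← integral_sub i1 i3]
  refine integral_mono (i1.sub i3) i2 fun x => ?_
  have e := mul_le_mul_of_nonneg_right ((h2 M ρ a hρ ha0).1 b hb0 x) (hσ.nonneg x)
  have e2 : (Lam ρ a x - (b - a) * psi ρ a x) * σ x =
      Lam ρ a x * σ x - (b - a) * (psi ρ a x * σ x) := by ring
  rw [e2] at e
  exact e

theorem STAT (h1 : St_LAM1) (h2 : St_LAM2) (h3 : St_SUBG) (h4 : St_PSI) : St_STAT := by
  intro ε1 ε2 S M w w' hw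
  obtain ⟨B, hB⟩ := h4 ε1 ε2 S M w w' hw
  have hc : Continuous w := continuous_iff_continuousAt.2 fun x => (hw.der x).continuousAt
  refine ⟨max B (∫ ε in ε1..ε2, w ε * (M ^ 3 / ε1 ^ 2)),
    fun ρ => ∫ ε in ε1..ε2, w ε * ∫ x, Lam ρ ε x, fun ρ hρ => ⟨?_, ?_, ?_⟩⟩
  · refine intervalIntegral.integral_nonneg hw.lt.le fun ε hε => mul_nonneg (hw.nonneg ε) ?_
    exact integral_nonneg fun x => ((h1 M ρ ε hρ (hw.pos.trans_le hε.1)).2.1 x).1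
  · refine le_trans ?_ (le_max_right _ _)
    refine intervalIntegral.integral_mono_on hw.lt.le (STAT_ii h2 hw hρ)
      ((hc.mul continuous_const).intervalIntegrable _ _) fun ε hε => ?_
    refine mul_le_mul_of_nonneg_left ?_ (hw.nonneg ε)
    exact (STAT_anti h2 hρ hw.pos (left_mem_Icc.2 hw.lt.le) hε hε.1).trans
      (h2 M ρ ε1 hρ hw.pos).2.2.2.2.1
  · obtain ⟨⟨χ, d1, d2, hb⟩, hI⟩ := hB ρ hρ
    refine ⟨psib ε1 ε2 w' ρ, χ, d1, d2,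
      fun x => ⟨(hb x).1.trans (le_max_left _ _), (hb x).2.trans (le_max_left _ _)⟩, ?_⟩
    intro ρ' hρ'
    obtain ⟨j1, e1⟩ := STAT_sub h1 h2 h3 hw hρ hρ
    obtain ⟨j2, e2⟩ := STAT_sub h1 h2 h3 hw hρ hρ'
    rw [hI ρ hρ.int, hI ρ' hρ'.int, ← e1, ← e2]
    show (∫ ε in ε1..ε2, w ε * ∫ x, Lam ρ ε x) +
      ((∫ ε in ε1..ε2, w ε * ∫ x, psi ρ ε x * ρ' x) - ∫ ε in ε1..ε2, w ε * ∫ x, psi ρ ε x * ρ x) ≤
      ∫ ε in ε1..ε2, w ε * ∫ x, Lam ρ' ε x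
    rw [← intervalIntegral.integral_sub j2 j1,
      ← intervalIntegral.integral_add (STAT_ii h2 hw hρ) (j2.sub j1)]
    refine intervalIntegral.integral_mono_on hw.lt.le ((STAT_ii h2 hw hρ).add (j2.sub j1))
      (STAT_ii h2 hw hρ') fun ε hε => ?_
    have e := mul_le_mul_of_nonneg_left
      ((h2 M ρ ε hρ (hw.pos.trans_le hε.1)).2.2.2.2.2 ρ' hρ') (hw.nonneg ε)
    rw [mul_add, mul_sub] at e
    exact e

end Pool.Agent.Lib.MP_13801a_an
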