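import Mathlib
import Pool.Agent.Lib.MP_13801a_an.Sts

/-!
Integration by parts for a convex function against its subgradient.
-/

open MeasureTheory Set Filter
open scoped Topology

namespace Pool.Agent.Lib.MP_13801a_an

theorem SUBG_anti {ε1 ε2 : ℝ} {F p : ℝ → ℝ}
    (h : ∀ a ∈ Icc ε1 ε2, ∀ b ∈ Icc ε1 ε2, F a - (b - a) * p a ≤ F b) :
    AntitoneOn p (Icc ε1 ε2) := by
  intro a ha b hb hab
  rcases hab.eq_or_lt with rfl | hlt
  · exact le_rfl
  have h1 := h a ha b hb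
  have h2 := h b hb a ha
  have h3 : (b - a) * p b ≤ (b - a) * p a := by nlinarith
  exact le_of_mul_le_mul_left h3 (sub_pos.2 hlt)

theorem SUBG_est {ε1 ε2 : ℝ} {F p : ℝ → ℝ}
    (h : ∀ a ∈ Icc ε1 ε2, ∀ b ∈ Icc ε1 ε2, F a - (b - a) * p a ≤ F b) {x y : ℝ}
    (hx : x ∈ Icc ε1 ε2) (hy : y ∈ Icc ε1 ε2) :
    |F y - F x - (y - x) * (-p x)| ≤ |p y - p x| * |y - x| := by
  have h1 := h x hx y hy
  have h2 := h y hy x hx
  rw [abs_of_nonneg (by linarith), ← abs_mul]
  refine le_trans ?_ (neg_le_abs _)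
  nlinarith

theorem SUBG_cont {ε1 ε2 : ℝ} {F p : ℝ → ℝ}
    (h : ∀ a ∈ Icc ε1 ε2, ∀ b ∈ Icc ε1 ε2, F a - (b - a) * p a ≤ F b) :
    ContinuousOn F (Icc ε1 ε2) := by
  have hb : ∀ x ∈ Icc ε1 ε2, |p x| ≤ |p ε1| + |p ε2| := by
    intro x hx
    have hle : ε1 ≤ ε2 := hx.1.trans hx.2
    have h1 := SUBG_anti h (left_mem_Icc.2 hle) hx hx.1
    have h2 := SUBG_anti h hx (right_mem_Icc.2 hle) hx.2
    rw [abs_le]
    constructor
    · linarith [neg_abs_le (p ε2), abs_nonneg (p ε1)]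
    · linarith [le_abs_self (p ε1), abs_nonneg (p ε2)]
  have hl : LipschitzOnWith ⟨|p ε1| + |p ε2|, by positivity⟩ F (Icc ε1 ε2) := by
    refine LipschitzOnWith.of_dist_le_mul fun x hx y hy => ?_
    have h1 := h x hx y hy
    have h2 := h y hy x hx
    have h3 : |(y - x) * p x| ≤ (|p ε1| + |p ε2|) * |x - y| := by
      rw [abs_mul, abs_sub_comm y x, mul_comm]
      exact mul_le_mul_of_nonneg_right (hb x hx) (abs_nonneg _)
    have h4 : |(x - y) * p y| ≤ (|p ε1| + |p ε2|) * |x - y| := by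
      rw [abs_mul, mul_comm]
      exact mul_le_mul_of_nonneg_right (hb y hy) (abs_nonneg _)
    rw [Real.dist_eq, Real.dist_eq]
    change |F x - F y| ≤ (|p ε1| + |p ε2|) * |x - y|
    rw [abs_le] at h3 h4 ⊢
    constructor <;> linarith [h3.1, h3.2, h4.1, h4.2]
  exact hl.continuousOn

theorem SUBG_der {ε1 ε2 : ℝ} {F p : ℝ → ℝ}
    (h : ∀ a ∈ Icc ε1 ε2, ∀ b ∈ Icc ε1 ε2, F a - (b - a) * p a ≤ F b) {x : ℝ}
    (hx : x ∈ Ioo ε1 ε2) (hc : ContinuousAt p x) : HasDerivAt F (-p x) x := by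
  rw [hasDerivAt_iff_isLittleO, Asymptotics.isLittleO_iff]
  intro c hc0
  have h1 : ∀ᶠ y in 𝓝 x, dist (p y) (p x) < c := hc.eventually (Metric.ball_mem_nhds _ hc0)
  filter_upwards [h1, Icc_mem_nhds hx.1 hx.2] with y hy1 hy2
  rw [Real.norm_eq_abs, Real.norm_eq_abs, smul_eq_mul]
  refine (SUBG_est h (Ioo_subset_Icc_self hx) hy2).trans ?_
  exact mul_le_mul_of_nonneg_right (Real.dist_eq _ _ ▸ hy1.le) (abs_nonneg _)

theorem SUBG : St_SUBG := by
  intro ε1 ε2 F p w w' hle h hw hw' h1 h2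
  have hanti := SUBG_anti h
  have hwc : Continuous w := continuous_iff_continuousAt.2 fun x => (hw x).continuousAt
  have hp : IntervalIntegrable p volume ε1 ε2 :=
    AntitoneOn.intervalIntegrable (by rwa [uIcc_of_le hle])
  have hi1 : IntervalIntegrable (fun ε => w ε * p ε) volume ε1 ε2 :=
    hp.continuousOn_mul hwc.continuousOn
  have hF := SUBG_cont h
  have hi2 : IntervalIntegrable (fun ε => w' ε * F ε) volume ε1 ε2 :=
    ContinuousOn.intervalIntegrable (by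
      rw [uIcc_of_le hle]
      exact hw'.continuousOn.mul hF)
  refine ⟨hi1, ?_⟩
  set q : ℝ → ℝ := fun x => p (projIcc ε1 ε2 hle x) with hq
  have hqa : Antitone q := fun x y hxy =>
    hanti (projIcc ε1 ε2 hle x).2 (projIcc ε1 ε2 hle y).2 (monotone_projIcc hle hxy)
  have key := MeasureTheory.integral_eq_of_hasDerivAt_off_countable_of_le
    (fun ε => w ε * F ε) (fun ε => w' ε * F ε - w ε * p ε) hle hqa.countable_not_continuousAt
    (hwc.continuousOn.mul hF) ?_ (hi2.sub hi1)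
  · rw [intervalIntegral.integral_sub hi2 hi1, h1, h2] at key
    linarith
  · intro x hx
    have hqc : ContinuousAt q x := not_not.1 hx.2
    have hpc : ContinuousAt p x := by
      refine hqc.congr ?_
      filter_upwards [Icc_mem_nhds hx.1.1 hx.1.2] with y hy
      simp only [hq, projIcc_of_mem hle hy]
    exact ((hw x).fun_mul (SUBG_der h hx.1 hpc)).congr_deriv (by ring)

end Pool.Agent.Lib.MP_13801a_an
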