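import Mathlib
import Pool.Agent.Lib.MP_13801a_an.Sts

/-!
Removing the linear term by an exponential factor.
-/

open MeasureTheory Set Filter
open scoped ContDiff Topology ComplexConjugate

namespace Pool.Agent.Lib.MP_13801a_an

theorem TRANS_nsq (A : L2) : nsq A = ‖A‖ ^ 2 := by
  rw [← real_inner_self_eq_norm_sq, L2.inner_def]
  unfold nsq
  refine integral_congr_ae (Eventually.of_forall fun x => ?_)
  simp only [real_inner_self_eq_norm_sq]

theorem TRANS_nsq_sub {a b : ℝ → ℂ} {A B : L2} (ha : a =ᵐ[volume] A) (hb : b =ᵐ[volume] B) :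
    nsq (fun x => a x - b x) = ‖A - B‖ ^ 2 := by
  rw [← TRANS_nsq]
  unfold nsq
  refine integral_congr_ae ?_
  filter_upwards [ha, hb, Lp.coeFn_sub A B] with x h1 h2 h3
  rw [h3, h1, h2, Pi.sub_apply]

theorem TRANS_uc {W : ℝ → L2} (hW : Continuous W) (T η : ℝ) (hη : 0 < η) :
    ∃ τ : ℝ, 0 < τ ∧ ∀ s t, |s| ≤ T → |t| ≤ T → |s - t| ≤ τ → ‖W s - W t‖ ^ 2 ≤ η := by
  have h := (isCompact_Icc (a := -T) (b := T)).uniformContinuousOn_of_continuous hW.continuousOn
  obtain ⟨δ, hδ, h⟩ := Metric.uniformContinuousOn_iff_le.1 h (√η) (Real.sqrt_pos.2 hη)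
  refine ⟨δ, hδ, fun s t hs ht hst => ?_⟩
  have h1 := h s (abs_le.1 hs) t (abs_le.1 ht) (by rwa [Real.dist_eq])
  rw [dist_eq_norm] at h1
  calc ‖W s - W t‖ ^ 2 ≤ √η ^ 2 := by gcongr
    _ = η := Real.sq_sqrt hη.le

theorem TRANS_NL (α c : ℝ) (hc : 0 < c) (z : ℂ) :
    NL α ((c : ℂ) * z) = ((c ^ α * c : ℝ) : ℂ) * NL α z := by
  unfold NL
  rw [norm_mul, Complex.norm_real, Real.norm_of_nonneg hc.le,
    Real.mul_rpow hc.le (norm_nonneg z)]
  push_cast
  ring

theorem TRANS (h1 : St_REP) : St_TRANS := by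
  intro α γ u du hs
  choose g hg using fun t : ℝ => h1.1 (u (max t 0)) (du (max t 0)) (hs.weak _ (le_max_right t 0))
  set c : ℝ → ℝ := fun t => Real.exp (-γ * max t 0) with hc
  have cc : Continuous fun t => (c t : ℂ) := by
    simp only [hc]
    fun_prop
  have cm : Continuous fun t : ℝ => max t 0 := by fun_prop
  have cu : Continuous fun t => (c t : ℂ) • u (max t 0) :=
    cc.smul (hs.cont.comp_continuous cm fun t => le_max_right t 0)
  have cd : Continuous fun t => (c t : ℂ) • du (max t 0) :=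
    cc.smul (hs.contD.comp_continuous cm fun t => le_max_right t 0)
  have eu : ∀ t, (fun x => (c t : ℂ) * g t x) =ᵐ[volume] ((c t : ℂ) • u (max t 0) : L2) :=
    fun t => by
    filter_upwards [(hg t).2, Lp.coeFn_smul (c t : ℂ) (u (max t 0))] with x h2 h3
    rw [h3, h2, Pi.smul_apply, smul_eq_mul]
  have ed : ∀ t, (fun x => (c t : ℂ) * du (max t 0) x) =ᵐ[volume]
      ((c t : ℂ) • du (max t 0) : L2) := fun t => by
    filter_upwards [Lp.coeFn_smul (c t : ℂ) (du (max t 0))] with x h3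
    rw [h3, Pi.smul_apply, smul_eq_mul]
  refine ⟨fun t x => (c t : ℂ) * g t x, fun t x => (c t : ℂ) * du (max t 0) x, ⟨?_, ?_, ?_⟩,
    ?_, ?_⟩
  · intro t
    refine ⟨(hg t).1.mem0.const_mul _, (hg t).1.mem1.const_mul _, fun x y => ?_⟩
    rw [intervalIntegral.integral_const_mul, ← (hg t).1.prim, mul_sub]
  · intro T η hη
    obtain ⟨τ1, p1, q1⟩ := TRANS_uc cu T η hη
    obtain ⟨τ2, p2, q2⟩ := TRANS_uc cd T η hη
    refine ⟨min τ1 τ2, lt_min p1 p2, fun s t hs' ht hst => ⟨?_, ?_⟩⟩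
    · rw [TRANS_nsq_sub (eu s) (eu t)]
      exact q1 s t hs' ht (hst.trans (min_le_left _ _))
    · rw [TRANS_nsq_sub (ed s) (ed t)]
      exact q2 s t hs' ht (hst.trans (min_le_right _ _))
  · intro φ hφ t ht
    have hm : max t 0 = t := max_eq_left ht.le
    have ev : (fun s => ∫ x, (c s : ℂ) * g s x * ((φ x : ℝ) : ℂ)) =ᶠ[𝓝 t]
        fun s => ((Real.exp (-γ * s) : ℝ) : ℂ) * ∫ x, u s x * ((φ x : ℝ) : ℂ) := by
      filter_upwards [lt_mem_nhds ht] with s hs'
      have hm' : max s 0 = s := max_eq_left hs'.le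
      rw [← integral_const_mul]
      refine integral_congr_ae ?_
      filter_upwards [(hg s).2] with x h2
      simp only [hc, h2, hm', mul_assoc]
    have de : HasDerivAt (fun s : ℝ => ((Real.exp (-γ * s) : ℝ) : ℂ))
        ((Real.exp (-γ * t) * -γ : ℝ) : ℂ) t := by
      have h2 : HasDerivAt (fun s : ℝ => -γ * s) (-γ) t := by
        simpa using (hasDerivAt_id t).const_mul (-γ)
      exact h2.exp.ofReal_comp
    have h3 := (de.mul (hs.eqn φ hφ t ht)).congr_of_eventuallyEq ev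
    refine h3.congr_deriv ?_
    have hct : c t = Real.exp (-γ * t) := by simp only [hc, hm]
    have i1 : ∫ x, (c t : ℂ) * du (max t 0) x * ((deriv φ x : ℝ) : ℂ) =
        (c t : ℂ) * ∫ x, du t x * ((deriv φ x : ℝ) : ℂ) := by
      rw [← integral_const_mul, hm]
      simp only [mul_assoc]
    have i2 : ∫ x, NL α ((c t : ℂ) * g t x) * ((φ x : ℝ) : ℂ) =
        ((c t ^ α * c t : ℝ) : ℂ) * ∫ x, NL α (u t x) * ((φ x : ℝ) : ℂ) := by
      rw [← integral_const_mul]
      refine integral_congr_ae ?_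
      filter_upwards [(hg t).2] with x h2
      rw [TRANS_NL α (c t) (Real.exp_pos _), h2, hm, mul_assoc]
    have i3 : Real.exp (α * γ * t) * (c t ^ α * c t) = c t := by
      rw [hct, ← Real.exp_mul, ← mul_assoc, ← Real.exp_add]
      have : α * γ * t + -γ * t * α = 0 := by ring
      rw [this, Real.exp_zero, one_mul]
    have i4 : ((Real.exp (α * γ * t) : ℝ) : ℂ) * ((c t ^ α * c t : ℝ) : ℂ) = (c t : ℂ) := by
      rw [← Complex.ofReal_mul, i3]
    rw [i1, i2, ← mul_assoc ((Real.exp (α * γ * t) : ℝ) : ℂ), i4, ← hct, Complex.ofReal_mul,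
      Complex.ofReal_neg]
    ring
  · filter_upwards [(hg 0).2] with x h2
    simp [hc, h2]
  · refine Eventually.of_forall fun x => ?_
    simp [hc]

end Pool.Agent.Lib.MP_13801a_an
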