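import Mathlib
import Pool.Agent.Lib.MP_13801a_an.Sts

/-!
Uniform bounds for mollified Sobolev functions.
-/

open MeasureTheory Set Filter
open scoped ContDiff Topology ComplexConjugate

namespace Pool.Agent.Lib.MP_13801a_an

theorem UNI1_sup (h1 : St_MOL) (h2 : St_CONV) (g g' : ℝ → ℂ) (r η : ℝ) (hg : MemLp g 2 volume)
    (hg' : MemLp g' 2 volume) (hr : 0 < r) (h : ∀ y, ‖g y - g' y‖ ≤ η) (x : ℝ) :
    ‖cv (mol r) g x - cv (mol r) g' x‖ ≤ η := by
  obtain ⟨hT, hpos, hone, -⟩ := h1.1 r hr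
  rw [← (h2 _ hT g hg).2.2.2.2.1 g' hg' x]
  have hi : Integrable (mol r) := hT.1.continuous.integrable_of_hasCompactSupport hT.2
  have hi2 : Integrable fun y => mol r (x - y) * η := (hi.comp_sub_left x).mul_const η
  have h3 : ∫ y, mol r (x - y) * η = η := by
    rw [integral_mul_const, integral_sub_left_eq_self (fun y => mol r y) volume x, hone, one_mul]
  rw [← h3]
  refine norm_integral_le_of_norm_le hi2 (Eventually.of_forall fun y => ?_)
  rw [norm_mul, Complex.norm_real, Real.norm_of_nonneg (hpos _)]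
  exact mul_le_mul_of_nonneg_left (h y) (hpos _)

theorem UNI1_cs {a b : ℝ → ℂ} (ha : MemLp a 2 volume) (hb : MemLp b 2 volume) :
    (Integrable fun x => ‖a x - b x‖ * (‖a x‖ + ‖b x‖)) ∧
    ∫ x, ‖a x - b x‖ * (‖a x‖ + ‖b x‖) ≤
      √(nsq fun x => a x - b x) * (√(nsq a) + √(nsq b)) := by
  have hd : MemLp (fun x => a x - b x) 2 volume := ha.sub hb
  have e : (fun x => ‖a x - b x‖ * (‖a x‖ + ‖b x‖)) =
      fun x => ‖a x - b x‖ * ‖a x‖ + ‖a x - b x‖ * ‖b x‖ := by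
    funext x
    ring
  rw [e]
  refine ⟨(integrable_norm_mul hd ha).add (integrable_norm_mul hd hb), ?_⟩
  rw [integral_add (integrable_norm_mul hd ha) (integrable_norm_mul hd hb), mul_add]
  exact add_le_add (integral_norm_mul_le hd ha) (integral_norm_mul_le hd hb)

theorem UNI1_diff {F G H : ℝ → ℝ} (hF : Integrable F) (hG : Integrable G) (hH : Integrable H)
    (h : ∀ x, |F x - G x| ≤ H x) : |(∫ x, F x) - ∫ x, G x| ≤ ∫ x, H x := by
  rw [← integral_sub hF hG, ← Real.norm_eq_abs]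
  exact norm_integral_le_of_norm_le hH (Eventually.of_forall h)

theorem UNI1 (h1 : St_MOL) (h2 : St_CONV) (h3 : St_OSC) (h4 : St_SUP) (h5 : St_NL) :
    St_UNI1 := by
  refine ⟨fun g g' r η hg hg' hr h x => UNI1_sup h1 h2 g g' r η hg hg' hr h x, ?_⟩
  intro α B hα
  obtain ⟨Cm, hCm⟩ := h1.2.1
  obtain ⟨-, hnorm, -, hL, -, hmem⟩ := h5 α hα
  obtain ⟨L, hL0, hL⟩ := hL √(4 * B)
  have hS0 : 0 ≤ √(4 * B) := Real.sqrt_nonneg _
  have hB0 : 0 ≤ |B| := abs_nonneg B
  have p1 : 0 ≤ Cm ^ 2 * |B| := by positivity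
  have p2 : 0 ≤ 4 * |B| := by positivity
  have p3 : 0 ≤ L * (4 * |B|) := by positivity
  have p4 : 0 ≤ L ^ 2 * |B| := by positivity
  refine ⟨Cm ^ 2 * |B| + √(4 * B) + 4 * |B| + L * (4 * |B|) + L ^ 2 * |B|, by positivity, ?_⟩
  intro g dg hg hgB hdB r hr
  have hB : 0 ≤ B := (nsq_nonneg g).trans hgB
  rw [abs_of_nonneg hB] at *
  obtain ⟨hT, hpos, hone, -⟩ := h1.1 r hr
  have habs : ∫ y, |mol r y| = 1 := by
    rw [← hone]
    exact integral_congr_ae (Eventually.of_forall fun y => abs_of_nonneg (hpos y))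
  obtain ⟨-, hfm, hfn, -, -, hfd⟩ := h2 _ hT g hg.mem0
  rw [habs, one_pow, one_mul] at hfn
  have hgS : ∀ x, ‖g x‖ ≤ √(4 * B) := fun x =>
    Real.le_sqrt_of_sq_le (((h4 g dg hg).2 x).trans (by linarith))
  have hfS : ∀ x, ‖cv (mol r) g x‖ ≤ √(4 * B) := fun x => by
    have h := UNI1_sup h1 h2 g (fun _ => 0) r _ hg.mem0 MemLp.zero hr
      (fun y => by simpa using hgS y) x
    simpa [cv] using h
  obtain ⟨ho1, ho2, ho3, -⟩ := h3 g dg r hg hr
  have hd : nsq (fun x => cv (mol r) g x - g x) ≤ (2 * r) ^ 2 * B := by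
    have h6 : nsq (fun x => cv (mol r) g x - g x) ≤ ∫ x, 2 * r * osc r dg x := by
      refine integral_mono (integrable_nsq (hfm.sub hg.mem0)) (ho2.const_mul _) fun x => ?_
      have h := ho1 x x (by simpa using hr.le)
      rw [norm_sub_rev] at h
      exact h
    rw [integral_const_mul] at h6
    calc _ ≤ 2 * r * (2 * r * nsq dg) := h6.trans (mul_le_mul_of_nonneg_left ho3 (by positivity))
      _ ≤ 2 * r * (2 * r * B) := by gcongr
      _ = _ := by ring
  obtain ⟨hci, hcs⟩ := UNI1_cs hfm hg.mem0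
  have hcs2 : ∫ x, ‖cv (mol r) g x - g x‖ * (‖cv (mol r) g x‖ + ‖g x‖) ≤ 4 * B * r := by
    have e1 : √(nsq fun x => cv (mol r) g x - g x) ≤ 2 * r * √B := by
      refine (Real.sqrt_le_sqrt hd).trans (le_of_eq ?_)
      rw [Real.sqrt_mul (by positivity), Real.sqrt_sq (by positivity)]
    have e2 : √(nsq (cv (mol r) g)) ≤ √B := Real.sqrt_le_sqrt (hfn.trans hgB)
    have e3 : √(nsq g) ≤ √B := Real.sqrt_le_sqrt hgB
    calc _ ≤ 2 * r * √B * (√B + √B) := hcs.trans (by gcongr)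
      _ = 4 * (√B * √B) * r := by ring
      _ = _ := by rw [Real.mul_self_sqrt hB]
  refine ⟨hfn, ?_, ?_, fun x => (hfS x).trans (by linarith), ?_, ?_, ?_⟩
  · have e : cv (dk 1 (mol r)) g = cv (mol r) dg := funext (hfd dg hg)
    have h := (h2 _ hT dg hg.mem1).2.2.1
    rw [habs, one_pow, one_mul] at h
    rw [e]
    exact h
  · have e : cv (dk 2 (mol r)) g = cv (deriv (mol r)) dg :=
      funext ((h2 _ hT.deriv g hg.mem0).2.2.2.2.2 dg hg)
    have h := (h2 _ hT.deriv dg hg.mem1).2.2.1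
    have h0 : 0 ≤ ∫ y, |deriv (mol r) y| := integral_nonneg fun _ => abs_nonneg _
    have h7 := hCm r hr
    rw [e]
    calc _ ≤ (Cm / r) ^ 2 * B := h.trans (mul_le_mul (by gcongr) hdB (nsq_nonneg _) (by positivity))
      _ = Cm ^ 2 * B / r ^ 2 := by ring
      _ ≤ _ := by gcongr; linarith
  · have h := UNI1_diff (integrable_nsq hfm) (integrable_nsq hg.mem0) hci fun x => by
      have e : ‖cv (mol r) g x‖ ^ 2 - ‖g x‖ ^ 2 =
          (‖cv (mol r) g x‖ - ‖g x‖) * (‖cv (mol r) g x‖ + ‖g x‖) := by ring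
      rw [e, abs_mul, abs_of_nonneg (by positivity : 0 ≤ ‖cv (mol r) g x‖ + ‖g x‖)]
      exact mul_le_mul_of_nonneg_right (abs_norm_sub_norm_le _ _) (by positivity)
    calc _ ≤ 4 * B * r := h.trans hcs2
      _ ≤ _ := by gcongr; linarith
  · have h := UNI1_diff (hmem _ _ hfm hfS).2 (hmem _ _ hg.mem0 hgS).2 (hci.const_mul L)
      fun x => (hL _ _ (hfS x) (hgS x)).2.1
    rw [integral_const_mul] at h
    calc _ ≤ L * (4 * B * r) := h.trans (mul_le_mul_of_nonneg_left hcs2 hL0)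
      _ = L * (4 * B) * r := by ring
      _ ≤ _ := by gcongr; linarith
  · have hz : NL α 0 = 0 := by
      rw [← norm_eq_zero, hnorm, norm_zero, Real.zero_rpow (by linarith)]
    have h8 : nsq (fun x => NL α (cv (mol r) g x)) ≤ ∫ x, L ^ 2 * ‖cv (mol r) g x‖ ^ 2 := by
      refine integral_mono (integrable_nsq (hmem _ _ hfm hfS).1)
        ((integrable_nsq hfm).const_mul _) fun x => ?_
      have h := (hL _ 0 (hfS x) (by simp)).1
      rw [hz, sub_zero, sub_zero] at h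
      calc ‖NL α (cv (mol r) g x)‖ ^ 2 ≤ (L * ‖cv (mol r) g x‖) ^ 2 := by gcongr
        _ = L ^ 2 * ‖cv (mol r) g x‖ ^ 2 := by ring
    rw [integral_const_mul] at h8
    calc _ ≤ L ^ 2 * B := h8.trans (mul_le_mul_of_nonneg_left (hfn.trans hgB) (by positivity))
      _ ≤ _ := by linarith

end Pool.Agent.Lib.MP_13801a_an
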