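import Mathlib
import Pool.Agent.Lib.MP_13801a_an.Sts

/-!
The commutator estimate for the mollified nonlinearity.
-/

open MeasureTheory Set Filter
open scoped ContDiff Topology ComplexConjugate

namespace Pool.Agent.Lib.MP_13801a_an

theorem UNI2_int {k : ℝ → ℝ} (hk : Test k) (x : ℝ) {G : ℝ → ℂ} (hG : Continuous G) :
    Integrable fun y => ((k (x - y) : ℝ) : ℂ) * G y := by
  have hc : Continuous fun y => ((k (x - y) : ℝ) : ℂ) :=
    Complex.continuous_ofReal.comp (hk.1.continuous.comp (continuous_const.sub continuous_id))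
  have hs : HasCompactSupport fun y => k (x - y) :=
    hk.2.comp_homeomorph (Homeomorph.subLeft x)
  have hs' : HasCompactSupport fun y => ((k (x - y) : ℝ) : ℂ) :=
    hs.comp_left (g := fun t : ℝ => (t : ℂ)) Complex.ofReal_zero
  exact (hc.mul hG).integrable_of_hasCompactSupport hs'.mul_right

theorem UNI2_int' {k : ℝ → ℝ} (hk : Test k) (x : ℝ) : Integrable fun y => k (x - y) :=
  (hk.1.continuous.integrable_of_hasCompactSupport hk.2).comp_sub_left x

theorem UNI2_const {k : ℝ → ℝ} (h1 : ∫ x, k x = 1) (x : ℝ) (c : ℂ) :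
    ∫ y, ((k (x - y) : ℝ) : ℂ) * c = c := by
  rw [integral_mul_const, integral_complex_ofReal, integral_sub_left_eq_self k volume x, h1]
  simp

theorem UNI2_id {k : ℝ → ℝ} (hk : Test k) (h1 : ∫ x, k x = 1) {g : ℝ → ℂ} (hg : Continuous g)
    {N : ℂ → ℂ} (hN : Continuous N) (D : ℂ →L[ℝ] ℂ) (x : ℝ) :
    cv k (fun y => N (g y)) x - N (cv k g x) =
      ∫ y, ((k (x - y) : ℝ) : ℂ) * (N (g y) - N (cv k g x) - D (g y - cv k g x)) := by
  set f := cv k g x with hf
  have i1 := UNI2_int hk x (G := fun y => N (g y)) (hN.comp hg)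
  have i2 := UNI2_int hk x (G := fun _ => N f) continuous_const
  have i3 := UNI2_int hk x (G := fun y => D (g y - f))
    (D.continuous.comp (hg.sub continuous_const))
  have i4 := UNI2_int hk x (G := fun y => g y - f) (hg.sub continuous_const)
  have i5 := UNI2_int hk x hg
  have i6 := UNI2_int hk x (G := fun _ => f) continuous_const
  have e0 : ∫ y, ((k (x - y) : ℝ) : ℂ) * (g y - f) = 0 := by
    simp only [mul_sub]
    rw [integral_sub i5 i6, UNI2_const h1]
    exact sub_self _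
  have e1 : ∫ y, ((k (x - y) : ℝ) : ℂ) * D (g y - f) = 0 := by
    have : ∀ y, ((k (x - y) : ℝ) : ℂ) * D (g y - f) = D (((k (x - y) : ℝ) : ℂ) * (g y - f)) := by
      intro y
      rw [← Complex.real_smul, ← Complex.real_smul, map_smul]
    simp only [this]
    rw [D.integral_comp_comm i4, e0, map_zero]
  have e2 : ∀ y, ((k (x - y) : ℝ) : ℂ) * (N (g y) - N f - D (g y - f)) =
      (((k (x - y) : ℝ) : ℂ) * N (g y) - ((k (x - y) : ℝ) : ℂ) * N f) -
        ((k (x - y) : ℝ) : ℂ) * D (g y - f) := fun y => by ring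
  simp only [e2]
  have i7 : Integrable fun y => ((k (x - y) : ℝ) : ℂ) * N (g y) - ((k (x - y) : ℝ) : ℂ) * N f :=
    i1.sub i2
  rw [integral_sub i7 i3, integral_sub i1 i2, e1, UNI2_const h1, sub_zero]
  rfl

theorem UNI2 (h1 : St_MOL) (_h2 : St_CONV) (h3 : St_OSC) (h4 : St_SUP) (h5 : St_NL)
    (h6 : St_UNI1) : St_UNI2 := by
  intro α B hα
  obtain ⟨C1, -, hC1⟩ := h6.2 α B hα
  obtain ⟨hcont, -, -, hL, -⟩ := h5 α hα
  obtain ⟨L, hL0, hL⟩ := hL (max (√(4 * B)) C1)
  refine ⟨8 * L ^ 2 * B ^ 2, by positivity, fun g dg hg hB hB' r hr => ?_⟩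
  have hB0 : 0 ≤ B := (nsq_nonneg g).trans hB
  obtain ⟨hT, hpos, hone, hzero⟩ := h1.1 r hr
  obtain ⟨hgc, hgb⟩ := h4 g dg hg
  obtain ⟨ho1, ho2, ho3, ho4⟩ := h3 g dg r hg hr
  have hf : ∀ x, ‖cv (mol r) g x‖ ≤ max (√(4 * B)) C1 := fun x =>
    ((hC1 g dg hg hB hB' r hr).2.2.2.1 x).trans (le_max_right _ _)
  have hgy : ∀ y, ‖g y‖ ≤ max (√(4 * B)) C1 := fun y =>
    (Real.le_sqrt_of_sq_le (by linarith [hgb y])).trans (le_max_left _ _)
  have hpt : ∀ x, ‖cv (mol r) (fun y => NL α (g y)) x - NL α (cv (mol r) g x)‖ ≤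
      L * (2 * r * osc r dg x) := by
    intro x
    rw [UNI2_id hT hone hgc hcont (fderiv ℝ (NL α) (cv (mol r) g x)) x]
    have hb : ∀ y, ‖((mol r (x - y) : ℝ) : ℂ) * (NL α (g y) - NL α (cv (mol r) g x) -
        fderiv ℝ (NL α) (cv (mol r) g x) (g y - cv (mol r) g x))‖ ≤
        mol r (x - y) * (L * (2 * r * osc r dg x)) := by
      intro y
      rw [norm_mul, Complex.norm_real, Real.norm_of_nonneg (hpos _)]
      rcases le_or_gt r |x - y| with h | h
      · simp [hzero _ h]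
      · refine mul_le_mul_of_nonneg_left ?_ (hpos _)
        refine (hL _ _ (hgy y) (hf x)).2.2.trans (mul_le_mul_of_nonneg_left ?_ hL0)
        exact ho1 x y (by rw [abs_sub_comm]; exact h.le)
    refine (norm_integral_le_of_norm_le ((UNI2_int' hT x).mul_const _)
      (Eventually.of_forall hb)).trans (le_of_eq ?_)
    rw [integral_mul_const, integral_sub_left_eq_self (mol r) volume x, hone, one_mul]
  have hsq : ∀ x, ‖cv (mol r) (fun y => NL α (g y)) x - NL α (cv (mol r) g x)‖ ^ 2 ≤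
      4 * L ^ 2 * r ^ 2 * B * osc r dg x := by
    intro x
    have h0 := (ho4 x).1
    have h1 := (ho4 x).2.trans hB'
    calc _ ≤ (L * (2 * r * osc r dg x)) ^ 2 := pow_le_pow_left₀ (norm_nonneg _) (hpt x) 2
      _ = 4 * L ^ 2 * r ^ 2 * (osc r dg x * osc r dg x) := by ring
      _ ≤ 4 * L ^ 2 * r ^ 2 * (B * osc r dg x) :=
        mul_le_mul_of_nonneg_left (mul_le_mul_of_nonneg_right h1 h0) (by positivity)
      _ = _ := by ring
  calc nsq _ ≤ ∫ x, 4 * L ^ 2 * r ^ 2 * B * osc r dg x :=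
        integral_mono_of_nonneg (Eventually.of_forall fun x => by positivity) (ho2.const_mul _)
          (Eventually.of_forall hsq)
    _ = 4 * L ^ 2 * r ^ 2 * B * ∫ x, osc r dg x := integral_const_mul _ _
    _ ≤ 4 * L ^ 2 * r ^ 2 * B * (2 * r * B) := by
        refine mul_le_mul_of_nonneg_left (ho3.trans ?_) (by positivity)
        exact mul_le_mul_of_nonneg_left hB' (by positivity)
    _ = 8 * L ^ 2 * B ^ 2 * r ^ 3 := by ring

end Pool.Agent.Lib.MP_13801a_an
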