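import Mathlib
import Pool.Agent.Lib.MP_13801a_an.Sts

/-!
The first virial identity for smooth approximate solutions.
-/

open MeasureTheory Set Filter
open scoped ContDiff Topology ComplexConjugate

namespace Pool.Agent.Lib.MP_13801a_an

theorem VIR1_int {φ : ℝ → ℝ} {B : ℝ} (hφ : Continuous φ) (hB : ∀ x, |φ x| ≤ B) {g g' : ℝ → ℂ}
    (hg : MemLp g 2 volume) (hg' : MemLp g' 2 volume) :
    (Integrable fun x => φ x * (conj (g x) * g' x).im) ∧
      ∫ x, |φ x * (conj (g x) * g' x).im| ≤ B * (√(nsq g) * √(nsq g')) := by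
  have hB0 : 0 ≤ B := (abs_nonneg _).trans (hB 0)
  have hb : ∀ x, |φ x * (conj (g x) * g' x).im| ≤ B * (‖g x‖ * ‖g' x‖) := fun x => by
    rw [abs_mul]
    refine mul_le_mul (hB x) ((Complex.abs_im_le_norm _).trans ?_) (abs_nonneg _) hB0
    rw [norm_mul, Complex.norm_conj]
  have hi := (integrable_norm_mul hg hg').const_mul B
  have h1 : Integrable fun x => φ x * (conj (g x) * g' x).im :=
    hi.mono' (hφ.aestronglyMeasurable.mul (Complex.continuous_im.comp_aestronglyMeasurable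
      ((Complex.continuous_conj.comp_aestronglyMeasurable hg.1).mul hg'.1)))
      (Eventually.of_forall hb)
  refine ⟨h1, (integral_mono h1.abs hi hb).trans ?_⟩
  rw [integral_const_mul]
  exact mul_le_mul_of_nonneg_left (integral_norm_mul_le hg hg') hB0

theorem VIR1_ibp {ψ χ : ℝ → ℝ} {B : ℝ} (hψ : ∀ x, HasDerivAt ψ (χ x) x) (hχ : Continuous χ)
    (hB : ∀ x, |ψ x| ≤ B ∧ |χ x| ≤ B) {p0 p1 p2 : ℝ → ℂ} (h : Sm2 p0 p1 p2) :
    ∫ x, ψ x * (conj (p0 x) * p2 x).im = -∫ x, χ x * (conj (p0 x) * p1 x).im := by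
  have hc : Continuous ψ := continuous_iff_continuousAt.2 fun x => (hψ x).continuousAt
  refine integral_mul_deriv_eq_deriv_mul_of_integrable (u := ψ) (u' := χ)
    (v := fun x => (conj (p0 x) * p1 x).im) (v' := fun x => (conj (p0 x) * p2 x).im)
    (fun x _ => hψ x) (fun x _ => ?_) (VIR1_int hc (fun x => (hB x).1) h.m0 h.m2).1
    (VIR1_int hχ (fun x => (hB x).2) h.m0 h.m1).1 (VIR1_int hc (fun x => (hB x).1) h.m0 h.m1).1
  have h1 := Complex.imCLM.hasFDerivAt.comp_hasDerivAt x ((h.d0 x).star.mul (h.d1 x))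
  refine HasDerivAt.congr_deriv h1 ?_
  simp
  ring

theorem VIR1 (h1 : St_FUB) (h2 : St_NL) : St_VIR1 := by
  intro α κ f n hα hA ψ χ B hψ hχ hB s t hs hst
  obtain ⟨-, -, hre, -, -, hm⟩ := h2 α hα
  have hc : Continuous ψ := continuous_iff_continuousAt.2 fun x => (hψ x).continuousAt
  have hB1 : ∀ x, |ψ x| ≤ B := fun x => (hB x).1
  have hB0 : 0 ≤ B := (abs_nonneg _).trans (hB1 0)
  obtain ⟨C0, hC0⟩ := hA.bd 0 t
  obtain ⟨C2, hC2⟩ := hA.bd 2 t
  have c0 := hA.cf 0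
  have c2 := hA.cf 2
  have cn := hA.cn 0
  have key := h1 (fun σ x => ψ x * ‖f 0 σ x‖ ^ 2)
    (fun σ x => -2 * (ψ x * (conj (f 0 σ x) * f 2 σ x).im) -
      2 * Real.exp (κ * σ) * (ψ x * (conj (f 0 σ x) * n 0 σ x).im)) s t
    (2 * (B * (√C0 * √C2)) + 2 * Real.exp (|κ| * t) * (B * (√C0 * √C0))) hst
    (by fun_prop) (by fun_prop) (fun σ hσ x => ?_) (fun σ => ?_) (fun σ hσ => ?_)
  · refine ⟨_, key.1, key.2, fun σ _ => ?_⟩
    obtain ⟨C, hC⟩ := hA.bd 0 |σ|
    have mNL := (hm _ C (hA.mf 0 σ) (hC σ le_rfl).2.2).1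
    have mcom : MemLp (com α f n σ) 2 volume := (hA.mn 0 σ).sub mNL
    have i2 := VIR1_int hc hB1 (hA.mf 0 σ) (hA.mf 2 σ)
    have i3 := VIR1_int hc hB1 (hA.mf 0 σ) mcom
    have e : ∀ x, (conj (f 0 σ x) * n 0 σ x).im = (conj (f 0 σ x) * com α f n σ x).im := by
      intro x
      rw [com, mul_sub, hre, Complex.sub_im, Complex.ofReal_im, sub_zero]
    simp only [e]
    rw [integral_sub (i2.1.const_mul _) (i3.1.const_mul _), integral_const_mul,
      integral_const_mul, VIR1_ibp hψ hχ hB (hA.sm2 σ), mom]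
    have h3 : |∫ x, ψ x * (conj (f 0 σ x) * com α f n σ x).im| ≤
        B * (√(nsq (f 0 σ)) * √(nsq (com α f n σ))) := abs_integral_le_integral_abs.trans i3.2
    have h4 := Real.exp_pos (κ * σ)
    calc _ = 2 * Real.exp (κ * σ) * |∫ x, ψ x * (conj (f 0 σ x) * com α f n σ x).im| := by
          rw [← abs_of_pos (show 0 < 2 * Real.exp (κ * σ) by positivity), ← abs_mul, ← abs_neg,
            abs_of_pos (show 0 < 2 * Real.exp (κ * σ) by positivity)]
          congr 1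
          ring
      _ ≤ 2 * Real.exp (κ * σ) * (B * (√(nsq (f 0 σ)) * √(nsq (com α f n σ)))) := by gcongr
      _ = _ := by ring
  · have h3 := ((hA.dt 0 σ x (hs.trans_lt hσ.1)).norm_sq).const_mul (ψ x)
    refine HasDerivAt.congr_deriv h3 ?_
    rw [Complex.inner]
    simp only [Complex.mul_re, Complex.mul_im, Complex.add_re, Complex.add_im, Complex.I_re,
      Complex.I_im, Complex.conj_re, Complex.conj_im, Complex.ofReal_re, Complex.ofReal_im,
      zero_add]
    ring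
  · exact (integrable_nsq (hA.mf 0 σ)).bdd_mul hc.aestronglyMeasurable
      (Eventually.of_forall hB1)
  · have hσ' : |σ| ≤ t := by rw [abs_of_nonneg (hs.trans hσ.1)]; exact hσ.2
    have i2 := VIR1_int hc hB1 (hA.mf 0 σ) (hA.mf 2 σ)
    have i3 := VIR1_int hc hB1 (hA.mf 0 σ) (hA.mn 0 σ)
    have hi := (i2.1.const_mul (-2)).sub (i3.1.const_mul (2 * Real.exp (κ * σ)))
    refine ⟨hi, ?_⟩
    have h4 := Real.exp_pos (κ * σ)
    have h5 : Real.exp (κ * σ) ≤ Real.exp (|κ| * t) := Real.exp_le_exp.2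
      ((le_abs_self _).trans (by rw [abs_mul]; gcongr))
    have a0 := Real.sqrt_le_sqrt (hC0 σ hσ').1
    have a1 := Real.sqrt_le_sqrt (hC0 σ hσ').2.1
    have a2 := Real.sqrt_le_sqrt (hC2 σ hσ').1
    calc _ ≤ ∫ x, (2 * |ψ x * (conj (f 0 σ x) * f 2 σ x).im| +
          2 * Real.exp (κ * σ) * |ψ x * (conj (f 0 σ x) * n 0 σ x).im|) := by
          refine integral_mono hi.abs ((i2.1.abs.const_mul _).add (i3.1.abs.const_mul _))
            fun x => (abs_sub _ _).trans (le_of_eq ?_)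
          simp only [abs_mul, abs_neg, abs_two, abs_of_pos h4]
      _ = 2 * (∫ x, |ψ x * (conj (f 0 σ x) * f 2 σ x).im|) +
          2 * Real.exp (κ * σ) * ∫ x, |ψ x * (conj (f 0 σ x) * n 0 σ x).im| := by
          rw [integral_add (i2.1.abs.const_mul _) (i3.1.abs.const_mul _), integral_const_mul,
            integral_const_mul]
      _ ≤ 2 * (B * (√(nsq (f 0 σ)) * √(nsq (f 2 σ)))) +
          2 * Real.exp (κ * σ) * (B * (√(nsq (f 0 σ)) * √(nsq (n 0 σ)))) := by
          gcongr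
          exacts [i2.2, i3.2]
      _ ≤ _ := by gcongr

end Pool.Agent.Lib.MP_13801a_an
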