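import Mathlib
import Pool.Agent.Lib.MP_13801a_an.Sts

/-!
The second virial identity for smooth approximate solutions.
-/

open MeasureTheory Set Filter
open scoped ContDiff Topology ComplexConjugate

namespace Pool.Agent.Lib.MP_13801a_an

theorem VIR2_int {φ : ℝ → ℝ} {B : ℝ} (hφ : Continuous φ) (hB : ∀ x, |φ x| ≤ B) {g g' : ℝ → ℂ}
    (hg : MemLp g 2 volume) (hg' : MemLp g' 2 volume) :
    (Integrable fun x => φ x * (conj (g x) * g' x).re) ∧
      ∫ x, |φ x * (conj (g x) * g' x).re| ≤ B * (√(nsq g) * √(nsq g')) := by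
  have hB0 : 0 ≤ B := (abs_nonneg _).trans (hB 0)
  have hb : ∀ x, |φ x * (conj (g x) * g' x).re| ≤ B * (‖g x‖ * ‖g' x‖) := fun x => by
    rw [abs_mul]
    refine mul_le_mul (hB x) ((Complex.abs_re_le_norm _).trans ?_) (abs_nonneg _) hB0
    rw [norm_mul, Complex.norm_conj]
  have hi := (integrable_norm_mul hg hg').const_mul B
  have h1 : Integrable fun x => φ x * (conj (g x) * g' x).re :=
    hi.mono' (hφ.aestronglyMeasurable.mul (Complex.continuous_re.comp_aestronglyMeasurable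
      ((Complex.continuous_conj.comp_aestronglyMeasurable hg.1).mul hg'.1)))
      (Eventually.of_forall hb)
  refine ⟨h1, (integral_mono h1.abs hi hb).trans ?_⟩
  rw [integral_const_mul]
  exact mul_le_mul_of_nonneg_left (integral_norm_mul_le hg hg') hB0

theorem VIR2_intim {φ : ℝ → ℝ} {B : ℝ} (hφ : Continuous φ) (hB : ∀ x, |φ x| ≤ B)
    {g g' : ℝ → ℂ} (hg : MemLp g 2 volume) (hg' : MemLp g' 2 volume) :
    Integrable fun x => φ x * (conj (g x) * g' x).im := by
  have hB0 : 0 ≤ B := (abs_nonneg _).trans (hB 0)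
  have hb : ∀ x, |φ x * (conj (g x) * g' x).im| ≤ B * (‖g x‖ * ‖g' x‖) := fun x => by
    rw [abs_mul]
    refine mul_le_mul (hB x) ((Complex.abs_im_le_norm _).trans ?_) (abs_nonneg _) hB0
    rw [norm_mul, Complex.norm_conj]
  exact ((integrable_norm_mul hg hg').const_mul B).mono'
    (hφ.aestronglyMeasurable.mul (Complex.continuous_im.comp_aestronglyMeasurable
      ((Complex.continuous_conj.comp_aestronglyMeasurable hg.1).mul hg'.1)))
    (Eventually.of_forall hb)

theorem VIR2_ibp {χ h : ℝ → ℝ} {B : ℝ} (hχ : ∀ x, HasDerivAt χ (h x) x) (hh : Continuous h)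
    (hB : ∀ x, |χ x| ≤ B ∧ |h x| ≤ B) {p p' q q' : ℝ → ℂ} (dp : ∀ x, HasDerivAt p (p' x) x)
    (dq : ∀ x, HasDerivAt q (q' x) x) (mp : MemLp p 2 volume) (mp' : MemLp p' 2 volume)
    (mq : MemLp q 2 volume) (mq' : MemLp q' 2 volume) :
    (∫ x, χ x * (conj (p' x) * q x).re) + ∫ x, χ x * (conj (p x) * q' x).re =
      -∫ x, h x * (conj (p x) * q x).re := by
  have hc : Continuous χ := continuous_iff_continuousAt.2 fun x => (hχ x).continuousAt
  have i1 := (VIR2_int hc (fun x => (hB x).1) mp' mq).1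
  have i2 := (VIR2_int hc (fun x => (hB x).1) mp mq').1
  rw [← integral_add i1 i2]
  simp only [← mul_add]
  refine integral_mul_deriv_eq_deriv_mul_of_integrable (u := χ) (u' := h)
    (v := fun x => (conj (p x) * q x).re)
    (v' := fun x => (conj (p' x) * q x).re + (conj (p x) * q' x).re)
    (fun x _ => hχ x) (fun x _ => ?_) ?_
    (VIR2_int hh (fun x => (hB x).2) mp mq).1 (VIR2_int hc (fun x => (hB x).1) mp mq).1
  · have h1 := Complex.reCLM.hasFDerivAt.comp_hasDerivAt x ((dp x).star.mul (dq x))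
    refine HasDerivAt.congr_deriv h1 ?_
    simp
  · refine (i1.add i2).congr (Eventually.of_forall fun x => ?_)
    simp only [Pi.add_apply, Pi.mul_apply, mul_add]

theorem VIR2_sub4 {a b c d : ℝ → ℝ} (ha : Integrable a) (hb : Integrable b) (hc : Integrable c)
    (hd : Integrable d) (l : ℝ) : ∫ x, (a x - b x + (l * c x - l * d x)) =
      (∫ x, a x) - (∫ x, b x) + (l * (∫ x, c x) - l * ∫ x, d x) := by
  have h1 : Integrable fun x => a x - b x := ha.sub hb
  have h2 : Integrable fun x => l * c x - l * d x := (hc.const_mul l).sub (hd.const_mul l)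
  rw [integral_add h1 h2, integral_sub ha hb, integral_sub (hc.const_mul l) (hd.const_mul l),
    integral_const_mul, integral_const_mul]

theorem VIR2_add4 {a b c d : ℝ → ℝ} (ha : Integrable a) (hb : Integrable b) (hc : Integrable c)
    (hd : Integrable d) (l : ℝ) : ∫ x, (a x + b x + (l * c x + l * d x)) =
      (∫ x, a x) + (∫ x, b x) + (l * (∫ x, c x) + l * ∫ x, d x) := by
  have h1 : Integrable fun x => a x + b x := ha.add hb
  have h2 : Integrable fun x => l * c x + l * d x := (hc.const_mul l).add (hd.const_mul l)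
  rw [integral_add h1 h2, integral_add ha hb, integral_add (hc.const_mul l) (hd.const_mul l),
    integral_const_mul, integral_const_mul]

theorem VIR2_symm (z w : ℂ) : (conj z * w).re = (conj w * z).re := by
  simp only [Complex.mul_re, Complex.conj_re, Complex.conj_im]
  ring

theorem VIR2_self (z : ℂ) : (conj z * z).re = ‖z‖ ^ 2 := by
  rw [Complex.sq_norm, Complex.normSq_apply]
  simp only [Complex.mul_re, Complex.conj_re, Complex.conj_im]
  ring

theorem VIR2 (h1 : St_FUB) (h2 : St_NL) : St_VIR2 := by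
  intro α κ f n hα hA χ h B hχ hh hB s t hs hst
  obtain ⟨-, -, hre, -, hder, hm⟩ := h2 α hα
  have hc : Continuous χ := continuous_iff_continuousAt.2 fun x => (hχ x).continuousAt
  have hB1 : ∀ x, |χ x| ≤ B := fun x => (hB x).1
  have hB2 : ∀ x, |h x| ≤ B := fun x => (hB x).2
  have hB0 : 0 ≤ B := (abs_nonneg _).trans (hB1 0)
  obtain ⟨C0, hC0⟩ := hA.bd 0 t
  obtain ⟨C1, hC1⟩ := hA.bd 1 t
  obtain ⟨C2, hC2⟩ := hA.bd 2 t
  obtain ⟨C3, hC3⟩ := hA.bd 3 t
  have c0 := hA.cf 0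
  have c1 := hA.cf 1
  have c2 := hA.cf 2
  have c3 := hA.cf 3
  have cn0 := hA.cn 0
  have cn1 := hA.cn 1
  have key := h1 (fun σ x => χ x * (conj (f 0 σ x) * f 1 σ x).im)
    (fun σ x => χ x * (conj (f 0 σ x) * f 3 σ x).re - χ x * (conj (f 1 σ x) * f 2 σ x).re +
      (Real.exp (κ * σ) * (χ x * (conj (f 0 σ x) * n 1 σ x).re) -
        Real.exp (κ * σ) * (χ x * (conj (f 1 σ x) * n 0 σ x).re))) s t
    (B * (√C0 * √C3) + B * (√C1 * √C2) + (Real.exp (|κ| * t) * (B * (√C0 * √C1)) +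
      Real.exp (|κ| * t) * (B * (√C1 * √C0)))) hst
    (by fun_prop) (by fun_prop) (fun σ hσ x => ?_) (fun σ => ?_) (fun σ hσ => ?_)
  · refine ⟨_, key.1.const_mul 2, ?_, fun σ _ => ?_⟩
    · rw [intervalIntegral.integral_const_mul, ← key.2]
      simp only [mom]
      ring
    obtain ⟨C, hC⟩ := hA.bd 0 |σ|
    have mNL := hm _ C (hA.mf 0 σ) (hC σ le_rfl).2.2
    have mcom : MemLp (com α f n σ) 2 volume := (hA.mn 0 σ).sub mNL.1
    have i03 := (VIR2_int hc hB1 (hA.mf 0 σ) (hA.mf 3 σ)).1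
    have i12 := (VIR2_int hc hB1 (hA.mf 1 σ) (hA.mf 2 σ)).1
    have j01 := (VIR2_int hc hB1 (hA.mf 0 σ) (hA.mn 1 σ)).1
    have j10 := (VIR2_int hc hB1 (hA.mf 1 σ) (hA.mn 0 σ)).1
    have k0 := VIR2_int hh hB2 (hA.mf 0 σ) mcom
    have k1 := VIR2_int hc hB1 (hA.mf 1 σ) mcom
    have k02 := (VIR2_int hh hB2 (hA.mf 0 σ) (hA.mf 2 σ)).1
    have kN := (VIR2_int hc hB1 mNL.1 (hA.mf 1 σ)).1
    have iK : Integrable fun x => h x * ‖f 1 σ x‖ ^ 2 :=
      (integrable_nsq (hA.mf 1 σ)).bdd_mul hh.aestronglyMeasurable (Eventually.of_forall hB2)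
    have iP : Integrable fun x => h x * ‖f 0 σ x‖ ^ (α + 2) :=
      mNL.2.bdd_mul hh.aestronglyMeasurable (Eventually.of_forall hB2)
    have iP' : Integrable fun x => χ x * ‖f 0 σ x‖ ^ (α + 2) :=
      mNL.2.bdd_mul hc.aestronglyMeasurable (Eventually.of_forall hB1)
    have e1 := VIR2_ibp hχ hh hB (hA.dxf 0 σ) (hA.dxf 2 σ) (hA.mf 0 σ) (hA.mf 1 σ) (hA.mf 2 σ)
      (hA.mf 3 σ)
    have e2 := VIR2_ibp hχ hh hB (hA.dxf 1 σ) (hA.dxf 1 σ) (hA.mf 1 σ) (hA.mf 2 σ) (hA.mf 1 σ)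
      (hA.mf 2 σ)
    have e3 := VIR2_ibp hχ hh hB (hA.dxf 0 σ) (hA.dxn 0 σ) (hA.mf 0 σ) (hA.mf 1 σ) (hA.mn 0 σ)
      (hA.mn 1 σ)
    have e4 : ∫ x, χ x * ((α + 2) * (conj (NL α (f 0 σ x)) * f 1 σ x).re) =
        -∫ x, h x * ‖f 0 σ x‖ ^ (α + 2) := by
      refine integral_mul_deriv_eq_deriv_mul_of_integrable (u := χ) (u' := h)
        (v := fun x => ‖f 0 σ x‖ ^ (α + 2))
        (v' := fun x => (α + 2) * (conj (NL α (f 0 σ x)) * f 1 σ x).re)
        (fun x _ => hχ x) (fun x _ => hder _ _ x (hA.dxf 0 σ x)) ?_ iP iP'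
      refine (kN.const_mul (α + 2)).congr (Eventually.of_forall fun x => ?_)
      simp only [Pi.mul_apply]
      ring
    have e4' : (α + 2) * ∫ x, χ x * (conj (NL α (f 0 σ x)) * f 1 σ x).re =
        -∫ x, h x * ‖f 0 σ x‖ ^ (α + 2) := by
      rw [← e4, ← integral_const_mul]
      congr 1
      funext x
      ring
    have e5 : ∫ x, h x * (conj (f 0 σ x) * n 0 σ x).re =
        (∫ x, h x * ‖f 0 σ x‖ ^ (α + 2)) + ∫ x, h x * (conj (f 0 σ x) * com α f n σ x).re := by
      rw [← integral_add iP k0.1]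
      congr 1
      funext x
      rw [com, mul_sub, hre, Complex.sub_re, Complex.ofReal_re]
      ring
    have e6 : ∫ x, χ x * (conj (f 1 σ x) * n 0 σ x).re =
        (∫ x, χ x * (conj (NL α (f 0 σ x)) * f 1 σ x).re) +
          ∫ x, χ x * (conj (f 1 σ x) * com α f n σ x).re := by
      rw [← integral_add kN k1.1]
      congr 1
      funext x
      rw [com, mul_sub, Complex.sub_re, VIR2_symm (NL α (f 0 σ x))]
      ring
    have e7 : ∫ x, h x * rho2 (f 0 σ) (f 1 σ) (f 2 σ) x =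
        2 * (∫ x, h x * ‖f 1 σ x‖ ^ 2) + 2 * ∫ x, h x * (conj (f 0 σ x) * f 2 σ x).re := by
      rw [← integral_const_mul, ← integral_const_mul,
        ← integral_add (iK.const_mul 2) (k02.const_mul 2)]
      congr 1
      funext x
      rw [rho2]
      ring
    simp only [zero_add, Nat.reduceAdd] at e1 e2 e3
    simp only [VIR2_self, VIR2_symm (f 2 σ _) (f 1 σ _)] at e2
    have hα2 : α + 2 ≠ 0 := by linarith
    have e8 : ∫ x, χ x * (conj (NL α (f 0 σ x)) * f 1 σ x).re =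
        -(∫ x, h x * ‖f 0 σ x‖ ^ (α + 2)) / (α + 2) := by
      rw [← e4']
      field_simp
    rw [VIR2_sub4 i03 i12 j01 j10]
    simp only [vir]
    rw [e7]
    have h3 : |∫ x, h x * (conj (f 0 σ x) * com α f n σ x).re| ≤
        B * (√(nsq (f 0 σ)) * √(nsq (com α f n σ))) := abs_integral_le_integral_abs.trans k0.2
    have h3' : |∫ x, χ x * (conj (f 1 σ x) * com α f n σ x).re| ≤
        B * (√(nsq (f 1 σ)) * √(nsq (com α f n σ))) := abs_integral_le_integral_abs.trans k1.2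
    have h4 := Real.exp_pos (κ * σ)
    have e9 : 2 * α / (α + 2) = 2 - 4 / (α + 2) := by
      field_simp
      ring
    calc _ = |Real.exp (κ * σ) * (-(2 * ∫ x, h x * (conj (f 0 σ x) * com α f n σ x).re) -
          4 * ∫ x, χ x * (conj (f 1 σ x) * com α f n σ x).re)| := by
          congr 1
          rw [e9]
          linear_combination 2 * e1 - 2 * e2 + 2 * Real.exp (κ * σ) * e3 -
            2 * Real.exp (κ * σ) * e5 - 4 * Real.exp (κ * σ) * e6 - 4 * Real.exp (κ * σ) * e8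
      _ ≤ Real.exp (κ * σ) * (2 * |∫ x, h x * (conj (f 0 σ x) * com α f n σ x).re| +
          4 * |∫ x, χ x * (conj (f 1 σ x) * com α f n σ x).re|) := by
          rw [abs_mul, abs_of_pos h4]
          gcongr
          refine (abs_sub _ _).trans (le_of_eq ?_)
          rw [abs_neg, abs_mul, abs_mul, abs_two, abs_of_pos (by norm_num : (0 : ℝ) < 4)]
      _ ≤ Real.exp (κ * σ) * (2 * (B * (√(nsq (f 0 σ)) * √(nsq (com α f n σ)))) +
          4 * (B * (√(nsq (f 1 σ)) * √(nsq (com α f n σ))))) := by gcongr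
      _ = _ := by ring
  · have hσ0 := hs.trans_lt hσ.1
    have h3 := (Complex.imCLM.hasFDerivAt.comp_hasDerivAt σ
      ((hA.dt 0 σ x hσ0).star.mul (hA.dt 1 σ x hσ0))).const_mul (χ x)
    refine HasDerivAt.congr_deriv h3 ?_
    simp only [Complex.imCLM_apply, Complex.star_def, Complex.mul_re, Complex.mul_im,
      Complex.add_re, Complex.add_im, Complex.I_re, Complex.I_im, Complex.conj_re,
      Complex.conj_im, Complex.ofReal_re, Complex.ofReal_im, zero_add, Nat.reduceAdd]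
    ring
  · exact VIR2_intim hc hB1 (hA.mf 0 σ) (hA.mf 1 σ)
  · have hσ' : |σ| ≤ t := by rw [abs_of_nonneg (hs.trans hσ.1)]; exact hσ.2
    have i1 := VIR2_int hc hB1 (hA.mf 0 σ) (hA.mf 3 σ)
    have i2 := VIR2_int hc hB1 (hA.mf 1 σ) (hA.mf 2 σ)
    have i3 := VIR2_int hc hB1 (hA.mf 0 σ) (hA.mn 1 σ)
    have i4 := VIR2_int hc hB1 (hA.mf 1 σ) (hA.mn 0 σ)
    have hi := (i1.1.sub i2.1).add ((i3.1.const_mul (Real.exp (κ * σ))).sub
      (i4.1.const_mul (Real.exp (κ * σ))))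
    refine ⟨hi, ?_⟩
    have h4 := Real.exp_pos (κ * σ)
    have h5 : Real.exp (κ * σ) ≤ Real.exp (|κ| * t) := Real.exp_le_exp.2
      ((le_abs_self _).trans (by rw [abs_mul]; gcongr))
    have a0 := Real.sqrt_le_sqrt (hC0 σ hσ').1
    have a1 := Real.sqrt_le_sqrt (hC1 σ hσ').1
    have a2 := Real.sqrt_le_sqrt (hC2 σ hσ').1
    have a3 := Real.sqrt_le_sqrt (hC3 σ hσ').1
    have b0 := Real.sqrt_le_sqrt (hC0 σ hσ').2.1
    have b1 := Real.sqrt_le_sqrt (hC1 σ hσ').2.1
    calc _ ≤ ∫ x, (|χ x * (conj (f 0 σ x) * f 3 σ x).re| + |χ x * (conj (f 1 σ x) * f 2 σ x).re| +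
          (Real.exp (κ * σ) * |χ x * (conj (f 0 σ x) * n 1 σ x).re| +
            Real.exp (κ * σ) * |χ x * (conj (f 1 σ x) * n 0 σ x).re|)) := by
          refine integral_mono hi.abs ((i1.1.abs.add i2.1.abs).add
            ((i3.1.abs.const_mul _).add (i4.1.abs.const_mul _))) fun x => ?_
          refine (abs_add_le _ _).trans (add_le_add (abs_sub _ _) ((abs_sub _ _).trans ?_))
          rw [abs_mul (Real.exp _), abs_mul (Real.exp _), abs_of_pos h4]
      _ = (∫ x, |χ x * (conj (f 0 σ x) * f 3 σ x).re|) +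
          (∫ x, |χ x * (conj (f 1 σ x) * f 2 σ x).re|) +
          (Real.exp (κ * σ) * (∫ x, |χ x * (conj (f 0 σ x) * n 1 σ x).re|) +
            Real.exp (κ * σ) * ∫ x, |χ x * (conj (f 1 σ x) * n 0 σ x).re|) := by
          exact VIR2_add4 i1.1.abs i2.1.abs i3.1.abs i4.1.abs _
      _ ≤ B * (√(nsq (f 0 σ)) * √(nsq (f 3 σ))) + B * (√(nsq (f 1 σ)) * √(nsq (f 2 σ))) +
          (Real.exp (κ * σ) * (B * (√(nsq (f 0 σ)) * √(nsq (n 1 σ)))) +
            Real.exp (κ * σ) * (B * (√(nsq (f 1 σ)) * √(nsq (n 0 σ))))) := by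
          gcongr
          exacts [i1.2, i2.2, i3.2, i4.2]
      _ ≤ _ := by gcongr

end Pool.Agent.Lib.MP_13801a_an
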