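import Mathlib
import Pool.Agent.Lib.MP_13801a_an.Sts

/-!
Weights in the level with arbitrarily large total mass.
-/

open MeasureTheory Set Filter
open scoped Topology

namespace Pool.Agent.Lib.MP_13801a_an

theorem WGT_sq (t : ℝ) : HasDerivAt (fun t : ℝ => max t 0 ^ 2) (2 * max t 0) t := by
  rcases lt_trichotomy t 0 with h | rfl | h
  · rw [max_eq_right h.le, mul_zero]
    refine (hasDerivAt_const t (0 : ℝ)).congr_of_eventuallyEq ?_
    filter_upwards [gt_mem_nhds h] with s hs
    rw [max_eq_right hs.le, zero_pow two_ne_zero]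
  · rw [max_self, mul_zero, hasDerivAt_iff_isLittleO]
    refine (Asymptotics.IsBigO.of_bound 1 (Eventually.of_forall fun s => ?_)).trans_isLittleO
      ((Asymptotics.isLittleO_pow_id (𝕜 := ℝ) (n := 2) one_lt_two).congr_right
        fun s => (sub_zero s).symm)
    rw [max_self, zero_pow two_ne_zero, smul_zero, sub_zero, sub_zero, one_mul, norm_pow, norm_pow]
    refine pow_le_pow_left₀ (norm_nonneg _) ?_ _
    rw [Real.norm_eq_abs, Real.norm_eq_abs, abs_of_nonneg (le_max_right _ _)]
    exact max_le (le_abs_self s) (abs_nonneg s)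
  · rw [max_eq_left h.le]
    have := hasDerivAt_pow 2 t
    simp only [Nat.cast_ofNat, Nat.add_one_sub_one, pow_one] at this
    refine this.congr_of_eventuallyEq ?_
    filter_upwards [lt_mem_nhds h] with s hs
    rw [max_eq_left hs.le]

/-- The weight. -/
noncomputable def WGT_w (a b x : ℝ) : ℝ := max (x - a) 0 ^ 2 * max (b - x) 0 ^ 2 / (b ^ 2 * x ^ 3)

/-- The derivative of the weight. -/
noncomputable def WGT_d (a b x : ℝ) : ℝ :=
  (2 * max (x - a) 0 * max (b - x) 0 ^ 2 * x - 2 * max (x - a) 0 ^ 2 * max (b - x) 0 * x -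
    3 * max (x - a) 0 ^ 2 * max (b - x) 0 ^ 2) / (b ^ 2 * x ^ 4)

theorem WGT_zero {a b x : ℝ} (h : x ≤ a ∨ b ≤ x) : WGT_w a b x = 0 ∧ WGT_d a b x = 0 := by
  rcases h with h | h
  · have : max (x - a) 0 = 0 := max_eq_right (by linarith)
    simp [WGT_w, WGT_d, this]
  · have : max (b - x) 0 = 0 := max_eq_right (by linarith)
    simp [WGT_w, WGT_d, this]

theorem WGT_der {a b : ℝ} (ha : 0 < a) (hb : 0 < b) (x : ℝ) :
    HasDerivAt (WGT_w a b) (WGT_d a b x) x := by
  by_cases hx : x < a
  · rw [(WGT_zero (Or.inl hx.le)).2]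
    refine (hasDerivAt_const x (0 : ℝ)).congr_of_eventuallyEq ?_
    filter_upwards [gt_mem_nhds hx] with s hs
    exact (WGT_zero (Or.inl hs.le)).1
  · have hx0 : 0 < x := ha.trans_le (not_lt.1 hx)
    have h1 := (WGT_sq (x - a)).comp x ((hasDerivAt_id' x).sub_const a)
    have h2 := (WGT_sq (b - x)).comp x ((hasDerivAt_id' x).const_sub b)
    have h3 := (hasDerivAt_pow 3 x).const_mul (b ^ 2)
    have h4 := (h1.mul h2).div h3 (by positivity)
    refine HasDerivAt.congr_deriv (f := WGT_w a b) h4 ?_
    simp only [WGT_d, Function.comp_apply, Pi.mul_apply]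
    field_simp
    push_cast
    ring

theorem WGT_cont {a b : ℝ} (ha : 0 < a) (hb : 0 < b) : Continuous (WGT_d a b) := by
  rw [continuous_iff_continuousAt]
  intro x
  by_cases hx : x < a
  · refine (continuousAt_const (y := (0 : ℝ))).congr ?_
    filter_upwards [gt_mem_nhds hx] with s hs
    exact (WGT_zero (Or.inl hs.le)).2.symm
  · have hx0 : 0 < x := ha.trans_le (not_lt.1 hx)
    unfold WGT_d
    exact ContinuousAt.div (by fun_prop) (by fun_prop) (by positivity)

theorem WGT_form {a b x : ℝ} (ha : 0 < a) (h1 : a < x) (h2 : x < b) :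
    x * WGT_w a b x = ((x - a) / x) ^ 2 * ((b - x) / b) ^ 2 ∧
    x ^ 2 * WGT_d a b x = 2 * ((x - a) / x) * ((b - x) / b) ^ 2 -
      ((x - a) / x) ^ 2 * (2 * ((b - x) / b) + ((b - x) / b) ^ 2) := by
  have hx : 0 < x := ha.trans h1
  have hb : 0 < b := hx.trans h2
  rw [WGT_w, WGT_d, max_eq_left (by linarith : 0 ≤ x - a), max_eq_left (by linarith : 0 ≤ b - x)]
  constructor
  · field_simp
  · field_simp
    ring

theorem WGT_wt {a b : ℝ} (ha : 0 < a) (hab : a < b) :
    Wt a b (∫ x in a..b, WGT_w a b x) (WGT_w a b) (WGT_d a b) where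
  pos := ha
  lt := hab
  der := WGT_der ha (ha.trans hab)
  cont := WGT_cont ha (ha.trans hab)
  zero := fun _ h => WGT_zero h
  nonneg := fun x => by
    by_cases hx : x ≤ a
    · exact (WGT_zero (Or.inl hx)).1.ge
    · have hx0 : 0 < x := ha.trans (not_le.1 hx)
      unfold WGT_w
      positivity
  le := fun x => by
    by_cases h : x ≤ a ∨ b ≤ x
    · rw [(WGT_zero h).1]; simp
    · rw [not_or, not_le, not_le] at h
      have hx : 0 < x := ha.trans h.1
      have hb : 0 < b := hx.trans h.2
      rw [(WGT_form ha h.1 h.2).1]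
      have hA0 : 0 ≤ (x - a) / x := div_nonneg (by linarith [h.1]) hx.le
      have hA1 : (x - a) / x ≤ 1 := by rw [div_le_one hx]; linarith
      have hB0 : 0 ≤ (b - x) / b := div_nonneg (by linarith [h.2]) hb.le
      have hB1 : (b - x) / b ≤ 1 := by rw [div_le_one hb]; linarith
      exact mul_le_one₀ (pow_le_one₀ hA0 hA1) (by positivity) (pow_le_one₀ hB0 hB1)
  le' := fun x => by
    by_cases h : x ≤ a ∨ b ≤ x
    · rw [(WGT_zero h).2]; simp
    · rw [not_or, not_le, not_le] at h
      have hx : 0 < x := ha.trans h.1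
      have hb : 0 < b := hx.trans h.2
      rw [← abs_of_nonneg (sq_nonneg x), ← abs_mul, (WGT_form ha h.1 h.2).2]
      have hA0 : 0 ≤ (x - a) / x := div_nonneg (by linarith [h.1]) hx.le
      have hA1 : (x - a) / x ≤ 1 := by rw [div_le_one hx]; linarith
      have hB0 : 0 ≤ (b - x) / b := div_nonneg (by linarith [h.2]) hb.le
      have hB1 : (b - x) / b ≤ 1 := by rw [div_le_one hb]; linarith
      generalize (x - a) / x = A at hA0 hA1
      generalize (b - x) / b = B at hB0 hB1
      have e1 : B ^ 2 ≤ 1 := pow_le_one₀ hB0 hB1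
      have e2 : A ^ 2 ≤ 1 := pow_le_one₀ hA0 hA1
      have e3 : 0 ≤ A * B ^ 2 := by positivity
      have e4 : A * B ^ 2 ≤ 1 := mul_le_one₀ hA1 (by positivity) e1
      have e5 : 0 ≤ A ^ 2 * (2 * B + B ^ 2) := by positivity
      have e6 : A ^ 2 * (2 * B + B ^ 2) ≤ 1 * 3 :=
        mul_le_mul e2 (by linarith) (by positivity) zero_le_one
      rw [abs_le]
      constructor <;> linarith
  tot := rfl

theorem WGT : St_WGT := by
  intro b S0 hb
  have hm : 0 ≤ max S0 0 := le_max_right _ _
  have he : 1 ≤ Real.exp (16 * max S0 0) := Real.one_le_exp (by positivity)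
  set e := Real.exp (16 * max S0 0) with hedef
  have he0 : 0 < e := by positivity
  have ha : 0 < b / (4 * e) := by positivity
  have h2 : 2 * (b / (4 * e)) ≤ b / 2 := by
    rw [show 2 * (b / (4 * e)) = b / (2 * e) by field_simp; norm_num]
    exact div_le_div_of_nonneg_left hb.le two_pos (by linarith)
  have hab : b / (4 * e) < b := by linarith
  have W := WGT_wt ha hab
  refine ⟨_, _, _, _, W, ?_⟩
  have hc : Continuous (WGT_w (b / (4 * e)) b) :=
    continuous_iff_continuousAt.2 fun x => (W.der x).continuousAt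
  have h3 := intervalIntegral.integral_mono_interval (μ := volume) (f := WGT_w (b / (4 * e)) b)
    (c := b / (4 * e)) (d := b) (by linarith) h2 (by linarith)
    (Eventually.of_forall W.nonneg) (hc.intervalIntegrable _ _)
  refine le_trans ?_ h3
  have h4 : ∫ x in (2 * (b / (4 * e)))..(b / 2), 1 / 16 * (1 / x) = max S0 0 := by
    rw [intervalIntegral.integral_const_mul, integral_one_div_of_pos (by positivity)
      (by positivity), show b / 2 / (2 * (b / (4 * e))) = e by field_simp; norm_num, hedef,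
      Real.log_exp]
    ring
  refine (le_max_left S0 0).trans (h4.symm.trans_le ?_)
  refine intervalIntegral.integral_mono_on h2 ?_ (hc.intervalIntegrable _ _) fun x hx => ?_
  · refine ContinuousOn.intervalIntegrable_of_Icc h2 (continuousOn_const.mul ?_)
    exact continuousOn_const.div continuousOn_id fun x hx => by
      have := hx.1
      have : 0 < x := by linarith
      exact this.ne'
  · have hx0 : 0 < x := by linarith [hx.1]
    have h5 := (WGT_form ha (x := x) (b := b) (by linarith [hx.1]) (by linarith [hx.2])).1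
    have hA : 1 / 2 ≤ (x - b / (4 * e)) / x := by rw [le_div_iff₀ hx0]; linarith [hx.1]
    have hB : 1 / 2 ≤ (b - x) / b := by rw [le_div_iff₀ hb]; linarith [hx.2]
    have h6 : (1 / 2) ^ 2 * (1 / 2) ^ 2 ≤ x * WGT_w (b / (4 * e)) b x := by
      rw [h5]
      exact mul_le_mul (pow_le_pow_left₀ (by norm_num) hA 2) (pow_le_pow_left₀ (by norm_num) hB 2)
        (by norm_num) (sq_nonneg _)
    rw [mul_one_div, div_le_iff₀ hx0]
    linarith

end Pool.Agent.Lib.MP_13801a_an
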