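import Mathlib
import Pool.Agent.Lib.MP_13801a_an.APX
import Pool.Agent.Lib.MP_13801a_an.BASIC
import Pool.Agent.Lib.MP_13801a_an.CELL
import Pool.Agent.Lib.MP_13801a_an.CONV
import Pool.Agent.Lib.MP_13801a_an.CORE
import Pool.Agent.Lib.MP_13801a_an.DISP
import Pool.Agent.Lib.MP_13801a_an.EGRAD
import Pool.Agent.Lib.MP_13801a_an.EM
import Pool.Agent.Lib.MP_13801a_an.ENER
import Pool.Agent.Lib.MP_13801a_an.ENR
import Pool.Agent.Lib.MP_13801a_an.ENV
import Pool.Agent.Lib.MP_13801a_an.FUB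
import Pool.Agent.Lib.MP_13801a_an.HH
import Pool.Agent.Lib.MP_13801a_an.HOLE
import Pool.Agent.Lib.MP_13801a_an.INIT
import Pool.Agent.Lib.MP_13801a_an.LAM1
import Pool.Agent.Lib.MP_13801a_an.LAM2
import Pool.Agent.Lib.MP_13801a_an.MAIN
import Pool.Agent.Lib.MP_13801a_an.MASS
import Pool.Agent.Lib.MP_13801a_an.MOL
import Pool.Agent.Lib.MP_13801a_an.NLF
import Pool.Agent.Lib.MP_13801a_an.OSC
import Pool.Agent.Lib.MP_13801a_an.PSI
import Pool.Agent.Lib.MP_13801a_an.REP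
import Pool.Agent.Lib.MP_13801a_an.STAT
import Pool.Agent.Lib.MP_13801a_an.SUBG
import Pool.Agent.Lib.MP_13801a_an.TRANS
import Pool.Agent.Lib.MP_13801a_an.UNI1
import Pool.Agent.Lib.MP_13801a_an.UNI2
import Pool.Agent.Lib.MP_13801a_an.VIR1
import Pool.Agent.Lib.MP_13801a_an.VIR2
import Pool.Agent.Lib.MP_13801a_an.WGT

/-!
Assembly of the blowup theorem.
-/

namespace Pool.Agent.Lib.MP_13801a_an

theorem all : St_MAIN := by
  have b := BASIC SUP NLF
  have cvn := CONV IBP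
  have ap := APX MOL cvn b
  have os := OSC MOL SUP
  have u1 := UNI1 MOL cvn os SUP NLF
  have u2 := UNI2 MOL cvn os SUP NLF u1
  have ms := MASS b ap u1 u2 (VIR1 FUB NLF)
  have er := ENER b ap u1 u2 (ENR FUB NLF) (KLIM MOL cvn)
  have ce := CELL EM TTF
  have l1 := LAM1 EM TTF HOLE ce
  have hh' := HH EM
  exact MAIN (REP IBP) (TRANS (REP IBP)) (INIT b ms er NLF) (MONO b er)
    (CORE b ms ap u1 u2 (VIR1 FUB NLF) (VIR2 FUB NLF) DENS WGT hh'
      (STAT l1 (LAM2 EM TTF HOLE ce l1) SUBG (PSI EM hh' l1))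
      (LOW DENS hh' (DISP DENS EM hh' (EGRAD DENS EM (ENV EM TTF) CLIMB)) NLF) STEP)

end Pool.Agent.Lib.MP_13801a_an
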