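import Mathlib

/-!
Definitions used in the statements: the Sobolev space on Euclidean space through weak derivatives,
the energy and global solutions of the forced nonlinear Schroedinger equation.
-/

open MeasureTheory Set Filter
open scoped ContDiff Topology

namespace Pool.Agent.Lib.MP_13801a_an.Blow

noncomputable section

/-- Euclidean space of dimension `N`. -/
abbrev E (N : ℕ) := EuclideanSpace ℝ (Fin N)

variable {N : ℕ}

/-- Smooth real functions with compact support. -/
def Test (φ : E N → ℝ) : Prop := ContDiff ℝ ∞ φ ∧ HasCompactSupport φ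

/-- The derivative of `φ` in the direction of coordinate `i`. -/
def pd (i : Fin N) (φ : E N → ℝ) (x : E N) : ℝ := fderiv ℝ φ x (EuclideanSpace.single i 1)

/-- The nonlinearity `|z| ^ α * z`. -/
def NL (α : ℝ) (z : ℂ) : ℂ := ((‖z‖ ^ α : ℝ) : ℂ) * z

/-- Square integrable functions. -/
def SqInt (g : E N → ℂ) : Prop := MemLp g 2 volume

/-- Equality almost everywhere. -/
def AeEq (g g' : E N → ℂ) : Prop := g =ᵐ[volume] g'

/-- The integral of `|g| ^ p`. -/
def powInt (p : ℝ) (g : E N → ℂ) : ℝ := ∫ x, ‖g x‖ ^ p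

/-- The integral of `g φ`. -/
def pair (g : E N → ℂ) (φ : E N → ℝ) : ℂ := ∫ x, g x * ((φ x : ℝ) : ℂ)

/-- `u` lies in the Sobolev space and `du i` is its weak derivative in the direction `i`. -/
def InH1 (u : E N → ℂ) (du : Fin N → E N → ℂ) : Prop :=
  SqInt u ∧ (∀ i, SqInt (du i)) ∧ ∀ φ, Test φ → ∀ i, pair u (pd i φ) = -pair (du i) φ

/-- The energy of `u` with weak gradient `du`. -/
def energy (α : ℝ) (u : E N → ℂ) (du : Fin N → E N → ℂ) : ℝ :=
  (∑ i, powInt 2 (du i)) / 2 - powInt (α + 2) u / (α + 2)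

/-- Continuity of a curve on `[0, ∞)` for the norm of square integrable functions. -/
def L2Cont (u : ℝ → E N → ℂ) : Prop :=
  ∀ t, 0 ≤ t → Tendsto (fun s => powInt 2 fun x => u s x - u t x) (𝓝[Ici 0] t) (𝓝 0)

/-- The equation `u_t = i (Δ u + |u| ^ α u) + γ u` for `t > 0`, paired with test functions. -/
def Eqn (α γ : ℝ) (u : ℝ → E N → ℂ) (du : ℝ → Fin N → E N → ℂ) : Prop :=
  ∀ φ, Test φ → ∀ t, 0 < t → HasDerivAt (fun s => pair (u s) φ)
    (Complex.I * (-(∑ i, pair (du t i) (pd i φ)) + pair (fun x => NL α (u t x)) φ) +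
      γ * pair (u t) φ) t

/-- `u` is continuous from `[0, ∞)` to the Sobolev space (with weak gradient `du`) and solves the
equation for `t > 0`. -/
def GlobalSol (α γ : ℝ) (u : ℝ → E N → ℂ) (du : ℝ → Fin N → E N → ℂ) : Prop :=
  (∀ t, 0 ≤ t → InH1 (u t) (du t)) ∧ L2Cont u ∧ (∀ i, L2Cont fun t => du t i) ∧ Eqn α γ u du

end

end Pool.Agent.Lib.MP_13801a_an.Blow
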