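import Mathlib
import Pool.Agent.Lib.MP_13801a_an.Sts

/-! Differentiation under the integral sign in integrated form, and second differences. -/

open MeasureTheory Set Filter
open scoped Topology

namespace Pool.Agent.Lib.MP_13801a_an

theorem FUB : St_FUB := by
  intro a b s t C hst ha hb hd hi hC
  have hm : AEStronglyMeasurable (Function.uncurry b)
      ((volume.restrict (Ioc s t)).prod (volume : Measure ℝ)) := hb.aestronglyMeasurable
  have hI : Integrable (Function.uncurry b)
      ((volume.restrict (Ioc s t)).prod (volume : Measure ℝ)) := by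
    refine (integrable_prod_iff hm).2 ⟨?_, ?_⟩
    · filter_upwards [ae_restrict_mem measurableSet_Ioc] with σ hσ
      exact (hC σ (Ioc_subset_Icc_self hσ)).1
    · refine Integrable.of_bound hm.norm.integral_prod_right' C ?_
      filter_upwards [ae_restrict_mem measurableSet_Ioc] with σ hσ
      rw [Real.norm_of_nonneg (integral_nonneg fun x => norm_nonneg _)]
      exact (hC σ (Ioc_subset_Icc_self hσ)).2
  refine ⟨(intervalIntegrable_iff_integrableOn_Ioc_of_le hst).2 hI.integral_prod_left, ?_⟩
  rw [← integral_sub (hi t) (hi s), intervalIntegral.integral_of_le hst,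
    integral_integral_swap hI]
  refine integral_congr_ae (Eventually.of_forall fun x => ?_)
  have h1 : Continuous fun σ => a σ x := ha.comp (Continuous.prodMk_left x)
  have h2 : Continuous fun σ => b σ x := hb.comp (Continuous.prodMk_left x)
  simp only
  rw [← intervalIntegral.integral_of_le hst,
    intervalIntegral.integral_eq_sub_of_hasDerivAt_of_le hst h1.continuousOn (fun σ h => hd σ h x)
      (h2.intervalIntegrable _ _)]

theorem FUB_lin (c m u v : ℝ) :
    ∫ σ in u..v, (c + m * σ) = c * (v - u) + m * (v ^ 2 - u ^ 2) / 2 := by
  rw [intervalIntegral.integral_add (by simp) (Continuous.intervalIntegrable (by fun_prop) _ _),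
    intervalIntegral.integral_const_mul, integral_id, intervalIntegral.integral_const, smul_eq_mul]
  ring

theorem FUB_ii (c m u v : ℝ) : IntervalIntegrable (fun σ => c + m * σ) volume u v :=
  Continuous.intervalIntegrable (by fun_prop) _ _

theorem STEP : St_STEP := by
  refine ⟨fun A J V e1 e2 s τ η m h1 h2 hτ hs h => ?_, fun a μ n h => ?_⟩
  · have hJ : ∀ u v, s - τ ≤ u → u ≤ v → v ≤ s + τ → m * (v - u) ≤ J v - J u := by
      intro u v hu huv hv
      obtain ⟨D, hD, e, hb⟩ := h2 u v (hs.trans hu) huv
      have := intervalIntegral.integral_mono_on huv (FUB_ii m 0 u v) hD fun σ hσ => by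
        have h3 := (h σ ⟨hu.trans hσ.1, hσ.2.trans hv⟩).2
        have h4 := (abs_le.1 (hb σ hσ)).1
        linarith
      rw [FUB_lin] at this
      linarith
    obtain ⟨D, hD, e, hb⟩ := h1 s (s + τ) (by linarith) (by linarith)
    obtain ⟨D', hD', e', hb'⟩ := h1 (s - τ) s hs (by linarith)
    have k1 := intervalIntegral.integral_mono_on (by linarith)
      (FUB_ii (J s - m * s - η) m s (s + τ)) hD fun σ hσ => by
        have h3 := (h σ ⟨by linarith [hσ.1], hσ.2⟩).1
        have h4 := (abs_le.1 (hb σ hσ)).1
        have h5 := hJ s σ (by linarith) hσ.1 hσ.2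
        linarith
    have k2 := intervalIntegral.integral_mono_on (by linarith) hD'
      (FUB_ii (J s - m * s + η) m (s - τ) s) fun σ hσ => by
        have h3 := (h σ ⟨hσ.1, by linarith [hσ.2]⟩).1
        have h4 := (abs_le.1 (hb' σ hσ)).2
        have h5 := hJ σ s hσ.1 hσ.2 (by linarith)
        linarith
    rw [FUB_lin] at k1 k2
    linarith
  · have h1 : ∀ j k, j + k + 1 ≤ 2 * n →
        k * μ ≤ (a (j + k + 1) - a (j + k)) - (a (j + 1) - a j) := by
      intro j k
      induction k with
      | zero => simp
      | succ k ih =>
        intro hk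
        have h2 := ih (by omega)
        have h3 := h (j + k) (by omega)
        simp only [← add_assoc, Nat.cast_succ]
        rw [show j + k + 1 + 1 = j + k + 2 from rfl]
        linarith
    have h2 : ∀ i, i ≤ n → i * (n * μ) ≤ (a (i + n) - a n) - (a i - a 0) := by
      intro i
      induction i with
      | zero => simp
      | succ i ih =>
        intro hi
        have h3 := ih (by omega)
        have h4 := h1 i n (by omega)
        rw [Nat.cast_succ, add_right_comm i 1 n]
        linarith
    have h3 := h2 n le_rfl
    rw [two_mul n]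
    linarith

end Pool.Agent.Lib.MP_13801a_an
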