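import Mathlib
import Pool.Agent.Lib.MP_13801a_an.Blow
import Pool.Agent.Lib.MP_13801a_an.ND.All

/-!
The blowup theorems for functions instead of classes of functions.
-/

open MeasureTheory Set Filter
open scoped Topology

namespace Pool.Agent.Lib.MP_13801a_an.Blow

variable {N : ℕ}

theorem pair_congr {g g' : E N → ℂ} (h : g =ᵐ[volume] g') (φ : E N → ℝ) :
    ∫ x, g x * ((φ x : ℝ) : ℂ) = pair g' φ :=
  integral_congr_ae (h.mono fun x hx => by simp only [hx])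

theorem weak_toLp {u : E N → ℂ} {du : Fin N → E N → ℂ} (h : InH1 u du) :
    ND.WeakGrad (MemLp.toLp u h.1) fun i => MemLp.toLp (du i) (h.2.1 i) := by
  intro φ hφ i
  rw [pair_congr (MemLp.coeFn_toLp h.1), pair_congr (MemLp.coeFn_toLp (h.2.1 i))]
  exact h.2.2 φ hφ i

theorem cont_toLp {u : ℝ → E N → ℂ} (h : ∀ t, 0 ≤ t → SqInt (u t)) (hc : L2Cont u) :
    ContinuousOn (fun t => MemLp.toLp (u (max t 0)) (h _ (le_max_right t 0))) (Ici 0) := by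
  intro t ht
  rw [ContinuousWithinAt, tendsto_iff_norm_sub_tendsto_zero]
  have h1 := (Real.continuous_sqrt.tendsto 0).comp (hc t ht)
  rw [Real.sqrt_zero] at h1
  refine h1.congr' ?_
  filter_upwards [self_mem_nhdsWithin] with s hs
  have hs' : max s 0 = s := max_eq_left hs
  have ht' : max t 0 = t := max_eq_left ht
  have hm : MemLp (fun x => u s x - u t x) 2 volume := MemLp.sub (h s hs) (h t ht)
  rw [← MemLp.toLp_sub, Lp.norm_toLp]
  have e : (u (max s 0) - u (max t 0)) = fun x => u s x - u t x := by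
    rw [hs', ht']
    rfl
  rw [e]
  have h2 := ND.nr_two hm.1
  simp only [ND.nr, ENNReal.ofReal_ofNat] at h2
  rw [toReal_eLpNorm hm.1, h2]
  simp [powInt, ND.ms]

theorem sol_toLp {α γ : ℝ} {u : ℝ → E N → ℂ} {du : ℝ → Fin N → E N → ℂ} (h : GlobalSol α γ u du) :
    ND.GlobalSol α γ (fun t => MemLp.toLp (u (max t 0)) (h.1 _ (le_max_right t 0)).1)
      fun t i => MemLp.toLp (du (max t 0) i) ((h.1 _ (le_max_right t 0)).2.1 i) := by
  refine ⟨cont_toLp (fun t ht => (h.1 t ht).1) h.2.1,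
    fun i => cont_toLp (u := fun t => du t i) (fun t ht => (h.1 t ht).2.1 i) (h.2.2.1 i),
    fun t _ => weak_toLp (h.1 _ (le_max_right t 0)), fun φ hφ t ht => ?_⟩
  have h1 := h.2.2.2 φ hφ t ht
  have ht' : max t 0 = t := max_eq_left ht.le
  have e3 : ∫ x, ND.NL α ((MemLp.toLp (u (max t 0)) (h.1 _ (le_max_right t 0)).1) x) *
      ((φ x : ℝ) : ℂ) = pair (fun x => NL α (u (max t 0) x)) φ :=
    pair_congr ((MemLp.coeFn_toLp (h.1 _ (le_max_right t 0)).1).mono fun x hx => by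
      simp only [hx]
      rfl) φ
  rw [e3]
  simp only [pair_congr (MemLp.coeFn_toLp _), ht']
  refine h1.congr_of_eventuallyEq ?_
  filter_upwards [Ioi_mem_nhds ht] with s hs
  rw [max_eq_left (le_of_lt hs)]

theorem init_toLp {α γ : ℝ} {u : ℝ → E N → ℂ} {du : ℝ → Fin N → E N → ℂ} (h : GlobalSol α γ u du)
    {u0 : E N → ℂ} (h0 : SqInt u0) (he : AeEq (u 0) u0) :
    MemLp.toLp (u (max 0 0)) (h.1 _ (le_max_right 0 0)).1 = MemLp.toLp u0 h0 :=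
  MemLp.toLp_congr _ _ (by rw [max_self]; exact he)

theorem large {α : ℝ} (hN : 1 ≤ N) (h1 : 4 / (N : ℝ) < α) (h2 : 3 ≤ N → α < 4 / ((N : ℝ) - 2))
    (u0 : E N → ℂ) (du0 : Fin N → E N → ℂ) (h : InH1 u0 du0) (hne : ¬ AeEq u0 0) :
    ∃ γ0 : ℝ, 0 < γ0 ∧ ∀ γ : ℝ, γ0 < γ →
      ¬ ∃ (u : ℝ → E N → ℂ) (du : ℝ → Fin N → E N → ℂ), GlobalSol α γ u du ∧ AeEq (u 0) u0 := by
  obtain ⟨γ0, hγ0, hγ⟩ := (ND.all N α (ND.range_exp hN h1 h2).1 (ND.range_exp hN h1 h2).2).1 _ _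
    (weak_toLp h) fun h0 =>
      hne ((MemLp.coeFn_toLp h.1).symm.trans (Lp.eq_zero_iff_ae_eq_zero.1 h0))
  refine ⟨γ0, hγ0, fun γ hlt => ?_⟩
  rintro ⟨u, du, hG, he⟩
  exact hγ γ hlt ⟨_, _, sol_toLp hG, init_toLp hG h.1 he⟩

theorem negative {α : ℝ} (hN : 1 ≤ N) (h1 : 4 / (N : ℝ) < α) (h2 : 3 ≤ N → α < 4 / ((N : ℝ) - 2))
    (γ : ℝ) (hγ : 0 ≤ γ) (u0 : E N → ℂ) (du0 : Fin N → E N → ℂ) (h : InH1 u0 du0)
    (hen : energy α u0 du0 < 0) :
    ¬ ∃ (u : ℝ → E N → ℂ) (du : ℝ → Fin N → E N → ℂ), GlobalSol α γ u du ∧ AeEq (u 0) u0 := by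
  rintro ⟨u, du, hG, he⟩
  refine (ND.all N α (ND.range_exp hN h1 h2).1 (ND.range_exp hN h1 h2).2).2 γ hγ _ _
    (weak_toLp h) ?_ ⟨_, _, sol_toLp hG, init_toLp hG h.1 he⟩
  have e1 : ∀ i, ∫ x, ‖(MemLp.toLp (du0 i) (h.2.1 i)) x‖ ^ 2 = powInt 2 (du0 i) := fun i =>
    integral_congr_ae ((MemLp.coeFn_toLp (h.2.1 i)).mono fun x hx => by simp [hx])
  have e2 : ∫ x, ‖(MemLp.toLp u0 h.1) x‖ ^ (α + 2) = powInt (α + 2) u0 :=
    integral_congr_ae ((MemLp.coeFn_toLp h.1).mono fun x hx => by simp only [hx])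
  simp only [ND.energy, e1, e2]
  exact hen

end Pool.Agent.Lib.MP_13801a_an.Blow
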