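import Mathlib
import Pool.Agent.Lib.MP_13801a_an.ND.StsA

/-!
The energy becomes negative for every positive growth rate of the coupling.
-/

open MeasureTheory Set Filter
open scoped Topology

namespace Pool.Agent.Lib.MP_13801a_an.ND.Pos

variable {N : ℕ}

theorem bw {r : ℝ} (hr : 0 < r) : BW (fun x : E N => Real.exp (-r ^ 2 * ‖x‖ ^ 2))
    (fun i x => Real.exp (-r ^ 2 * ‖x‖ ^ 2) * (-r ^ 2 * (2 * x i))) ∧
    ∀ (i : Fin N) (x : E N), |Real.exp (-r ^ 2 * ‖x‖ ^ 2) * (-r ^ 2 * (2 * x i))| ≤ 2 * r := by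
  have b : ∀ (i : Fin N) (x : E N),
      |Real.exp (-r ^ 2 * ‖x‖ ^ 2) * (-r ^ 2 * (2 * x i))| ≤ 2 * r := fun i x => by
    have h1 : |x i| ≤ ‖x‖ := by simpa using PiLp.norm_apply_le x i
    have h2 := Real.add_one_le_exp (r ^ 2 * ‖x‖ ^ 2)
    have h3 : r * |x i| ≤ Real.exp (r ^ 2 * ‖x‖ ^ 2) := by
      nlinarith [mul_le_mul_of_nonneg_left h1 hr.le, sq_nonneg (r * ‖x‖ - 1)]
    rw [abs_mul, abs_of_pos (Real.exp_pos _), neg_mul, Real.exp_neg, abs_mul, abs_neg, abs_mul,
      abs_of_pos (pow_pos hr 2), abs_two, inv_mul_le_iff₀ (Real.exp_pos _)]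
    nlinarith [mul_le_mul_of_nonneg_left h3 hr.le]
  refine ⟨⟨fun i x => ?_, 1 + 2 * r, fun x => ⟨?_, fun i => (b i x).trans (by linarith)⟩⟩, b⟩
  · have h := ((((hasDerivAt_id (0 : ℝ)).smul_const (ee i : E N)).const_add x).norm_sq.const_mul
      (-r ^ 2)).exp
    simpa [HasLineDerivAt, ee, EuclideanSpace.inner_single_right] using h
  · rw [abs_of_pos (Real.exp_pos _)]
    have : Real.exp (-r ^ 2 * ‖x‖ ^ 2) ≤ 1 := Real.exp_le_one_iff.2 (by
      rw [neg_mul]; exact neg_nonpos.2 (by positivity))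
    linarith

theorem young {α s a : ℝ} (hα : 0 < α) (hs : 0 ≤ s) (ha : 0 < a) :
    s ^ 2 ≤ a + s ^ (α + 2) / a ^ (α / 2) := by
  have h0 : 0 < a ^ (α / 2) := Real.rpow_pos_of_pos ha _
  rcases le_total (s ^ 2) a with h | h
  · have h2 : 0 ≤ s ^ (α + 2) / a ^ (α / 2) := by positivity
    linarith
  · have h1 : a ^ (α / 2) ≤ (s ^ 2) ^ (α / 2) := Real.rpow_le_rpow ha.le h (by linarith)
    have h2 : s ^ (α + 2) = (s ^ 2) ^ (α / 2) * s ^ 2 := by
      rw [← Real.rpow_two, ← Real.rpow_mul hs, ← Real.rpow_add' hs (by linarith)]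
      congr 1
      ring
    have h3 : s ^ 2 ≤ s ^ (α + 2) / a ^ (α / 2) := by
      rw [le_div_iff₀ h0, h2, mul_comm]
      exact mul_le_mul_of_nonneg_right h1 (sq_nonneg s)
    linarith

theorem neg_energy (h1 : St_BASIC) (h2 : St_ENER) (h3 : St_LMASS) (h4 : St_FLU) {α κ : ℝ}
    {v : ℝ → E N → ℂ} {dv : ℝ → Fin N → E N → ℂ} (hS : Sub N α) (hκ : 0 < κ)
    (hv : Sol α κ v dv) (h0 : ¬ v 0 =ᵐ[volume] 0) : ∃ t, 0 ≤ t ∧ en α κ v dv t < 0 := by
  by_contra hc
  have hc : ∀ t, 0 ≤ t → 0 ≤ en α κ v dv t := fun t ht => not_lt.1 fun q => hc ⟨t, ht, q⟩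
  obtain ⟨hN, hα, -⟩ := id hS
  obtain ⟨-, ck, cp, -, hm, -⟩ := h1 N α κ v dv hS hv
  obtain ⟨hM, hL⟩ := h3 N α κ v dv hS hv
  have cP : Continuous fun s => pot α κ v s :=
    ((Real.continuous_exp.comp (continuous_const.mul continuous_id)).mul cp).div_const _
  have p0 : ∀ s, 0 ≤ pot α κ v s := fun s =>
    div_nonneg (mul_nonneg (Real.exp_pos _).le (pw_nonneg _ _)) (by linarith)
  set E0 := en α κ v dv 1 with hE0
  have e0 : 0 ≤ E0 := hc 1 zero_le_one
  have e1 : ∀ t, 1 ≤ t → κ * ∫ s in (1 : ℝ)..t, pot α κ v s = E0 - en α κ v dv t := fun t ht => by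
    have := h2 N α κ v dv hS hv 1 t zero_le_one ht
    rw [intervalIntegral.integral_const_mul] at this
    linarith
  have e2 : ∀ t, 1 ≤ t → kin (dv t) ≤ 2 * E0 + 2 * pot α κ v t := fun t ht => by
    have := mul_nonneg hκ.le (intervalIntegral.integral_nonneg (μ := volume) ht fun s _ => p0 s)
    rw [e1 t ht, en] at this
    linarith
  have im : ∀ t, Integrable fun x => ‖v t x‖ ^ 2 := fun t => integrable_ms (hv.h1 t).mem0
  have ex : ∀ (r : ℝ) (x : E N), Real.exp (-r ^ 2 * ‖x‖ ^ 2) ≤ 1 := fun r x =>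
    Real.exp_le_one_iff.2 (by rw [neg_mul]; exact neg_nonpos.2 (by positivity))
  have iw : ∀ r t, Integrable fun x : E N => Real.exp (-r ^ 2 * ‖x‖ ^ 2) * ‖v t x‖ ^ 2 :=
    fun r t => (im t).bdd_mul (c := 1) (Continuous.aestronglyMeasurable (by fun_prop))
      (.of_forall fun x => by rw [Real.norm_of_nonneg (Real.exp_pos _).le]; exact ex r x)
  set m0 := ∫ x : E N, Real.exp (-1 ^ 2 * ‖x‖ ^ 2) * ‖v 1 x‖ ^ 2 with hm0
  have m0p : 0 < m0 := by
    refine (integral_nonneg fun x => by positivity).lt_of_ne fun q => h0 ?_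
    have q1 := (integral_eq_zero_iff_of_nonneg (fun x => by positivity) (iw 1 1)).1 q.symm
    have q2 : ms (v 1) = 0 := integral_eq_zero_of_ae (q1.mono fun x hx =>
      (mul_eq_zero.1 hx).resolve_left (Real.exp_pos _).ne')
    rw [hM 1 zero_le_one] at q2
    filter_upwards [(integral_eq_zero_iff_of_nonneg (fun x => by positivity) (im 0)).1 q2] with x hx
    simpa using hx
  set A := ms (v 0) + 2 * E0 + 2 * E0 / κ with hA
  have M0 := ms_nonneg (v 0)
  have A0 : 0 ≤ A := by positivity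
  set ρ := m0 / (4 * N * A + m0) with hρ
  have ρ0 : 0 < ρ := by positivity
  have ρ1 : ρ * (4 * N * A + m0) = m0 := div_mul_cancel₀ _ (by positivity)
  have ρ2 : ρ ≤ 1 := (div_le_one (by positivity)).2 (le_add_of_nonneg_left (by positivity))
  set a1 := m0 / 4 / (Real.pi / ρ ^ 2) ^ ((N : ℝ) / 2) with ha1
  have a10 : 0 < a1 := by have := Real.pi_pos; positivity
  have low : ∀ T, 1 ≤ T → ∀ t ∈ Icc T (T + 1),
      m0 / 4 * (a1 ^ (α / 2) / T ^ (N * (α / 2))) ≤ pw α (v t) := fun T hT t ht => by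
    have T0 : 0 < T := by linarith
    have t1 : 1 ≤ t := hT.trans ht.1
    set r := ρ / T with hr
    have r0 : 0 < r := by positivity
    have r1 : r ≤ 1 := (div_le_one T0).2 (ρ2.trans hT)
    obtain ⟨b1, b2⟩ := bw (N := N) r0
    obtain ⟨l1, l2⟩ := hL _ _ b1
    have f := intervalIntegral.integral_eq_sub_of_hasDerivAt (a := 1) (b := t)
      (fun s hs => l2 s (by rw [uIcc_of_le t1] at hs; linarith [hs.1])) (l1.intervalIntegrable _ _)
    have f2 := intervalIntegral.integral_mono_on (μ := volume) t1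
      (f := fun s => -(2 * N * r) * (ms (v 0) + 2 * E0 + 2 * pot α κ v s))
      (Continuous.intervalIntegrable (by fun_prop) _ _) (l1.intervalIntegrable _ _) fun s hs => by
        obtain ⟨u1, -, -, -, -, u2, -⟩ := h4 N (v s) (dv s) (hv.h1 s).mem0 (hv.h1 s).mem1
        have u3 : 2 * √(ms (v s) * kin (dv s)) ≤ ms (v 0) + 2 * E0 + 2 * pot α κ v s := by
          have := e2 s hs.1
          rw [Real.sqrt_mul (ms_nonneg _), ← hM s (by linarith [hs.1])]
          nlinarith [sq_nonneg (√(ms (v s)) - √(kin (dv s))), Real.sq_sqrt (ms_nonneg (v s)),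
            Real.sq_sqrt (kin_nonneg (dv s))]
        have u4 : ∀ j, -(2 * r * (ms (v 0) + 2 * E0 + 2 * pot α κ v s)) ≤ ∫ x : E N,
            Real.exp (-r ^ 2 * ‖x‖ ^ 2) * (-r ^ 2 * (2 * x j)) * jj (v s) (dv s) j x := fun j => by
          refine neg_le_of_abs_le ((Real.norm_eq_abs _).symm.trans_le
            ((norm_integral_le_of_norm_le ((u1 j).1.abs.const_mul (2 * r))
            (.of_forall fun x => ?_)).trans ?_))
          · rw [norm_mul]
            exact mul_le_mul_of_nonneg_right (b2 j x) (norm_nonneg _)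
          · rw [integral_const_mul]
            exact mul_le_mul_of_nonneg_left ((u2 j).trans u3) (by positivity)
        have := Finset.sum_le_sum fun j (_ : j ∈ Finset.univ) => u4 j
        simp only [Finset.sum_const, Finset.card_univ, Fintype.card_fin, nsmul_eq_mul] at this
        exact le_of_eq_of_le (by ring) this
    rw [f, intervalIntegral.integral_const_mul, intervalIntegral.integral_add
      intervalIntegrable_const ((cP.const_mul 2).intervalIntegrable _ _),
      intervalIntegral.integral_const, intervalIntegral.integral_const_mul, smul_eq_mul] at f2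
    have f3 : ∫ s in (1 : ℝ)..t, pot α κ v s ≤ E0 / κ := by
      rw [le_div_iff₀' hκ, e1 t t1]
      linarith [hc t (by linarith)]
    have f4 : m0 ≤ ∫ x : E N, Real.exp (-r ^ 2 * ‖x‖ ^ 2) * ‖v 1 x‖ ^ 2 :=
      integral_mono (iw 1 1) (iw r 1) fun x => mul_le_mul_of_nonneg_right (Real.exp_le_exp.2
        (mul_le_mul_of_nonneg_right (by nlinarith) (sq_nonneg _))) (sq_nonneg _)
    have f5 : (t - 1) * (ms (v 0) + 2 * E0) + 2 * ∫ s in (1 : ℝ)..t, pot α κ v s ≤ A * T := by
      have : 0 ≤ E0 / κ := by positivity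
      rw [hA, mul_div_assoc]
      nlinarith [ht.2, mul_le_mul_of_nonneg_left hT this]
    have f6 : m0 / 2 ≤ ∫ x : E N, Real.exp (-r ^ 2 * ‖x‖ ^ 2) * ‖v t x‖ ^ 2 := by
      have : r * T = ρ := div_mul_cancel₀ _ T0.ne'
      have q := mul_le_mul_of_nonneg_left f5 (by positivity : 0 ≤ 2 * N * r)
      have q2 : 2 * N * r * (A * T) = 2 * N * A * ρ := by rw [← this]; ring
      nlinarith [mul_pos ρ0 m0p]
    have g := GaussianFourier.integral_rexp_neg_mul_sq_norm (V := E N) (pow_pos r0 2)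
    have g2 : (Real.pi / r ^ 2) ^ ((Module.finrank ℝ (E N) : ℝ) / 2) =
        (Real.pi / ρ ^ 2) ^ ((N : ℝ) / 2) * T ^ (N : ℝ) := by
      rw [finrank_euclideanSpace_fin, show Real.pi / r ^ 2 = Real.pi / ρ ^ 2 * T ^ (2 : ℝ) by
        rw [hr, Real.rpow_two]; field_simp, Real.mul_rpow (by have := Real.pi_pos; positivity)
        (by positivity), ← Real.rpow_mul T0.le]
      congr 2
      ring
    have gp : 0 < (Real.pi / ρ ^ 2) ^ ((N : ℝ) / 2) := by have := Real.pi_pos; positivity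
    have ig : Integrable fun x : E N => Real.exp (-r ^ 2 * ‖x‖ ^ 2) :=
      Integrable.of_integral_ne_zero (g.trans_ne (g2.trans_ne
        (mul_pos gp (Real.rpow_pos_of_pos T0 _)).ne'))
    have ip := Mem.integrable_rpow (by linarith) (hm t).1
    have f7 := integral_mono (iw r t) ((ig.const_mul (a1 / T ^ (N : ℝ))).add
      (ip.div_const ((a1 / T ^ (N : ℝ)) ^ (α / 2)))) fun x => by
        have y := young hα (norm_nonneg (v t x)) (a := a1 / T ^ (N : ℝ)) (by positivity)
        have z : 0 ≤ ‖v t x‖ ^ (α + 2) / (a1 / T ^ (N : ℝ)) ^ (α / 2) := by positivity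
        simp only [Pi.add_apply]
        nlinarith [mul_le_mul_of_nonneg_left y (Real.exp_pos (-r ^ 2 * ‖x‖ ^ 2)).le,
          mul_le_mul_of_nonneg_right (ex r x) z]
    simp only [Pi.add_apply] at f7
    rw [integral_add (ig.const_mul _) (ip.div_const _), integral_const_mul, integral_div, g, g2,
      show a1 / T ^ (N : ℝ) * ((Real.pi / ρ ^ 2) ^ ((N : ℝ) / 2) * T ^ (N : ℝ)) = m0 / 4 by
        rw [ha1]; field_simp] at f7
    rw [Real.rpow_mul T0.le, ← Real.div_rpow a10.le (by positivity), ← le_div_iff₀ (by positivity)]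
    unfold pw
    linarith
  obtain ⟨T, hT, hT1⟩ := (((tendsto_exp_mul_div_rpow_atTop (N * (α / 2)) κ hκ).eventually_gt_atTop
    (E0 / κ / (m0 / 4 * a1 ^ (α / 2) / (α + 2)))).and (eventually_ge_atTop 1)).exists
  have k1 := intervalIntegral.integral_mono_on (μ := volume) (a := T) (b := T + 1) (by linarith)
    (f := fun _ => Real.exp (κ * T) * (m0 / 4 * (a1 ^ (α / 2) / T ^ (N * (α / 2)))) / (α + 2))
    intervalIntegrable_const (cP.intervalIntegrable _ _) fun t ht =>
      div_le_div_of_nonneg_right (mul_le_mul (Real.exp_le_exp.2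
        (mul_le_mul_of_nonneg_left ht.1 hκ.le)) (low T hT1 t ht) (by positivity)
        (Real.exp_pos _).le) (by linarith)
  have k2 := intervalIntegral.integral_add_adjacent_intervals (μ := volume)
    (cP.intervalIntegrable 1 T) (cP.intervalIntegrable T (T + 1))
  have k3 : ∫ s in (1 : ℝ)..T + 1, pot α κ v s ≤ E0 / κ := by
    rw [le_div_iff₀' hκ, e1 _ (by linarith)]
    linarith [hc (T + 1) (by linarith)]
  have k4 := intervalIntegral.integral_nonneg (μ := volume) hT1 fun s _ => p0 s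
  rw [intervalIntegral.integral_const, add_sub_cancel_left, one_smul] at k1
  rw [div_lt_iff₀ (by positivity)] at hT
  have : Real.exp (κ * T) / T ^ (N * (α / 2)) * (m0 / 4 * a1 ^ (α / 2) / (α + 2)) =
    Real.exp (κ * T) * (m0 / 4 * (a1 ^ (α / 2) / T ^ (N * (α / 2)))) / (α + 2) := by ring
  linarith

end Pool.Agent.Lib.MP_13801a_an.ND.Pos
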