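import Mathlib
import Pool.Agent.Lib.MP_13801a_an.BlowAll
import Pool.Agent.Lib.MP_13801a_an.PosA

/-!
No global solution for any positive value of the forcing parameter.
-/

open MeasureTheory Set Filter

namespace Pool.Agent.Lib.MP_13801a_an.Blow

variable {N : ℕ}

theorem positive {α : ℝ} (hN : 1 ≤ N) (h1 : 4 / (N : ℝ) < α) (h2 : 3 ≤ N → α < 4 / ((N : ℝ) - 2))
    (u0 : E N → ℂ) (du0 : Fin N → E N → ℂ) (h : InH1 u0 du0) (hne : ¬ AeEq u0 0) (γ : ℝ)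
    (hγ : 0 < γ) :
    ¬ ∃ (u : ℝ → E N → ℂ) (du : ℝ → Fin N → E N → ℂ), GlobalSol α γ u du ∧ AeEq (u 0) u0 := by
  rintro ⟨u, du, hG, he⟩
  obtain ⟨hlo, hhi⟩ := ND.range_exp hN h1 h2
  have hN' : (0 : ℝ) < N := by exact_mod_cast hN
  have hα : 0 < α := lt_trans (by positivity) h1
  have hS : ND.Sub N α := ⟨hN, hα, hhi⟩
  obtain ⟨v, dv, hv, e0, -⟩ := ND.TRANS N α γ _ _ hα (sol_toLp hG)
  have e1 := init_toLp hG h.1 he
  obtain ⟨t, ht, hen⟩ := ND.Pos.neg_energy ND.a_BASIC ND.a_ENER ND.a_LMASS ND.FLU hS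
    (mul_pos hα hγ) hv fun q => hne (by
      have e2 : v 0 = fun x => (MemLp.toLp u0 h.1) x := funext fun x => by rw [e0 x, e1]
      rw [e2] at q
      exact (MemLp.coeFn_toLp h.1).symm.trans q)
  exact ND.FIN ND.a_BASIC ND.a_ENER ND.a_MONO ND.a_LMASS ND.a_WIN ND.a_MWIN N α (α * γ) v dv hlo hS
    (mul_pos hα hγ).le hv t ht hen

end Pool.Agent.Lib.MP_13801a_an.Blow
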