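import Mathlib
import Pool.Agent.Lib.MP_13801a_an.Sts

/-!
Continuous representatives of Sobolev functions on the line.
-/

open MeasureTheory Set Filter
open scoped ContDiff Topology ComplexConjugate

namespace Pool.Agent.Lib.MP_13801a_an

theorem REP_unit {h : ℝ → ℂ} (hh : MemLp h 2 volume) (x : ℝ) :
    (∫ z in x..(x + 1), ‖h z‖) ^ 2 ≤ nsq h := by
  have hi : MemLp ((Ioc x (x + 1)).indicator fun _ => (1 : ℂ)) 2 volume :=
    memLp_indicator_const 2 measurableSet_Ioc 1 (Or.inr (by simp))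
  have h1 := integral_norm_mul_le hh hi
  have h2 : nsq ((Ioc x (x + 1)).indicator fun _ => (1 : ℂ)) = 1 := by
    have : (fun z => ‖(Ioc x (x + 1)).indicator (fun _ => (1 : ℂ)) z‖ ^ 2) =
        (Ioc x (x + 1)).indicator fun _ => (1 : ℝ) := by
      funext z
      by_cases hz : z ∈ Ioc x (x + 1) <;> simp [hz]
    rw [nsq, this, integral_indicator measurableSet_Ioc]
    simp
  have h3 : (fun z => ‖h z‖ * ‖(Ioc x (x + 1)).indicator (fun _ => (1 : ℂ)) z‖) =
      (Ioc x (x + 1)).indicator fun z => ‖h z‖ := by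
    funext z
    by_cases hz : z ∈ Ioc x (x + 1) <;> simp [hz]
  rw [h2, h3, integral_indicator measurableSet_Ioc, Real.sqrt_one, mul_one,
    ← intervalIntegral.integral_of_le (by linarith)] at h1
  have h4 : 0 ≤ ∫ z in x..(x + 1), ‖h z‖ :=
    intervalIntegral.integral_nonneg (by linarith) fun _ _ => norm_nonneg _
  calc _ ≤ √(nsq h) ^ 2 := by gcongr
    _ = nsq h := Real.sq_sqrt (nsq_nonneg h)

theorem REP_cont {g dg : ℝ → ℂ} (hi : ∀ x y, IntervalIntegrable dg volume x y)
    (hp : ∀ x y, g y - g x = ∫ z in x..y, dg z) : Continuous g := by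
  have : g = fun y => g 0 + ∫ z in (0 : ℝ)..y, dg z := by
    funext y; rw [← hp]; ring
  rw [this]
  exact continuous_const.add (intervalIntegral.continuous_primitive hi 0)

theorem SUP : St_SUP := by
  intro g dg h
  have hi := ii_of_memLp h.mem1
  refine ⟨REP_cont hi h.prim, fun x => ?_⟩
  have hx : x ≤ x + 1 := by linarith
  have h1 : ∀ y ∈ Icc x (x + 1), ‖g x‖ ≤ ‖g y‖ + ∫ z in x..(x + 1), ‖dg z‖ := fun y hy => by
    have e : g x = g y - ∫ z in x..y, dg z := by rw [← h.prim]; ring
    have h2 : ‖∫ z in x..y, dg z‖ ≤ ∫ z in x..y, ‖dg z‖ :=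
      intervalIntegral.norm_integral_le_integral_norm hy.1
    have h3 : ∫ z in x..y, ‖dg z‖ ≤ ∫ z in x..(x + 1), ‖dg z‖ :=
      intervalIntegral.integral_mono_interval le_rfl hy.1 hy.2
        (Eventually.of_forall fun _ => norm_nonneg _) (hi _ _).norm
    rw [e]
    exact (norm_sub_le _ _).trans (by linarith)
  have h2 := intervalIntegral.integral_mono_on hx (intervalIntegrable_const (c := ‖g x‖))
    ((ii_of_memLp h.mem0 x (x + 1)).norm.add intervalIntegrable_const) h1
  rw [intervalIntegral.integral_add (ii_of_memLp h.mem0 x (x + 1)).norm intervalIntegrable_const]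
    at h2
  simp only [intervalIntegral.integral_const, add_sub_cancel_left, one_smul] at h2
  have h3 := REP_unit h.mem0 x
  have h4 := REP_unit h.mem1 x
  have h5 : ‖g x‖ ^ 2 ≤ ((∫ z in x..(x + 1), ‖g z‖) + ∫ z in x..(x + 1), ‖dg z‖) ^ 2 := by
    gcongr
  nlinarith [sq_nonneg ((∫ z in x..(x + 1), ‖g z‖) - ∫ z in x..(x + 1), ‖dg z‖)]

theorem REP_supp {φ : ℝ → ℝ} (h : HasCompactSupport φ) :
    ∃ R : ℝ, 0 < R ∧ tsupport φ ⊆ Ioo (-R) R := by
  obtain ⟨R, hR, h⟩ := h.isCompact.isBounded.subset_ball_lt 0 0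
  refine ⟨R, hR, h.trans ?_⟩
  rw [Real.ball_eq_Ioo]; simp

theorem REP_int {φ : ℝ → ℝ} (h : Test φ) : Integrable fun x => ((φ x : ℝ) : ℂ) :=
  (h.1.continuous.integrable_of_hasCompactSupport h.2).ofReal

theorem IBP : St_IBP := by
  intro g dg hi hp φ hφ
  obtain ⟨R, hR, hs⟩ := REP_supp hφ.2
  have h1 : ContDiff ℝ 1 φ := hφ.1.of_le (by simp)
  set h : ℝ → ℂ := (Ioc (-R) R).indicator dg with hh
  have hint : Integrable h :=
    (integrable_indicator_iff measurableSet_Ioc).2 (hi (-R) R).1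
  have hF : Integrable (Function.uncurry fun x z : ℝ => {p : ℝ × ℝ | p.2 < p.1}.indicator
      (fun p => ((deriv φ p.1 : ℝ) : ℂ) * h p.2) (x, z)) (volume.prod volume) :=
    ((REP_int hφ.deriv).mul_prod hint).indicator (measurableSet_lt measurable_snd measurable_fst)
  have hswap := integral_integral_swap hF
  have e1 : ∀ x : ℝ, ∫ z, {p : ℝ × ℝ | p.2 < p.1}.indicator
      (fun p => ((deriv φ p.1 : ℝ) : ℂ) * h p.2) (x, z) =
      g x * ((deriv φ x : ℝ) : ℂ) - g (-R) * ((deriv φ x : ℝ) : ℂ) := fun x => by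
    by_cases hx : deriv φ x = 0
    · simp [indicator, hx]
    have hx' := hs (support_deriv_subset hx)
    have : (fun z => {p : ℝ × ℝ | p.2 < p.1}.indicator
        (fun p => ((deriv φ p.1 : ℝ) : ℂ) * h p.2) (x, z)) =
        fun z => ((deriv φ x : ℝ) : ℂ) * (Ioo (-R) x).indicator dg z := by
      funext z
      by_cases hz : z < x
      · by_cases hz' : -R < z
        · simp [hh, indicator, hz, hz', (hz.trans hx'.2).le]
        · simp [hh, indicator, hz']
      · simp [indicator, hz]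
    rw [this, integral_const_mul, integral_indicator measurableSet_Ioo,
      ← integral_Ioc_eq_integral_Ioo, ← intervalIntegral.integral_of_le hx'.1.le, ← hp]
    ring
  have e2 : ∀ z : ℝ, ∫ x, {p : ℝ × ℝ | p.2 < p.1}.indicator
      (fun p => ((deriv φ p.1 : ℝ) : ℂ) * h p.2) (x, z) = -(dg z * ((φ z : ℝ) : ℂ)) := fun z => by
    have : (fun x => {p : ℝ × ℝ | p.2 < p.1}.indicator
        (fun p => ((deriv φ p.1 : ℝ) : ℂ) * h p.2) (x, z)) =
        fun x => (Ioi z).indicator (fun x => ((deriv φ x : ℝ) : ℂ)) x * h z := by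
      funext x
      by_cases hx : z < x <;> simp [indicator, hx]
    rw [this, integral_mul_const, integral_indicator measurableSet_Ioi, integral_complex_ofReal,
      hφ.2.integral_Ioi_deriv_eq h1]
    by_cases hz : φ z = 0
    · simp [hz]
    have hz' := hs (subset_tsupport _ hz)
    simp [hh, hz'.1, hz'.2.le, mul_comm]
  have hg : Integrable fun x => g x * ((deriv φ x : ℝ) : ℂ) :=
    ((REP_cont hi hp).mul
      (Complex.continuous_ofReal.comp hφ.deriv.1.continuous)).integrable_of_hasCompactSupport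
      (HasCompactSupport.mul_left (hφ.deriv.2.comp_left (g := fun t : ℝ => (t : ℂ)) rfl))
  have e3 : ∫ x, deriv φ x = 0 := by
    have := integral_add_compl (μ := volume) (measurableSet_Iic (a := (0 : ℝ)))
      (hφ.deriv.1.continuous.integrable_of_hasCompactSupport hφ.deriv.2)
    rw [compl_Iic, hφ.2.integral_Iic_deriv_eq h1, hφ.2.integral_Ioi_deriv_eq h1] at this
    rw [← this]; ring
  simp only [e1, e2] at hswap
  rw [integral_sub hg ((REP_int hφ.deriv).const_mul _), integral_const_mul, integral_complex_ofReal, e3,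
    integral_neg] at hswap
  simpa using hswap

theorem REP_mul {w : ℝ → ℂ} (hw : LocallyIntegrable w) {φ : ℝ → ℝ} (hφ : Test φ) :
    Integrable fun x => w x * ((φ x : ℝ) : ℂ) := by
  have := hw.integrable_smul_left_of_hasCompactSupport hφ.1.continuous hφ.2
  simpa [mul_comm] using this

theorem REP_prim {ψ : ℝ → ℝ} (hψ : Test ψ) (h0 : ∫ x, ψ x = 0) :
    ∃ Ψ, Test Ψ ∧ deriv Ψ = ψ := by
  obtain ⟨R, hR, hs⟩ := REP_supp hψ.2
  have hc := hψ.1.continuous
  have hd : ∀ x, HasDerivAt (fun y => ∫ z in (-R)..y, ψ z) (ψ x) x := fun x =>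
    (hc.integral_hasStrictDerivAt (-R) x).hasDerivAt
  have he : deriv (fun y => ∫ z in (-R)..y, ψ z) = ψ := funext fun x => (hd x).deriv
  refine ⟨fun y => ∫ z in (-R)..y, ψ z, ⟨?_, ?_⟩, he⟩
  · rw [contDiff_infty_iff_deriv, he]
    exact ⟨fun x => (hd x).differentiableAt, hψ.1⟩
  · refine HasCompactSupport.intro (isCompact_Icc (a := -R) (b := R)) fun x hx => ?_
    have hz : ∀ z, z ∉ Ioo (-R) R → ψ z = 0 := fun z hz =>
      image_eq_zero_of_notMem_tsupport fun h => hz (hs h)
    rcases le_total x (-R) with h | h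
    · rw [intervalIntegral.integral_symm, intervalIntegral.integral_of_le h,
        setIntegral_eq_zero_of_forall_eq_zero fun z hz' => hz z fun h' => not_lt.2 hz'.2 h'.1,
        neg_zero]
    · have hx' : R < x := not_le.1 fun h' => hx ⟨h, h'⟩
      rw [intervalIntegral.integral_eq_integral_of_support_subset, h0]
      intro z hz'
      have := hs (subset_tsupport _ hz')
      exact ⟨this.1, (this.2.trans hx').le⟩

theorem REP_const {w : ℝ → ℂ} (hw : LocallyIntegrable w)
    (h : ∀ φ, Test φ → ∫ x, w x * ((deriv φ x : ℝ) : ℂ) = 0) : ∃ c, ∀ᵐ x, w x = c := by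
  have hθ : Test (bmp.normed volume) := ⟨bmp.contDiff_normed, bmp.hasCompactSupport_normed⟩
  refine ⟨∫ x, w x * ((bmp.normed volume x : ℝ) : ℂ), ?_⟩
  refine ae_eq_of_integral_contDiff_smul_eq hw (locallyIntegrable_const _) fun φ h1 h2 => ?_
  have hφ : Test φ := ⟨h1, h2⟩
  have hi : Integrable φ := h1.continuous.integrable_of_hasCompactSupport h2
  obtain ⟨Ψ, hΨ, he⟩ := REP_prim (ψ := fun x => φ x - (∫ y, φ y) * bmp.normed volume x)
    ⟨h1.sub (contDiff_const.mul hθ.1), h2.sub hθ.2.mul_left⟩ (by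
      rw [integral_sub hi (bmp.integrable_normed.const_mul _), integral_const_mul,
        bmp.integral_normed]
      ring)
  have h3 := h Ψ hΨ
  rw [he] at h3
  have e : (fun x => w x * ((φ x - (∫ y, φ y) * bmp.normed volume x : ℝ) : ℂ)) =
      fun x => w x * ((φ x : ℝ) : ℂ) -
        ((∫ y, φ y : ℝ) : ℂ) * (w x * ((bmp.normed volume x : ℝ) : ℂ)) := by
    funext x; push_cast; ring
  rw [e, integral_sub (REP_mul hw hφ) ((REP_mul hw hθ).const_mul _), integral_const_mul,
    sub_eq_zero] at h3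
  rw [integral_smul_const]
  simpa [mul_comm] using h3

theorem REP (h1 : St_IBP) : St_REP := by
  refine ⟨fun u du h => ?_, fun u du du' h h' => ?_⟩
  · have hi := ii_of_memLp (Lp.memLp du)
    have hp : ∀ x y : ℝ, (∫ z in (0 : ℝ)..y, du z) - ∫ z in (0 : ℝ)..x, du z =
        ∫ z in x..y, du z := fun x y => intervalIntegral.integral_interval_sub_left (hi _ _) (hi _ _)
    have hD : LocallyIntegrable fun y => ∫ z in (0 : ℝ)..y, du z :=
      (intervalIntegral.continuous_primitive hi 0).locallyIntegrable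
    have hu : LocallyIntegrable u := (Lp.memLp u).locallyIntegrable (by norm_num)
    obtain ⟨c, hc⟩ := REP_const (w := fun y => u y - ∫ z in (0 : ℝ)..y, du z) (hu.sub hD)
      fun φ hφ => by
        simp only [sub_mul]
        rw [integral_sub (REP_mul hu hφ.deriv) (REP_mul hD hφ.deriv), h φ hφ,
          h1 _ du hi hp φ hφ, sub_self]
    have he : (fun y => (∫ z in (0 : ℝ)..y, du z) + c) =ᵐ[volume] u := by
      filter_upwards [hc] with y hy
      rw [← hy]; ring
    refine ⟨_, ⟨(Lp.memLp u).ae_eq he.symm, Lp.memLp du, fun x y => ?_⟩, he⟩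
    rw [← hp x y]; ring
  · refine Lp.ext (ae_eq_of_integral_contDiff_smul_eq
      ((Lp.memLp du).locallyIntegrable (by norm_num))
      ((Lp.memLp du').locallyIntegrable (by norm_num)) fun φ h2 h3 => ?_)
    have := (h φ ⟨h2, h3⟩).symm.trans (h' φ ⟨h2, h3⟩)
    simpa [mul_comm] using this

end Pool.Agent.Lib.MP_13801a_an
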